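import Pool.Agent.NH67.RX.Stm

/-!
# RX-20: assembly
-/

set_option autoImplicit false

open MeasureTheory Set Filter Topology

namespace Pool.Agent.NH67.RX

theorem t_ASM : S_ASM := by
  intro hB hL hub hdual hlow
  refine ⟨fun u hu => ?_, fun p hp => ?_⟩
  · obtain ⟨w, hw⟩ := hL.cos_ex u hu
    obtain ⟨v, hv⟩ := hL.sin_ex w hw.right
    refine ⟨v, ⟨w, hw, hv⟩, ?_⟩
    rintro v' ⟨w', hw', hv'⟩
    have h1 : w' =ᵐ[hl] w := hL.cos_uniq u w w' hw hw'
    have h2 : IsSin w v' := hL.sin_ae w' v' w v' hv' h1 (EventuallyEq.refl _ _)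
    exact hL.sin_uniq w v v' hv h2
  · have hroot : ∀ q C : ℝ, 2 ≤ q → 0 ≤ C → BB q ≤ C ^ q → BB q ^ (1 / q) ≤ C := by
      intro q C hq hC h
      have hq0 : 0 < q := by linarith
      have h1 := Real.rpow_le_rpow (hB.pos q hq).le h (by positivity : (0 : ℝ) ≤ 1 / q)
      rwa [← Real.rpow_mul hC, mul_one_div_cancel hq0.ne', Real.rpow_one] at h1
    rcases le_or_gt 2 p with h2 | h2
    · have hm : max p (p / (p - 1)) = p := by
        apply max_eq_left
        rw [div_le_iff₀ (by linarith)]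
        nlinarith
      rw [CC, hm]
      refine ⟨⟨Real.rpow_nonneg (hB.pos p h2).le _, (hub p h2).1⟩, ?_⟩
      rintro C ⟨hC, hbd⟩
      exact hroot p C h2 hC (hlow p C h2 hC (Or.inl hbd))
    · have hp1 : 0 < p - 1 := by linarith
      have hq : 2 ≤ p / (p - 1) := by
        rw [le_div_iff₀ hp1]
        linarith
      have hm : max p (p / (p - 1)) = p / (p - 1) := by
        apply max_eq_right
        linarith
      have hconj : 1 / p + 1 / (p / (p - 1)) = 1 := by
        have : p ≠ 0 := by linarith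
        field_simp
        ring
      rw [CC, hm]
      have hc0 : 0 ≤ BB (p / (p - 1)) ^ (1 / (p / (p - 1))) :=
        Real.rpow_nonneg (hB.pos _ hq).le _
      refine ⟨⟨hc0, ?_⟩, ?_⟩
      · exact (hdual hL (p / (p - 1)) p _ (by linarith) hp (by rw [add_comm]; exact hconj) hc0).2
          (hub _ hq).2
      · rintro C ⟨hC, hbd⟩
        have := (hdual hL p (p / (p - 1)) C hp (by linarith) hconj hC).1 hbd
        exact hroot _ C hq hC (hlow _ C hq hC (Or.inr this))

end Pool.Agent.NH67.RX
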