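import Mathlib

/-!
# The norm of `I - Π` on `L ^ p (0, ∞)`, `Π = F_s F_c` the re-expansion operator: statements

Project RX (problem MP_7477de_an). Result: for `1 < p < ∞` and `q = max p (p / (p - 1))`,
`‖I - Π‖_p ^ q = max_x (|cos x - sin x| ^ q + |cos y - sin y| ^ q) / (|cos x| ^ q + |cos y| ^ q)`,
`y = x + π / q`. Upper bound for `p ≥ 2`: the pairs `(u, Π u)` are boundary values of functions `f`
holomorphic in the quarter plane and real on the imaginary axis; a minorant `r ^ p ψ(θ)` of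
`BB r ^ p |cos θ| ^ p - r ^ p |cos θ - sin θ| ^ p` with `ψ'' + p ^ 2 ψ ≥ 0`, `ψ'(0) ≥ 0` has a nonnegative
integral along the positive real axis (Green's formula with the harmonic function `y`).
-/

set_option autoImplicit false

open MeasureTheory Set Filter Topology

namespace Pool.Agent.NH67.RX

/-! ### Definitions -/

/-- Lebesgue measure on the half-line `(0, ∞)` -/
noncomputable abbrev hl : Measure ℝ := volume.restrict (Ioi 0)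

/-- the cosine transform of an integrable function on `(0, ∞)` -/
noncomputable def cosT (φ : ℝ → ℂ) (x : ℝ) : ℂ :=
  (√(2 / Real.pi) : ℝ) * ∫ t in Ioi (0 : ℝ), (Real.cos (x * t) : ℂ) * φ t

/-- the sine transform of an integrable function on `(0, ∞)` -/
noncomputable def sinT (φ : ℝ → ℂ) (x : ℝ) : ℂ :=
  (√(2 / Real.pi) : ℝ) * ∫ t in Ioi (0 : ℝ), (Real.sin (x * t) : ℂ) * φ t

/-- `w` is the cosine transform of `u` in `L ^ 2 (0, ∞)` (the transform is extended from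
`L ^ 1 ∩ L ^ 2` by duality; it is symmetric) -/
structure IsCos (u w : ℝ → ℂ) : Prop where
  left : MemLp u 2 hl
  right : MemLp w 2 hl
  eq : ∀ φ : ℝ → ℂ, MemLp φ 1 hl → MemLp φ 2 hl →
    ∫ x in Ioi (0 : ℝ), w x * φ x = ∫ x in Ioi (0 : ℝ), u x * cosT φ x

/-- `w` is the sine transform of `u` in `L ^ 2 (0, ∞)` -/
structure IsSin (u w : ℝ → ℂ) : Prop where
  left : MemLp u 2 hl
  right : MemLp w 2 hl
  eq : ∀ φ : ℝ → ℂ, MemLp φ 1 hl → MemLp φ 2 hl →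
    ∫ x in Ioi (0 : ℝ), w x * φ x = ∫ x in Ioi (0 : ℝ), u x * sinT φ x

/-- `v = Π u`, `Π = F_s F_c` -/
def IsPi (u v : ℝ → ℂ) : Prop := ∃ w, IsCos u w ∧ IsSin w v

/-- `v = Π^* u`, `Π^* = F_c F_s` -/
def IsPi' (u v : ℝ → ℂ) : Prop := ∃ w, IsSin u w ∧ IsCos w v

/-- the quotient to be maximised -/
noncomputable def ratio (q x : ℝ) : ℝ :=
  (|Real.cos x - Real.sin x| ^ q + |Real.cos (x + Real.pi / q) - Real.sin (x + Real.pi / q)| ^ q) /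
    (|Real.cos x| ^ q + |Real.cos (x + Real.pi / q)| ^ q)

/-- the maximum -/
noncomputable def BB (q : ℝ) : ℝ := ⨆ x : ℝ, ratio q x

/-- the norm -/
noncomputable def CC (p : ℝ) : ℝ := BB (max p (p / (p - 1))) ^ (1 / max p (p / (p - 1)))

/-- `‖u - v‖_p ≤ C ‖u‖_p` for all pairs `(u, v)` in the relation `T`, `u ∈ L ^ p` -/
def Bd (T : (ℝ → ℂ) → (ℝ → ℂ) → Prop) (p C : ℝ) : Prop :=
  ∀ u v, T u v → MemLp u (ENNReal.ofReal p) hl →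
    eLpNorm (u - v) (ENNReal.ofReal p) hl ≤ ENNReal.ofReal C * eLpNorm u (ENNReal.ofReal p) hl

/-- FINAL: existence and uniqueness of `Π u`, `u ∈ L ^ 2`; the norm of `I - Π` on `L ^ p`. -/
def S_FINAL : Prop :=
  (∀ u, MemLp u 2 hl → ∃ v, IsPi u v ∧ ∀ v', IsPi u v' → v' =ᵐ[hl] v) ∧
  ∀ p : ℝ, 1 < p → IsLeast {C : ℝ | 0 ≤ C ∧ Bd IsPi p C} (CC p)

/-! ### The constant and the minorant -/

/-- RX-1. Simple facts on `ratio`, `BB`, `q ≥ 2`.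
Proof. `cos x` and `cos (x + π / q)` are not both `0` (`sin (π / q) ≠ 0`), so the denominator is positive
and `ratio q` is continuous; it is periodic with period `π`; so it is bounded and attains its
supremum on `[0, π]`. For `q = 2` the denominator is `1` and the numerator is
`(1 - sin 2x) + (1 + sin 2x) = 2`. `one_le`: take `x = 0`: the numerator is
`1 + |cos (π/q) - sin (π/q)| ^ q`; in general use `x = -π/(2q)`: the denominator is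
`2 cos (π/2q) ^ q`, the numerator at least `(cos (π/2q) + sin (π/2q)) ^ q ≥ ...`; any proof of
`0 < BB q` is enough (`x = 0`). -/
structure S_BB : Prop where
  den_pos : ∀ q x : ℝ, 2 ≤ q → 0 < |Real.cos x| ^ q + |Real.cos (x + Real.pi / q)| ^ q
  le : ∀ q x : ℝ, 2 ≤ q → ratio q x ≤ BB q
  attained : ∀ q : ℝ, 2 ≤ q → ∃ x, ratio q x = BB q
  two : BB 2 = 2
  pos : ∀ q : ℝ, 2 ≤ q → 0 < BB q

/-- the function `BB |cos| ^ p - |cos - sin| ^ p` -/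
noncomputable def phi (p θ : ℝ) : ℝ :=
  BB p * |Real.cos θ| ^ p - |Real.cos θ - Real.sin θ| ^ p

/-- its derivative -/
noncomputable def phi1 (p θ : ℝ) : ℝ :=
  p * |Real.cos θ - Real.sin θ| ^ (p - 2) * (Real.cos θ - Real.sin θ) *
      (Real.cos θ + Real.sin θ) -
    p * BB p * |Real.cos θ| ^ (p - 2) * Real.cos θ * Real.sin θ

/-- `phi'' + p ^ 2 phi` -/
noncomputable def kap (p θ : ℝ) : ℝ :=
  p * (p - 1) * (BB p * |Real.cos θ| ^ (p - 2) - 2 * |Real.cos θ - Real.sin θ| ^ (p - 2))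

/-- RX-2. The derivatives of `phi`. Proof: for `p > 2` the function `|x| ^ p` has the derivative
`p |x| ^ (p - 2) x` and `|x| ^ (p - 2) x` has the derivative `(p - 1) |x| ^ (p - 2)` (also at `0`);
then the chain rule, `cos ^ 2 + sin ^ 2 = 1`, `(cos + sin) ^ 2 + (cos - sin) ^ 2 = 2` and
`|x| ^ (p - 2) * x ^ 2 = |x| ^ p`. -/
def S_PHI : Prop := ∀ p : ℝ, 2 < p →
  (∀ θ, HasDerivAt (phi p) (phi1 p θ) θ) ∧
  (∀ θ, HasDerivAt (phi1 p) (kap p θ - p ^ 2 * phi p θ) θ) ∧ Continuous (kap p)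

/-- RX-3. The tangent sinusoid `σ(θ) = P cos (p (θ - π/2)) + Q sin (p (θ - π/2))`.

Proof. Write `φ = phi p`, `κ = kap p`, `B = BB p > 0`. By S_BB `φ(x) + φ(x + π/p) ≥ 0` for all `x`, with
equality for some `x`; these functions are `π`-periodic. `κ ≥ 0` iff
`2 |cos - sin| ^ (p - 2) ≤ B |cos| ^ (p - 2)`; with `R = (B / 2) ^ (1 / (p - 2))` and
`β' = arctan (1 - R)`, `α = arctan (1 + R)`: on `[β', α]` `κ ≥ 0`, with `κ > 0` inside, and on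
`(α, β' + π)` `κ < 0`. Choose `x₀ ∈ [β', β' + π)` with `φ(x₀) + φ(x₀ + π/p) = 0`; let
`x₁ = x₀ + π/p`. It is a minimum of `φ(x) + φ(x + π/p)`, so `φ'(x₀) + φ'(x₁) = 0` and
`φ''(x₀) + φ''(x₁) ≥ 0`, hence `κ(x₀) + κ(x₁) ≥ 0`. Let `σ` be the sinusoid (`σ'' = - p ^ 2 σ`) with
`σ(x₀) = φ(x₀)`, `σ'(x₀) = φ'(x₀)`; as `σ(θ + π/p) = - σ(θ)` also `σ(x₁) = φ(x₁)`,
`σ'(x₁) = φ'(x₁)`. Let `δ = φ - σ`; `δ'' + p ^ 2 δ = κ`, and `δ = δ' = 0` at `x₀`, `x₁`. For every `c`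
the function `W_c = δ' sin (p (θ - c)) - p δ cos (p (θ - c))` has the derivative
`κ sin (p (θ - c))` and vanishes at `x₀` and `x₁`.
Case 1: `x₀ ≤ α`. (1a) `x₁ ≤ α`: `κ ≥ 0` on `[x₀, x₁]`, and `W_{x₀}` is monotone with equal values at
the ends, so constant, contradiction to `κ > 0` inside. (1b) `α < x₁ < β' + π`:
`κ sin (p (θ - α)) ≤ 0` on `[x₀, x₁]`, so `W_α` is constant, contradiction. So (1c)
`β := β' + π ≤ x₁`.
Case 2: `α < x₀ < β`: `κ(x₀) < 0`, so `κ(x₁) > 0`, so `β < x₁ < α + π`; `W_β` is monotone as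
`κ sin (p (θ - β)) ≥ 0` on `[x₀, x₁]`, contradiction.
So `x₀ ≤ α < π/2 < β ≤ x₁`, `x₀ > π/2 - π/p > 0`, `x₁ < π/2 + π/p < π`, and `κ ≥ 0` on
`[x₁ - π, x₀] ⊆ [β', α]`. `σ ≤ φ` on `[x₀, x₁]`: on `[x₀, α]` the function `δ` is `≥ 0`, since
`p δ(θ) = ∫ κ(s) sin (p (θ - s))` over `[x₀, θ]` (or: `δ / sin (p (θ - x₀))` has the derivative
`W_{x₀} / sin ^ 2 ≥ 0` and the limit `0` at `x₀`); the same on `[β, x₁]`. On `[α, β]`, `κ ≤ 0`,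
`δ(α), δ(β) ≥ 0` and `β - α < π/p`; `g = δ / sin (p (θ - a))`, with `a` slightly less than `α`... or: if the
minimum of `δ(θ) / sin (p (θ - x₀))` on `[α, β]` were negative it would be at an interior point `θ'`
where `W_{x₀}(θ') = 0`; but `W_{x₀}` is nonincreasing on `[α, β]`, `≥ 0` at `α` and
`≥ 0` at `β` (it is nondecreasing on `[β, x₁]`... ), so `δ / sin` is first nondecreasing and then
nonincreasing, its minimum is at an end point. (Simplest: `W_{x₀}` has the derivative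
`κ sin (p (θ - x₀))` with the signs `+, -, +` and the value `0` at both ends, so it is `≥ 0` on
`[x₀, c]` and `≤ 0` on `[c, x₁]` for some `c`; hence `δ / sin (p (θ - x₀))` is increasing on
`(x₀, c]`, decreasing on `[c, x₁)`, with the limits `0` at both ends.)
`Q ≤ 0`: let `t₀ = π/2 - x₀`, `t₁ = x₁ - π/2`, positive, `t₀ + t₁ = π/p < π/2`. As
`φ(π/2 ∓ t) = B |sin t| ^ p - |cos t ∓ sin t| ^ p`, the inequality
`φ(π/2 - t₁) + φ(π/2 + t₀) ≥ 0 = φ(π/2 - t₀) + φ(π/2 + t₁)` gives `d(t₀) ≤ d(t₁)`,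
`d(t) = (cos t + sin t) ^ p - |cos t - sin t| ^ p`, which on `[0, π/2]` is a decreasing function of
`|t - π/4|` (`cos t + sin t = √2 cos (t - π/4)`, `|cos t - sin t| = √2 |sin (t - π/4)|`). So
`|t₀ - π/4| ≥ |t₁ - π/4|`, and as `t₀ + t₁ < π/2`, `t₀ ≤ t₁`. So `π/2 + t₀ ∈ [x₀, x₁]` and
`2 Q sin (p t₀) = σ(π/2 + t₀) - σ(π/2 - t₀) ≤ φ(π/2 + t₀) - φ(π/2 - t₀) ≤ 0`. -/
def S_SIG : Prop := ∀ p : ℝ, 2 < p → ∃ (x₀ x₁ P Q : ℝ),
  0 < x₀ ∧ x₀ < Real.pi / 2 ∧ Real.pi / 2 < x₁ ∧ x₁ < Real.pi ∧ Q ≤ 0 ∧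
  (∀ x ∈ ({x₀, x₁} : Set ℝ),
    phi p x = P * Real.cos (p * (x - Real.pi / 2)) + Q * Real.sin (p * (x - Real.pi / 2)) ∧
    phi1 p x = p * (Q * Real.cos (p * (x - Real.pi / 2)) - P * Real.sin (p * (x - Real.pi / 2)))) ∧
  (∀ x ∈ Icc x₀ x₁,
    P * Real.cos (p * (x - Real.pi / 2)) + Q * Real.sin (p * (x - Real.pi / 2)) ≤ phi p x) ∧
  (∀ x ∈ Icc (x₁ - Real.pi) x₀, 0 ≤ kap p x)

/-- the data of a smooth minorant: `ψ'' + p ^ 2 ψ ≥ 0`, period `π`, `ψ'(0) ≥ 0` -/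
structure Trig (p : ℝ) (ψ ψ1 ψ2 : ℝ → ℝ) : Prop where
  d1 : ∀ θ, HasDerivAt ψ (ψ1 θ) θ
  d2 : ∀ θ, HasDerivAt ψ1 (ψ2 θ) θ
  cont : Continuous ψ2
  per : ∀ θ, ψ (θ + Real.pi) = ψ θ
  convex : ∀ θ, 0 ≤ ψ2 θ + p ^ 2 * ψ θ
  zero : 0 ≤ ψ1 0

/-- RX-4. The smooth minorant.

Proof from S_SIG, S_PHI. Let `σ` be the sinusoid of S_SIG, `b(θ) = φ(θ) - σ(θ)` for `θ ∈ [x₀, x₁]` and `0`
otherwise; it is a `C ^ 1` function with support in `[x₀, x₁] ⊆ (0, π)`; let `b'` be its derivative and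
let `b~`, `b~'` be the `π`-periodic functions which agree with `b`, `b'` on `[0, π)`
(`toIcoMod`, or a locally finite sum). `ψ₀ = φ - b~` is `C ^ 1`, `π`-periodic,
`ψ₀ ≤ φ`. The function `K(θ) = ψ₀'(θ) + p ^ 2 ∫_0^θ ψ₀` is continuous and nondecreasing (its
derivative is `κ ≥ 0` on the intervals where `ψ₀ = φ` and `0` where `ψ₀ = σ`). For a small `h > 0` let
`ψ(θ) = (1 / 2h) ∫_{θ-h}^{θ+h} ψ₀`, `ψ1(θ) = (ψ₀(θ+h) - ψ₀(θ-h)) / 2h`,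
`ψ2(θ) = (ψ₀'(θ+h) - ψ₀'(θ-h)) / 2h`; `ψ2 + p ^ 2 ψ = (K(θ+h) - K(θ-h)) / 2h ≥ 0`, and
`|ψ - ψ₀| ≤ ε` for small `h` (uniform continuity). If `h < x₀, π - x₁`:
`ψ1(0) = (φ(h) - φ(-h)) / 2h ≥ 0`, since `φ(h) - φ(-h) = |cos h + sin h| ^ p - |cos h - sin h| ^ p`. If
`h < π/2 - x₀, x₁ - π/2, π/p`: `ψ1(π/2) = (σ(π/2+h) - σ(π/2-h)) / 2h = Q sin (p h) / h ≤ 0`. -/
def S_MIN : Prop := ∀ p ε : ℝ, 2 < p → 0 < ε → ∃ ψ ψ1 ψ2 : ℝ → ℝ, Trig p ψ ψ1 ψ2 ∧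
  ψ1 (Real.pi / 2) ≤ 0 ∧ ∀ θ, ψ θ ≤ phi p θ + ε

/-! ### The integral inequality for holomorphic functions -/

/-- holomorphic in a neighbourhood of the closed upper half-plane, real on the imaginary axis, with
decay at infinity -/
structure Nice (f : ℂ → ℂ) : Prop where
  diff : ∃ ε : ℝ, 0 < ε ∧ DifferentiableOn ℂ f {z | -ε < z.im}
  real : ∀ y : ℝ, 0 ≤ y → (f (y * Complex.I)).im = 0
  dec : ∃ C : ℝ, ∀ z : ℂ, 0 ≤ z.im → ‖f z‖ ≤ C / (1 + ‖z‖) ∧ ‖deriv f z‖ ≤ C / (1 + ‖z‖) ^ 2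

/-- the function `|f| ^ p ψ(arg f)` -/
noncomputable def VV (p : ℝ) (ψ : ℝ → ℝ) (f : ℂ → ℂ) (z : ℂ) : ℝ :=
  ‖f z‖ ^ p * ψ (Complex.arg (f z))

/-- its complex derivative `V_x - i V_y` -/
noncomputable def DD (p : ℝ) (ψ ψ1 : ℝ → ℝ) (f : ℂ → ℂ) (z : ℂ) : ℂ :=
  ((‖f z‖ ^ p : ℝ) : ℂ) * (deriv f z / f z) *
    ((p * ψ (Complex.arg (f z)) : ℝ) - Complex.I * (ψ1 (Complex.arg (f z)) : ℝ))

/-- RX-5. Derivatives of `VV`, `DD` at points where `f ≠ 0`.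

Proof. `VV p ψ (-f) = VV p ψ f` and `DD p ψ ψ1 (-f) = DD p ψ ψ1 f`, since `arg (-w) = arg w ± π` for `w ≠ 0`
and `ψ`, `ψ1` have period `π` (the period of `ψ1` follows by differentiation); so one may assume
that `f z` is in the slit plane. Near `z` let `w = log f`, holomorphic, `w' = f' / f`,
`V = exp (p Re w) ψ(Im w)`; `dV(h) = exp (p Re w) (p ψ Re (w' h) + ψ1 Im (w' h)) = Re (D h)`. The same
for `D = exp (p Re w) w' (p ψ(Im w) - i ψ1(Im w))`: its derivative in the direction `h` is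
`exp (p Re w) [p Re (w' h) w' (p ψ - i ψ1) + w'' h (p ψ - i ψ1) + w' (p ψ1 - i ψ2) Im (w' h)]`, and
`i L(1) - L(i)`: the terms with `w''` cancel; with `w' = a + i c`: `i Re w' - Re (i w') = i a + c`,
`i Im w' - Im (i w') = i c - a = i (i a + c)`, so the sum is
`exp (p Re w) w' (i a + c) (p ^ 2 ψ - i p ψ1 + i p ψ1 + ψ2) = i exp (p Re w) |w'| ^ 2 (p ^ 2 ψ + ψ2)`
(`i a + c = i conj (w')`). Here `w''` exists since `f` is holomorphic near `z`. -/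
def S_CAL : Prop := ∀ (p : ℝ) (ψ ψ1 ψ2 : ℝ → ℝ) (f : ℂ → ℂ) (z : ℂ),
  (∀ θ, HasDerivAt ψ (ψ1 θ) θ) → (∀ θ, HasDerivAt ψ1 (ψ2 θ) θ) →
  (∀ θ, ψ (θ + Real.pi) = ψ θ) → AnalyticAt ℂ f z → f z ≠ 0 →
  HasFDerivAt (VV p ψ f)
    (Complex.reCLM ∘L (ContinuousLinearMap.mul ℝ ℂ (DD p ψ ψ1 f z))) z ∧
  ∃ L : ℂ →L[ℝ] ℂ, HasFDerivAt (DD p ψ ψ1 f) L z ∧
    Complex.I * L 1 - L Complex.I = Complex.I *
      ((‖f z‖ ^ p * ‖deriv f z / f z‖ ^ 2 *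
        (ψ2 (Complex.arg (f z)) + p ^ 2 * ψ (Complex.arg (f z))) : ℝ) : ℂ)

/-- RX-6. The integral inequality.

Proof from S_CAL. If `f = 0` on the half-plane the integral is `0` (`p > 0`). Otherwise the zeros of
`f` in `{-ε < Im z}` are countable (isolated). `V = VV`, `D = DD` are continuous on the half-plane, also
at the zeros of `f` (`|V| ≤ C |f| ^ p`, `|D| ≤ C |f| ^ (p - 1) |f'|`; away from the zeros `arg` is
harmless as in S_CAL). Let `F(z) = Im z D(z) + i V(z)`. At points with `f ≠ 0` it is real differentiable,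
and `i F'(1) - F'(i) = Im z (i D'(1) - D'(i)) - V_x - D - i V_y = i Im z G - 2 V_x` (as
`D = V_x - i V_y`) with `G = |f| ^ p |f' / f| ^ 2 (ψ2 + p ^ 2 ψ)(arg f) ≥ 0` (bounded on compact sets as `p > 2`), `V_x` real:
its imaginary part is `Im z G ≥ 0`. Apply
`Complex.integral_boundary_rect_of_hasFDerivAt_real_off_countable` to the rectangle
`[0, X] × [0, Y]` and take imaginary parts:
`∫_0^X V(x) dx - ∫_0^X (Y Im D(x + iY) + V(x + iY)) dx + ∫_0^Y y Re D(X + iy) dy - ∫_0^Y y Re D(iy) dy ≥ 0`.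
For `X → ∞` the third term tends to `0`: `|D| ≤ C |f| ^ (p-1) |f'| ≤ C' (1 + |z|) ^ (-p-1)`, and then
for `Y → ∞` the second: `∫ Y (1 + |x + iY|) ^ (-p-1) + (1 + |x + iY|) ^ (-p) dx ≤ C Y ^ (1 - p)`. The last one:
on the imaginary axis `f(iy) = r(y)` is real, `f'(iy) = - i r'(y)`, `arg f ∈ {0, π}`, so
`Re D(iy) = - ψ1(0) |r| ^ (p-2) r r' = - (ψ1(0) / p) (|r| ^ p)'`, and
`- ∫_0^Y y Re D(iy) dy = (ψ1(0) / p) (Y |r(Y)| ^ p - ∫_0^Y |r| ^ p) ≤ (ψ1(0) / p) Y |r(Y)| ^ p → 0`. -/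
def S_SUB : Prop := ∀ (p : ℝ) (ψ ψ1 ψ2 : ℝ → ℝ) (f : ℂ → ℂ), 2 < p → Trig p ψ ψ1 ψ2 → Nice f →
  0 ≤ ∫ x in Ioi (0 : ℝ), VV p ψ f (x : ℂ)

/-- RX-7. The case `p = 2`.
Proof. Cauchy's theorem for `f ^ 2` on `[0, X] × [0, Y]`, `|f ^ 2| ≤ C / (1 + |z|) ^ 2`, `X → ∞`, then
`Y → ∞`: `∫_0^∞ f(x) ^ 2 dx = i ∫_0^∞ f(iy) ^ 2 dy`. So the real part of the left side is `0`:
`∫ (Re f) ^ 2 = ∫ (Im f) ^ 2`, and its imaginary part `2 ∫ Re f Im f` is `≥ 0`. -/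
def S_TWO : Prop := ∀ f : ℂ → ℂ, Nice f →
  ∫ x in Ioi (0 : ℝ), (f x).re ^ 2 = ∫ x in Ioi (0 : ℝ), (f x).im ^ 2 ∧
  0 ≤ ∫ x in Ioi (0 : ℝ), (f x).re * (f x).im

/-- RX-8. The inequalities for nice functions.
Proof from S_BB, S_MIN, S_SUB, S_TWO. For `p = 2`, `BB 2 = 2` and
`∫ (Re f - Im f) ^ 2 = ∫ (Re f) ^ 2 + ∫ (Im f) ^ 2 - 2 ∫ Re f Im f`. Let `p > 2`, `ε > 0` and let
`ψ` be the function of S_MIN. `|f| ^ p ψ(arg f) ≤ BB p |Re f| ^ p - |Re f - Im f| ^ p + ε |f| ^ p`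
(`Re f = |f| cos (arg f)`, …), so the first inequality holds up to `ε ∫ |f| ^ p`; `ε → 0`. For the second
one use `ψ^(θ) = ψ(π/2 - θ)`, `ψ^' (0) = - ψ1(π/2) ≥ 0`,
`ψ^(θ) ≤ BB p |sin θ| ^ p - |cos θ - sin θ| ^ p + ε`. (`|f(x)| ≤ C / (1 + x)`, so everything is
integrable.) -/
def S_CORE : Prop := ∀ (p : ℝ) (f : ℂ → ℂ), 2 ≤ p → Nice f →
  (∫ x in Ioi (0 : ℝ), |(f x).re - (f x).im| ^ p ≤ BB p * ∫ x in Ioi (0 : ℝ), |(f x).re| ^ p) ∧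
  ∫ x in Ioi (0 : ℝ), |(f x).re - (f x).im| ^ p ≤ BB p * ∫ x in Ioi (0 : ℝ), |(f x).im| ^ p

/-! ### Regularisation -/

/-- bounded real functions with compact support -/
structure Bdd (u : ℝ → ℝ) (M R : ℝ) : Prop where
  meas : Measurable u
  bd : ∀ x, |u x| ≤ M
  supp : ∀ x, x ∉ Ioo (0 : ℝ) R → u x = 0

/-- `2 / π` times the cosine integral -/
noncomputable def gc (u : ℝ → ℝ) (t : ℝ) : ℝ :=
  2 / Real.pi * ∫ s in Ioi (0 : ℝ), Real.cos (t * s) * u s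

/-- `2 / π` times the sine integral -/
noncomputable def gs (u : ℝ → ℝ) (t : ℝ) : ℝ :=
  2 / Real.pi * ∫ s in Ioi (0 : ℝ), Real.sin (t * s) * u s

/-- the holomorphic function -/
noncomputable def Ft (G : ℝ → ℝ) (ε : ℝ) (z : ℂ) : ℂ :=
  ∫ t in Ioi (0 : ℝ), ((G t * Real.exp (-ε * t) : ℝ) : ℂ) * Complex.exp (Complex.I * z * t)

/-- RX-9. Proof. `G = gc u` (or `gs u`) is `C ^ 2` on `ℝ`, with `G`, `G'`, `G''` bounded by a constant `C`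
(differentiate under the integral over a bounded interval). For `Im z > -ε` let
`l = ε - i z`, `Re l > 0`, `Ft G ε z = ∫ G(t) exp (-l t)`: holomorphic, derivative
`∫ i t G(t) exp (-l t)`; for `z = iy` it is real. For `Im z ≥ 0` `Re l ≥ ε`, `|l| = |z + iε| ≥
(ε / (1 + ε)) (1 + |z|)` (as `|l| ≥ max (|z|, ε)`). Integration by parts:
`l Ft = G(0) + ∫ G' exp (-l t)`, so `|Ft| ≤ (C + C / ε) / |l|`; with `H = t G(t)`, `H(0) = 0`,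
`l ^ 2 ∫ H exp (-l t) = H'(0) + ∫ H'' exp (-l t)`, `|H''| ≤ C (2 + t)`, so the derivative is
`O(1 / |l| ^ 2)`. -/
def S_NICE : Prop := ∀ (u : ℝ → ℝ) (M R ε : ℝ), Bdd u M R → 0 < ε →
  Nice (Ft (gc u) ε) ∧ Nice (Ft (gs u) ε)

/-- RX-10. Proof. By Fubini, for `x > 0`, `Re Ft (gc u) ε x = ∫ u(s) k(x, s) ds`,
`k = (2/π) ∫ exp (-ε t) cos (t s) cos (x t) dt = (1/π) (ε / (ε² + (x-s)²) + ε / (ε² + (x+s)²))`
(`∫ exp (-ε t) cos (a t) dt = ε / (ε² + a²)` over `(0, ∞)`), `k ≥ 0`, `∫ k(x, s) ds = 1 = ∫ k(x, s) dx`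
(over `(0, ∞)`). By Hölder (Jensen) `|∫ u k ds| ^ p ≤ ∫ |u| ^ p k ds`; integrate over `x` and use Tonelli.
`Im Ft (gs u) ε x = ∫ u(s) k'(x, s) ds` with
`k' = (1/π) (ε / (ε² + (x-s)²) - ε / (ε² + (x+s)²))`, `0 ≤ k' ≤ k` for `x, s > 0`. -/
def S_KER : Prop := ∀ (u : ℝ → ℝ) (M R ε p : ℝ), Bdd u M R → 0 < ε → 1 ≤ p →
  (∫ x in Ioi (0 : ℝ), |(Ft (gc u) ε x).re| ^ p ≤ ∫ x in Ioi (0 : ℝ), |u x| ^ p) ∧
  ∫ x in Ioi (0 : ℝ), |(Ft (gs u) ε x).im| ^ p ≤ ∫ x in Ioi (0 : ℝ), |u x| ^ p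

/-! ### The transforms on `L ^ 2` -/

/-- RX-11. Plancherel's theorem.
Proof. Let `Φ(t) = φ(|t|)` be the even extension, in `L ^ 1 ∩ L ^ 2 (ℝ)`. Its Fourier transform
`∫ exp (-2 π i t ξ) Φ(t) dt = 2 ∫_0^∞ cos (2 π t ξ) φ(t) dt = √(2π) cosT φ (2 π ξ)`. By Plancherel's
theorem on `ℝ` (for integrable functions in `L ^ 2`, e.g. Pool.Agent.Helper152.HilbF or
Pool.Agent.Helper625.Planch) and the substitution `x = 2 π ξ`: `2 ∫_0^∞ |φ| ^ 2 = ∫ |Φ| ^ 2 =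
∫_ℝ 2 π |cosT φ (2 π ξ)| ^ 2 dξ = 2 ∫_0^∞ |cosT φ (x)| ^ 2 dx`. For the sine transform use the odd
extension. -/
def S_PLAN : Prop := ∀ φ : ℝ → ℂ, MemLp φ 1 hl → MemLp φ 2 hl →
  (MemLp (cosT φ) 2 hl ∧ eLpNorm (cosT φ) 2 hl = eLpNorm φ 2 hl) ∧
  MemLp (sinT φ) 2 hl ∧ eLpNorm (sinT φ) 2 hl = eLpNorm φ 2 hl

/-- RX-12. The theory on `L ^ 2`, from S_PLAN.
Proof (for the cosine). `cos_self`: Fubini (`φ, χ ∈ L ^ 1`). By S_PLAN and polarisation (and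
`cosT (conj χ) = conj (cosT χ)`), `∫ cosT φ * cosT χ = ∫ φ χ` for `φ, χ ∈ L ^ 1 ∩ L ^ 2`; so
`IsCos (cosT φ) φ`. For `u ∈ L ^ 2` let `u_n = u 1_{(0, n)}`, `u_n → u` in `L ^ 2`; `cosT u_n` is a
Cauchy sequence in `L ^ 2` by S_PLAN and linearity; let `w` be its limit (`MeasureTheory.Lp` is complete).
All the assertions for `(u, w)` follow from those for `(u_n, cosT u_n)` in the limit. The
relation determines `w` up to a null set (test with `φ = conj (w - w') 1_{(0, n)}`), so every pair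
with `IsCos u w` is such a limit: this gives `cos_norm`, `cos_symm`, `cos_adj`. -/
structure L2P : Prop where
  cos_ex : ∀ u, MemLp u 2 hl → ∃ w, IsCos u w
  sin_ex : ∀ u, MemLp u 2 hl → ∃ w, IsSin u w
  cos_norm : ∀ u w, IsCos u w → eLpNorm w 2 hl = eLpNorm u 2 hl
  sin_norm : ∀ u w, IsSin u w → eLpNorm w 2 hl = eLpNorm u 2 hl
  cos_symm : ∀ u w, IsCos u w → IsCos w u
  sin_symm : ∀ u w, IsSin u w → IsSin w u
  cos_self : ∀ φ, MemLp φ 1 hl → MemLp φ 2 hl → IsCos φ (cosT φ)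
  sin_self : ∀ φ, MemLp φ 1 hl → MemLp φ 2 hl → IsSin φ (sinT φ)
  cos_sub : ∀ u w u' w', IsCos u w → IsCos u' w' → IsCos (u - u') (w - w')
  sin_sub : ∀ u w u' w', IsSin u w → IsSin u' w' → IsSin (u - u') (w - w')
  cos_smul : ∀ (c : ℂ) u w, IsCos u w → IsCos (c • u) (c • w)
  sin_smul : ∀ (c : ℂ) u w, IsSin u w → IsSin (c • u) (c • w)
  cos_conj : ∀ u w, IsCos u w → IsCos (fun x => (starRingEnd ℂ) (u x)) fun x => (starRingEnd ℂ) (w x)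
  sin_conj : ∀ u w, IsSin u w → IsSin (fun x => (starRingEnd ℂ) (u x)) fun x => (starRingEnd ℂ) (w x)
  cos_ae : ∀ u w u' w', IsCos u w → u =ᵐ[hl] u' → w =ᵐ[hl] w' → IsCos u' w'
  sin_ae : ∀ u w u' w', IsSin u w → u =ᵐ[hl] u' → w =ᵐ[hl] w' → IsSin u' w'
  cos_uniq : ∀ u w w', IsCos u w → IsCos u w' → w' =ᵐ[hl] w
  sin_uniq : ∀ u w w', IsSin u w → IsSin u w' → w' =ᵐ[hl] w
  cos_adj : ∀ u w u' w', IsCos u w → IsCos u' w' →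
    ∫ x in Ioi (0 : ℝ), w x * u' x = ∫ x in Ioi (0 : ℝ), u x * w' x
  sin_adj : ∀ u w u' w', IsSin u w → IsSin u' w' →
    ∫ x in Ioi (0 : ℝ), w x * u' x = ∫ x in Ioi (0 : ℝ), u x * w' x

/-- RX-12 -/
def S_L2 : Prop := S_PLAN → L2P

/-- RX-13. Convergence of the regularisations.
Proof. Let `w = cosT u = √(π/2) gc u` (bounded, in `L ^ 2`), `w_ε(t) = exp (-ε t) w(t)`, in
`L ^ 1 ∩ L ^ 2`. `(Ft (gc u) ε x).re = cosT w_ε x`, `(Ft (gc u) ε x).im = sinT w_ε x` (the functions are real). If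
`IsPi u v`, i.e. `IsCos u w'`, `IsSin w' v`, then `w' = w` a.e., `IsCos w u`, `IsSin w v`, so
`‖cosT w_ε - u‖_2 = ‖w_ε - w‖_2 = ‖sinT w_ε - v‖_2 → 0` (`ε → 0`, dominated convergence). Take
`ε = 1 / (n + 1)` and a subsequence which converges almost everywhere
(`TendstoInMeasure.exists_seq_tendsto_ae`), twice. The second part in the same way with `w = sinT u`:
`(Ft (gs u) ε x).im = sinT w_ε x → u`, `(Ft (gs u) ε x).re = cosT w_ε x → v`. -/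
def S_CONV : Prop := L2P → ∀ (u : ℝ → ℝ) (M R : ℝ) (v : ℝ → ℂ), Bdd u M R →
  (IsPi (fun x => (u x : ℂ)) v → ∃ e : ℕ → ℝ, (∀ n, 0 < e n) ∧ ∀ᵐ x : ℝ ∂hl,
    Tendsto (fun n => (((Ft (gc u) (e n) x).re : ℝ) : ℂ)) atTop (𝓝 (u x : ℂ)) ∧
    Tendsto (fun n => (((Ft (gc u) (e n) x).im : ℝ) : ℂ)) atTop (𝓝 (v x))) ∧
  (IsPi' (fun x => (u x : ℂ)) v → ∃ e : ℕ → ℝ, (∀ n, 0 < e n) ∧ ∀ᵐ x : ℝ ∂hl,
    Tendsto (fun n => (((Ft (gs u) (e n) x).im : ℝ) : ℂ)) atTop (𝓝 (u x : ℂ)) ∧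
    Tendsto (fun n => (((Ft (gs u) (e n) x).re : ℝ) : ℂ)) atTop (𝓝 (v x)))

/-! ### From nice functions to all functions -/

/-- the inequality for real functions with a property -/
def BdR (E : (ℝ → ℝ) → Prop) (p : ℝ) : Prop := ∀ (u : ℝ → ℝ) (v : ℝ → ℂ), E u →
  (IsPi (fun x => (u x : ℂ)) v ∨ IsPi' (fun x => (u x : ℂ)) v) →
  MemLp (fun x => (u x : ℂ)) (ENNReal.ofReal p) hl →
  eLpNorm (fun x => (u x : ℂ) - v x) (ENNReal.ofReal p) hl ≤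
    ENNReal.ofReal (BB p ^ (1 / p)) * eLpNorm (fun x => (u x : ℂ)) (ENNReal.ofReal p) hl

/-- RX-14. Bounded functions with compact support.
Proof. For `ε = e n` of S_CONV: S_CORE for `f = Ft (gc u) ε` (nice by S_NICE) and S_KER give
`∫ |Re f - Im f| ^ p ≤ BB p ∫ |Re f| ^ p ≤ BB p ∫ |u| ^ p`; the integrand on the left converges a.e. to
`|u - v| ^ p`; Fatou's lemma (`lintegral_liminf_le`). For `IsPi'` use the second inequality of S_CORE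
and `f = Ft (gs u) ε`. -/
def S_BDD : Prop := S_BB → S_CORE → S_NICE → S_KER → L2P → S_CONV →
  ∀ p : ℝ, 2 ≤ p → BdR (fun u => ∃ M R, Bdd u M R) p

/-- RX-15. All real functions.
Proof. Replace `u` by a measurable function (a.e. equal on `(0, ∞)`). `u_n(x) = u(x)` if
`x ∈ (0, n)` and `|u(x)| ≤ n`, otherwise `0`; `u_n → u` in `L ^ 2`. Choose `v_n` with `IsPi u_n v_n`; then
`IsPi (u_n - u) (v_n - v)`, so `‖v_n - v‖_2 = ‖u_n - u‖_2 → 0`; for a subsequence `v_n → v` a.e., and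
`u_n → u` everywhere; Fatou: `‖u - v‖_p ≤ liminf ‖u_n - v_n‖_p ≤ C liminf ‖u_n‖_p ≤ C ‖u‖_p`. -/
def S_GEN : Prop := L2P → ∀ p : ℝ, 2 ≤ p → BdR (fun u => ∃ M R, Bdd u M R) p →
  BdR (fun _ => True) p

/-- RX-16. Complex functions.
Proof. Let `IsPi u v` (or `IsPi'`), `h = u - v`. For real `a` the pair `(Re (exp (i a) u), Re (exp (i a) v))`
is in the relation (`cos_smul`, `cos_conj`, `cos_sub`), so
`∫ |Re (exp (i a) h)| ^ p ≤ BB p ∫ |Re (exp (i a) u)| ^ p`. Integrate over `a ∈ (0, 2π)`: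
`∫_0^{2π} |Re (exp (i a) c)| ^ p da = |c| ^ p ∫_0^{2π} |cos a| ^ p da` (positive and finite factor). -/
def S_CX : Prop := L2P → ∀ p : ℝ, 2 ≤ p → 0 < BB p → BdR (fun _ => True) p →
  Bd IsPi p (BB p ^ (1 / p)) ∧ Bd IsPi' p (BB p ^ (1 / p))

/-- RX-17. Duality.
Proof. If `IsPi u v` and `IsPi' x y` then `∫ v x = ∫ u y` (`cos_adj`, `sin_adj`), so
`∫ (u - v) x = ∫ u (x - y)`. Assume `Bd IsPi p C`, and let `IsPi' x y`, `x ∈ L ^ q`, `h = x - y`. Let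
`A_n = {t ∈ (0, n) : |h(t)| ≤ n, |h(t)| > 1/n}`, `u_n = conj (h) |h| ^ (q - 2) 1_{A_n}`, bounded with
compact support, so in all `L ^ r`; let `IsPi u_n v_n`. `∫ |h| ^ q 1_{A_n} = ∫ u_n (x - y) =
∫ (u_n - v_n) x ≤ ‖u_n - v_n‖_p ‖x‖_q ≤ C ‖u_n‖_p ‖x‖_q = C (∫ |h| ^ q 1_{A_n}) ^ (1/p) ‖x‖_q`. So
`(∫ |h| ^ q 1_{A_n}) ^ (1/q) ≤ C ‖x‖_q`; `n → ∞`. The same with the roles exchanged. -/
def S_DUAL : Prop := L2P → ∀ p q C : ℝ, 1 < p → 1 < q → 1 / p + 1 / q = 1 → 0 ≤ C →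
  (Bd IsPi p C → Bd IsPi' q C) ∧ (Bd IsPi' p C → Bd IsPi q C)

/-! ### The lower bound -/

/-- the main part of the test functions -/
noncomputable def mm (q θ δ x : ℝ) : ℂ :=
  if δ < |x - 1| ∧ |x - 1| < 1 then ((|x - 1| ^ (-1 / q) : ℝ) : ℂ) * Complex.exp (Complex.I *
    ((θ + (if 1 < x then Real.pi / (2 * q) else -(Real.pi / (2 * q))) : ℝ) : ℂ)) else 0

/-- RX-18. The test functions.
Proof. `a = 1/q`, `g(t) = t ^ (a-1) (exp (-δ t) - exp (-t)) / Γ(a)`,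
`G(w) = ∫_0^∞ g(t) exp (i w t) dt = (δ - i w) ^ (-a) - (1 - i w) ^ (-a)` for real `w` (principal
powers; Mathlib has the integral of `t ^ (a-1) exp (-r t)` for `Re r > 0`:
`Complex.integral_cpow_mul_exp_neg_mul_Ioi`), `h(t) = 2 g(t) cos (t - θ)`,
`∫_0^∞ h(t) exp (i x t) dt = exp (iθ) G(x - 1) + exp (-iθ) G(x + 1)`. As `q ≥ 2` and
`0 ≤ exp (-δ t) - exp (-t) ≤ t` for small `t`, `h ∈ L ^ 1 ∩ L ^ 2`. Estimates (`w ≠ 0` real):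
`|(s - i w) ^ (-a) - (s' - i w) ^ (-a)| ≤ a |s - s'| |w| ^ (-a-1)`, `|(s - iw) ^ (-a)| ≤ min (s ^ (-a), |w| ^ (-a))`.
So `|G(x+1)| ≤ (x+1) ^ (-a-1)`, and for `w = x - 1`: if `|w| ≥ 1`, `|G(w)| ≤ |w| ^ (-a-1)`; if `|w| ≤ δ`,
`|G(w)| ≤ δ ^ (-a) + 1`, and `δ` times its `q`-th power is bounded; if `δ < |w| < 1`,
`|G(w) - (-i w) ^ (-a)| ≤ 1 + δ |w| ^ (-a-1)` with `∫_δ^1 δ ^ q w ^ (-1-q) dw ≤ 1/q`. And
`(-i w) ^ (-a) = |w| ^ (-a) exp (± i π a / 2)` for `± w > 0`. -/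
def S_TEST : Prop := ∀ q θ : ℝ, 2 ≤ q → ∃ K : ℝ, ∀ δ : ℝ, 0 < δ → δ < 1 → ∃ h : ℝ → ℝ,
  MemLp (fun t => (h t : ℂ)) 1 hl ∧ MemLp (fun t => (h t : ℂ)) 2 hl ∧
  eLpNorm (fun x : ℝ => (∫ t in Ioi (0 : ℝ), (h t : ℂ) * Complex.exp (Complex.I * x * t)) -
    mm q θ δ x) (ENNReal.ofReal q) hl ≤ ENNReal.ofReal K

/-- RX-19. The lower bound.
Proof. Given `x₀` let `θ = x₀ + π/(2q)`, and let `f(x) = ∫ h(t) exp (i x t)` be the function of S_TEST. Then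
`cosT h = √(2/π) Re f`, `sinT h = √(2/π) Im f`, `IsPi (cosT h) (sinT h)` and `IsPi' (sinT h) (cosT h)` by
`cos_self`, `cos_symm`. With `L = 2 log (1/δ)`... the `L ^ q` norm of `Re mm` is
`(log (1/δ) (|cos x₀| ^ q + |cos (x₀ + π/q)| ^ q)) ^ (1/q)` and that of `Re mm - Im mm` is
`(log (1/δ) (|cos x₀ - sin x₀| ^ q + |cos (x₀+π/q) - sin (x₀+π/q)| ^ q)) ^ (1/q)`. If `Bd IsPi q C`:
`‖Re mm - Im mm‖ - 2 K ≤ ‖Re f - Im f‖ ≤ C ‖Re f‖ ≤ C (‖Re mm‖ + K)`; divide by `log (1/δ) ^ (1/q)` and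
let `δ → 0`: `ratio q x₀ ≤ C ^ q`. For `IsPi'` the same with `|sin| ^ q` in the denominator, and
`x₀ ↦ π/2 - x₀ - π/q` changes this into `ratio`. `ciSup_le`. -/
def S_LOW : Prop := L2P → S_BB → S_TEST → ∀ q C : ℝ, 2 ≤ q → 0 ≤ C → (Bd IsPi q C ∨ Bd IsPi' q C) →
  BB q ≤ C ^ q

/-- RX-20. Assembly: for `p ≥ 2`, `CC p = BB p ^ (1/p)`; for `p < 2`, `q = p / (p - 1) > 2` and S_DUAL. -/
def S_ASM : Prop := S_BB → L2P → (∀ p : ℝ, 2 ≤ p → Bd IsPi p (BB p ^ (1 / p)) ∧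
  Bd IsPi' p (BB p ^ (1 / p))) → S_DUAL → (∀ q C : ℝ, 2 ≤ q → 0 ≤ C →
  (Bd IsPi q C ∨ Bd IsPi' q C) → BB q ≤ C ^ q) → S_FINAL

end Pool.Agent.NH67.RX
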