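import Mathlib
import Pool.Agent.NH67.RX.Stm

/-!
# RX-1: simple facts on `ratio` and `BB`
-/

open MeasureTheory Set Filter Topology

namespace Pool.Agent.NH67.RX

namespace BBf

theorem den_pos (q x : ℝ) (hq : 2 ≤ q) :
    0 < |Real.cos x| ^ q + |Real.cos (x + Real.pi / q)| ^ q := by
  have hq0 : 0 < q := by linarith
  have h1 : 0 ≤ |Real.cos x| ^ q := Real.rpow_nonneg (abs_nonneg _) _
  have h2 : 0 ≤ |Real.cos (x + Real.pi / q)| ^ q := Real.rpow_nonneg (abs_nonneg _) _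
  rcases h1.lt_or_eq with h3 | h3
  · linarith
  rcases h2.lt_or_eq with h4 | h4
  · linarith
  exfalso
  have h5 : Real.cos x = 0 := by
    have h := (Real.rpow_eq_zero (abs_nonneg _) hq0.ne').1 h3.symm
    exact abs_eq_zero.1 h
  have h6 : Real.cos (x + Real.pi / q) = 0 := by
    have h := (Real.rpow_eq_zero (abs_nonneg _) hq0.ne').1 h4.symm
    exact abs_eq_zero.1 h
  rw [Real.cos_add, h5, zero_mul, zero_sub, neg_eq_zero] at h6
  have h7 : 0 < Real.sin (Real.pi / q) := by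
    apply Real.sin_pos_of_pos_of_lt_pi
    · exact div_pos Real.pi_pos hq0
    · rw [div_lt_iff₀ hq0]
      nlinarith [Real.pi_pos]
  have h8 : Real.sin x = 0 := (mul_eq_zero.1 h6).resolve_right h7.ne'
  have h9 := Real.sin_sq_add_cos_sq x
  rw [h5, h8] at h9
  norm_num at h9

theorem cont (q : ℝ) (hq : 2 ≤ q) : Continuous (ratio q) := by
  have hq0 : 0 ≤ q := by linarith
  unfold ratio
  refine Continuous.div ?_ ?_ (fun x => (den_pos q x hq).ne')
  · refine Continuous.add ?_ ?_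
    · exact Continuous.rpow_const (by fun_prop) (fun _ => Or.inr hq0)
    · exact Continuous.rpow_const (by fun_prop) (fun _ => Or.inr hq0)
  · refine Continuous.add ?_ ?_
    · exact Continuous.rpow_const (by fun_prop) (fun _ => Or.inr hq0)
    · exact Continuous.rpow_const (by fun_prop) (fun _ => Or.inr hq0)

theorem per (q : ℝ) : Function.Periodic (ratio q) (2 * Real.pi) := by
  intro x
  have h1 : x + 2 * Real.pi + Real.pi / q = x + Real.pi / q + 2 * Real.pi := by ring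
  unfold ratio
  rw [h1, Real.cos_add_two_pi, Real.cos_add_two_pi, Real.sin_add_two_pi, Real.sin_add_two_pi]

theorem exists_max (q : ℝ) (hq : 2 ≤ q) : ∃ x₀, ∀ x, ratio q x ≤ ratio q x₀ := by
  have hpi : (0 : ℝ) < 2 * Real.pi := by linarith [Real.pi_pos]
  obtain ⟨x₀, -, h1⟩ := isCompact_Icc.exists_isMaxOn (s := Icc (0 : ℝ) (2 * Real.pi))
    ⟨0, left_mem_Icc.2 hpi.le⟩ (cont q hq).continuousOn
  refine ⟨x₀, fun x => ?_⟩
  obtain ⟨y, hy, hxy⟩ := (per q).exists_mem_Ico₀ hpi x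
  rw [hxy]
  exact h1 (Ico_subset_Icc_self hy)

theorem bdd (q : ℝ) (hq : 2 ≤ q) : BddAbove (range (ratio q)) := by
  obtain ⟨x₀, h⟩ := exists_max q hq
  refine ⟨ratio q x₀, ?_⟩
  rintro _ ⟨x, rfl⟩
  exact h x

theorem le (q x : ℝ) (hq : 2 ≤ q) : ratio q x ≤ BB q := le_ciSup (bdd q hq) x

theorem ratio_two (x : ℝ) : ratio 2 x = 2 := by
  have h1 : ∀ a : ℝ, |a| ^ (2 : ℝ) = a ^ 2 := by
    intro a
    rw [show (2 : ℝ) = ((2 : ℕ) : ℝ) by norm_num, Real.rpow_natCast, sq_abs]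
  unfold ratio
  rw [h1, h1, h1, h1, Real.cos_add_pi_div_two, Real.sin_add_pi_div_two]
  have h2 := Real.sin_sq_add_cos_sq x
  have h3 : Real.cos x ^ 2 + (-Real.sin x) ^ 2 = 1 := by linarith
  rw [h3, div_one]
  linear_combination 2 * h2

end BBf

theorem t_BB : S_BB where
  den_pos := BBf.den_pos
  le := BBf.le
  attained := by
    intro q hq
    obtain ⟨x₀, h⟩ := BBf.exists_max q hq
    exact ⟨x₀, le_antisymm (BBf.le q x₀ hq) (ciSup_le h)⟩
  two := by
    have h : ∀ x, ratio 2 x = 2 := BBf.ratio_two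
    unfold BB
    rw [show (fun x : ℝ => ratio 2 x) = fun _ => (2 : ℝ) from funext h, ciSup_const]
  pos := by
    intro q hq
    refine lt_of_lt_of_le ?_ (BBf.le q 0 hq)
    unfold ratio
    refine div_pos ?_ (BBf.den_pos q 0 hq)
    have h1 : |Real.cos 0 - Real.sin 0| ^ q = 1 := by
      rw [Real.cos_zero, Real.sin_zero, sub_zero, abs_one, Real.one_rpow]
    rw [h1]
    have h2 : 0 ≤ |Real.cos (0 + Real.pi / q) - Real.sin (0 + Real.pi / q)| ^ q :=
      Real.rpow_nonneg (abs_nonneg _) _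
    linarith

end Pool.Agent.NH67.RX
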