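import Mathlib
import Pool.Agent.NH67.RX.Stm

/-! RX-14: bounded functions with compact support. -/

set_option autoImplicit false

namespace Pool.Agent.NH67.RX.BddP

open MeasureTheory Set Filter Topology

theorem fatou {p : ℝ} (hp : 0 < p) (g : ℕ → ℝ → ℝ) (h : ℝ → ℂ) (K : ENNReal)
    (hmeas : ∀ n, AEMeasurable (g n) hl)
    (hlim : ∀ᵐ x ∂hl, Tendsto (fun n => ((g n x : ℝ) : ℂ)) atTop (𝓝 (h x)))
    (hle : ∀ n, ∫⁻ x, ENNReal.ofReal (|g n x| ^ p) ∂hl ≤ K) :
    ∫⁻ x, ‖h x‖ₑ ^ p ∂hl ≤ K := by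
  have h1 : ∀ n x, ENNReal.ofReal (|g n x| ^ p) = ‖((g n x : ℝ) : ℂ)‖ₑ ^ p := by
    intro n x
    rw [← ENNReal.ofReal_rpow_of_nonneg (abs_nonneg _) hp.le, ← ofReal_norm,
      Complex.norm_real, Real.norm_eq_abs]
  have h2 : ∀ᵐ x ∂hl, ‖h x‖ₑ ^ p = liminf (fun n => ENNReal.ofReal (|g n x| ^ p)) atTop := by
    filter_upwards [hlim] with x hx
    have h3 : Tendsto (fun n => ENNReal.ofReal (|g n x| ^ p)) atTop (𝓝 (‖h x‖ₑ ^ p)) := by
      simp_rw [h1]
      exact (ENNReal.continuous_rpow_const.tendsto _).comp ((continuous_enorm.tendsto _).comp hx)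
    exact h3.liminf_eq.symm
  rw [lintegral_congr_ae h2]
  refine (lintegral_liminf_le' (fun n => ?_)).trans ?_
  · exact ((hmeas n).abs.pow_const p).ennreal_ofReal
  · refine liminf_le_of_frequently_le' ?_
    exact Filter.Frequently.of_forall hle

theorem Nice_C {f : ℂ → ℂ} {C : ℝ}
    (hC : ∀ z : ℂ, 0 ≤ z.im → ‖f z‖ ≤ C / (1 + ‖z‖) ∧ ‖deriv f z‖ ≤ C / (1 + ‖z‖) ^ 2) : 0 ≤ C := by
  have h := (hC 0 (by simp)).1
  rw [norm_zero, add_zero, div_one] at h
  exact (norm_nonneg _).trans h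

theorem Nice_cont {f : ℂ → ℂ} (hf : Nice f) : Continuous (fun x : ℝ => f (x : ℂ)) := by
  obtain ⟨ε, hε, hd⟩ := hf.diff
  have hc := hd.continuousOn
  refine hc.comp_continuous Complex.continuous_ofReal ?_
  intro x
  show -ε < ((x : ℂ)).im
  rw [Complex.ofReal_im]
  linarith

theorem Nice_int {f : ℂ → ℂ} (hf : Nice f) {p : ℝ} (hp : 2 ≤ p) :
    Integrable (fun x : ℝ => |(f x).re - (f x).im| ^ p) hl := by
  obtain ⟨C, hC⟩ := hf.dec
  have hC0 : 0 ≤ C := Nice_C hC
  have hb : Integrable (fun x : ℝ => (2 * C) ^ p * (1 + x ^ 2)⁻¹) hl :=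
    (integrable_inv_one_add_sq.const_mul _).restrict
  refine hb.mono' ?_ ?_
  · apply Continuous.aestronglyMeasurable
    have h1 := Nice_cont hf
    have h2 : Continuous (fun x : ℝ => |(f x).re - (f x).im|) :=
      ((Complex.continuous_re.comp h1).sub (Complex.continuous_im.comp h1)).abs
    exact h2.rpow_const (fun _ => Or.inr (by linarith))
  · filter_upwards [ae_restrict_mem measurableSet_Ioi] with x hx
    have hx0 : (0 : ℝ) < x := hx
    rw [Real.norm_of_nonneg (Real.rpow_nonneg (abs_nonneg _) _)]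
    have h1 := (hC (x : ℂ) (by simp)).1
    rw [Complex.norm_real, Real.norm_of_nonneg hx0.le] at h1
    have h2 : |(f x).re - (f x).im| ≤ 2 * C * (1 + x)⁻¹ := by
      have h3 := Complex.abs_re_le_norm (f x)
      have h4 := Complex.abs_im_le_norm (f x)
      have h5 : |(f x).re - (f x).im| ≤ |(f x).re| + |(f x).im| := abs_sub _ _
      have h6 : C / (1 + x) = C * (1 + x)⁻¹ := div_eq_mul_inv _ _
      rw [h6] at h1
      linarith
    have hinv : (1 + x)⁻¹ ≤ 1 := inv_le_one_of_one_le₀ (by linarith)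
    have hinv0 : 0 < (1 + x)⁻¹ := by positivity
    calc |(f x).re - (f x).im| ^ p ≤ (2 * C * (1 + x)⁻¹) ^ p :=
          Real.rpow_le_rpow (abs_nonneg _) h2 (by linarith)
      _ = (2 * C) ^ p * ((1 + x)⁻¹) ^ p := Real.mul_rpow (by positivity) hinv0.le
      _ ≤ (2 * C) ^ p * (1 + x ^ 2)⁻¹ := by
          apply mul_le_mul_of_nonneg_left _ (Real.rpow_nonneg (by positivity) _)
          calc ((1 + x)⁻¹) ^ p ≤ ((1 + x)⁻¹) ^ (2 : ℝ) :=
                Real.rpow_le_rpow_of_exponent_ge hinv0 hinv hp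
            _ = ((1 + x) ^ 2)⁻¹ := by rw [Real.rpow_two, inv_pow]
            _ ≤ (1 + x ^ 2)⁻¹ := by
                apply inv_anti₀ (by positivity)
                nlinarith

/-- the conclusion from the bounds and the convergence -/
theorem conclude {p : ℝ} (hp : 2 ≤ p) (hB : 0 < BB p) (u : ℝ → ℝ) (h : ℝ → ℂ) (g : ℕ → ℝ → ℝ)
    (hu : MemLp (fun x => (u x : ℂ)) (ENNReal.ofReal p) hl)
    (hmeas : ∀ n, AEMeasurable (g n) hl)
    (hint : ∀ n, Integrable (fun x => |g n x| ^ p) hl)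
    (hlim : ∀ᵐ x ∂hl, Tendsto (fun n => ((g n x : ℝ) : ℂ)) atTop (𝓝 (h x)))
    (hle : ∀ n, ∫ x, |g n x| ^ p ∂hl ≤ BB p * ∫ x, |u x| ^ p ∂hl) :
    eLpNorm h (ENNReal.ofReal p) hl ≤
      ENNReal.ofReal (BB p ^ (1 / p)) * eLpNorm (fun x => (u x : ℂ)) (ENNReal.ofReal p) hl := by
  have hp0 : 0 < p := by linarith
  have hpn : ENNReal.ofReal p ≠ 0 := by
    rw [Ne, ENNReal.ofReal_eq_zero]; linarith
  have hpt : ENNReal.ofReal p ≠ ⊤ := ENNReal.ofReal_ne_top
  have hpr : (ENNReal.ofReal p).toReal = p := ENNReal.toReal_ofReal hp0.le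
  have hui : Integrable (fun x => |u x| ^ p) hl := by
    have h1 := hu.integrable_norm_rpow hpn hpt
    rw [hpr] at h1
    refine h1.congr (Filter.Eventually.of_forall fun x => ?_)
    show ‖((u x : ℝ) : ℂ)‖ ^ p = |u x| ^ p
    rw [Complex.norm_real, Real.norm_eq_abs]
  have hul : ENNReal.ofReal (∫ x, |u x| ^ p ∂hl) = ∫⁻ x, ‖((u x : ℝ) : ℂ)‖ₑ ^ p ∂hl := by
    rw [ofReal_integral_eq_lintegral_ofReal hui
      (Filter.Eventually.of_forall fun x => Real.rpow_nonneg (abs_nonneg _) _)]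
    apply lintegral_congr
    intro x
    rw [← ENNReal.ofReal_rpow_of_nonneg (abs_nonneg _) hp0.le, ← ofReal_norm,
      Complex.norm_real, Real.norm_eq_abs]
  have key : ∫⁻ x, ‖h x‖ₑ ^ p ∂hl ≤ ENNReal.ofReal (BB p) * ∫⁻ x, ‖((u x : ℝ) : ℂ)‖ₑ ^ p ∂hl := by
    apply fatou hp0 g h _ hmeas hlim
    intro n
    rw [← ofReal_integral_eq_lintegral_ofReal (hint n)
      (Filter.Eventually.of_forall fun x => Real.rpow_nonneg (abs_nonneg _) _), ← hul,
      ← ENNReal.ofReal_mul hB.le]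
    exact ENNReal.ofReal_le_ofReal (hle n)
  rw [eLpNorm_eq_lintegral_rpow_enorm_toReal hpn hpt, eLpNorm_eq_lintegral_rpow_enorm_toReal hpn hpt,
    hpr]
  calc (∫⁻ x, ‖h x‖ₑ ^ p ∂hl) ^ (1 / p)
      ≤ (ENNReal.ofReal (BB p) * ∫⁻ x, ‖((u x : ℝ) : ℂ)‖ₑ ^ p ∂hl) ^ (1 / p) :=
        ENNReal.rpow_le_rpow key (by positivity)
    _ = ENNReal.ofReal (BB p) ^ (1 / p) * (∫⁻ x, ‖((u x : ℝ) : ℂ)‖ₑ ^ p ∂hl) ^ (1 / p) :=
        ENNReal.mul_rpow_of_nonneg _ _ (by positivity)
    _ = _ := by rw [ENNReal.ofReal_rpow_of_pos hB]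

end Pool.Agent.NH67.RX.BddP

namespace Pool.Agent.NH67.RX

open BddP MeasureTheory Set Filter Topology

theorem t_BDD : S_BDD := by
  intro hBB hcore hnice hker hL hconv p hp u v hE hPi hu
  obtain ⟨M, R, hbdd⟩ := hE
  have hB : 0 < BB p := hBB.pos p hp
  rcases hPi with hPi | hPi
  · obtain ⟨e, he, hlim⟩ := (hconv hL u M R v hbdd).1 hPi
    have hn : ∀ n, Nice (Ft (gc u) (e n)) := fun n => (hnice u M R (e n) hbdd (he n)).1
    refine conclude hp hB u (fun x => (u x : ℂ) - v x)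
      (fun n x => (Ft (gc u) (e n) x).re - (Ft (gc u) (e n) x).im) hu ?_ ?_ ?_ ?_
    · intro n
      have h1 := Nice_cont (hn n)
      exact ((Complex.continuous_re.comp h1).sub (Complex.continuous_im.comp h1)).measurable.aemeasurable
    · intro n
      exact Nice_int (hn n) hp
    · filter_upwards [hlim] with x hx
      have h1 := hx.1.sub hx.2
      refine h1.congr fun n => ?_
      rw [Complex.ofReal_sub]
    · intro n
      refine (hcore p _ hp (hn n)).1.trans ?_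
      exact mul_le_mul_of_nonneg_left (hker u M R (e n) p hbdd (he n) (by linarith)).1 hB.le
  · obtain ⟨e, he, hlim⟩ := (hconv hL u M R v hbdd).2 hPi
    have hn : ∀ n, Nice (Ft (gs u) (e n)) := fun n => (hnice u M R (e n) hbdd (he n)).2
    refine conclude hp hB u (fun x => (u x : ℂ) - v x)
      (fun n x => (Ft (gs u) (e n) x).im - (Ft (gs u) (e n) x).re) hu ?_ ?_ ?_ ?_
    · intro n
      have h1 := Nice_cont (hn n)
      exact ((Complex.continuous_im.comp h1).sub (Complex.continuous_re.comp h1)).measurable.aemeasurable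
    · intro n
      refine (Nice_int (hn n) hp).congr (Filter.Eventually.of_forall fun x => ?_)
      show |_| ^ p = |_| ^ p
      rw [abs_sub_comm]
    · filter_upwards [hlim] with x hx
      have h1 := hx.1.sub hx.2
      refine h1.congr fun n => ?_
      rw [Complex.ofReal_sub]
    · intro n
      have h1 := (hcore p _ hp (hn n)).2
      have h2 := (hker u M R (e n) p hbdd (he n) (by linarith)).2
      have h3 : (fun x : ℝ => |(Ft (gs u) (e n) x).im - (Ft (gs u) (e n) x).re| ^ p) =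
          fun x : ℝ => |(Ft (gs u) (e n) x).re - (Ft (gs u) (e n) x).im| ^ p := by
        funext x
        rw [abs_sub_comm]
      show ∫ x, |(Ft (gs u) (e n) x).im - (Ft (gs u) (e n) x).re| ^ p ∂hl ≤ _
      rw [h3]
      exact h1.trans (mul_le_mul_of_nonneg_left h2 hB.le)

end Pool.Agent.NH67.RX
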