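import Pool.Agent.NH67.RX.Stm

/-! # Project RX: derivatives of `|f| ^ p ψ(arg f)` (RX-5) -/

set_option autoImplicit false

open MeasureTheory Set Filter Topology

namespace Pool.Agent.NH67.RX

namespace CAL

/-- the derivative of a function with period `π` has the period `π` -/
theorem per_deriv {ψ ψ1 : ℝ → ℝ} (h : ∀ θ, HasDerivAt ψ (ψ1 θ) θ)
    (hp : ∀ θ, ψ (θ + Real.pi) = ψ θ) (θ : ℝ) : ψ1 (θ + Real.pi) = ψ1 θ := by
  have h1 : HasDerivAt (fun x => ψ (x + Real.pi)) (ψ1 (θ + Real.pi)) θ :=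
    (h (θ + Real.pi)).comp_add_const θ Real.pi
  have h2 : (fun x => ψ (x + Real.pi)) = ψ := funext hp
  rw [h2] at h1
  exact h1.unique (h θ)

theorem per_int {ψ : ℝ → ℝ} (hp : ∀ θ, ψ (θ + Real.pi) = ψ θ) (θ : ℝ) (k : ℤ) :
    ψ (θ + k * Real.pi) = ψ θ := by
  have h1 : Function.Periodic ψ Real.pi := hp
  exact h1.int_mul k θ

/-- a logarithm of `± w` has the imaginary part `arg w` up to multiples of `π` -/
theorem per_arg {ψ : ℝ → ℝ} (hp : ∀ θ, ψ (θ + Real.pi) = ψ θ) {c w : ℂ}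
    (hc : c = 1 ∨ c = -1) (hw : w ≠ 0) : ψ (Complex.log (c * w)).im = ψ (Complex.arg w) := by
  rw [Complex.log_im]
  rcases hc with rfl | rfl
  · rw [one_mul]
  · rw [neg_one_mul]
    have h1 := Complex.arg_neg_coe_angle hw
    rw [← Real.Angle.coe_add, Real.Angle.angle_eq_iff_two_pi_dvd_sub] at h1
    obtain ⟨k, hk⟩ := h1
    have h2 : Complex.arg (-w) = Complex.arg w + ((2 * k + 1 : ℤ) : ℝ) * Real.pi := by
      push_cast
      linarith
    rw [h2, per_int hp]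

theorem norm_pow_eq (p : ℝ) {c w : ℂ} (hc : c = 1 ∨ c = -1) (hw : w ≠ 0) :
    ‖w‖ ^ p = Real.exp (p * (Complex.log (c * w)).re) := by
  have h1 : ‖c * w‖ = ‖w‖ := by
    rcases hc with rfl | rfl <;> simp
  rw [Complex.log_re, h1, Real.rpow_def_of_pos (norm_pos_iff.2 hw), mul_comm]

/-- the calculation -/
theorem main (p : ℝ) {ψ ψ1 ψ2 : ℝ → ℝ} (h1 : ∀ θ, HasDerivAt ψ (ψ1 θ) θ)
    (h2 : ∀ θ, HasDerivAt ψ1 (ψ2 θ) θ) {g h : ℂ → ℂ} {z h' : ℂ} (hg : HasDerivAt g (h z) z)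
    (hh : HasDerivAt h h' z) :
    HasFDerivAt (fun w => Real.exp (p * (g w).re) * ψ (g w).im)
      (Complex.reCLM ∘L (ContinuousLinearMap.mul ℝ ℂ
        (((Real.exp (p * (g z).re) : ℝ) : ℂ) * h z *
          ((p * ψ (g z).im : ℝ) - Complex.I * (ψ1 (g z).im : ℝ))))) z ∧
    ∃ L : ℂ →L[ℝ] ℂ, HasFDerivAt (fun w => ((Real.exp (p * (g w).re) : ℝ) : ℂ) * h w *
          ((p * ψ (g w).im : ℝ) - Complex.I * (ψ1 (g w).im : ℝ))) L z ∧
      Complex.I * L 1 - L Complex.I = Complex.I *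
        ((Real.exp (p * (g z).re) * ‖h z‖ ^ 2 * (ψ2 (g z).im + p ^ 2 * ψ (g z).im) : ℝ) : ℂ) := by
  have hgR := hg.complexToReal_fderiv
  have hhR := hh.complexToReal_fderiv
  have hre := Complex.reCLM.hasFDerivAt.comp z hgR
  have him := Complex.imCLM.hasFDerivAt.comp z hgR
  have hE := (hre.const_mul p).exp
  have hS := (h1 (g z).im).comp_hasFDerivAt z him
  have hS1 := (h2 (g z).im).comp_hasFDerivAt z him
  have hV := hE.mul hS
  have hEc := Complex.ofRealCLM.hasFDerivAt.comp z hE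
  have hSc := Complex.ofRealCLM.hasFDerivAt.comp z (hS.const_mul p)
  have hS1c := (Complex.ofRealCLM.hasFDerivAt.comp z hS1).const_mul Complex.I
  have hD := (hEc.mul hhR).mul (hSc.sub hS1c)
  refine ⟨?_, ?_⟩
  · refine hV.congr_fderiv ?_
    refine ContinuousLinearMap.ext fun v => ?_
    simp [Complex.mul_re, Complex.mul_im, -Complex.ofReal_exp, -Complex.ofReal_mul,
      -Complex.ofReal_pow, -Complex.ofReal_add]
    ring
  · refine ⟨_, hD, ?_⟩
    have e1 : ‖h z‖ ^ 2 = (h z).re * (h z).re + (h z).im * (h z).im := by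
      rw [Complex.sq_norm, Complex.normSq_apply]
    rw [e1]
    apply Complex.ext
    · simp [Complex.mul_re, Complex.mul_im, -Complex.ofReal_exp, -Complex.ofReal_mul,
      -Complex.ofReal_pow, -Complex.ofReal_add]
      ring
    · simp [Complex.mul_re, Complex.mul_im, -Complex.ofReal_exp, -Complex.ofReal_mul,
      -Complex.ofReal_pow, -Complex.ofReal_add]
      ring

end CAL

open CAL in
/-- RX-5 -/
theorem t_CAL : S_CAL := by
  intro p ψ ψ1 ψ2 f z h1 h2 hp hf hfz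
  have hp1 := per_deriv h1 hp
  have hp2 := per_deriv h2 hp1
  obtain ⟨c, hc, hcz⟩ : ∃ c : ℂ, (c = 1 ∨ c = -1) ∧ c * f z ∈ Complex.slitPlane := by
    by_cases h : f z ∈ Complex.slitPlane
    · exact ⟨1, Or.inl rfl, by rwa [one_mul]⟩
    · refine ⟨-1, Or.inr rfl, ?_⟩
      rw [Complex.mem_slitPlane_iff] at h ⊢
      push Not at h
      left
      rw [neg_one_mul, Complex.neg_re]
      have h3 : (f z).re ≠ 0 := fun h4 => hfz (Complex.ext h4 h.2)
      have h4 := lt_of_le_of_ne h.1 h3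
      linarith
  have hc0 : c ≠ 0 := by
    rcases hc with rfl | rfl <;> norm_num
  obtain ⟨g, hg⟩ : ∃ g : ℂ → ℂ, g = fun w => Complex.log (c * f w) := ⟨_, rfl⟩
  obtain ⟨h, hh⟩ : ∃ h : ℂ → ℂ, h = fun w => deriv f w / f w := ⟨_, rfl⟩
  have hgd : HasDerivAt g (h z) z := by
    have h3 := (hf.differentiableAt.hasDerivAt.const_mul c).clog hcz
    have h4 : c * deriv f z / (c * f z) = h z := by
      rw [hh]
      exact mul_div_mul_left _ _ hc0
    rw [hg, ← h4]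
    exact h3
  have hhd : HasDerivAt h (deriv h z) z := by
    rw [hh]
    exact (hf.deriv.div hf hfz).differentiableAt.hasDerivAt
  obtain ⟨hV, L, hL, hI⟩ := main p h1 h2 hgd hhd
  have hev : ∀ᶠ w in 𝓝 z, f w ≠ 0 := hf.continuousAt.eventually_ne hfz
  have e1 : VV p ψ f =ᶠ[𝓝 z] fun w => Real.exp (p * (g w).re) * ψ (g w).im := by
    filter_upwards [hev] with w hw
    rw [hg]
    change ‖f w‖ ^ p * ψ (Complex.arg (f w)) = _
    rw [norm_pow_eq p hc hw, ← per_arg hp hc hw]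
  have e2 : DD p ψ ψ1 f =ᶠ[𝓝 z] fun w => ((Real.exp (p * (g w).re) : ℝ) : ℂ) * h w *
      ((p * ψ (g w).im : ℝ) - Complex.I * (ψ1 (g w).im : ℝ)) := by
    filter_upwards [hev] with w hw
    rw [hg, hh]
    change ((‖f w‖ ^ p : ℝ) : ℂ) * (deriv f w / f w) *
      ((p * ψ (Complex.arg (f w)) : ℝ) - Complex.I * (ψ1 (Complex.arg (f w)) : ℝ)) = _
    rw [norm_pow_eq p hc hw, ← per_arg hp hc hw, ← per_arg hp1 hc hw]
  refine ⟨?_, L, hL.congr_of_eventuallyEq e2, ?_⟩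
  · rw [e2.eq_of_nhds]
    exact hV.congr_of_eventuallyEq e1
  · rw [hI]
    have e3 : (g z).im = (Complex.log (c * f z)).im := by rw [hg]
    have e4 : (g z).re = (Complex.log (c * f z)).re := by rw [hg]
    rw [e3, e4, per_arg hp hc hfz, per_arg hp2 hc hfz, ← norm_pow_eq p hc hfz, hh]

end Pool.Agent.NH67.RX
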