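import Pool.Agent.NH67.RX.Stm

/-!
# RX-17: duality
-/

set_option autoImplicit false

open MeasureTheory Set Filter Topology

namespace Pool.Agent.NH67.RX

lemma bdd_memLp {w : ℝ → ℂ} (hm : Measurable w) (M n : ℝ) (hb : ∀ t, ‖w t‖ ≤ M)
    (hs : ∀ t, n ≤ t → w t = 0) (r : ENNReal) : MemLp w r hl := by
  have e : w = (Iio n).indicator w := by
    funext t
    by_cases ht : t ∈ Iio n
    · rw [indicator_of_mem ht]
    · rw [indicator_of_notMem ht]
      exact hs t (not_lt.mp ht)
  rw [e, memLp_indicator_iff_restrict measurableSet_Iio]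
  have : IsFiniteMeasure (hl.restrict (Iio n)) := by
    constructor
    rw [Measure.restrict_apply_univ, Measure.restrict_apply measurableSet_Iio]
    exact (measure_mono (fun t ht => ⟨ht.2, ht.1⟩ : Iio n ∩ Ioi 0 ⊆ Ioo 0 n)).trans_lt
      measure_Ioo_lt_top
  exact MemLp.of_bound hm.aestronglyMeasurable M (ae_of_all _ hb)

lemma dual_aux (T T' : (ℝ → ℂ) → (ℝ → ℂ) → Prop)
    (hadj : ∀ u v x y, T u v → T' x y →
      ∫ t in Ioi (0 : ℝ), v t * x t = ∫ t in Ioi (0 : ℝ), u t * y t)
    (hT : ∀ u v, T u v → MemLp u 2 hl ∧ MemLp v 2 hl)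
    (hT' : ∀ u v, T' u v → MemLp u 2 hl ∧ MemLp v 2 hl)
    (hex : ∀ u, MemLp u 2 hl → ∃ v, T u v) (p q C : ℝ) (hp : 1 < p) (hq : 1 < q)
    (hpq : 1 / p + 1 / q = 1) (hC : 0 ≤ C) (hB : Bd T p C) : Bd T' q C := by
  intro x y hxy hx
  obtain ⟨hx2, hy2⟩ := hT' x y hxy
  have hh2 : MemLp (x - y) 2 hl := hx2.sub hy2
  set hm : ℝ → ℂ := hh2.aestronglyMeasurable.mk (x - y) with hhm
  have hmm : Measurable hm := hh2.aestronglyMeasurable.stronglyMeasurable_mk.measurable
  have hae : x - y =ᵐ[hl] hm := hh2.aestronglyMeasurable.ae_eq_mk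
  have hp0 : 0 < p := by linarith
  have hq0 : 0 < q := by linarith
  have hconj : (q - 1) * p = q := by
    have h2 : p * q ≠ 0 := by positivity
    field_simp at hpq
    linarith
  have hpN : ENNReal.ofReal p ≠ 0 := by simpa using hp0
  have hqN : ENNReal.ofReal q ≠ 0 := by simpa using hq0
  set fn : ℕ → ℝ → ℂ := fun n t => if t < n ∧ ‖hm t‖ ≤ n then hm t else 0 with hfn
  set wn : ℕ → ℝ → ℂ := fun n t => (starRingEnd ℂ) (fn n t) * ((‖fn n t‖ ^ (q - 2) : ℝ) : ℂ) with hwn
  have hset : ∀ n : ℕ, MeasurableSet {t : ℝ | t < n ∧ ‖hm t‖ ≤ n} := fun n =>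
    (measurableSet_lt measurable_id measurable_const).inter
      (measurableSet_le hmm.norm measurable_const)
  have hfm : ∀ n, Measurable (fn n) := fun n => Measurable.ite (hset n) hmm measurable_const
  have hwm : ∀ n, Measurable (wn n) := fun n =>
    (Complex.continuous_conj.measurable.comp (hfm n)).mul
      (Complex.measurable_ofReal.comp ((hfm n).norm.pow_const _))
  have hfb : ∀ n t, ‖fn n t‖ ≤ n := by
    intro n t
    simp only [hfn]
    split_ifs with h
    · exact h.2
    · simp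
  have hfs : ∀ (n : ℕ) (t : ℝ), (n : ℝ) ≤ t → fn n t = 0 := by
    intro n t ht
    simp only [hfn]
    rw [if_neg]
    rintro ⟨h1, -⟩
    linarith
  have hwnorm : ∀ n t, ‖wn n t‖ = ‖fn n t‖ ^ (q - 1) := by
    intro n t
    simp only [hwn]
    rw [norm_mul, RCLike.norm_conj, Complex.norm_real, Real.norm_of_nonneg (by positivity)]
    rcases (norm_nonneg (fn n t)).eq_or_lt with h | h
    · rw [← h, zero_mul, Real.zero_rpow (by linarith)]
    · nth_rw 1 [← Real.rpow_one ‖fn n t‖]
      rw [← Real.rpow_add h]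
      congr 1; ring
  have hwb : ∀ n t, ‖wn n t‖ ≤ (n : ℝ) ^ (q - 1) := by
    intro n t
    rw [hwnorm]
    exact Real.rpow_le_rpow (norm_nonneg _) (hfb n t) (by linarith)
  have hws : ∀ (n : ℕ) (t : ℝ), (n : ℝ) ≤ t → wn n t = 0 := by
    intro n t ht
    simp only [hwn]
    rw [hfs n t ht]; simp
  have hwL : ∀ n (r : ENNReal), MemLp (wn n) r hl := fun n r => bdd_memLp (hwm n) _ n (hwb n) (hws n) r
  have hfL : ∀ n (r : ENNReal), MemLp (fn n) r hl := fun n r => bdd_memLp (hfm n) _ n (hfb n) (hfs n) r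
  have hmain : ∀ n, eLpNorm (fn n) (ENNReal.ofReal q) hl ≤
      ENNReal.ofReal C * eLpNorm x (ENNReal.ofReal q) hl := by
    intro n
    obtain ⟨v, hv⟩ := hex (wn n) (hwL n 2)
    obtain ⟨-, hv2⟩ := hT _ _ hv
    have hbd := hB (wn n) v hv (hwL n _)
    -- the integral
    have i1 : Integrable (fun t => x t * wn n t) hl := by
      have := (hwL n 2).integrable_mul hx2
      exact (this.congr (ae_of_all _ fun t => by simp [mul_comm]))
    have i2 : Integrable (fun t => y t * wn n t) hl := by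
      have := (hwL n 2).integrable_mul hy2
      exact (this.congr (ae_of_all _ fun t => by simp [mul_comm]))
    have i3 : Integrable (fun t => x t * v t) hl := by
      have := hv2.integrable_mul hx2
      exact (this.congr (ae_of_all _ fun t => by simp [mul_comm]))
    have e1 : ∫ t in Ioi (0 : ℝ), (x t - y t) * wn n t = ∫ t in Ioi (0 : ℝ), x t * (wn n - v) t := by
      have a1 : ∫ t in Ioi (0 : ℝ), (x t - y t) * wn n t =
          (∫ t in Ioi (0 : ℝ), x t * wn n t) - ∫ t in Ioi (0 : ℝ), y t * wn n t := by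
        rw [← integral_sub i1 i2]
        congr 1; funext t; ring
      have a2 : ∫ t in Ioi (0 : ℝ), x t * (wn n - v) t =
          (∫ t in Ioi (0 : ℝ), x t * wn n t) - ∫ t in Ioi (0 : ℝ), x t * v t := by
        rw [← integral_sub i1 i3]
        congr 1; funext t; simp only [Pi.sub_apply]; ring
      have a3 := hadj _ _ _ _ hv hxy
      rw [a1, a2]
      congr 1
      rw [show (fun t => y t * wn n t) = fun t => wn n t * y t from funext fun t => mul_comm _ _,
        ← a3]
      congr 1; funext t; ring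
    have hpt : ∀ t, hm t * wn n t = ((‖fn n t‖ ^ q : ℝ) : ℂ) := by
      intro t
      have b1 : hm t * wn n t = fn n t * wn n t := by
        by_cases h : t < n ∧ ‖hm t‖ ≤ n
        · congr 1
          simp only [hfn]; rw [if_pos h]
        · have : fn n t = 0 := by simp only [hfn]; rw [if_neg h]
          have h2 : wn n t = 0 := by simp only [hwn]; rw [this]; simp
          rw [h2, mul_zero, mul_zero]
      rw [b1]
      simp only [hwn]
      rw [← mul_assoc, Complex.mul_conj, Complex.normSq_eq_norm_sq, ← Complex.ofReal_mul]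
      congr 1
      rcases (norm_nonneg (fn n t)).eq_or_lt with h | h
      · rw [← h, Real.zero_rpow hq0.ne']; simp
      · rw [← Real.rpow_natCast ‖fn n t‖ 2, ← Real.rpow_add h]
        congr 1; push_cast; ring
    have e2 : ∫ t in Ioi (0 : ℝ), (x t - y t) * wn n t =
        ((∫ t in Ioi (0 : ℝ), ‖fn n t‖ ^ q : ℝ) : ℂ) := by
      rw [← integral_complex_ofReal]
      apply integral_congr_ae
      filter_upwards [hae] with t ht
      have : x t - y t = hm t := ht
      rw [this]
      exact hpt t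
    -- the lower integral
    set J : ENNReal := ∫⁻ t, ‖fn n t‖ₑ ^ q ∂hl with hJ
    have hJf : eLpNorm (fn n) (ENNReal.ofReal q) hl = J ^ (1 / q) := by
      rw [eLpNorm_eq_lintegral_rpow_enorm_toReal hqN ENNReal.ofReal_ne_top,
        ENNReal.toReal_ofReal hq0.le]
    have hJw : eLpNorm (wn n) (ENNReal.ofReal p) hl = J ^ (1 / p) := by
      rw [eLpNorm_eq_lintegral_rpow_enorm_toReal hpN ENNReal.ofReal_ne_top,
        ENNReal.toReal_ofReal hp0.le]
      congr 1
      apply lintegral_congr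
      intro t
      rw [← ofReal_norm, ← ofReal_norm, hwnorm,
        ENNReal.ofReal_rpow_of_nonneg (by positivity) hp0.le,
        ENNReal.ofReal_rpow_of_nonneg (norm_nonneg _) hq0.le, ← Real.rpow_mul (norm_nonneg _), hconj]
    have hJtop : J ≠ ⊤ := by
      intro h
      have := (hfL n (ENNReal.ofReal q)).eLpNorm_lt_top
      rw [hJf, h, ENNReal.top_rpow_of_pos (by positivity)] at this
      exact lt_irrefl _ this
    have hJe : J = ‖∫ t in Ioi (0 : ℝ), (x t - y t) * wn n t‖ₑ := by
      rw [e2, ← ofReal_norm, Complex.norm_real,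
        Real.norm_of_nonneg (integral_nonneg fun t => by positivity),
        ofReal_integral_eq_lintegral_ofReal]
      · apply lintegral_congr
        intro t
        rw [← ofReal_norm, ENNReal.ofReal_rpow_of_nonneg (norm_nonneg _) hq0.le]
      · have := (hfL n (ENNReal.ofReal q)).integrable_norm_rpow hqN ENNReal.ofReal_ne_top
        rwa [ENNReal.toReal_ofReal hq0.le] at this
      · exact ae_of_all _ fun t => by positivity
    have hJle : J ≤ (ENNReal.ofReal C * eLpNorm x (ENNReal.ofReal q) hl) * J ^ (1 / p) := by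
      rw [hJe, e1]
      refine (enorm_integral_le_lintegral_enorm _).trans ?_
      have hho : (Real.HolderConjugate q p) := by
        rw [Real.holderConjugate_iff]
        refine ⟨hq, ?_⟩
        rw [← one_div, ← one_div]; linarith
      have b1 := ENNReal.lintegral_mul_le_Lp_mul_Lq hl hho
        (f := fun t => ‖x t‖ₑ) (g := fun t => ‖(wn n - v) t‖ₑ)
        hx2.aestronglyMeasurable.enorm ((hwL n 2).sub hv2).aestronglyMeasurable.enorm
      have b2 : ∫⁻ t, ‖x t * (wn n - v) t‖ₑ ∂hl ≤ eLpNorm x (ENNReal.ofReal q) hl *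
          eLpNorm (wn n - v) (ENNReal.ofReal p) hl := by
        rw [eLpNorm_eq_lintegral_rpow_enorm_toReal hqN ENNReal.ofReal_ne_top,
          ENNReal.toReal_ofReal hq0.le, eLpNorm_eq_lintegral_rpow_enorm_toReal hpN
          ENNReal.ofReal_ne_top, ENNReal.toReal_ofReal hp0.le]
        refine le_trans (le_of_eq ?_) b1
        apply lintegral_congr
        intro t
        simp only [Pi.mul_apply, enorm_mul]
      refine b2.trans ?_
      have b3 : eLpNorm (wn n - v) (ENNReal.ofReal p) hl ≤ ENNReal.ofReal C * J ^ (1 / p) := by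
        rw [← hJw]; exact hbd
      calc eLpNorm x (ENNReal.ofReal q) hl * eLpNorm (wn n - v) (ENNReal.ofReal p) hl
          ≤ eLpNorm x (ENNReal.ofReal q) hl * (ENNReal.ofReal C * J ^ (1 / p)) := by gcongr
        _ = (ENNReal.ofReal C * eLpNorm x (ENNReal.ofReal q) hl) * J ^ (1 / p) := by ring
        _ ≤ _ := by
          have : J = ‖∫ t in Ioi (0 : ℝ), x t * (wn n - v) t‖ₑ := by rw [hJe, e1]
          rw [← this]
    rw [hJf]
    rcases eq_or_ne J 0 with h0 | h0
    · rw [h0, ENNReal.zero_rpow_of_pos (by positivity)]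
      exact zero_le
    · have hd : J ^ (1 / p) ≠ 0 := (ENNReal.rpow_pos (pos_iff_ne_zero.mpr h0) hJtop).ne'
      have hd' : J ^ (1 / p) ≠ ⊤ := ENNReal.rpow_ne_top_of_nonneg (by positivity) hJtop
      have e3 : J = J ^ (1 / q) * J ^ (1 / p) := by
        rw [← ENNReal.rpow_add _ _ h0 hJtop, add_comm (1 / q), hpq, ENNReal.rpow_one]
      have e4 : J ^ (1 / q) * J ^ (1 / p) ≤
          (ENNReal.ofReal C * eLpNorm x (ENNReal.ofReal q) hl) * J ^ (1 / p) := by
        rw [← e3]; exact hJle
      exact (ENNReal.mul_le_mul_iff_left hd hd').mp e4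
  -- the limit
  have hlim : ∀ᵐ t ∂hl, Tendsto (fun n => fn n t) atTop (𝓝 ((x - y) t)) := by
    filter_upwards [hae] with t ht
    rw [ht]
    apply tendsto_const_nhds.congr'
    obtain ⟨N, hN⟩ := exists_nat_gt (max t ‖hm t‖)
    filter_upwards [eventually_ge_atTop N] with n hn
    have hnN : (N : ℝ) ≤ n := by exact_mod_cast hn
    have h1 : t < n := (le_max_left _ _).trans_lt (hN.trans_le hnN)
    have h2 : ‖hm t‖ ≤ n := ((le_max_right _ _).trans_lt (hN.trans_le hnN)).le
    simp only [hfn]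
    rw [if_pos ⟨h1, h2⟩]
  have hF := Lp.eLpNorm_lim_le_liminf_eLpNorm (p := ENNReal.ofReal q) (μ := hl)
    (fun n => (hfm n).aestronglyMeasurable) (x - y) hlim
  refine hF.trans ?_
  refine (Filter.liminf_le_liminf (Eventually.of_forall hmain)).trans ?_
  rw [liminf_const]

theorem t_DUAL : S_DUAL := by
  intro hL p q C hp hq hpq hC
  have hadj : ∀ u v x y, IsPi u v → IsPi' x y →
      ∫ t in Ioi (0 : ℝ), v t * x t = ∫ t in Ioi (0 : ℝ), u t * y t := by
    rintro u v x y ⟨w, hw1, hw2⟩ ⟨z, hz1, hz2⟩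
    rw [hL.sin_adj w v x z hw2 hz1, hL.cos_adj u w z y hw1 hz2]
  have hPi : ∀ u v, IsPi u v → MemLp u 2 hl ∧ MemLp v 2 hl := by
    rintro u v ⟨w, h1, h2⟩
    exact ⟨h1.left, h2.right⟩
  have hPi' : ∀ u v, IsPi' u v → MemLp u 2 hl ∧ MemLp v 2 hl := by
    rintro u v ⟨w, h1, h2⟩
    exact ⟨h1.left, h2.right⟩
  have hex : ∀ u, MemLp u 2 hl → ∃ v, IsPi u v := by
    intro u hu
    obtain ⟨w, hw⟩ := hL.cos_ex u hu
    obtain ⟨v, hv⟩ := hL.sin_ex w hw.right
    exact ⟨v, w, hw, hv⟩
  have hex' : ∀ u, MemLp u 2 hl → ∃ v, IsPi' u v := by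
    intro u hu
    obtain ⟨w, hw⟩ := hL.sin_ex u hu
    obtain ⟨v, hv⟩ := hL.cos_ex w hw.right
    exact ⟨v, w, hw, hv⟩
  constructor
  · exact dual_aux IsPi IsPi' hadj hPi hPi' hex p q C hp hq hpq hC
  · refine dual_aux IsPi' IsPi ?_ hPi' hPi hex' p q C hp hq hpq hC
    intro u v x y huv hxy
    have := hadj x y u v hxy huv
    rw [show (fun t => v t * x t) = fun t => x t * v t from funext fun t => mul_comm _ _,
      show (fun t => u t * y t) = fun t => y t * u t from funext fun t => mul_comm _ _]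
    exact this.symm

end Pool.Agent.NH67.RX
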