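import Pool.Agent.NH67.RX.Gen
import Pool.Agent.NH67.RX.Dual

/-!
# RX-13: convergence of the regularisations
-/

set_option autoImplicit false

open MeasureTheory Set Filter Topology

namespace Pool.Agent.NH67.RX

lemma cosT_real (ρ : ℝ → ℝ) (x : ℝ) : cosT (fun t => (ρ t : ℂ)) x =
    ((√(2 / Real.pi) * ∫ t in Ioi (0 : ℝ), Real.cos (x * t) * ρ t : ℝ) : ℂ) := by
  rw [cosT, Complex.ofReal_mul, ← integral_complex_ofReal]
  congr 1
  apply integral_congr_ae
  exact ae_of_all _ fun t => by push_cast; ring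

lemma sinT_real (ρ : ℝ → ℝ) (x : ℝ) : sinT (fun t => (ρ t : ℂ)) x =
    ((√(2 / Real.pi) * ∫ t in Ioi (0 : ℝ), Real.sin (x * t) * ρ t : ℝ) : ℂ) := by
  rw [sinT, Complex.ofReal_mul, ← integral_complex_ofReal]
  congr 1
  apply integral_congr_ae
  exact ae_of_all _ fun t => by push_cast; ring

lemma Ft_eq (W : ℝ → ℝ) (ε x : ℝ)
    (hi : Integrable (fun t => ((Real.exp (-ε * t) * W t : ℝ) : ℂ)) hl) :
    Ft (fun t => √(2 / Real.pi) * W t) ε x =
      cosT (fun t => ((Real.exp (-ε * t) * W t : ℝ) : ℂ)) x +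
      Complex.I * sinT (fun t => ((Real.exp (-ε * t) * W t : ℝ) : ℂ)) x := by
  have hc : Integrable (fun t => (Real.cos (x * t) : ℂ) * ((Real.exp (-ε * t) * W t : ℝ) : ℂ)) hl := by
    apply hi.bdd_mul (c := 1)
    · exact (Complex.measurable_ofReal.comp (Real.measurable_cos.comp
        (measurable_const.mul measurable_id))).aestronglyMeasurable
    · exact ae_of_all _ fun t => by
        rw [Complex.norm_real]; exact Real.abs_cos_le_one _
  have hs : Integrable (fun t => (Real.sin (x * t) : ℂ) * ((Real.exp (-ε * t) * W t : ℝ) : ℂ)) hl := by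
    apply hi.bdd_mul (c := 1)
    · exact (Complex.measurable_ofReal.comp (Real.measurable_sin.comp
        (measurable_const.mul measurable_id))).aestronglyMeasurable
    · exact ae_of_all _ fun t => by
        rw [Complex.norm_real]; exact Real.abs_sin_le_one _
  rw [cosT, sinT, Ft]
  have e : ∀ t : ℝ, ((√(2 / Real.pi) * W t * Real.exp (-ε * t) : ℝ) : ℂ) *
      Complex.exp (Complex.I * x * t) = ((√(2 / Real.pi) : ℝ) : ℂ) *
      ((Real.cos (x * t) : ℂ) * ((Real.exp (-ε * t) * W t : ℝ) : ℂ) +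
        Complex.I * ((Real.sin (x * t) : ℂ) * ((Real.exp (-ε * t) * W t : ℝ) : ℂ))) := by
    intro t
    have : Complex.exp (Complex.I * x * t) =
        (Real.cos (x * t) : ℂ) + Complex.I * (Real.sin (x * t) : ℂ) := by
      rw [show Complex.I * x * t = ((x * t : ℝ) : ℂ) * Complex.I by push_cast; ring,
        Complex.exp_mul_I, Complex.ofReal_cos, Complex.ofReal_sin]
      ring
    rw [this]
    push_cast
    ring
  simp_rw [e]
  rw [integral_const_mul, integral_add hc (hs.const_mul Complex.I), integral_const_mul]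
  ring

lemma subseq {a b : ℕ → ℝ → ℂ} {a' b' : ℝ → ℂ} (ha : ∀ n, MemLp (a n) 2 hl)
    (hb : ∀ n, MemLp (b n) 2 hl) (ha' : MemLp a' 2 hl) (hb' : MemLp b' 2 hl)
    (h1 : Tendsto (fun n => eLpNorm (a n - a') 2 hl) atTop (𝓝 0))
    (h2 : Tendsto (fun n => eLpNorm (b n - b') 2 hl) atTop (𝓝 0)) :
    ∃ φ : ℕ → ℕ, ∀ᵐ x ∂hl, Tendsto (fun n => a (φ n) x) atTop (𝓝 (a' x)) ∧
      Tendsto (fun n => b (φ n) x) atTop (𝓝 (b' x)) := by
  have m1 : TendstoInMeasure hl a atTop a' :=
    tendstoInMeasure_of_tendsto_eLpNorm (p := 2) (by norm_num)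
      (fun n => (ha n).aestronglyMeasurable) ha'.aestronglyMeasurable h1
  obtain ⟨ns, hns, hl1⟩ := m1.exists_seq_tendsto_ae
  have m2 : TendstoInMeasure hl (fun n => b (ns n)) atTop b' :=
    tendstoInMeasure_of_tendsto_eLpNorm (p := 2) (by norm_num)
      (fun n => (hb _).aestronglyMeasurable) hb'.aestronglyMeasurable
      (h2.comp hns.tendsto_atTop)
  obtain ⟨ms, hms, hl2⟩ := m2.exists_seq_tendsto_ae
  refine ⟨fun n => ns (ms n), ?_⟩
  filter_upwards [hl1, hl2] with x g1 g2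
  exact ⟨g1.comp hms.tendsto_atTop, g2⟩

/-- the regularised function -/
noncomputable def wreg (W : ℝ → ℝ) (n : ℕ) (t : ℝ) : ℂ :=
  ((Real.exp (-(1 / ((n : ℝ) + 1)) * t) * W t : ℝ) : ℂ)

lemma exp_memLp (ε : ℝ) (hε : 0 < ε) : MemLp (fun t => (Real.exp (-ε * t) : ℂ)) 2 hl := by
  have hm : AEStronglyMeasurable (fun t => (Real.exp (-ε * t) : ℂ)) hl :=
    (Complex.measurable_ofReal.comp (Real.measurable_exp.comp
      (measurable_const.mul measurable_id))).aestronglyMeasurable
  rw [memLp_two_iff_integrable_sq_norm hm]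
  have h1 : IntegrableOn (fun t : ℝ => Real.exp (-(2 * ε) * t)) (Ioi 0) :=
    integrableOn_exp_mul_Ioi (by linarith) 0
  refine h1.congr (ae_of_all _ fun t => ?_)
  show Real.exp (-(2 * ε) * t) = ‖(Real.exp (-ε * t) : ℂ)‖ ^ 2
  rw [Complex.norm_real, Real.norm_of_nonneg (Real.exp_pos _).le, ← Real.exp_nat_mul]
  congr 1; push_cast; ring

lemma wreg_props (W : ℝ → ℝ) (hW : MemLp (fun t => (W t : ℂ)) 2 hl) :
    (∀ n, MemLp (wreg W n) 1 hl) ∧ (∀ n, MemLp (wreg W n) 2 hl) ∧
    Tendsto (fun n => eLpNorm (wreg W n - fun t => (W t : ℂ)) 2 hl) atTop (𝓝 0) := by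
  have hpos : ∀ n : ℕ, 0 < 1 / ((n : ℝ) + 1) := fun n => by positivity
  have e : ∀ n, wreg W n = fun t => (Real.exp (-(1 / ((n : ℝ) + 1)) * t) : ℂ) * (W t : ℂ) := by
    intro n; funext t; rw [wreg]; push_cast; ring
  have h1 : ∀ n, MemLp (wreg W n) 1 hl := by
    intro n
    rw [memLp_one_iff_integrable, e]
    exact (exp_memLp _ (hpos n)).integrable_mul hW
  have hle : ∀ n : ℕ, ∀ᵐ t : ℝ ∂hl, 0 < t ∧ Real.exp (-(1 / ((n : ℝ) + 1)) * t) ≤ 1 := by
    intro n
    filter_upwards [ae_restrict_mem measurableSet_Ioi] with t ht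
    refine ⟨ht, ?_⟩
    rw [Real.exp_le_one_iff]
    have := mul_pos (hpos n) (show (0 : ℝ) < t from ht)
    linarith
  have h2 : ∀ n, MemLp (wreg W n) 2 hl := by
    intro n
    refine hW.mono (h1 n).aestronglyMeasurable ?_
    filter_upwards [hle n] with t ht
    rw [e]
    simp only
    rw [norm_mul, Complex.norm_real, Real.norm_of_nonneg (Real.exp_pos _).le]
    exact mul_le_of_le_one_left (norm_nonneg _) ht.2
  refine ⟨h1, h2, ?_⟩
  apply tend_L2 hW (fun n => (h2 n).aestronglyMeasurable)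
  · intro n
    filter_upwards [hle n] with t ht
    rw [e]
    simp only
    rw [← sub_one_mul, norm_mul]
    apply mul_le_of_le_one_left (norm_nonneg _)
    rw [← Complex.ofReal_one, ← Complex.ofReal_sub, Complex.norm_real, Real.norm_eq_abs, abs_le]
    have := Real.exp_pos (-(1 / ((n : ℝ) + 1)) * t)
    constructor <;> linarith [ht.2]
  · refine ae_of_all _ fun t => ?_
    have h3 : Tendsto (fun n : ℕ => -(1 / ((n : ℝ) + 1)) * t) atTop (𝓝 0) := by
      have := (tendsto_one_div_add_atTop_nhds_zero_nat (𝕜 := ℝ)).neg.mul_const t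
      simpa using this
    have h4 : Tendsto (fun n : ℕ => Real.exp (-(1 / ((n : ℝ) + 1)) * t)) atTop (𝓝 1) := by
      have := (Real.continuous_exp.tendsto 0).comp h3
      rwa [Real.exp_zero] at this
    have h5 := ((Complex.continuous_ofReal.tendsto 1).comp h4).mul_const ((W t : ℝ) : ℂ)
    rw [Complex.ofReal_one, one_mul] at h5
    refine h5.congr fun n => ?_
    rw [e]
    rfl

theorem t_CONV : S_CONV := by
  intro hL u M R v hB
  have hπ := Real.pi_pos
  set U : ℝ → ℂ := fun x => (u x : ℂ) with hU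
  have hUL : ∀ r : ENNReal, MemLp U r hl := by
    intro r
    apply bdd_memLp (Complex.measurable_ofReal.comp hB.meas) M R
    · intro t
      show ‖((u t : ℝ) : ℂ)‖ ≤ M
      rw [Complex.norm_real]; exact hB.bd t
    · intro t ht
      show ((u t : ℝ) : ℂ) = 0
      rw [hB.supp t (fun h => not_lt.mpr ht h.2)]; simp
  have hsq : √(2 / Real.pi) * √(2 / Real.pi) = 2 / Real.pi :=
    Real.mul_self_sqrt (by positivity)
  constructor
  · rintro ⟨w', hw1, hw2⟩
    set W : ℝ → ℝ := fun t => √(2 / Real.pi) * ∫ s in Ioi (0 : ℝ), Real.cos (t * s) * u s with hW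
    have hcos : IsCos U (fun t => (W t : ℂ)) := by
      have := hL.cos_self U (hUL 1) (hUL 2)
      rwa [show cosT U = fun t => (W t : ℂ) from funext fun t => cosT_real u t] at this
    have hsin : IsSin (fun t => (W t : ℂ)) v :=
      hL.sin_ae _ _ _ _ hw2 (hL.cos_uniq _ _ _ hcos hw1) (EventuallyEq.refl _ _)
    obtain ⟨p1, p2, p3⟩ := wreg_props W hcos.right
    have hc : ∀ n, IsCos (wreg W n) (cosT (wreg W n)) := fun n => hL.cos_self _ (p1 n) (p2 n)
    have hs : ∀ n, IsSin (wreg W n) (sinT (wreg W n)) := fun n => hL.sin_self _ (p1 n) (p2 n)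
    have t1 : Tendsto (fun n => eLpNorm (cosT (wreg W n) - U) 2 hl) atTop (𝓝 0) := by
      refine p3.congr fun n => ?_
      exact (hL.cos_norm _ _ (hL.cos_sub _ _ _ _ (hc n) (hL.cos_symm _ _ hcos))).symm
    have t2 : Tendsto (fun n => eLpNorm (sinT (wreg W n) - v) 2 hl) atTop (𝓝 0) := by
      refine p3.congr fun n => ?_
      exact (hL.sin_norm _ _ (hL.sin_sub _ _ _ _ (hs n) hsin)).symm
    obtain ⟨φ, hφ⟩ := subseq (fun n => (hc n).right) (fun n => (hs n).right) (hUL 2) hsin.right t1 t2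
    refine ⟨fun n => 1 / ((φ n : ℝ) + 1), fun n => by positivity, ?_⟩
    have hG : gc u = fun t => √(2 / Real.pi) * W t := by
      funext t
      rw [gc, hW, ← mul_assoc, hsq]
    have key : ∀ n (x : ℝ), (((Ft (gc u) (1 / ((φ n : ℝ) + 1)) x).re : ℝ) : ℂ) =
        cosT (wreg W (φ n)) x ∧ (((Ft (gc u) (1 / ((φ n : ℝ) + 1)) x).im : ℝ) : ℂ) =
        sinT (wreg W (φ n)) x := by
      intro n x
      have h5 := Ft_eq W (1 / ((φ n : ℝ) + 1)) x (memLp_one_iff_integrable.mp (p1 (φ n)))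
      rw [hG, h5]
      unfold wreg
      rw [cosT_real, sinT_real]
      constructor
      · congr 1; simp
      · congr 1; simp
    filter_upwards [hφ] with x hx
    simp only [fun n => (key n x).1, fun n => (key n x).2]
    exact hx
  · rintro ⟨w', hw1, hw2⟩
    set W : ℝ → ℝ := fun t => √(2 / Real.pi) * ∫ s in Ioi (0 : ℝ), Real.sin (t * s) * u s with hW
    have hsin : IsSin U (fun t => (W t : ℂ)) := by
      have := hL.sin_self U (hUL 1) (hUL 2)
      rwa [show sinT U = fun t => (W t : ℂ) from funext fun t => sinT_real u t] at this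
    have hcos : IsCos (fun t => (W t : ℂ)) v :=
      hL.cos_ae _ _ _ _ hw2 (hL.sin_uniq _ _ _ hsin hw1) (EventuallyEq.refl _ _)
    obtain ⟨p1, p2, p3⟩ := wreg_props W hsin.right
    have hc : ∀ n, IsCos (wreg W n) (cosT (wreg W n)) := fun n => hL.cos_self _ (p1 n) (p2 n)
    have hs : ∀ n, IsSin (wreg W n) (sinT (wreg W n)) := fun n => hL.sin_self _ (p1 n) (p2 n)
    have t1 : Tendsto (fun n => eLpNorm (sinT (wreg W n) - U) 2 hl) atTop (𝓝 0) := by
      refine p3.congr fun n => ?_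
      exact (hL.sin_norm _ _ (hL.sin_sub _ _ _ _ (hs n) (hL.sin_symm _ _ hsin))).symm
    have t2 : Tendsto (fun n => eLpNorm (cosT (wreg W n) - v) 2 hl) atTop (𝓝 0) := by
      refine p3.congr fun n => ?_
      exact (hL.cos_norm _ _ (hL.cos_sub _ _ _ _ (hc n) hcos)).symm
    obtain ⟨φ, hφ⟩ := subseq (fun n => (hs n).right) (fun n => (hc n).right) (hUL 2) hcos.right t1 t2
    refine ⟨fun n => 1 / ((φ n : ℝ) + 1), fun n => by positivity, ?_⟩
    have hG : gs u = fun t => √(2 / Real.pi) * W t := by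
      funext t
      rw [gs, hW, ← mul_assoc, hsq]
    have key : ∀ n (x : ℝ), (((Ft (gs u) (1 / ((φ n : ℝ) + 1)) x).re : ℝ) : ℂ) =
        cosT (wreg W (φ n)) x ∧ (((Ft (gs u) (1 / ((φ n : ℝ) + 1)) x).im : ℝ) : ℂ) =
        sinT (wreg W (φ n)) x := by
      intro n x
      have h5 := Ft_eq W (1 / ((φ n : ℝ) + 1)) x (memLp_one_iff_integrable.mp (p1 (φ n)))
      rw [hG, h5]
      unfold wreg
      rw [cosT_real, sinT_real]
      constructor
      · congr 1; simp
      · congr 1; simp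
    filter_upwards [hφ] with x hx
    simp only [fun n => (key n x).1, fun n => (key n x).2]
    exact hx

end Pool.Agent.NH67.RX
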