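import Pool.Agent.NH67.RX.Stm

/-! RX-8 (project of helper67): the inequalities for nice functions, `t_CORE`. By helper49. -/

set_option autoImplicit false

open MeasureTheory Set Filter Topology

namespace Pool.Agent.NH67.RX

namespace Core49

lemma cont_real {f : ℂ → ℂ} (hf : Nice f) : Continuous (fun x : ℝ => f x) := by
  obtain ⟨ε, hε, hd⟩ := hf.diff
  refine hd.continuousOn.comp_continuous Complex.continuous_ofReal (fun x => ?_)
  change -ε < (x : ℂ).im
  rw [Complex.ofReal_im]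
  linarith

lemma int_of {f : ℂ → ℂ} (hf : Nice f) {p : ℝ} (hp : 1 < p) (φ : ℂ → ℝ) (hφ : Measurable φ)
    (K : ℝ) (hK : ∀ w, |φ w| ≤ K * ‖w‖ ^ p) :
    IntegrableOn (fun x : ℝ => φ (f x)) (Ioi (0 : ℝ)) := by
  obtain ⟨C, hC⟩ := hf.dec
  have hC0 : 0 ≤ C := by
    have := (hC 0 (by simp)).1
    rw [norm_zero, add_zero, div_one] at this
    exact (norm_nonneg _).trans this
  have hK0 : 0 ≤ K := by
    have := (abs_nonneg _).trans (hK 1)
    rwa [norm_one, Real.one_rpow, mul_one] at this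
  have hfin : (Module.finrank ℝ ℝ : ℝ) < p := by simpa using hp
  have hb : Integrable (fun x : ℝ => K * C ^ p * (1 + ‖x‖) ^ (-p)) :=
    (integrable_one_add_norm hfin).const_mul _
  refine (Integrable.mono' hb ?_ ?_).integrableOn
  · exact (hφ.comp (cont_real hf).measurable).aestronglyMeasurable
  · refine ae_of_all _ (fun x => ?_)
    rw [Real.norm_eq_abs]
    refine (hK _).trans ?_
    have h1 := (hC (x : ℂ) (by simp)).1
    rw [Complex.norm_real] at h1
    have h2 : (0:ℝ) < 1 + ‖x‖ := by positivity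
    have h3 := Real.rpow_le_rpow (norm_nonneg _) h1 (by linarith : (0:ℝ) ≤ p)
    rw [Real.div_rpow hC0 h2.le] at h3
    rw [mul_assoc, Real.rpow_neg h2.le, ← div_eq_mul_inv]
    exact mul_le_mul_of_nonneg_left h3 hK0

lemma abs_rpow_le {p : ℝ} (hp : 0 ≤ p) {x y : ℝ} (h : |x| ≤ y) : |(|x| ^ p)| ≤ y ^ p := by
  rw [abs_of_nonneg (Real.rpow_nonneg (abs_nonneg x) p)]
  exact Real.rpow_le_rpow (abs_nonneg x) h hp

lemma int_re {f : ℂ → ℂ} (hf : Nice f) {p : ℝ} (hp : 1 < p) :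
    IntegrableOn (fun x : ℝ => |(f x).re| ^ p) (Ioi (0 : ℝ)) := by
  refine int_of hf hp (fun w => |w.re| ^ p)
    ((Complex.measurable_re.abs).pow_const p) 1 (fun w => ?_)
  rw [one_mul]
  exact abs_rpow_le (by linarith) (Complex.abs_re_le_norm w)

lemma int_im {f : ℂ → ℂ} (hf : Nice f) {p : ℝ} (hp : 1 < p) :
    IntegrableOn (fun x : ℝ => |(f x).im| ^ p) (Ioi (0 : ℝ)) := by
  refine int_of hf hp (fun w => |w.im| ^ p)
    ((Complex.measurable_im.abs).pow_const p) 1 (fun w => ?_)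
  rw [one_mul]
  exact abs_rpow_le (by linarith) (Complex.abs_im_le_norm w)

lemma int_norm {f : ℂ → ℂ} (hf : Nice f) {p : ℝ} (hp : 1 < p) :
    IntegrableOn (fun x : ℝ => ‖f x‖ ^ p) (Ioi (0 : ℝ)) := by
  refine int_of hf hp (fun w => ‖w‖ ^ p) (measurable_norm.pow_const p) 1 (fun w => ?_)
  rw [one_mul, abs_of_nonneg (Real.rpow_nonneg (norm_nonneg w) p)]

lemma int_diff {f : ℂ → ℂ} (hf : Nice f) {p : ℝ} (hp : 1 < p) :
    IntegrableOn (fun x : ℝ => |(f x).re - (f x).im| ^ p) (Ioi (0 : ℝ)) := by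
  refine int_of hf hp (fun w => |w.re - w.im| ^ p)
    (((Complex.measurable_re.sub Complex.measurable_im).abs).pow_const p) (2 ^ p) (fun w => ?_)
  rw [← Real.mul_rpow (by norm_num) (norm_nonneg w)]
  refine abs_rpow_le (by linarith) ?_
  have h1 := abs_sub w.re w.im
  have h2 := Complex.abs_re_le_norm w
  have h3 := Complex.abs_im_le_norm w
  linarith

lemma int_VV {f : ℂ → ℂ} (hf : Nice f) {p : ℝ} (hp : 1 < p) (ψ : ℝ → ℝ) (hψ : Continuous ψ) :
    IntegrableOn (fun x : ℝ => VV p ψ f x) (Ioi (0 : ℝ)) := by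
  obtain ⟨M, hM⟩ := (isCompact_Icc (a := -Real.pi) (b := Real.pi)).exists_bound_of_continuousOn
    hψ.continuousOn
  refine int_of hf hp (fun w => ‖w‖ ^ p * ψ (Complex.arg w))
    ((measurable_norm.pow_const p).mul (hψ.measurable.comp Complex.measurable_arg)) M (fun w => ?_)
  rw [abs_mul, abs_of_nonneg (Real.rpow_nonneg (norm_nonneg w) p), mul_comm]
  refine mul_le_mul_of_nonneg_right ?_ (Real.rpow_nonneg (norm_nonneg w) p)
  exact hM _ ⟨(Complex.neg_pi_lt_arg w).le, Complex.arg_le_pi w⟩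

/-- the two-function inequality -/
lemma key {f : ℂ → ℂ} (hf : Nice f) (h3 : S_SUB) {p : ℝ} (hp : 2 < p) (B : ℝ) (c : ℂ → ℝ)
    (hc : IntegrableOn (fun x : ℝ => |c (f x)| ^ p) (Ioi (0 : ℝ)))
    (h : ∀ ε : ℝ, 0 < ε → ∃ ψ ψ1 ψ2 : ℝ → ℝ, Trig p ψ ψ1 ψ2 ∧
      ∀ w : ℂ, ‖w‖ ^ p * ψ (Complex.arg w) ≤
        B * |c w| ^ p - |w.re - w.im| ^ p + ε * ‖w‖ ^ p) :
    ∫ x in Ioi (0 : ℝ), |(f x).re - (f x).im| ^ p ≤ B * ∫ x in Ioi (0 : ℝ), |c (f x)| ^ p := by
  apply le_of_forall_pos_le_add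
  intro η hη
  have hp1 : 1 < p := by linarith
  set J := ∫ x in Ioi (0 : ℝ), ‖f x‖ ^ p with hJ
  have hJ0 : 0 ≤ J := by
    rw [hJ]
    exact integral_nonneg (fun x => Real.rpow_nonneg (norm_nonneg _) p)
  obtain ⟨ψ, ψ1, ψ2, hT, hle⟩ := h (η / (J + 1)) (by positivity)
  have hψ : Continuous ψ := continuous_iff_continuousAt.2 (fun θ => (hT.d1 θ).continuousAt)
  have h0 := h3 p ψ ψ1 ψ2 f hp hT hf
  have i1 := int_VV hf hp1 ψ hψ
  have i2 := int_diff hf hp1
  have i3 := int_norm hf hp1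
  have i5 : IntegrableOn (fun x : ℝ => B * |c (f x)| ^ p) (Ioi (0 : ℝ)) := hc.const_mul B
  have i6 : IntegrableOn (fun x : ℝ => B * |c (f x)| ^ p - |(f x).re - (f x).im| ^ p)
      (Ioi (0 : ℝ)) := i5.sub i2
  have i7 : IntegrableOn (fun x : ℝ => η / (J + 1) * ‖f x‖ ^ p) (Ioi (0 : ℝ)) := i3.const_mul _
  have i4 : IntegrableOn (fun x : ℝ => B * |c (f x)| ^ p - |(f x).re - (f x).im| ^ p +
      η / (J + 1) * ‖f x‖ ^ p) (Ioi (0 : ℝ)) := i6.add i7
  have h5 : ∫ x in Ioi (0 : ℝ), VV p ψ f x ≤ ∫ x in Ioi (0 : ℝ), (B * |c (f x)| ^ p -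
      |(f x).re - (f x).im| ^ p + η / (J + 1) * ‖f x‖ ^ p) :=
    integral_mono i1 i4 (fun x => hle (f x))
  rw [integral_add i6 i7, integral_sub i5 i2,
    integral_const_mul, integral_const_mul, ← hJ] at h5
  have h6 : η / (J + 1) * J ≤ η := by
    rw [div_mul_eq_mul_div, div_le_iff₀ (by positivity)]
    nlinarith
  linarith

end Core49

open Core49 in
theorem t_CORE (h1 : S_BB) (h2 : S_MIN) (h3 : S_SUB) (h4 : S_TWO) : S_CORE := by
  intro p f hp hf
  rcases eq_or_lt_of_le hp with hp2 | hp2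
  · subst hp2
    rw [h1.two]
    obtain ⟨e1, e2⟩ := h4 f hf
    have i1 := int_re hf (p := 2) (by norm_num)
    have i2 := int_im hf (p := 2) (by norm_num)
    have hsq : ∀ x : ℝ, |x| ^ (2:ℝ) = x ^ 2 := by
      intro x
      rw [Real.rpow_two, sq_abs]
    simp only [hsq] at i1 i2 ⊢
    have i3 : IntegrableOn (fun x : ℝ => (f x).re * (f x).im) (Ioi (0 : ℝ)) := by
      refine int_of hf (p := 2) (by norm_num) (fun w => w.re * w.im)
        (Complex.measurable_re.mul Complex.measurable_im) 1 (fun w => ?_)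
      rw [one_mul, Real.rpow_two, abs_mul, pow_two]
      exact mul_le_mul (Complex.abs_re_le_norm w) (Complex.abs_im_le_norm w) (abs_nonneg _)
        (norm_nonneg _)
    have e3 : ∫ x in Ioi (0 : ℝ), ((f x).re - (f x).im) ^ 2 =
        (∫ x in Ioi (0 : ℝ), (f x).re ^ 2) + (∫ x in Ioi (0 : ℝ), (f x).im ^ 2) -
          2 * ∫ x in Ioi (0 : ℝ), (f x).re * (f x).im := by
      have i4 : IntegrableOn (fun x : ℝ => (f x).re ^ 2 + (f x).im ^ 2) (Ioi (0 : ℝ)) := i1.add i2
      have i5 : IntegrableOn (fun x : ℝ => 2 * ((f x).re * (f x).im)) (Ioi (0 : ℝ)) :=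
        i3.const_mul 2
      rw [← integral_add i1 i2, ← integral_const_mul, ← integral_sub i4 i5]
      refine integral_congr_ae (ae_of_all _ (fun x => ?_))
      ring
    rw [e3]
    constructor
    · linarith
    · linarith
  · constructor
    · refine key hf h3 hp2 (BB p) (fun w => w.re) (int_re hf (by linarith)) (fun ε hε => ?_)
      obtain ⟨ψ, ψ1, ψ2, hT, _, hle⟩ := h2 p ε hp2 hε
      refine ⟨ψ, ψ1, ψ2, hT, fun w => ?_⟩
      have hw : 0 ≤ ‖w‖ := norm_nonneg w
      have hwp : 0 ≤ ‖w‖ ^ p := Real.rpow_nonneg hw p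
      have h5 := mul_le_mul_of_nonneg_left (hle (Complex.arg w)) hwp
      refine h5.trans (le_of_eq ?_)
      unfold phi
      have e1 : |w.re| ^ p = ‖w‖ ^ p * |Real.cos (Complex.arg w)| ^ p := by
        rw [← Real.mul_rpow hw (abs_nonneg _), ← abs_of_nonneg hw, ← abs_mul,
          Complex.norm_mul_cos_arg]
      have e2 : |w.re - w.im| ^ p = ‖w‖ ^ p *
          |Real.cos (Complex.arg w) - Real.sin (Complex.arg w)| ^ p := by
        rw [← Real.mul_rpow hw (abs_nonneg _), ← abs_of_nonneg hw, ← abs_mul,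
          mul_sub, Complex.norm_mul_cos_arg, Complex.norm_mul_sin_arg]
      rw [e1, e2]
      ring
    · refine key hf h3 hp2 (BB p) (fun w => w.im) (int_im hf (by linarith)) (fun ε hε => ?_)
      obtain ⟨ψ, ψ1, ψ2, hT, hz, hle⟩ := h2 p ε hp2 hε
      refine ⟨fun θ => ψ (Real.pi / 2 - θ), fun θ => - ψ1 (Real.pi / 2 - θ),
        fun θ => ψ2 (Real.pi / 2 - θ), ?_, fun w => ?_⟩
      · have hd : ∀ θ : ℝ, HasDerivAt (fun t : ℝ => Real.pi / 2 - t) (-1) θ := by
          intro θ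
          simpa using (hasDerivAt_id θ).const_sub (Real.pi / 2)
        refine ⟨fun θ => ?_, fun θ => ?_, ?_, fun θ => ?_, fun θ => ?_, ?_⟩
        · have := (hT.d1 (Real.pi / 2 - θ)).comp θ (hd θ)
          exact this.congr_deriv (by ring)
        · have := ((hT.d2 (Real.pi / 2 - θ)).comp θ (hd θ)).neg
          exact this.congr_deriv (by ring)
        · exact hT.cont.comp (continuous_const.sub continuous_id)
        · have := hT.per (Real.pi / 2 - (θ + Real.pi))
          rw [show Real.pi / 2 - (θ + Real.pi) + Real.pi = Real.pi / 2 - θ by ring] at this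
          exact this.symm
        · exact hT.convex _
        · simp only [sub_zero]
          linarith
      · have hw : 0 ≤ ‖w‖ := norm_nonneg w
        have hwp : 0 ≤ ‖w‖ ^ p := Real.rpow_nonneg hw p
        have h5 := mul_le_mul_of_nonneg_left (hle (Real.pi / 2 - Complex.arg w)) hwp
        refine h5.trans (le_of_eq ?_)
        unfold phi
        rw [Real.cos_pi_div_two_sub, Real.sin_pi_div_two_sub]
        have e1 : |w.im| ^ p = ‖w‖ ^ p * |Real.sin (Complex.arg w)| ^ p := by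
          rw [← Real.mul_rpow hw (abs_nonneg _), ← abs_of_nonneg hw, ← abs_mul,
            Complex.norm_mul_sin_arg]
        have e2 : |w.re - w.im| ^ p = ‖w‖ ^ p *
            |Real.sin (Complex.arg w) - Real.cos (Complex.arg w)| ^ p := by
          rw [← Real.mul_rpow hw (abs_nonneg _), ← abs_of_nonneg hw, ← abs_mul,
            mul_sub, Complex.norm_mul_cos_arg, Complex.norm_mul_sin_arg, abs_sub_comm]
        rw [e1, e2]
        ring

end Pool.Agent.NH67.RX
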