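import Pool.Agent.NH67.RX.Stm

/-!
RX-16 (helper51): complex functions by averaging over rotations.
-/

set_option autoImplicit false

open MeasureTheory Set Filter Topology

namespace Pool.Agent.NH67.RX

namespace CX

/-- the real part as a combination -/
noncomputable def rp (c : ℂ) (u : ℝ → ℂ) : ℝ → ℂ := fun x => (((c * u x).re : ℝ) : ℂ)

theorem rp_eq (c : ℂ) (u : ℝ → ℂ) :
    rp c u = ((1/2 : ℂ) * c) • u - (-(1/2 : ℂ)) • fun x => (starRingEnd ℂ) ((c • u) x) := by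
  funext x
  simp only [rp, Pi.sub_apply, Pi.smul_apply, smul_eq_mul]
  rw [Complex.re_eq_add_conj]
  ring

theorem cos_rp (h : L2P) (c : ℂ) {u w : ℝ → ℂ} (hu : IsCos u w) : IsCos (rp c u) (rp c w) := by
  rw [rp_eq, rp_eq]
  exact h.cos_sub _ _ _ _ (h.cos_smul _ _ _ hu)
    (h.cos_smul _ _ _ (h.cos_conj _ _ (h.cos_smul _ _ _ hu)))

theorem sin_rp (h : L2P) (c : ℂ) {u w : ℝ → ℂ} (hu : IsSin u w) : IsSin (rp c u) (rp c w) := by
  rw [rp_eq, rp_eq]
  exact h.sin_sub _ _ _ _ (h.sin_smul _ _ _ hu)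
    (h.sin_smul _ _ _ (h.sin_conj _ _ (h.sin_smul _ _ _ hu)))

/-- the constant -/
noncomputable def K (p : ℝ) : ℝ := ∫ a in (0:ℝ)..(2 * Real.pi), |Real.cos a| ^ p

theorem cont_cos (p : ℝ) (hp : 0 ≤ p) : Continuous fun a => |Real.cos a| ^ p :=
  Real.continuous_cos.abs.rpow_const fun _ => Or.inr hp

theorem K_pos (p : ℝ) (hp : 0 ≤ p) : 0 < K p := by
  refine intervalIntegral.integral_pos (by positivity) (cont_cos p hp).continuousOn
    (fun x _ => by positivity) ⟨0, ⟨le_rfl, by positivity⟩, ?_⟩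
  simp

theorem shift (p b : ℝ) : ∫ a in (0:ℝ)..(2 * Real.pi), |Real.cos (a + b)| ^ p = K p := by
  have hper : Function.Periodic (fun a => |Real.cos a| ^ p) (2 * Real.pi) := fun a => by
    show |Real.cos (a + 2 * Real.pi)| ^ p = _
    rw [Real.cos_add_two_pi]
  have h1 := intervalIntegral.integral_comp_add_right (a := 0) (b := 2 * Real.pi)
    (fun a => |Real.cos a| ^ p) b
  rw [h1, K]
  have h2 := hper.intervalIntegral_add_eq b 0
  rw [zero_add] at h2
  rw [← h2, zero_add, add_comm (2 * Real.pi) b]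

theorem inner_eq (c : ℂ) (a : ℝ) :
    (Complex.exp (Complex.I * a) * c).re = ‖c‖ * Real.cos (a + Complex.arg c) := by
  conv_lhs => rw [← Complex.norm_mul_exp_arg_mul_I c]
  have : Complex.exp (Complex.I * a) * (‖c‖ * Complex.exp (Complex.arg c * Complex.I)) =
      ‖c‖ * Complex.exp (((a + Complex.arg c : ℝ) : ℂ) * Complex.I) := by
    rw [mul_left_comm, ← Complex.exp_add]
    congr 2
    push_cast
    ring
  rw [this, Complex.re_ofReal_mul, Complex.exp_ofReal_mul_I_re]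

theorem inner_lint (p : ℝ) (hp : 0 ≤ p) (c : ℂ) :
    ∫⁻ a in Ioc (0:ℝ) (2 * Real.pi), ‖(Complex.exp (Complex.I * a) * c).re‖ₑ ^ p =
      ENNReal.ofReal (K p) * ‖c‖ₑ ^ p := by
  have h1 : ∀ a : ℝ, ‖(Complex.exp (Complex.I * a) * c).re‖ₑ ^ p =
      ENNReal.ofReal (‖c‖ ^ p * |Real.cos (a + Complex.arg c)| ^ p) := by
    intro a
    rw [inner_eq, Real.enorm_eq_ofReal_abs, ENNReal.ofReal_rpow_of_nonneg (abs_nonneg _) hp,
      abs_mul, abs_norm, Real.mul_rpow (norm_nonneg _) (abs_nonneg _)]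
  simp_rw [h1]
  have hc : Continuous fun a => ‖c‖ ^ p * |Real.cos (a + Complex.arg c)| ^ p :=
    continuous_const.mul ((cont_cos p hp).comp (continuous_id.add continuous_const))
  rw [← ofReal_integral_eq_lintegral_ofReal
    ((hc.intervalIntegrable 0 (2 * Real.pi)).1) (Eventually.of_forall fun a => by positivity),
    ← intervalIntegral.integral_of_le (by positivity), intervalIntegral.integral_const_mul, shift,
    mul_comm, ENNReal.ofReal_mul (K_pos p hp).le, ← ofReal_norm_eq_enorm,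
    ENNReal.ofReal_rpow_of_nonneg (norm_nonneg _) hp]

theorem avg (p : ℝ) (hp : 0 ≤ p) {g : ℝ → ℂ} (hg : AEStronglyMeasurable g hl) :
    ∫⁻ a in Ioc (0:ℝ) (2 * Real.pi), ∫⁻ x, ‖(Complex.exp (Complex.I * a) * g x).re‖ₑ ^ p ∂hl =
      ENNReal.ofReal (K p) * ∫⁻ x, ‖g x‖ₑ ^ p ∂hl := by
  rw [lintegral_lintegral_swap]
  · simp_rw [inner_lint p hp]
    rw [lintegral_const_mul']
    exact ENNReal.ofReal_ne_top
  · refine AEMeasurable.pow_const (AEMeasurable.enorm ?_) _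
    refine Complex.measurable_re.comp_aemeasurable ?_
    refine AEMeasurable.mul ?_ ?_
    · refine (Measurable.aemeasurable ?_)
      refine Complex.measurable_exp.comp ?_
      exact (Complex.measurable_ofReal.comp measurable_fst).const_mul _
    · exact hg.aemeasurable.comp_snd

theorem main (p : ℝ) (hp : 2 ≤ p) (hB : 0 < BB p) {u h : ℝ → ℂ} (hu : AEStronglyMeasurable u hl)
    (hh : AEStronglyMeasurable h hl)
    (key : ∀ a : ℝ, eLpNorm (rp (Complex.exp (Complex.I * a)) h) (ENNReal.ofReal p) hl ≤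
      ENNReal.ofReal (BB p ^ (1 / p)) * eLpNorm (rp (Complex.exp (Complex.I * a)) u)
        (ENNReal.ofReal p) hl) :
    eLpNorm h (ENNReal.ofReal p) hl ≤
      ENNReal.ofReal (BB p ^ (1 / p)) * eLpNorm u (ENNReal.ofReal p) hl := by
  have p0 : 0 < p := by linarith
  have q0 : ENNReal.ofReal p ≠ 0 := by simpa using p0
  have e1 : ∀ g : ℝ → ℂ, eLpNorm g (ENNReal.ofReal p) hl = (∫⁻ x, ‖g x‖ₑ ^ p ∂hl) ^ (1 / p) := by
    intro g
    rw [eLpNorm_eq_lintegral_rpow_enorm_toReal q0 ENNReal.ofReal_ne_top, ENNReal.toReal_ofReal p0.le]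
  have e2 : ∀ A B : ENNReal, A ^ (1 / p) ≤ ENNReal.ofReal (BB p ^ (1 / p)) * B ^ (1 / p) ↔
      A ≤ ENNReal.ofReal (BB p) * B := by
    intro A B
    rw [← ENNReal.ofReal_rpow_of_pos hB, ← ENNReal.mul_rpow_of_nonneg _ _ (by positivity),
      ENNReal.rpow_le_rpow_iff (by positivity)]
  have e3 : ∀ (c : ℂ) (g : ℝ → ℂ), ∫⁻ x, ‖rp c g x‖ₑ ^ p ∂hl = ∫⁻ x, ‖(c * g x).re‖ₑ ^ p ∂hl := by
    intro c g
    refine lintegral_congr fun x => ?_
    rw [rp, ← ofReal_norm_eq_enorm, Complex.norm_real, ofReal_norm_eq_enorm]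
  have key' : ∀ a : ℝ, ∫⁻ x, ‖(Complex.exp (Complex.I * a) * h x).re‖ₑ ^ p ∂hl ≤
      ENNReal.ofReal (BB p) * ∫⁻ x, ‖(Complex.exp (Complex.I * a) * u x).re‖ₑ ^ p ∂hl := by
    intro a
    have := key a
    rwa [e1, e1, e2, e3, e3] at this
  rw [e1, e1, e2]
  have h1 : ENNReal.ofReal (K p) * ∫⁻ x, ‖h x‖ₑ ^ p ∂hl ≤
      ENNReal.ofReal (K p) * (ENNReal.ofReal (BB p) * ∫⁻ x, ‖u x‖ₑ ^ p ∂hl) := by
    rw [← avg p p0.le hh, mul_left_comm, ← avg p p0.le hu, ← lintegral_const_mul']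
    · exact lintegral_mono fun a => key' a
    · exact ENNReal.ofReal_ne_top
  have hK : ENNReal.ofReal (K p) ≠ 0 := by simpa using K_pos p p0.le
  exact (ENNReal.mul_le_mul_iff_right hK ENNReal.ofReal_ne_top).mp h1

end CX

open CX in
theorem t_CX : S_CX := by
  intro hL p hp hB hR
  have memrp : ∀ (a : ℝ) {u : ℝ → ℂ}, MemLp u (ENNReal.ofReal p) hl →
      MemLp (rp (Complex.exp (Complex.I * a)) u) (ENNReal.ofReal p) hl := by
    intro a u hu
    exact ((hu.const_mul (Complex.exp (Complex.I * a))).re).ofReal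
  have sub : ∀ (c : ℂ) (u v : ℝ → ℂ), rp c (u - v) = fun x => (((c * u x).re : ℝ) : ℂ) - rp c v x := by
    intro c u v
    funext x
    simp only [rp, Pi.sub_apply, mul_sub, Complex.sub_re, Complex.ofReal_sub]
  refine ⟨fun u v huv hu => ?_, fun u v huv hu => ?_⟩
  · obtain ⟨w, h1, h2⟩ := huv
    refine main p hp hB hu.1 (hu.1.sub h2.right.1) fun a => ?_
    rw [sub]
    exact hR (fun x => (Complex.exp (Complex.I * a) * u x).re) (rp (Complex.exp (Complex.I * a)) v)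
      trivial (Or.inl ⟨_, cos_rp hL _ h1, sin_rp hL _ h2⟩) (memrp a hu)
  · obtain ⟨w, h1, h2⟩ := huv
    refine main p hp hB hu.1 (hu.1.sub h2.right.1) fun a => ?_
    rw [sub]
    exact hR (fun x => (Complex.exp (Complex.I * a) * u x).re) (rp (Complex.exp (Complex.I * a)) v)
      trivial (Or.inr ⟨_, sin_rp hL _ h1, cos_rp hL _ h2⟩) (memrp a hu)

end Pool.Agent.NH67.RX
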