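import Pool.Agent.NH67.RX.Stm

/-!
# RX-15: truncation
-/

set_option autoImplicit false

open MeasureTheory Set Filter Topology

namespace Pool.Agent.NH67.RX

/-- dominated convergence in `L ^ 2` -/
lemma tend_L2 {g : ℕ → ℝ → ℂ} {u : ℝ → ℂ} (hu : MemLp u 2 hl)
    (hg : ∀ n, AEStronglyMeasurable (g n) hl) (hb : ∀ n, ∀ᵐ x ∂hl, ‖g n x - u x‖ ≤ ‖u x‖)
    (hlim : ∀ᵐ x ∂hl, Tendsto (fun n => g n x) atTop (𝓝 (u x))) :
    Tendsto (fun n => eLpNorm (g n - u) 2 hl) atTop (𝓝 0) := by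
  have h2 : (2 : ENNReal) ≠ 0 := by norm_num
  have h2' : (2 : ENNReal) ≠ ⊤ := by norm_num
  have e : ∀ n, eLpNorm (g n - u) 2 hl = (∫⁻ x, ‖g n x - u x‖ₑ ^ (2 : ℝ) ∂hl) ^ (1 / 2 : ℝ) := by
    intro n
    rw [eLpNorm_eq_lintegral_rpow_enorm_toReal h2 h2']
    simp
  have h3 : Tendsto (fun n => ∫⁻ x, ‖g n x - u x‖ₑ ^ (2 : ℝ) ∂hl) atTop (𝓝 0) := by
    have h4 := tendsto_lintegral_of_dominated_convergence' (μ := hl)
      (F := fun n x => ‖g n x - u x‖ₑ ^ (2 : ℝ)) (f := fun _ => 0) (fun x => ‖u x‖ₑ ^ (2 : ℝ))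
      (fun n => (((hg n).sub hu.aestronglyMeasurable).enorm.pow_const _)) (fun n => by
        filter_upwards [hb n] with x hx
        apply ENNReal.rpow_le_rpow _ (by norm_num)
        rw [← ofReal_norm, ← ofReal_norm]
        exact ENNReal.ofReal_le_ofReal hx) (by
        have := lintegral_rpow_enorm_lt_top_of_eLpNorm_lt_top h2 h2' hu.eLpNorm_lt_top
        simpa using this.ne) (by
        filter_upwards [hlim] with x hx
        have h5 : Tendsto (fun n => ‖g n x - u x‖ₑ) atTop (𝓝 0) := by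
          have := (hx.sub_const (u x)).enorm
          simpa using this
        have h6 := ((ENNReal.continuous_rpow_const (y := (2 : ℝ))).tendsto 0).comp h5
        rwa [ENNReal.zero_rpow_of_pos (by norm_num)] at h6)
    simpa using h4
  have h4 := ((ENNReal.continuous_rpow_const (y := (1 / 2 : ℝ))).tendsto 0).comp h3
  rw [ENNReal.zero_rpow_of_pos (by norm_num)] at h4
  refine h4.congr fun n => ?_
  rw [e n]
  rfl

theorem t_GEN : S_GEN := by
  intro hL p hp hbd u v _ hPi hup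
  have hPi2 : MemLp (fun x => (u x : ℂ)) 2 hl ∧ MemLp v 2 hl := by
    rcases hPi with ⟨w, h1, h2⟩ | ⟨w, h1, h2⟩
    · exact ⟨h1.left, h2.right⟩
    · exact ⟨h1.left, h2.right⟩
  obtain ⟨hu2, hv2⟩ := hPi2
  have hure : AEStronglyMeasurable u hl := by
    have := Complex.continuous_re.comp_aestronglyMeasurable hu2.aestronglyMeasurable
    exact this.congr (ae_of_all _ fun x => by simp)
  set um : ℝ → ℝ := hure.mk u with hum
  have humm : Measurable um := hure.stronglyMeasurable_mk.measurable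
  have hae : u =ᵐ[hl] um := hure.ae_eq_mk
  set un : ℕ → ℝ → ℝ := fun n x => if x ∈ Ioo (0 : ℝ) n ∧ |um x| ≤ n then um x else 0 with hun
  have hunm : ∀ n, Measurable (un n) := fun n =>
    Measurable.ite ((measurableSet_Ioo).inter (measurableSet_le humm.abs measurable_const)) humm
      measurable_const
  have hB : ∀ n : ℕ, Bdd (un n) n n := by
    intro n
    refine ⟨hunm n, fun x => ?_, fun x hx => ?_⟩
    · simp only [hun]
      split_ifs with h
      · exact h.2
      · simp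
    · simp only [hun]
      rw [if_neg]
      exact fun h => hx h.1
  have hunle : ∀ n x, |un n x| ≤ |um x| := by
    intro n x
    simp only [hun]
    split_ifs with h
    · exact le_rfl
    · simp
  have hunlim : ∀ᵐ x ∂hl, Tendsto (fun n => un n x) atTop (𝓝 (um x)) := by
    filter_upwards [ae_restrict_mem measurableSet_Ioi] with x hx
    apply tendsto_const_nhds.congr'
    obtain ⟨N, hN⟩ := exists_nat_gt (max x |um x|)
    filter_upwards [eventually_ge_atTop N] with n hn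
    have hnN : (N : ℝ) ≤ n := by exact_mod_cast hn
    simp only [hun]
    rw [if_pos]
    exact ⟨⟨hx, (le_max_left _ _).trans_lt (hN.trans_le hnN)⟩,
      ((le_max_right _ _).trans_lt (hN.trans_le hnN)).le⟩
  have hle2 : ∀ n, ∀ᵐ x ∂hl, ‖((un n x : ℝ) : ℂ)‖ ≤ ‖((u x : ℝ) : ℂ)‖ := by
    intro n
    filter_upwards [hae] with x hx
    rw [Complex.norm_real, Complex.norm_real, hx]
    exact hunle n x
  have hunL : ∀ n, MemLp (fun x => (un n x : ℂ)) 2 hl := fun n =>
    hu2.mono (Complex.measurable_ofReal.comp (hunm n)).aestronglyMeasurable (hle2 n)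
  have hunLp : ∀ n, MemLp (fun x => (un n x : ℂ)) (ENNReal.ofReal p) hl := fun n =>
    hup.mono (Complex.measurable_ofReal.comp (hunm n)).aestronglyMeasurable (hle2 n)
  have hlimC : ∀ᵐ x ∂hl, Tendsto (fun n => ((un n x : ℝ) : ℂ)) atTop (𝓝 ((u x : ℝ) : ℂ)) := by
    filter_upwards [hunlim, hae] with x hx hx2
    rw [hx2]
    exact (Complex.continuous_ofReal.tendsto _).comp hx
  have ht : Tendsto (fun n => eLpNorm ((fun x => ((un n x : ℝ) : ℂ)) - fun x => (u x : ℂ)) 2 hl)
      atTop (𝓝 0) := by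
    apply tend_L2 hu2 (fun n => (Complex.measurable_ofReal.comp (hunm n)).aestronglyMeasurable)
      _ hlimC
    intro n
    filter_upwards [hae] with x hx
    show ‖((un n x : ℝ) : ℂ) - ((u x : ℝ) : ℂ)‖ ≤ ‖((u x : ℝ) : ℂ)‖
    rw [hx, ← Complex.ofReal_sub, Complex.norm_real, Complex.norm_real, Real.norm_eq_abs,
      Real.norm_eq_abs]
    simp only [hun]
    split_ifs with h
    · simp
    · simp
  -- the images
  have hex : ∃ vn : ℕ → ℝ → ℂ, (∀ n, IsPi (fun x => (un n x : ℂ)) (vn n) ∨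
      IsPi' (fun x => (un n x : ℂ)) (vn n)) ∧ (∀ n, MemLp (vn n) 2 hl) ∧
      ∀ n, eLpNorm (vn n - v) 2 hl =
        eLpNorm ((fun x => ((un n x : ℝ) : ℂ)) - fun x => (u x : ℂ)) 2 hl := by
    rcases hPi with ⟨w, h1, h2⟩ | ⟨w, h1, h2⟩
    · choose wn hwn using fun n => hL.cos_ex _ (hunL n)
      choose vn hvn using fun n => hL.sin_ex _ (hwn n).right
      refine ⟨vn, fun n => Or.inl ⟨wn n, hwn n, hvn n⟩, fun n => (hvn n).right, fun n => ?_⟩
      rw [hL.sin_norm _ _ (hL.sin_sub _ _ _ _ (hvn n) h2), hL.cos_norm _ _ (hL.cos_sub _ _ _ _ (hwn n) h1)]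
    · choose wn hwn using fun n => hL.sin_ex _ (hunL n)
      choose vn hvn using fun n => hL.cos_ex _ (hwn n).right
      refine ⟨vn, fun n => Or.inr ⟨wn n, hwn n, hvn n⟩, fun n => (hvn n).right, fun n => ?_⟩
      rw [hL.cos_norm _ _ (hL.cos_sub _ _ _ _ (hvn n) h2), hL.sin_norm _ _ (hL.sin_sub _ _ _ _ (hwn n) h1)]
  obtain ⟨vn, hvn, hvnL, hvnorm⟩ := hex
  have htm : TendstoInMeasure hl vn atTop v := by
    apply tendstoInMeasure_of_tendsto_eLpNorm (p := 2) (by norm_num)
      (fun n => (hvnL n).aestronglyMeasurable) hv2.aestronglyMeasurable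
    simp_rw [hvnorm]
    exact ht
  obtain ⟨ns, hns, hlimv⟩ := htm.exists_seq_tendsto_ae
  have hF := Lp.eLpNorm_lim_le_liminf_eLpNorm (p := ENNReal.ofReal p) (μ := hl)
    (f := fun n x => ((un (ns n) x : ℝ) : ℂ) - vn (ns n) x)
    (fun n => ((Complex.measurable_ofReal.comp (hunm _)).aestronglyMeasurable).sub
      (hvnL _).aestronglyMeasurable) (fun x => (u x : ℂ) - v x) (by
      filter_upwards [hlimC, hlimv] with x h1 h2
      exact (h1.comp hns.tendsto_atTop).sub h2)
  refine hF.trans ?_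
  have hbound : ∀ n, eLpNorm (fun x => ((un (ns n) x : ℝ) : ℂ) - vn (ns n) x) (ENNReal.ofReal p) hl ≤
      ENNReal.ofReal (BB p ^ (1 / p)) * eLpNorm (fun x => (u x : ℂ)) (ENNReal.ofReal p) hl := by
    intro n
    refine (hbd (un (ns n)) (vn (ns n)) ⟨_, _, hB _⟩ (hvn _) (hunLp _)).trans ?_
    gcongr
    exact eLpNorm_mono_ae (hle2 _)
  refine (Filter.liminf_le_liminf (Eventually.of_forall hbound)).trans ?_
  rw [liminf_const]

end Pool.Agent.NH67.RX
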