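import Pool.Agent.NH67.RX.Stm

/-!
# RX-10: the Poisson kernel of the half-line and the contraction property

The regularisations of `u` are integrals against the kernel
`(1 / π) (ε / (ε ^ 2 + (x - s) ^ 2) ± ε / (ε ^ 2 + (x + s) ^ 2))`; Fubini, Jensen, Tonelli.
-/

set_option autoImplicit false

open MeasureTheory Set Filter Topology

namespace Pool.Agent.NH67.RX

namespace Ker

/-- the kernel -/
noncomputable def kp (ε x s : ℝ) : ℝ :=
  (1 / Real.pi) * (ε / (ε ^ 2 + (x - s) ^ 2) + ε / (ε ^ 2 + (x + s) ^ 2))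

lemma kp_nonneg {ε : ℝ} (he : 0 < ε) (x s : ℝ) : 0 ≤ kp ε x s := by
  unfold kp; have := Real.pi_pos; positivity

lemma kp_symm (ε x s : ℝ) : kp ε x s = kp ε s x := by
  unfold kp
  rw [show (x - s) ^ 2 = (s - x) ^ 2 by ring, show (x + s) ^ 2 = (s + x) ^ 2 by ring]

lemma kp_deriv {ε : ℝ} (he : 0 < ε) (x s : ℝ) :
    HasDerivAt (fun s => (1 / Real.pi) * (Real.arctan ((s - x) / ε) + Real.arctan ((s + x) / ε)))
      (kp ε x s) s := by
  have h1 : HasDerivAt (fun s => Real.arctan ((s - x) / ε)) (ε / (ε ^ 2 + (x - s) ^ 2)) s := by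
    have := (((hasDerivAt_id' s).sub_const x).div_const ε).arctan
    convert this using 1
    field_simp
    ring
  have h2 : HasDerivAt (fun s => Real.arctan ((s + x) / ε)) (ε / (ε ^ 2 + (x + s) ^ 2)) s := by
    have := (((hasDerivAt_id' s).add_const x).div_const ε).arctan
    convert this using 1
    field_simp
    ring
  exact (h1.add h2).const_mul _

lemma kp_lim {ε : ℝ} (he : 0 < ε) (x : ℝ) :
    Tendsto (fun s => (1 / Real.pi) * (Real.arctan ((s - x) / ε) + Real.arctan ((s + x) / ε)))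
      atTop (𝓝 1) := by
  have h0 : Tendsto Real.arctan atTop (𝓝 (Real.pi / 2)) :=
    Real.tendsto_arctan_atTop.mono_right nhdsWithin_le_nhds
  have h1 : Tendsto (fun s : ℝ => (s - x) / ε) atTop atTop :=
    (tendsto_atTop_add_const_right _ (-x) tendsto_id).atTop_div_const he
  have h2 : Tendsto (fun s : ℝ => (s + x) / ε) atTop atTop :=
    (tendsto_atTop_add_const_right _ x tendsto_id).atTop_div_const he
  have h3 := ((h0.comp h1).add (h0.comp h2)).const_mul (1 / Real.pi)
  have e : 1 / Real.pi * (Real.pi / 2 + Real.pi / 2) = 1 := by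
    have := Real.pi_pos.ne'
    field_simp
    norm_num
  rw [e] at h3
  exact h3

lemma kp_intble {ε : ℝ} (he : 0 < ε) (x : ℝ) : IntegrableOn (kp ε x) (Ioi 0) :=
  integrableOn_Ioi_deriv_of_nonneg' (fun s _ => kp_deriv he x s) (fun s _ => kp_nonneg he x s)
    (kp_lim he x)

lemma kp_int {ε : ℝ} (he : 0 < ε) (x : ℝ) : ∫ s in Ioi (0 : ℝ), kp ε x s = 1 := by
  rw [integral_Ioi_of_hasDerivAt_of_nonneg' (fun s _ => kp_deriv he x s)
    (fun s _ => kp_nonneg he x s) (kp_lim he x)]
  have : (0 - x) / ε = -((0 + x) / ε) := by ring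
  rw [this, Real.arctan_neg]
  simp

lemma kp_lint {ε : ℝ} (he : 0 < ε) (x : ℝ) :
    ∫⁻ s in Ioi (0 : ℝ), ENNReal.ofReal (kp ε x s) = 1 := by
  rw [← ofReal_integral_eq_lintegral_ofReal (kp_intble he x)
    (Eventually.of_forall fun s => kp_nonneg he x s), kp_int he x, ENNReal.ofReal_one]

lemma kp_meas (ε : ℝ) : Measurable (fun z : ℝ × ℝ => kp ε z.1 z.2) := by
  unfold kp; fun_prop

lemma kp_meas' (ε x : ℝ) : Measurable (kp ε x) := by
  unfold kp; fun_prop

/-- the Laplace transform of the cosine -/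
lemma cos_int {ε : ℝ} (he : 0 < ε) (a : ℝ) :
    IntegrableOn (fun t => Real.exp (-ε * t) * Real.cos (a * t)) (Ioi 0) ∧
    ∫ t in Ioi (0 : ℝ), Real.exp (-ε * t) * Real.cos (a * t) = ε / (ε ^ 2 + a ^ 2) := by
  set z : ℂ := ⟨-ε, a⟩ with hz
  have hzr : z.re < 0 := by simp [hz, he]
  have h1 := integrableOn_exp_mul_complex_Ioi hzr 0
  have h2 := integral_exp_mul_complex_Ioi hzr 0
  have e : ∀ t : ℝ, (Complex.exp (z * t)).re = Real.exp (-ε * t) * Real.cos (a * t) := by
    intro t
    rw [Complex.exp_re]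
    simp [hz]
  constructor
  · have := h1.re
    refine this.congr (Eventually.of_forall fun t => ?_)
    simpa using e t
  · have h3 := integral_re h1
    simp only [RCLike.re_to_complex, e] at h3
    rw [h3, h2]
    simp only [Complex.ofReal_zero, mul_zero, Complex.exp_zero]
    rw [neg_div, Complex.neg_re, one_div, Complex.inv_re, Complex.normSq_apply]
    simp only [hz]
    have : ε ^ 2 + a ^ 2 ≠ 0 := by positivity
    have h5 : -ε * -ε + a * a ≠ 0 := by
      have : -ε * -ε + a * a = ε ^ 2 + a ^ 2 := by ring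
      rw [this]; positivity
    field_simp

lemma exp_intble {ε : ℝ} (he : 0 < ε) : IntegrableOn (fun t => Real.exp (-ε * t)) (Ioi 0) :=
  integrableOn_exp_mul_Ioi (by linarith) 0

lemma bdd_intble {u : ℝ → ℝ} {M R : ℝ} (hu : Bdd u M R) : IntegrableOn u (Ioi 0) := by
  have h : IntegrableOn (fun _ : ℝ => |M|) (Ioo 0 R) := by
    refine integrableOn_const ?_
    simp
  have h2 : Integrable ((Ioo (0 : ℝ) R).indicator fun _ => |M|) (volume.restrict (Ioi 0)) :=
    (h.integrable_indicator measurableSet_Ioo).restrict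
  refine h2.mono' hu.meas.aestronglyMeasurable (Eventually.of_forall fun x => ?_)
  by_cases hx : x ∈ Ioo (0 : ℝ) R
  · rw [indicator_of_mem hx, Real.norm_eq_abs]
    exact (hu.bd x).trans (le_abs_self _)
  · rw [indicator_of_notMem hx, hu.supp x hx]
    simp

lemma rpow_intble {u : ℝ → ℝ} {M R : ℝ} (hu : Bdd u M R) {p : ℝ} (hp : 1 ≤ p) :
    IntegrableOn (fun x => |u x| ^ p) (Ioi 0) := by
  have h : IntegrableOn (fun _ : ℝ => |M| ^ p) (Ioo 0 R) := by
    refine integrableOn_const ?_
    simp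
  have h2 : Integrable ((Ioo (0 : ℝ) R).indicator fun _ => |M| ^ p) (volume.restrict (Ioi 0)) :=
    (h.integrable_indicator measurableSet_Ioo).restrict
  refine h2.mono' (hu.meas.abs.pow_const p).aestronglyMeasurable
    (Eventually.of_forall fun x => ?_)
  have hx0 : 0 ≤ |u x| ^ p := by positivity
  by_cases hx : x ∈ Ioo (0 : ℝ) R
  · rw [indicator_of_mem hx, Real.norm_eq_abs, abs_of_nonneg hx0]
    exact Real.rpow_le_rpow (abs_nonneg _) ((hu.bd x).trans (le_abs_self _)) (by linarith)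
  · rw [indicator_of_notMem hx, hu.supp x hx, abs_zero, Real.zero_rpow (by linarith)]
    simp

/-- Fubini's theorem for the regularisation -/
lemma fub {a : ℝ → ℝ} (ha : Continuous a) (hb : ∀ y, |a y| ≤ 1) {u : ℝ → ℝ} {M R : ℝ}
    (hu : Bdd u M R) {ε : ℝ} (he : 0 < ε) (x : ℝ) :
    ∫ t in Ioi (0 : ℝ), (2 / Real.pi * ∫ s in Ioi (0 : ℝ), a (t * s) * u s) *
      Real.exp (-ε * t) * a (x * t) =
    ∫ s in Ioi (0 : ℝ), u s * (2 / Real.pi * ∫ t in Ioi (0 : ℝ),
      Real.exp (-ε * t) * (a (t * s) * a (x * t))) := by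
  have e1 : ∀ t : ℝ, (2 / Real.pi * ∫ s in Ioi (0 : ℝ), a (t * s) * u s) *
      Real.exp (-ε * t) * a (x * t) = ∫ s in Ioi (0 : ℝ), (2 / Real.pi) *
        (Real.exp (-ε * t) * u s * (a (t * s) * a (x * t))) := by
    intro t
    rw [mul_assoc, mul_assoc, ← integral_mul_const, ← integral_const_mul]
    refine integral_congr_ae (Eventually.of_forall fun s => ?_)
    simp only
    ring
  have e2 : ∀ s : ℝ, u s * (2 / Real.pi * ∫ t in Ioi (0 : ℝ),
      Real.exp (-ε * t) * (a (t * s) * a (x * t))) = ∫ t in Ioi (0 : ℝ), (2 / Real.pi) *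
        (Real.exp (-ε * t) * u s * (a (t * s) * a (x * t))) := by
    intro s
    rw [mul_left_comm, ← integral_const_mul, ← integral_const_mul]
    refine integral_congr_ae (Eventually.of_forall fun t => ?_)
    simp only
    ring
  simp_rw [e1, e2]
  refine integral_integral_swap ?_
  have h1 : Integrable (fun z : ℝ × ℝ => Real.exp (-ε * z.1) * u z.2)
      ((volume.restrict (Ioi (0 : ℝ))).prod (volume.restrict (Ioi (0 : ℝ)))) :=
    (exp_intble he).mul_prod (bdd_intble hu)
  refine (h1.norm.const_mul (2 / Real.pi)).mono' ?_ (Eventually.of_forall fun z => ?_)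
  · have hm := hu.meas
    have hc := ha.measurable
    refine Measurable.aestronglyMeasurable ?_
    unfold Function.uncurry
    fun_prop
  · have hpi : 0 < 2 / Real.pi := by have := Real.pi_pos; positivity
    simp only [Function.uncurry]
    rw [norm_mul, Real.norm_of_nonneg hpi.le]
    refine mul_le_mul_of_nonneg_left ?_ hpi.le
    rw [norm_mul]
    have h2 : ‖a (z.1 * z.2) * a (x * z.1)‖ ≤ 1 := by
      rw [norm_mul, Real.norm_eq_abs, Real.norm_eq_abs]
      exact mul_le_one₀ (hb _) (abs_nonneg _) (hb _)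
    calc ‖Real.exp (-ε * z.1) * u z.2‖ * ‖a (z.1 * z.2) * a (x * z.1)‖
        ≤ ‖Real.exp (-ε * z.1) * u z.2‖ * 1 := mul_le_mul_of_nonneg_left h2 (norm_nonneg _)
      _ = _ := mul_one _

/-- the holomorphic function is an integral of an integrable function -/
lemma Ft_intble {a : ℝ → ℝ} (ha : Continuous a) (hb : ∀ y, |a y| ≤ 1) {u : ℝ → ℝ} {M R : ℝ}
    (hu : Bdd u M R) {ε : ℝ} (he : 0 < ε) (x : ℝ) :
    IntegrableOn (fun t : ℝ => (((2 / Real.pi * ∫ s in Ioi (0 : ℝ), a (t * s) * u s) *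
      Real.exp (-ε * t) : ℝ) : ℂ) * Complex.exp (Complex.I * x * t)) (Ioi 0) := by
  have hm := hu.meas
  have hc := ha.measurable
  have hM : StronglyMeasurable (fun t : ℝ => ∫ s in Ioi (0 : ℝ), a (t * s) * u s) := by
    refine StronglyMeasurable.integral_prod_right (f := fun t s : ℝ => a (t * s) * u s) ?_
    refine Measurable.stronglyMeasurable ?_
    unfold Function.uncurry
    fun_prop
  have hmm := hM.measurable
  set K : ℝ := 2 / Real.pi * ∫ s in Ioi (0 : ℝ), ‖u s‖ with hK
  have hpi : 0 < 2 / Real.pi := by have := Real.pi_pos; positivity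
  refine ((exp_intble he).const_mul K).mono' ?_ (Eventually.of_forall fun t => ?_)
  · refine Measurable.aestronglyMeasurable ?_
    fun_prop
  · rw [norm_mul, Complex.norm_real, norm_mul, Complex.norm_exp]
    have e1 : (Complex.I * x * t).re = 0 := by simp
    rw [e1, Real.exp_zero, mul_one, Real.norm_of_nonneg (Real.exp_pos _).le]
    refine mul_le_mul_of_nonneg_right ?_ (Real.exp_pos _).le
    rw [norm_mul, Real.norm_of_nonneg hpi.le]
    refine mul_le_mul_of_nonneg_left ?_ hpi.le
    refine norm_integral_le_of_norm_le (bdd_intble hu).norm (Eventually.of_forall fun s => ?_)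
    rw [norm_mul]
    calc ‖a (t * s)‖ * ‖u s‖ ≤ 1 * ‖u s‖ := mul_le_mul_of_nonneg_right (hb _) (norm_nonneg _)
      _ = _ := one_mul _

lemma re_gc {u : ℝ → ℝ} {M R : ℝ} (hu : Bdd u M R) {ε : ℝ} (he : 0 < ε) (x : ℝ) :
    (Ft (gc u) ε x).re = ∫ s in Ioi (0 : ℝ), u s * kp ε x s := by
  have hI := Ft_intble Real.continuous_cos Real.abs_cos_le_one hu he x
  have h1 : (Ft (gc u) ε x).re = ∫ t in Ioi (0 : ℝ), (2 / Real.pi * ∫ s in Ioi (0 : ℝ),
      Real.cos (t * s) * u s) * Real.exp (-ε * t) * Real.cos (x * t) := by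
    unfold Ft gc
    have h3 := integral_re hI
    simp only [RCLike.re_to_complex] at h3
    rw [← h3]
    refine integral_congr_ae (Eventually.of_forall fun t => ?_)
    simp only
    rw [Complex.re_ofReal_mul, Complex.exp_re]
    simp
  rw [h1, fub Real.continuous_cos Real.abs_cos_le_one hu he x]
  refine integral_congr_ae (Eventually.of_forall fun s => ?_)
  simp only
  congr 1
  have h2 := cos_int he (x - s)
  have h3 := cos_int he (x + s)
  have e : ∀ t : ℝ, Real.exp (-ε * t) * (Real.cos (t * s) * Real.cos (x * t)) =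
      (1 / 2) * (Real.exp (-ε * t) * Real.cos ((x - s) * t) +
        Real.exp (-ε * t) * Real.cos ((x + s) * t)) := by
    intro t
    rw [show (x - s) * t = x * t - t * s by ring, show (x + s) * t = x * t + t * s by ring,
      Real.cos_sub, Real.cos_add]
    ring
  simp_rw [e]
  rw [integral_const_mul, integral_add h2.1 h3.1, h2.2, h3.2]
  unfold kp
  ring

lemma im_gs {u : ℝ → ℝ} {M R : ℝ} (hu : Bdd u M R) {ε : ℝ} (he : 0 < ε) (x : ℝ) :
    (Ft (gs u) ε x).im = ∫ s in Ioi (0 : ℝ), u s *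
      ((1 / Real.pi) * (ε / (ε ^ 2 + (x - s) ^ 2) - ε / (ε ^ 2 + (x + s) ^ 2))) := by
  have hI := Ft_intble Real.continuous_sin Real.abs_sin_le_one hu he x
  have h1 : (Ft (gs u) ε x).im = ∫ t in Ioi (0 : ℝ), (2 / Real.pi * ∫ s in Ioi (0 : ℝ),
      Real.sin (t * s) * u s) * Real.exp (-ε * t) * Real.sin (x * t) := by
    unfold Ft gs
    have h3 := integral_im hI
    simp only [RCLike.im_to_complex] at h3
    rw [← h3]
    refine integral_congr_ae (Eventually.of_forall fun t => ?_)
    simp only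
    rw [Complex.im_ofReal_mul, Complex.exp_im]
    simp
  rw [h1, fub Real.continuous_sin Real.abs_sin_le_one hu he x]
  refine integral_congr_ae (Eventually.of_forall fun s => ?_)
  simp only
  congr 1
  have h2 := cos_int he (x - s)
  have h3 := cos_int he (x + s)
  have e : ∀ t : ℝ, Real.exp (-ε * t) * (Real.sin (t * s) * Real.sin (x * t)) =
      (1 / 2) * (Real.exp (-ε * t) * Real.cos ((x - s) * t) -
        Real.exp (-ε * t) * Real.cos ((x + s) * t)) := by
    intro t
    rw [show (x - s) * t = x * t - t * s by ring, show (x + s) * t = x * t + t * s by ring,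
      Real.cos_sub, Real.cos_add]
    ring
  simp_rw [e]
  rw [integral_const_mul, integral_sub h2.1 h3.1, h2.2, h3.2]
  ring

lemma mul_intble {u : ℝ → ℝ} {M R : ℝ} (hu : Bdd u M R) {ε : ℝ} (he : 0 < ε) (x : ℝ) :
    IntegrableOn (fun s => |u s| * kp ε x s) (Ioi 0) := by
  have hm := hu.meas
  have hk := kp_meas' ε x
  refine ((kp_intble he x).const_mul M).mono' (by fun_prop) (Eventually.of_forall fun s => ?_)
  have h0 := kp_nonneg he x s
  rw [Real.norm_of_nonneg (by positivity)]
  exact mul_le_mul_of_nonneg_right (hu.bd s) h0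

/-- Jensen's inequality -/
lemma jens {u : ℝ → ℝ} (hu : Measurable u) {ε : ℝ} (he : 0 < ε) {p : ℝ} (hp : 1 ≤ p) (x : ℝ) :
    (∫⁻ s in Ioi (0 : ℝ), ENNReal.ofReal (kp ε x s) * ENNReal.ofReal |u s|) ^ p ≤
      ∫⁻ s in Ioi (0 : ℝ), ENNReal.ofReal (kp ε x s) * ENNReal.ofReal |u s| ^ p := by
  have hk : Measurable (fun s => ENNReal.ofReal (kp ε x s)) := (kp_meas' ε x).ennreal_ofReal
  set μ : Measure ℝ := (volume.restrict (Ioi (0 : ℝ))).withDensity
    (fun s => ENNReal.ofReal (kp ε x s)) with hμ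
  have : IsProbabilityMeasure μ := by
    constructor
    rw [hμ, withDensity_apply _ MeasurableSet.univ, Measure.restrict_univ]
    exact kp_lint he x
  have h := eLpNorm'_le_eLpNorm'_of_exponent_le (f := u) (p := 1) (q := p) one_pos hp μ
    hu.aestronglyMeasurable
  have e : ∀ q : ℝ, 0 < q → eLpNorm' u q μ = (∫⁻ s in Ioi (0 : ℝ), ENNReal.ofReal (kp ε x s) *
      ENNReal.ofReal |u s| ^ q) ^ (1 / q) := by
    intro q hq
    unfold eLpNorm'
    rw [hμ, lintegral_withDensity_eq_lintegral_mul _ hk (by fun_prop)]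
    congr 1
    refine lintegral_congr fun s => ?_
    simp only [Pi.mul_apply]
    rw [← Real.norm_eq_abs, ofReal_norm]
  rw [e 1 one_pos, e p (by linarith)] at h
  simp only [ENNReal.rpow_one, div_one] at h
  have h2 := ENNReal.rpow_le_rpow h (z := p) (by linarith)
  rw [← ENNReal.rpow_mul, one_div, inv_mul_cancel₀ (by linarith), ENNReal.rpow_one] at h2
  exact h2

lemma main {u : ℝ → ℝ} {M R : ℝ} (hu : Bdd u M R) {ε : ℝ} (he : 0 < ε) {p : ℝ} (hp : 1 ≤ p)
    (F : ℝ → ℝ) (hF : ∀ x, 0 < x → |F x| ≤ ∫ s in Ioi (0 : ℝ), |u s| * kp ε x s) :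
    ∫ x in Ioi (0 : ℝ), |F x| ^ p ≤ ∫ x in Ioi (0 : ℝ), |u x| ^ p := by
  have hm := hu.meas
  have hR0 : 0 ≤ ∫ x in Ioi (0 : ℝ), |u x| ^ p :=
    integral_nonneg fun x => Real.rpow_nonneg (abs_nonneg _) _
  by_cases hI : IntegrableOn (fun x => |F x| ^ p) (Ioi 0)
  swap
  · rw [integral_undef hI]
    exact hR0
  rw [← ENNReal.ofReal_le_ofReal_iff hR0, ofReal_integral_eq_lintegral_ofReal hI
    (Eventually.of_forall fun x => Real.rpow_nonneg (abs_nonneg _) _),
    ofReal_integral_eq_lintegral_ofReal (rpow_intble hu hp)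
    (Eventually.of_forall fun x => Real.rpow_nonneg (abs_nonneg _) _)]
  have h1 : ∀ x : ℝ, 0 < x → ENNReal.ofReal (|F x| ^ p) ≤
      ∫⁻ s in Ioi (0 : ℝ), ENNReal.ofReal (kp ε x s) * ENNReal.ofReal |u s| ^ p := by
    intro x hx
    refine le_trans ?_ (jens hm he hp x)
    rw [← ENNReal.ofReal_rpow_of_nonneg (abs_nonneg _) (by linarith)]
    refine ENNReal.rpow_le_rpow ?_ (by linarith)
    refine (ENNReal.ofReal_le_ofReal (hF x hx)).trans ?_
    rw [ofReal_integral_eq_lintegral_ofReal (mul_intble hu he x)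
      (Eventually.of_forall fun s => mul_nonneg (abs_nonneg _) (kp_nonneg he x s))]
    refine lintegral_mono fun s => ?_
    simp only
    rw [mul_comm, ENNReal.ofReal_mul (kp_nonneg he x s)]
  calc ∫⁻ x in Ioi (0 : ℝ), ENNReal.ofReal (|F x| ^ p)
      ≤ ∫⁻ x in Ioi (0 : ℝ), ∫⁻ s in Ioi (0 : ℝ),
        ENNReal.ofReal (kp ε x s) * ENNReal.ofReal |u s| ^ p := by
        refine lintegral_mono_ae ?_
        filter_upwards [self_mem_ae_restrict (measurableSet_Ioi (a := (0 : ℝ)))] with x hx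
        exact h1 x hx
    _ = ∫⁻ s in Ioi (0 : ℝ), ∫⁻ x in Ioi (0 : ℝ),
        ENNReal.ofReal (kp ε x s) * ENNReal.ofReal |u s| ^ p := by
        refine lintegral_lintegral_swap ?_
        have hk := kp_meas ε
        refine Measurable.aemeasurable ?_
        unfold Function.uncurry
        fun_prop
    _ = ∫⁻ s in Ioi (0 : ℝ), ENNReal.ofReal (|u s| ^ p) := by
        refine lintegral_congr fun s => ?_
        rw [lintegral_mul_const _ (by have := kp_meas ε; fun_prop)]
        simp_rw [kp_symm ε _ s]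
        rw [kp_lint he s, one_mul, ENNReal.ofReal_rpow_of_nonneg (abs_nonneg _) (by linarith)]

end Ker

open Ker in
theorem t_KER : S_KER := by
  intro u M R ε p hu he hp
  constructor
  · refine main hu he hp (fun x => (Ft (gc u) ε x).re) fun x hx => ?_
    rw [re_gc hu he x]
    refine (abs_integral_le_integral_abs).trans (le_of_eq ?_)
    refine integral_congr_ae (Eventually.of_forall fun s => ?_)
    simp only
    rw [abs_mul, abs_of_nonneg (kp_nonneg he x s)]
  · refine main hu he hp (fun x => (Ft (gs u) ε x).im) fun x hx => ?_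
    rw [im_gs hu he x]
    refine (abs_integral_le_integral_abs).trans ?_
    have hpi := Real.pi_pos
    have hb : ∀ s : ℝ, |u s * ((1 / Real.pi) * (ε / (ε ^ 2 + (x - s) ^ 2) -
        ε / (ε ^ 2 + (x + s) ^ 2)))| ≤ |u s| * kp ε x s := by
      intro s
      rw [abs_mul, abs_mul, abs_of_nonneg (show 0 ≤ 1 / Real.pi by positivity)]
      refine mul_le_mul_of_nonneg_left ?_ (abs_nonneg _)
      unfold kp
      refine mul_le_mul_of_nonneg_left ?_ (by positivity)
      have h1 : 0 ≤ ε / (ε ^ 2 + (x - s) ^ 2) := by positivity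
      have h2 : 0 ≤ ε / (ε ^ 2 + (x + s) ^ 2) := by positivity
      rw [abs_le]
      constructor <;> linarith
    refine integral_mono_of_nonneg (Eventually.of_forall fun s => abs_nonneg _)
      (mul_intble hu he x) (Eventually.of_forall hb)

end Pool.Agent.NH67.RX
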