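import Pool.Agent.NH67.RX.Stm

/-!
# RX-12: the cosine and sine transforms on `L ^ 2 (0, ∞)`
-/

set_option autoImplicit false

open MeasureTheory Set Filter Topology
open scoped ENNReal

namespace Pool.Agent.NH67.RX.L2x

/-- the transform with the kernel `K (x t)` -/
noncomputable def tr (K : ℝ → ℝ) (φ : ℝ → ℂ) (x : ℝ) : ℂ :=
  (√(2 / Real.pi) : ℝ) * ∫ t in Ioi (0 : ℝ), (K (x * t) : ℂ) * φ t

/-- the extension by duality -/
structure IsK (K : ℝ → ℝ) (u w : ℝ → ℂ) : Prop where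
  left : MemLp u 2 hl
  right : MemLp w 2 hl
  eq : ∀ φ : ℝ → ℂ, MemLp φ 1 hl → MemLp φ 2 hl →
    ∫ x in Ioi (0 : ℝ), w x * φ x = ∫ x in Ioi (0 : ℝ), u x * tr K φ x

/-- the hypotheses on the kernel -/
structure HK (K : ℝ → ℝ) : Prop where
  cont : Continuous K
  bd : ∀ x, |K x| ≤ 1
  pl : ∀ φ : ℝ → ℂ, MemLp φ 1 hl → MemLp φ 2 hl →
    MemLp (tr K φ) 2 hl ∧ eLpNorm (tr K φ) 2 hl = eLpNorm φ 2 hl

/-- complex conjugate of a function -/
noncomputable def cf (u : ℝ → ℂ) : ℝ → ℂ := fun x => (starRingEnd ℂ) (u x)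

theorem cf_memLp {u : ℝ → ℂ} {p : ℝ≥0∞} (h : MemLp u p hl) : MemLp (cf u) p hl := h.star

theorem cf_cf (u : ℝ → ℂ) : cf (cf u) = u := by
  funext x
  simp [cf]

section gen

variable {K : ℝ → ℝ} (hK : HK K)

include hK

theorem int_K {φ : ℝ → ℂ} (hφ : Integrable φ hl) (x : ℝ) :
    Integrable (fun t => (K (x * t) : ℂ) * φ t) hl := by
  have hc := hK.cont
  refine hφ.mono ?_ (Eventually.of_forall fun t => ?_)
  · have h1 : Continuous fun t : ℝ => (K (x * t) : ℂ) := by fun_prop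
    exact h1.aestronglyMeasurable.mul hφ.aestronglyMeasurable
  · rw [norm_mul, Complex.norm_real, Real.norm_eq_abs]
    have := hK.bd (x * t)
    nlinarith [norm_nonneg (φ t)]

theorem tr_add {φ χ : ℝ → ℂ} (h1 : Integrable φ hl) (h2 : Integrable χ hl) :
    tr K (φ + χ) = tr K φ + tr K χ := by
  funext x
  rw [Pi.add_apply]
  unfold tr
  rw [← mul_add, ← integral_add (int_K hK h1 x) (int_K hK h2 x)]
  congr 1
  apply integral_congr_ae
  exact Eventually.of_forall fun t => by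
    show (K (x * t) : ℂ) * (φ t + χ t) = (K (x * t) : ℂ) * φ t + (K (x * t) : ℂ) * χ t
    ring

theorem fub {φ χ : ℝ → ℂ} (h1 : Integrable φ hl) (h2 : Integrable χ hl) :
    ∫ x in Ioi (0 : ℝ), tr K φ x * χ x = ∫ x in Ioi (0 : ℝ), φ x * tr K χ x := by
  have hc := hK.cont
  have e1 : ∀ x, tr K φ x * χ x = ∫ t in Ioi (0 : ℝ),
      ((√(2 / Real.pi) : ℝ) : ℂ) * ((K (x * t) : ℂ) * φ t) * χ x := by
    intro x
    rw [integral_mul_const, integral_const_mul]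
    rfl
  have e2 : ∀ t, φ t * tr K χ t = ∫ x in Ioi (0 : ℝ),
      ((√(2 / Real.pi) : ℝ) : ℂ) * ((K (x * t) : ℂ) * φ t) * χ x := by
    intro t
    have h3 : (fun x : ℝ => ((√(2 / Real.pi) : ℝ) : ℂ) * ((K (x * t) : ℂ) * φ t) * χ x) =
        fun x : ℝ => (φ t * ((√(2 / Real.pi) : ℝ) : ℂ)) * ((K (t * x) : ℂ) * χ x) := by
      funext x
      rw [mul_comm x t]
      ring
    rw [h3, integral_const_mul, mul_assoc]
    rfl
  simp only [e1, e2]
  apply integral_integral_swap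
  have h3 := h2.mul_prod h1
  have h4 : Continuous fun p : ℝ × ℝ => ((√(2 / Real.pi) : ℝ) : ℂ) * (K (p.1 * p.2) : ℂ) := by
    fun_prop
  refine (h3.norm.const_mul |√(2 / Real.pi)|).mono' ?_ (Eventually.of_forall fun p => ?_)
  · have h5 := h4.aestronglyMeasurable.mul (h3.aestronglyMeasurable)
    refine h5.congr (Eventually.of_forall fun p => ?_)
    show ((√(2 / Real.pi) : ℝ) : ℂ) * (K (p.1 * p.2) : ℂ) * (χ p.1 * φ p.2) =
      ((√(2 / Real.pi) : ℝ) : ℂ) * ((K (p.1 * p.2) : ℂ) * φ p.2) * χ p.1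
    ring
  · show ‖((√(2 / Real.pi) : ℝ) : ℂ) * ((K (p.1 * p.2) : ℂ) * φ p.2) * χ p.1‖ ≤
      |√(2 / Real.pi)| * ‖χ p.1 * φ p.2‖
    rw [norm_mul, norm_mul, norm_mul, norm_mul, Complex.norm_real, Complex.norm_real,
      Real.norm_eq_abs, Real.norm_eq_abs]
    have h5 := hK.bd (p.1 * p.2)
    have h6 : 0 ≤ |√(2 / Real.pi)| * (‖χ p.1‖ * ‖φ p.2‖) := by positivity
    calc |√(2 / Real.pi)| * (|K (p.1 * p.2)| * ‖φ p.2‖) * ‖χ p.1‖
        = |K (p.1 * p.2)| * (|√(2 / Real.pi)| * (‖χ p.1‖ * ‖φ p.2‖)) := by ring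
      _ ≤ 1 * (|√(2 / Real.pi)| * (‖χ p.1‖ * ‖φ p.2‖)) := by gcongr
      _ = _ := one_mul _

omit hK in
theorem tr_smul (c : ℂ) (φ : ℝ → ℂ) : tr K (c • φ) = c • tr K φ := by
  funext x
  rw [Pi.smul_apply, smul_eq_mul]
  unfold tr
  have h1 : ∫ t in Ioi (0 : ℝ), (K (x * t) : ℂ) * (c • φ) t =
      c * ∫ t in Ioi (0 : ℝ), (K (x * t) : ℂ) * φ t := by
    rw [← integral_const_mul]
    apply integral_congr_ae
    exact Eventually.of_forall fun t => by
      show (K (x * t) : ℂ) * (c * φ t) = c * ((K (x * t) : ℂ) * φ t)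
      ring
  rw [h1]
  ring

omit hK in
theorem tr_cf (φ : ℝ → ℂ) : tr K (cf φ) = cf (tr K φ) := by
  funext x
  unfold cf tr
  rw [map_mul, Complex.conj_ofReal, ← integral_conj]
  congr 1
  apply integral_congr_ae
  exact Eventually.of_forall fun t => by
    simp

omit hK in
/-- the integrable functions in `L ^ 2` -/
def EE : Submodule ℂ (ℝ → ℂ) where
  carrier := {φ | MemLp φ 1 hl ∧ MemLp φ 2 hl}
  add_mem' := fun h1 h2 => ⟨h1.1.add h2.1, h1.2.add h2.2⟩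
  zero_mem' := ⟨MemLp.zero, MemLp.zero⟩
  smul_mem' := fun c _ h => ⟨h.1.const_smul c, h.2.const_smul c⟩

omit hK in
/-- the embedding in `L ^ 2` -/
noncomputable def ee : EE →ₗ[ℂ] Lp ℂ 2 hl where
  toFun φ := φ.2.2.toLp
  map_add' _ _ := rfl
  map_smul' _ _ := rfl

theorem pl2 (φ : EE) : MemLp (tr K φ) 2 hl := (hK.pl φ φ.2.1 φ.2.2).1

/-- the transform as a linear map -/
noncomputable def ff (hK : HK K) : EE →ₗ[ℂ] Lp ℂ 2 hl where
  toFun φ := (pl2 hK φ).toLp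
  map_add' φ χ := by
    rw [← MemLp.toLp_add]
    congr 1
    exact tr_add hK (memLp_one_iff_integrable.1 φ.2.1) (memLp_one_iff_integrable.1 χ.2.1)
  map_smul' c φ := by
    rw [RingHom.id_apply, ← MemLp.toLp_const_smul]
    congr 1
    exact tr_smul c φ

theorem ff_norm (φ : EE) : ‖ff hK φ‖ = ‖ee φ‖ := by
  show ‖(pl2 hK φ).toLp‖ = ‖(φ.2.2).toLp‖
  rw [Lp.norm_toLp, Lp.norm_toLp, (hK.pl φ φ.2.1 φ.2.2).2]

omit hK in
theorem dense_ee : DenseRange (ee : EE → Lp ℂ 2 hl) := by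
  intro U
  rw [EMetric.mem_closure_iff]
  intro ε hε
  obtain ⟨g, hg, hg2⟩ := (Lp.memLp U).exists_simpleFunc_eLpNorm_sub_lt (by norm_num) hε.ne'
  have hg1 : MemLp g 1 hl := memLp_one_iff_integrable.2
    ((SimpleFunc.memLp_iff_integrable (by norm_num) (by norm_num)).1 hg2)
  refine ⟨ee ⟨g, hg1, hg2⟩, ⟨_, rfl⟩, ?_⟩
  have h1 : U = (Lp.memLp U).toLp U := (Lp.toLp_coeFn U _).symm
  rw [h1]
  show edist ((Lp.memLp U).toLp U) (hg2.toLp g) < ε
  rw [Lp.edist_toLp_toLp]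
  exact hg

/-- the transform on `L ^ 2` -/
noncomputable def TK (hK : HK K) : Lp ℂ 2 hl →L[ℂ] Lp ℂ 2 hl := (ff hK).extendOfNorm ee

theorem TK_ee (φ : EE) : TK hK (ee φ) = ff hK φ :=
  LinearMap.extendOfNorm_eq dense_ee ⟨1, fun x => by rw [one_mul, ff_norm]⟩ φ

theorem TK_norm (U : Lp ℂ 2 hl) : ‖TK hK U‖ = ‖U‖ := by
  refine dense_ee.induction_on (p := fun U => ‖TK hK U‖ = ‖U‖) U ?_ fun φ => ?_
  · exact isClosed_eq (by fun_prop) (by fun_prop)
  · rw [TK_ee, ff_norm]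

/-- the isometry -/
noncomputable def TI (hK : HK K) : Lp ℂ 2 hl →ₗᵢ[ℂ] Lp ℂ 2 hl := ⟨(TK hK).toLinearMap, TK_norm hK⟩

theorem TK_inner (U V : Lp ℂ 2 hl) : inner ℂ (TK hK U) (TK hK V) = inner ℂ U V :=
  (TI hK).inner_map_map U V

omit hK in
theorem inner_toLp {u v : ℝ → ℂ} (hu : MemLp u 2 hl) (hv : MemLp v 2 hl) :
    inner ℂ ((cf_memLp hu).toLp) (hv.toLp) = ∫ x in Ioi (0 : ℝ), u x * v x := by
  rw [L2.inner_def]
  apply integral_congr_ae
  filter_upwards [(cf_memLp hu).coeFn_toLp, hv.coeFn_toLp] with x h1 h2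
  rw [h1, h2]
  simp [cf, mul_comm]

theorem key1 {u : ℝ → ℂ} (hu : MemLp u 2 hl) {φ : ℝ → ℂ} (h1 : MemLp φ 1 hl)
    (h2 : MemLp φ 2 hl) : inner ℂ ((cf_memLp h2).toLp) (TK hK hu.toLp) =
      ∫ x in Ioi (0 : ℝ), u x * tr K φ x := by
  have h3 : MemLp (tr K φ) 2 hl := (hK.pl φ h1 h2).1
  have h4 : ∀ U : Lp ℂ 2 hl, inner ℂ ((cf_memLp h2).toLp) (TK hK U) =
      inner ℂ ((cf_memLp h3).toLp) U := by
    intro U
    refine dense_ee.induction_on (p := fun U => inner ℂ ((cf_memLp h2).toLp) (TK hK U) =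
      inner ℂ ((cf_memLp h3).toLp) U) U ?_ fun ψ => ?_
    · exact isClosed_eq (by fun_prop) (by fun_prop)
    · rw [TK_ee]
      show inner ℂ ((cf_memLp h2).toLp) ((pl2 hK ψ).toLp) =
        inner ℂ ((cf_memLp h3).toLp) (ψ.2.2).toLp
      rw [inner_toLp h2 (pl2 hK ψ), inner_toLp h3 ψ.2.2]
      have h5 := fub hK (memLp_one_iff_integrable.1 h1) (memLp_one_iff_integrable.1 ψ.2.1)
      rw [h5]
  rw [h4, inner_toLp h3 hu]
  exact integral_congr_ae (Eventually.of_forall fun x => mul_comm _ _)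

theorem isK_of_TK {u w : ℝ → ℂ} (hu : MemLp u 2 hl) (hw : MemLp w 2 hl)
    (h : hw.toLp = TK hK hu.toLp) : IsK K u w := by
  refine ⟨hu, hw, fun φ h1 h2 => ?_⟩
  rw [← key1 hK hu h1 h2, ← h, inner_toLp h2 hw]
  exact integral_congr_ae (Eventually.of_forall fun x => mul_comm _ _)

theorem TK_of_isK {u w : ℝ → ℂ} (h : IsK K u w) : h.right.toLp = TK hK h.left.toLp := by
  have h1 : ∀ V : Lp ℂ 2 hl, inner ℂ V (h.right.toLp) = inner ℂ V (TK hK h.left.toLp) := by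
    intro V
    refine dense_ee.induction_on (p := fun V => inner ℂ V (h.right.toLp) =
      inner ℂ V (TK hK h.left.toLp)) V ?_ fun ψ => ?_
    · exact isClosed_eq (by fun_prop) (by fun_prop)
    · have h2 : MemLp (cf ψ) 1 hl := cf_memLp ψ.2.1
      have h3 : MemLp (cf ψ) 2 hl := cf_memLp ψ.2.2
      have h4 : ee ψ = (cf_memLp h3).toLp := by
        show (ψ.2.2).toLp = (cf_memLp h3).toLp
        congr 1
        exact (cf_cf _).symm
      rw [h4, key1 hK h.left h2 h3, ← h.eq _ h2 h3, inner_toLp h3 h.right]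
      exact integral_congr_ae (Eventually.of_forall fun x => mul_comm _ _)
  have h2 := h1 (h.right.toLp - TK hK h.left.toLp)
  rw [← sub_eq_zero, ← inner_sub_right, inner_self_eq_zero, sub_eq_zero] at h2
  exact h2

theorem ex {u : ℝ → ℂ} (hu : MemLp u 2 hl) : ∃ w, IsK K u w :=
  ⟨TK hK hu.toLp, isK_of_TK hK hu (Lp.memLp _) (Lp.toLp_coeFn _ _)⟩

theorem norm {u w : ℝ → ℂ} (h : IsK K u w) : eLpNorm w 2 hl = eLpNorm u 2 hl := by
  have h1 : ‖h.right.toLp‖ = ‖h.left.toLp‖ := by rw [TK_of_isK hK h, TK_norm]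
  rw [Lp.norm_toLp, Lp.norm_toLp] at h1
  exact (ENNReal.toReal_eq_toReal_iff' h.right.2.ne h.left.2.ne).1 h1

theorem self {φ : ℝ → ℂ} (h1 : MemLp φ 1 hl) (h2 : MemLp φ 2 hl) : IsK K φ (tr K φ) :=
  isK_of_TK hK h2 (hK.pl φ h1 h2).1 (TK_ee hK ⟨φ, h1, h2⟩).symm

omit hK in
theorem conj {u w : ℝ → ℂ} (h : IsK K u w) : IsK K (cf u) (cf w) := by
  refine ⟨cf_memLp h.left, cf_memLp h.right, fun φ h1 h2 => ?_⟩
  have h3 := congrArg (starRingEnd ℂ) (h.eq (cf φ) (cf_memLp h1) (cf_memLp h2))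
  rw [← integral_conj, ← integral_conj, tr_cf] at h3
  simpa [cf] using h3

theorem symm {u w : ℝ → ℂ} (h : IsK K u w) : IsK K w u := by
  refine ⟨h.right, h.left, fun φ h1 h2 => ?_⟩
  have h3 := conj (K := K) h
  have h4 := TK_of_isK hK h3
  have h5 : MemLp (tr K φ) 2 hl := (hK.pl φ h1 h2).1
  have h6 : h5.toLp = TK hK h2.toLp := (TK_ee hK ⟨φ, h1, h2⟩).symm
  rw [← inner_toLp h.left h2, ← inner_toLp h.right h5, h6]
  have h7 : (cf_memLp h.right).toLp = TK hK (cf_memLp h.left).toLp := h4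
  rw [h7, TK_inner]

theorem adj {u w u' w' : ℝ → ℂ} (h : IsK K u w) (h' : IsK K u' w') :
    ∫ x in Ioi (0 : ℝ), w x * u' x = ∫ x in Ioi (0 : ℝ), u x * w' x := by
  have h4 : ∀ U : Lp ℂ 2 hl, inner ℂ ((cf_memLp h'.left).toLp) (TK hK U) =
      inner ℂ ((cf_memLp h'.right).toLp) U := by
    intro U
    refine dense_ee.induction_on (p := fun U => inner ℂ ((cf_memLp h'.left).toLp) (TK hK U) =
      inner ℂ ((cf_memLp h'.right).toLp) U) U ?_ fun ψ => ?_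
    · exact isClosed_eq (by fun_prop) (by fun_prop)
    · rw [TK_ee]
      show inner ℂ ((cf_memLp h'.left).toLp) ((pl2 hK ψ).toLp) =
        inner ℂ ((cf_memLp h'.right).toLp) (ψ.2.2).toLp
      rw [inner_toLp h'.left (pl2 hK ψ), inner_toLp h'.right ψ.2.2, h'.eq ψ ψ.2.1 ψ.2.2]
  have h5 := h4 h.left.toLp
  rw [← TK_of_isK hK h, inner_toLp h'.left h.right, inner_toLp h'.right h.left] at h5
  have e1 : ∫ x in Ioi (0 : ℝ), w x * u' x = ∫ x in Ioi (0 : ℝ), u' x * w x :=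
    integral_congr_ae (Eventually.of_forall fun x => mul_comm _ _)
  have e2 : ∫ x in Ioi (0 : ℝ), u x * w' x = ∫ x in Ioi (0 : ℝ), w' x * u x :=
    integral_congr_ae (Eventually.of_forall fun x => mul_comm _ _)
  rw [e1, e2, h5]

theorem sub {u w u' w' : ℝ → ℂ} (h : IsK K u w) (h' : IsK K u' w') :
    IsK K (u - u') (w - w') := by
  refine isK_of_TK hK (h.left.sub h'.left) (h.right.sub h'.right) ?_
  rw [MemLp.toLp_sub h.right h'.right, MemLp.toLp_sub h.left h'.left, map_sub, TK_of_isK hK h, TK_of_isK hK h']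

theorem smul (c : ℂ) {u w : ℝ → ℂ} (h : IsK K u w) : IsK K (c • u) (c • w) := by
  refine isK_of_TK hK (h.left.const_smul c) (h.right.const_smul c) ?_
  rw [MemLp.toLp_const_smul c h.right, MemLp.toLp_const_smul c h.left, map_smul, TK_of_isK hK h]

omit hK in
theorem ae {u w u' w' : ℝ → ℂ} (h : IsK K u w) (h1 : u =ᵐ[hl] u') (h2 : w =ᵐ[hl] w') :
    IsK K u' w' := by
  refine ⟨h.left.ae_eq h1, h.right.ae_eq h2, fun φ h3 h4 => ?_⟩
  have h5 := h.eq φ h3 h4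
  have e1 : ∫ x in Ioi (0 : ℝ), w' x * φ x = ∫ x in Ioi (0 : ℝ), w x * φ x := by
    apply integral_congr_ae
    filter_upwards [h2] with x hx
    rw [hx]
  have e2 : ∫ x in Ioi (0 : ℝ), u' x * tr K φ x = ∫ x in Ioi (0 : ℝ), u x * tr K φ x := by
    apply integral_congr_ae
    filter_upwards [h1] with x hx
    rw [hx]
  rw [e1, e2, h5]

theorem uniq {u w w' : ℝ → ℂ} (h : IsK K u w) (h' : IsK K u w') : w' =ᵐ[hl] w := by
  have h1 : h'.right.toLp = h.right.toLp := by rw [TK_of_isK hK h, TK_of_isK hK h']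
  exact (MemLp.toLp_eq_toLp_iff _ _).1 h1

end gen

end Pool.Agent.NH67.RX.L2x

namespace Pool.Agent.NH67.RX

open L2x

theorem isCos_iff {u w : ℝ → ℂ} : IsCos u w ↔ IsK Real.cos u w :=
  ⟨fun h => ⟨h.left, h.right, h.eq⟩, fun h => ⟨h.left, h.right, h.eq⟩⟩

theorem isSin_iff {u w : ℝ → ℂ} : IsSin u w ↔ IsK Real.sin u w :=
  ⟨fun h => ⟨h.left, h.right, h.eq⟩, fun h => ⟨h.left, h.right, h.eq⟩⟩

theorem t_L2 : S_L2 := by
  intro hP
  have hc : HK Real.cos := ⟨Real.continuous_cos, Real.abs_cos_le_one, fun φ h1 h2 => (hP φ h1 h2).1⟩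
  have hs : HK Real.sin := ⟨Real.continuous_sin, Real.abs_sin_le_one, fun φ h1 h2 => (hP φ h1 h2).2⟩
  exact
  { cos_ex := fun u hu => by
      obtain ⟨w, hw⟩ := ex hc hu
      exact ⟨w, isCos_iff.2 hw⟩
    sin_ex := fun u hu => by
      obtain ⟨w, hw⟩ := ex hs hu
      exact ⟨w, isSin_iff.2 hw⟩
    cos_norm := fun u w h => L2x.norm hc (isCos_iff.1 h)
    sin_norm := fun u w h => L2x.norm hs (isSin_iff.1 h)
    cos_symm := fun u w h => isCos_iff.2 (L2x.symm hc (isCos_iff.1 h))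
    sin_symm := fun u w h => isSin_iff.2 (L2x.symm hs (isSin_iff.1 h))
    cos_self := fun φ h1 h2 => isCos_iff.2 (L2x.self hc h1 h2)
    sin_self := fun φ h1 h2 => isSin_iff.2 (L2x.self hs h1 h2)
    cos_sub := fun u w u' w' h h' => isCos_iff.2 (L2x.sub hc (isCos_iff.1 h) (isCos_iff.1 h'))
    sin_sub := fun u w u' w' h h' => isSin_iff.2 (L2x.sub hs (isSin_iff.1 h) (isSin_iff.1 h'))
    cos_smul := fun c u w h => isCos_iff.2 (L2x.smul hc c (isCos_iff.1 h))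
    sin_smul := fun c u w h => isSin_iff.2 (L2x.smul hs c (isSin_iff.1 h))
    cos_conj := fun u w h => isCos_iff.2 (L2x.conj (isCos_iff.1 h))
    sin_conj := fun u w h => isSin_iff.2 (L2x.conj (isSin_iff.1 h))
    cos_ae := fun u w u' w' h h1 h2 => isCos_iff.2 (L2x.ae (isCos_iff.1 h) h1 h2)
    sin_ae := fun u w u' w' h h1 h2 => isSin_iff.2 (L2x.ae (isSin_iff.1 h) h1 h2)
    cos_uniq := fun u w w' h h' => L2x.uniq hc (isCos_iff.1 h) (isCos_iff.1 h')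
    sin_uniq := fun u w w' h h' => L2x.uniq hs (isSin_iff.1 h) (isSin_iff.1 h')
    cos_adj := fun u w u' w' h h' => L2x.adj hc (isCos_iff.1 h) (isCos_iff.1 h')
    sin_adj := fun u w u' w' h h' => L2x.adj hs (isSin_iff.1 h) (isSin_iff.1 h') }

end Pool.Agent.NH67.RX
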