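import Pool.Agent.NH67.RX.Stm

set_option autoImplicit false

open MeasureTheory Set Filter Topology

namespace Pool.Agent.NH67.RX

noncomputable def mg (q δ a b x : ℝ) : ℝ :=
  if δ < |x - 1| ∧ |x - 1| < 1 then |x - 1| ^ (-1 / q) * (if 1 < x then b else a) else 0

lemma mg_meas (q δ a b : ℝ) : Measurable (mg q δ a b) := by
  unfold mg
  refine Measurable.ite ?_ ?_ measurable_const
  · have m : Measurable fun x : ℝ => |x - 1| := by fun_prop
    exact (measurableSet_lt measurable_const m).inter (measurableSet_lt m measurable_const)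
  · refine Measurable.mul (by fun_prop) ?_
    exact Measurable.ite (measurableSet_lt measurable_const measurable_id) measurable_const
      measurable_const

lemma mg_sub (q δ a b a' b' x : ℝ) :
    mg q δ a b x - mg q δ a' b' x = mg q δ (a - a') (b - b') x := by
  unfold mg
  split_ifs <;> ring

lemma mg_pow {q δ : ℝ} (hq : 2 ≤ q) (h0 : 0 < δ) (h1 : δ < 1) (a b : ℝ) {x : ℝ} (hx : 0 < x) :
    |mg q δ a b x| ^ q = (Ioo 0 (1 - δ)).indicator (fun x => (1 - x)⁻¹ * |a| ^ q) x +
      (Ioo (1 + δ) 2).indicator (fun x => (x - 1)⁻¹ * |b| ^ q) x := by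
  have hq0 : q ≠ 0 := by linarith
  have key : ∀ w c : ℝ, 0 < w → |w ^ (-1 / q) * c| ^ q = w⁻¹ * |c| ^ q := by
    intro w c hw
    rw [abs_mul, abs_of_pos (Real.rpow_pos_of_pos hw _),
      Real.mul_rpow (Real.rpow_pos_of_pos hw _).le (abs_nonneg _), ← Real.rpow_mul hw.le,
      div_mul_cancel₀ _ hq0, Real.rpow_neg_one]
  unfold mg
  by_cases h : δ < |x - 1| ∧ |x - 1| < 1
  · rw [if_pos h]
    by_cases h2 : 1 < x
    · rw [if_pos h2]
      have e : |x - 1| = x - 1 := abs_of_pos (by linarith)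
      rw [e] at h ⊢
      rw [key _ _ (by linarith), indicator_of_notMem (fun h3 => by linarith [h3.2]),
        indicator_of_mem (show x ∈ Ioo (1 + δ) 2 from ⟨by linarith [h.1], by linarith [h.2]⟩), zero_add]
    · rw [if_neg h2]
      have e : |x - 1| = 1 - x := by rw [abs_sub_comm]; exact abs_of_nonneg (by linarith)
      rw [e] at h ⊢
      rw [key _ _ (by linarith [h.1]), indicator_of_mem
        (show x ∈ Ioo 0 (1 - δ) from ⟨hx, by linarith [h.1]⟩),
        indicator_of_notMem (fun h3 => by linarith [h3.1]), add_zero]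
  · rw [if_neg h, abs_zero, Real.zero_rpow hq0, indicator_of_notMem, indicator_of_notMem, add_zero]
    · intro h3
      apply h
      rw [abs_of_pos (by linarith [h3.1])]
      exact ⟨by linarith [h3.1], by linarith [h3.2]⟩
    · intro h3
      apply h
      rw [abs_sub_comm, abs_of_pos (by linarith [h3.2])]
      exact ⟨by linarith [h3.2], by linarith [h3.1]⟩

lemma int1 {δ : ℝ} (h0 : 0 < δ) (h1 : δ < 1) (c : ℝ) :
    IntegrableOn (fun x : ℝ => (1 - x)⁻¹ * c) (Ioo 0 (1 - δ)) ∧
      ∫ x in Ioo 0 (1 - δ), (1 - x)⁻¹ * c = Real.log (1 / δ) * c := by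
  have hc : IntervalIntegrable (fun x : ℝ => (1 - x)⁻¹ * c) volume 0 (1 - δ) := by
    apply ContinuousOn.intervalIntegrable
    rw [uIcc_of_le (by linarith)]
    refine ContinuousOn.mul (ContinuousOn.inv₀ (by fun_prop) ?_) continuousOn_const
    intro x hx
    have := hx.2
    linarith
  constructor
  · exact ((intervalIntegrable_iff_integrableOn_Ioo_of_le (by linarith)).mp hc)
  · rw [← integral_Ioc_eq_integral_Ioo, ← intervalIntegral.integral_of_le (by linarith),
      intervalIntegral.integral_mul_const]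
    congr 1
    rw [intervalIntegral.integral_comp_sub_left (fun x => x⁻¹) 1]
    rw [show (1 : ℝ) - (1 - δ) = δ by ring, sub_zero, integral_inv_of_pos h0 one_pos]

lemma int2 {δ : ℝ} (h0 : 0 < δ) (h1 : δ < 1) (c : ℝ) :
    IntegrableOn (fun x : ℝ => (x - 1)⁻¹ * c) (Ioo (1 + δ) 2) ∧
      ∫ x in Ioo (1 + δ) 2, (x - 1)⁻¹ * c = Real.log (1 / δ) * c := by
  have hc : IntervalIntegrable (fun x : ℝ => (x - 1)⁻¹ * c) volume (1 + δ) 2 := by
    apply ContinuousOn.intervalIntegrable
    rw [uIcc_of_le (by linarith)]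
    refine ContinuousOn.mul (ContinuousOn.inv₀ (by fun_prop) ?_) continuousOn_const
    intro x hx
    have := hx.1
    linarith
  constructor
  · exact ((intervalIntegrable_iff_integrableOn_Ioo_of_le (by linarith)).mp hc)
  · rw [← integral_Ioc_eq_integral_Ioo, ← intervalIntegral.integral_of_le (by linarith),
      intervalIntegral.integral_mul_const]
    congr 1
    rw [intervalIntegral.integral_comp_sub_right (fun x => x⁻¹) 1]
    rw [show (1 : ℝ) + δ - 1 = δ by ring, show (2 : ℝ) - 1 = 1 by norm_num,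
      integral_inv_of_pos h0 one_pos]

lemma mg_norm {q δ : ℝ} (hq : 2 ≤ q) (h0 : 0 < δ) (h1 : δ < 1) (a b : ℝ) :
    eLpNorm (mg q δ a b) (ENNReal.ofReal q) hl =
      ENNReal.ofReal ((Real.log (1 / δ) * (|a| ^ q + |b| ^ q)) ^ (1 / q)) := by
  have hq0 : 0 < q := by linarith
  have hlog : 0 ≤ Real.log (1 / δ) := Real.log_nonneg (by rw [le_div_iff₀ h0]; linarith)
  rw [eLpNorm_eq_lintegral_rpow_enorm_toReal (by simpa using hq0) ENNReal.ofReal_ne_top,
    ENNReal.toReal_ofReal hq0.le, ← ENNReal.ofReal_rpow_of_nonneg (by positivity) (by positivity)]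
  congr 1
  have e1 : ∫⁻ x, ‖mg q δ a b x‖ₑ ^ q ∂hl = ∫⁻ x, ENNReal.ofReal
      ((Ioo 0 (1 - δ)).indicator (fun x => (1 - x)⁻¹ * |a| ^ q) x +
      (Ioo (1 + δ) 2).indicator (fun x => (x - 1)⁻¹ * |b| ^ q) x) ∂hl := by
    apply setLIntegral_congr_fun measurableSet_Ioi
    intro x hx
    show ‖mg q δ a b x‖ₑ ^ q = ENNReal.ofReal
      ((Ioo 0 (1 - δ)).indicator (fun x => (1 - x)⁻¹ * |a| ^ q) x +
      (Ioo (1 + δ) 2).indicator (fun x => (x - 1)⁻¹ * |b| ^ q) x)
    rw [← mg_pow hq h0 h1 a b hx, Real.enorm_eq_ofReal_abs,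
      ENNReal.ofReal_rpow_of_nonneg (abs_nonneg _) hq0.le]
  have i1 := int1 h0 h1 (|a| ^ q)
  have i2 := int2 h0 h1 (|b| ^ q)
  have s1 : Ioo (0 : ℝ) (1 - δ) ⊆ Ioi 0 := fun x hx => hx.1
  have s2 : Ioo (1 + δ) 2 ⊆ Ioi (0 : ℝ) := fun x hx => by
    have := hx.1
    show (0 : ℝ) < x
    linarith
  have j1 : Integrable ((Ioo 0 (1 - δ)).indicator (fun x => (1 - x)⁻¹ * |a| ^ q)) hl :=
    ((integrable_indicator_iff measurableSet_Ioo).mpr i1.1).mono_measure Measure.restrict_le_self
  have j2 : Integrable ((Ioo (1 + δ) 2).indicator (fun x => (x - 1)⁻¹ * |b| ^ q)) hl :=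
    ((integrable_indicator_iff measurableSet_Ioo).mpr i2.1).mono_measure Measure.restrict_le_self
  have e3 := ofReal_integral_eq_lintegral_ofReal (j1.add j2) (ae_of_all _ fun x => by
    refine add_nonneg (indicator_nonneg (fun x hx => ?_) x) (indicator_nonneg (fun x hx => ?_) x)
    · have : 0 < 1 - x := by linarith [hx.2]
      positivity
    · have : 0 < x - 1 := by linarith [hx.1]
      positivity)
  simp only [Pi.add_apply] at e3
  rw [e1, ← e3, integral_add j1 j2,
    setIntegral_indicator measurableSet_Ioo, setIntegral_indicator measurableSet_Ioo,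
    inter_eq_self_of_subset_right s1, inter_eq_self_of_subset_right s2, i1.2, i2.2, mul_add]

lemma low_key {q C K a b a' b' : ℝ} (hq : 2 ≤ q) (hC : 0 ≤ C)
    (h : ∀ δ : ℝ, 0 < δ → δ < 1 → ∃ F G : ℝ → ℝ, AEStronglyMeasurable F hl ∧
      AEStronglyMeasurable G hl ∧
      eLpNorm (fun x => F x - mg q δ a b x) (ENNReal.ofReal q) hl ≤ ENNReal.ofReal K ∧
      eLpNorm (fun x => G x - mg q δ a' b' x) (ENNReal.ofReal q) hl ≤ ENNReal.ofReal K ∧
      (MemLp F (ENNReal.ofReal q) hl → eLpNorm (fun x => F x - G x) (ENNReal.ofReal q) hl ≤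
        ENNReal.ofReal C * eLpNorm F (ENNReal.ofReal q) hl)) :
    |a - a'| ^ q + |b - b'| ^ q ≤ C ^ q * (|a| ^ q + |b| ^ q) := by
  have hq0 : 0 < q := by linarith
  have hq1 : 1 ≤ ENNReal.ofReal q := by
    rw [← ENNReal.ofReal_one]
    exact ENNReal.ofReal_le_ofReal (by linarith)
  set K' := max K 0 with hK'
  have hK0 : 0 ≤ K' := le_max_right _ _
  have hKK : ENNReal.ofReal K ≤ ENNReal.ofReal K' := ENNReal.ofReal_le_ofReal (le_max_left _ _)
  set N := |a - a'| ^ q + |b - b'| ^ q with hN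
  set D := |a| ^ q + |b| ^ q with hD
  have hN0 : 0 ≤ N := by positivity
  have hD0 : 0 ≤ D := by positivity
  have main : ∀ L : ℝ, 0 < L → L ^ (1 / q) * (N ^ (1 / q) - C * D ^ (1 / q)) ≤ (C + 2) * K' := by
    intro L hL
    have hδ0 : 0 < Real.exp (-L) := Real.exp_pos _
    have hδ1 : Real.exp (-L) < 1 := by
      rw [Real.exp_lt_one_iff]
      linarith
    have hlog : Real.log (1 / Real.exp (-L)) = L := by
      rw [one_div, ← Real.exp_neg, neg_neg, Real.log_exp]
    obtain ⟨F, G, mF, mG, nF, nG, hB⟩ := h _ hδ0 hδ1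
    have mm1 := (mg_meas q (Real.exp (-L)) a b).aestronglyMeasurable (μ := hl)
    have mm2 := (mg_meas q (Real.exp (-L)) a' b').aestronglyMeasurable (μ := hl)
    have e1 := mg_norm hq hδ0 hδ1 a b
    have e2 := mg_norm hq hδ0 hδ1 (a - a') (b - b')
    rw [hlog] at e1 e2
    have b1 : eLpNorm F (ENNReal.ofReal q) hl ≤ ENNReal.ofReal K' +
        ENNReal.ofReal ((L * D) ^ (1 / q)) := by
      have : F = (fun x => F x - mg q (Real.exp (-L)) a b x) + mg q (Real.exp (-L)) a b := by
        funext x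
        simp
      rw [this]
      refine (eLpNorm_add_le (mF.sub mm1) mm1 hq1).trans ?_
      exact add_le_add (nF.trans hKK) e1.le
    have mem : MemLp F (ENNReal.ofReal q) hl :=
      ⟨mF, b1.trans_lt (ENNReal.add_lt_top.mpr ⟨ENNReal.ofReal_lt_top, ENNReal.ofReal_lt_top⟩)⟩
    have b2 := hB mem
    have b3 : eLpNorm (mg q (Real.exp (-L)) (a - a') (b - b')) (ENNReal.ofReal q) hl ≤
        ENNReal.ofReal C * (ENNReal.ofReal K' + ENNReal.ofReal ((L * D) ^ (1 / q))) +
          (ENNReal.ofReal K' + ENNReal.ofReal K') := by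
      have : mg q (Real.exp (-L)) (a - a') (b - b') =
          (fun x => F x - G x) - ((fun x => F x - mg q (Real.exp (-L)) a b x) -
            (fun x => G x - mg q (Real.exp (-L)) a' b' x)) := by
        funext x
        simp only [Pi.sub_apply]
        rw [← mg_sub]
        ring
      rw [this]
      refine (eLpNorm_sub_le (mF.sub mG) ((mF.sub mm1).sub (mG.sub mm2)) hq1).trans ?_
      refine add_le_add (b2.trans (mul_le_mul_right b1 _)) ?_
      refine (eLpNorm_sub_le (mF.sub mm1) (mG.sub mm2) hq1).trans ?_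
      exact add_le_add (nF.trans hKK) (nG.trans hKK)
    rw [e2, ← ENNReal.ofReal_add hK0 (by positivity), ← ENNReal.ofReal_mul hC,
      ← ENNReal.ofReal_add hK0 hK0, ← ENNReal.ofReal_add (by positivity) (by positivity),
      ENNReal.ofReal_le_ofReal_iff (by positivity)] at b3
    rw [Real.mul_rpow hL.le hN0, Real.mul_rpow hL.le hD0] at b3
    nlinarith
  have fin : N ^ (1 / q) ≤ C * D ^ (1 / q) := by
    by_contra hcon
    push Not at hcon
    set d := N ^ (1 / q) - C * D ^ (1 / q) with hd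
    have hd0 : 0 < d := by linarith
    have h1 := main ((((C + 2) * K' + 1) / d) ^ q) (by positivity)
    rw [← Real.rpow_mul (by positivity), mul_one_div_cancel hq0.ne', Real.rpow_one,
      div_mul_cancel₀ _ hd0.ne'] at h1
    linarith
  have h2 : (N ^ (1 / q)) ^ q ≤ (C * D ^ (1 / q)) ^ q :=
    Real.rpow_le_rpow (by positivity) fin hq0.le
  rw [← Real.rpow_mul hN0, one_div_mul_cancel hq0.ne', Real.rpow_one,
    Real.mul_rpow hC (by positivity), ← Real.rpow_mul hD0, one_div_mul_cancel hq0.ne',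
    Real.rpow_one] at h2
  exact h2

lemma re_aux (r φ : ℝ) : (((r : ℝ) : ℂ) * Complex.exp (Complex.I * (φ : ℂ))).re =
    r * Real.cos φ := by
  rw [Complex.re_ofReal_mul, mul_comm Complex.I, Complex.exp_ofReal_mul_I_re]

lemma im_aux (r φ : ℝ) : (((r : ℝ) : ℂ) * Complex.exp (Complex.I * (φ : ℂ))).im =
    r * Real.sin φ := by
  rw [Complex.im_ofReal_mul, mul_comm Complex.I, Complex.exp_ofReal_mul_I_im]

lemma mm_re (q θ δ x : ℝ) : (mm q θ δ x).re =
    mg q δ (Real.cos (θ - Real.pi / (2 * q))) (Real.cos (θ + Real.pi / (2 * q))) x := by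
  unfold mm mg
  split_ifs
  · rw [re_aux]
  · rw [re_aux, ← sub_eq_add_neg]
  · rfl

lemma mm_im (q θ δ x : ℝ) : (mm q θ δ x).im =
    mg q δ (Real.sin (θ - Real.pi / (2 * q))) (Real.sin (θ + Real.pi / (2 * q))) x := by
  unfold mm mg
  split_ifs
  · rw [im_aux]
  · rw [im_aux, ← sub_eq_add_neg]
  · rfl

/-- the function of S_TEST -/
noncomputable def ff (h : ℝ → ℝ) (x : ℝ) : ℂ :=
  ∫ t in Ioi (0 : ℝ), (h t : ℂ) * Complex.exp (Complex.I * x * t)

lemma ff_int {h : ℝ → ℝ} (hh : MemLp (fun t => (h t : ℂ)) 1 hl) (x : ℝ) :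
    Integrable (fun t => (h t : ℂ) * Complex.exp (Complex.I * x * t)) hl := by
  have i0 : Integrable (fun t => (h t : ℂ)) hl := memLp_one_iff_integrable.mp hh
  refine i0.mul_bdd (c := 1) (by fun_prop) (ae_of_all _ fun t => ?_)
  rw [Complex.norm_exp]
  simp

lemma cos_f {h : ℝ → ℝ} (hh : MemLp (fun t => (h t : ℂ)) 1 hl) (x : ℝ) :
    cosT (fun t => (h t : ℂ)) x = ((√(2 / Real.pi) * (ff h x).re : ℝ) : ℂ) := by
  have e : ∫ t in Ioi (0 : ℝ), ((h t : ℂ) * Complex.exp (Complex.I * x * t)).re = (ff h x).re :=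
    integral_re (ff_int hh x)
  rw [cosT, ← e]
  push_cast
  congr 1
  rw [← integral_complex_ofReal]
  congr 1
  funext t
  rw [mul_assoc, mul_comm Complex.I, ← Complex.ofReal_mul x t, Complex.re_ofReal_mul,
    Complex.exp_ofReal_mul_I_re]
  push_cast
  ring

lemma sin_f {h : ℝ → ℝ} (hh : MemLp (fun t => (h t : ℂ)) 1 hl) (x : ℝ) :
    sinT (fun t => (h t : ℂ)) x = ((√(2 / Real.pi) * (ff h x).im : ℝ) : ℂ) := by
  have e : ∫ t in Ioi (0 : ℝ), ((h t : ℂ) * Complex.exp (Complex.I * x * t)).im = (ff h x).im :=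
    integral_im (ff_int hh x)
  rw [sinT, ← e]
  push_cast
  congr 1
  rw [← integral_complex_ofReal]
  congr 1
  funext t
  rw [mul_assoc, mul_comm Complex.I, ← Complex.ofReal_mul x t, Complex.im_ofReal_mul,
    Complex.exp_ofReal_mul_I_im]
  push_cast
  ring

/-- scaling -/
lemma scal {F G : ℝ → ℝ} {C q : ℝ} {u v : ℝ → ℂ}
    (hu : ∀ x, u x = ((√(2 / Real.pi) * F x : ℝ) : ℂ))
    (hv : ∀ x, v x = ((√(2 / Real.pi) * G x : ℝ) : ℂ))
    (h : MemLp u (ENNReal.ofReal q) hl → eLpNorm (u - v) (ENNReal.ofReal q) hl ≤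
      ENNReal.ofReal C * eLpNorm u (ENNReal.ofReal q) hl) (hF : MemLp F (ENNReal.ofReal q) hl) :
    eLpNorm (fun x => F x - G x) (ENNReal.ofReal q) hl ≤
        ENNReal.ofReal C * eLpNorm F (ENNReal.ofReal q) hl := by
  have hc : (0 : ℝ) < √(2 / Real.pi) := Real.sqrt_pos.mpr (by positivity)
  have key : ∀ (E : ℝ → ℝ) (w : ℝ → ℂ), (∀ x, w x = ((√(2 / Real.pi) * E x : ℝ) : ℂ)) →
      eLpNorm w (ENNReal.ofReal q) hl =
        ‖√(2 / Real.pi)‖ₑ * eLpNorm E (ENNReal.ofReal q) hl := by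
    intro E w hw
    rw [← eLpNorm_const_smul]
    apply eLpNorm_congr_norm_ae
    refine ae_of_all _ fun x => ?_
    rw [hw, Complex.norm_real]
    rfl
  have hmem : MemLp u (ENNReal.ofReal q) hl := by
    have h1 : MemLp (fun x => ((√(2 / Real.pi) * F x : ℝ) : ℂ)) (ENNReal.ofReal q) hl :=
      (hF.const_mul _).ofReal
    have h2 : u = fun x => ((√(2 / Real.pi) * F x : ℝ) : ℂ) := funext hu
    rw [h2]
    exact h1
  have h3 := h hmem
  rw [key F u hu, key (fun x => F x - G x) (u - v) (fun x => by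
    simp only [Pi.sub_apply, hu, hv]; push_cast; ring)] at h3
  have h4 : ‖√(2 / Real.pi)‖ₑ * eLpNorm (fun x => F x - G x) (ENNReal.ofReal q) hl ≤
      ‖√(2 / Real.pi)‖ₑ * (ENNReal.ofReal C * eLpNorm F (ENNReal.ofReal q) hl) := by
    refine h3.trans (le_of_eq ?_)
    ring
  exact (ENNReal.mul_le_mul_iff_right (by simpa using hc.ne') (by simp)).mp h4

lemma meas_of {F : ℝ → ℝ} {u : ℝ → ℂ} (hu : ∀ x, u x = ((√(2 / Real.pi) * F x : ℝ) : ℂ))
    (h : MemLp u 2 hl) : AEStronglyMeasurable F hl := by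
  have hc : (0 : ℝ) < √(2 / Real.pi) := Real.sqrt_pos.mpr (by positivity)
  have e : F = fun x => (√(2 / Real.pi))⁻¹ * (u x).re := by
    funext x
    rw [hu, Complex.ofReal_re]
    field_simp
  rw [e]
  exact (h.1.re).const_mul _

theorem t_LOW : S_LOW := by
  intro L hBB hT q C hq hC hB
  obtain ⟨x₀, hx₀⟩ := hBB.attained q hq
  have hden := hBB.den_pos q x₀ hq
  have hq0 : 0 < q := by linarith
  have goal : |Real.cos x₀ - Real.sin x₀| ^ q +
      |Real.cos (x₀ + Real.pi / q) - Real.sin (x₀ + Real.pi / q)| ^ q ≤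
      C ^ q * (|Real.cos x₀| ^ q + |Real.cos (x₀ + Real.pi / q)| ^ q) := by
    rcases hB with hB | hB
    · obtain ⟨K, hK⟩ := hT q (x₀ + Real.pi / (2 * q)) hq
      have e1 : x₀ + Real.pi / (2 * q) - Real.pi / (2 * q) = x₀ := by ring
      have e2 : x₀ + Real.pi / (2 * q) + Real.pi / (2 * q) = x₀ + Real.pi / q := by
        field_simp
        ring
      apply low_key (K := K) hq hC
      intro δ hδ0 hδ1
      obtain ⟨h, h1, h2, h3⟩ := hK δ hδ0 hδ1
      have hc := L.cos_self _ h1 h2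
      have hs := L.sin_self _ h1 h2
      refine ⟨fun x => (ff h x).re, fun x => (ff h x).im, meas_of (cos_f h1) hc.right,
        meas_of (sin_f h1) hs.right, ?_, ?_, scal (cos_f h1) (sin_f h1)
          (hB _ _ ⟨_, L.cos_symm _ _ hc, hs⟩)⟩
      · refine le_trans (eLpNorm_mono fun x => ?_) h3
        have := Complex.abs_re_le_norm (ff h x - mm q (x₀ + Real.pi / (2 * q)) δ x)
        rw [Complex.sub_re, mm_re, e1, e2] at this
        exact this
      · refine le_trans (eLpNorm_mono fun x => ?_) h3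
        have := Complex.abs_im_le_norm (ff h x - mm q (x₀ + Real.pi / (2 * q)) δ x)
        rw [Complex.sub_im, mm_im, e1, e2] at this
        exact this
    · obtain ⟨K, hK⟩ := hT q (Real.pi / 2 - x₀ - Real.pi / (2 * q)) hq
      have e1 : Real.pi / 2 - x₀ - Real.pi / (2 * q) - Real.pi / (2 * q) =
          Real.pi / 2 - (x₀ + Real.pi / q) := by
        field_simp
        ring
      have e2 : Real.pi / 2 - x₀ - Real.pi / (2 * q) + Real.pi / (2 * q) = Real.pi / 2 - x₀ := by
        ring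
      have res : |Real.cos (x₀ + Real.pi / q) - Real.sin (x₀ + Real.pi / q)| ^ q +
          |Real.cos x₀ - Real.sin x₀| ^ q ≤
          C ^ q * (|Real.cos (x₀ + Real.pi / q)| ^ q + |Real.cos x₀| ^ q) := by
        apply low_key (K := K) hq hC
        intro δ hδ0 hδ1
        obtain ⟨h, h1, h2, h3⟩ := hK δ hδ0 hδ1
        have hc := L.cos_self _ h1 h2
        have hs := L.sin_self _ h1 h2
        refine ⟨fun x => (ff h x).im, fun x => (ff h x).re, meas_of (sin_f h1) hs.right,
          meas_of (cos_f h1) hc.right, ?_, ?_, scal (sin_f h1) (cos_f h1)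
            (hB _ _ ⟨_, L.sin_symm _ _ hs, hc⟩)⟩
        · refine le_trans (eLpNorm_mono fun x => ?_) h3
          have := Complex.abs_im_le_norm (ff h x -
            mm q (Real.pi / 2 - x₀ - Real.pi / (2 * q)) δ x)
          rw [Complex.sub_im, mm_im, e1, e2, Real.sin_pi_div_two_sub, Real.sin_pi_div_two_sub] at this
          exact this
        · refine le_trans (eLpNorm_mono fun x => ?_) h3
          have := Complex.abs_re_le_norm (ff h x -
            mm q (Real.pi / 2 - x₀ - Real.pi / (2 * q)) δ x)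
          rw [Complex.sub_re, mm_re, e1, e2, Real.cos_pi_div_two_sub, Real.cos_pi_div_two_sub] at this
          exact this
      linarith
  rw [← hx₀, ratio, div_le_iff₀ hden]
  exact goal

end Pool.Agent.NH67.RX
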