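import Pool.Agent.NH67.RX.Min1

/-!
# RX-4: the smooth minorant
-/

set_option autoImplicit false

open MeasureTheory Set Filter Topology

namespace Pool.Agent.NH67.RX

lemma phi_per (p θ : ℝ) : phi p (θ + Real.pi) = phi p θ := by
  rw [phi, phi, Real.cos_add_pi, Real.sin_add_pi, abs_neg, ← abs_neg (Real.cos θ - Real.sin θ)]
  congr 3
  ring

lemma kap_per (p θ : ℝ) : kap p (θ + Real.pi) = kap p θ := by
  rw [kap, kap, Real.cos_add_pi, Real.sin_add_pi, abs_neg, ← abs_neg (Real.cos θ - Real.sin θ)]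
  congr 5
  ring

theorem t_MIN (hS : S_SIG) (hP : S_PHI) : S_MIN := by
  intro p ε hp hε
  obtain ⟨x0, x1, P, Q, h0, h0', h1', h1, hQ, hx, hle, hk⟩ := hS p hp
  obtain ⟨hd1, hd2, hkc⟩ := hP p hp
  have hπ := Real.pi_pos
  have h01 : x0 < x1 := by linarith
  -- the sinusoid
  set σ : ℝ → ℝ := fun x => P * Real.cos (p * (x - Real.pi / 2)) +
    Q * Real.sin (p * (x - Real.pi / 2)) with hσ
  set σ1 : ℝ → ℝ := fun x => p * (Q * Real.cos (p * (x - Real.pi / 2)) -
    P * Real.sin (p * (x - Real.pi / 2))) with hσ1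
  have hlin : ∀ x : ℝ, HasDerivAt (fun x : ℝ => p * (x - Real.pi / 2)) p x := by
    intro x
    simpa using ((hasDerivAt_id x).sub_const (Real.pi / 2)).const_mul p
  have hσd : ∀ x, HasDerivAt σ (σ1 x) x := by
    intro x
    have := ((hlin x).cos.const_mul P).add ((hlin x).sin.const_mul Q)
    refine this.congr_deriv ?_
    simp only [hσ1]; ring
  have hσ1d : ∀ x, HasDerivAt σ1 (-(p ^ 2) * σ x) x := by
    intro x
    have := (((hlin x).cos.const_mul Q).sub ((hlin x).sin.const_mul P)).const_mul p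
    refine this.congr_deriv ?_
    simp only [hσ]; ring
  -- the bump
  set d : ℝ → ℝ := fun x => phi p x - σ x with hd
  set d' : ℝ → ℝ := fun x => phi1 p x - σ1 x with hd'
  have hdd : ∀ x, HasDerivAt d (d' x) x := fun x => (hd1 x).sub (hσd x)
  have e0 : d x0 = 0 := by simp only [hd, hσ]; rw [(hx x0 (by simp)).1]; ring
  have e1 : d x1 = 0 := by simp only [hd, hσ]; rw [(hx x1 (by simp)).1]; ring
  have f0 : d' x0 = 0 := by simp only [hd', hσ1]; rw [(hx x0 (by simp)).2]; ring
  have f1 : d' x1 = 0 := by simp only [hd', hσ1]; rw [(hx x1 (by simp)).2]; ring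
  have hphi1c : Continuous (phi1 p) :=
    continuous_iff_continuousAt.mpr fun x => (hd2 x).continuousAt
  have hσ1c : Continuous σ1 := continuous_iff_continuousAt.mpr fun x => (hσ1d x).continuousAt
  have hbd : ∀ x, HasDerivAt (cut x0 x1 d) (cut x0 x1 d' x) x := cut_deriv h01 hdd e0 e1 f0 f1
  have hbc : Continuous (cut x0 x1 d') := cut_cont h01 (hphi1c.sub hσ1c) f0 f1
  have hz : ∀ (g : ℝ → ℝ) x, (x < x0 ∨ x1 < x) → cut x0 x1 g x = 0 := fun g x h => cut_out g h
  -- the C^1 minorant
  set ψ0 : ℝ → ℝ := fun x => phi p x - cut x0 x1 d (tm x) with hψ0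
  set ψ01 : ℝ → ℝ := fun x => phi1 p x - cut x0 x1 d' (tm x) with hψ01
  have hψd : ∀ x, HasDerivAt ψ0 (ψ01 x) x := fun x =>
    (hd1 x).sub (per_deriv h0 h1 hbd (hz d) (hz d') x)
  have hψ0c : Continuous ψ0 := continuous_iff_continuousAt.mpr fun x => (hψd x).continuousAt
  have hψ1c : Continuous ψ01 := hphi1c.sub (per_cont h0 h1 hbc (hz d'))
  have hψper : ∀ x, ψ0 (x + Real.pi) = ψ0 x := fun x => by
    simp only [hψ0]; rw [phi_per, tm_add]
  have hphi1per : ∀ x, phi1 p (x + Real.pi) = phi1 p x := by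
    intro x
    have h2 : HasDerivAt (fun x => phi p (x + Real.pi)) (phi1 p (x + Real.pi)) x := by
      simpa using (hd1 (x + Real.pi)).comp_add_const x Real.pi
    have h3 : (fun x => phi p (x + Real.pi)) = phi p := funext (phi_per p)
    rw [h3] at h2
    exact h2.unique (hd1 x)
  have hψ1per : ∀ x, ψ01 (x + Real.pi) = ψ01 x := fun x => by
    simp only [hψ01]; rw [hphi1per, tm_add]
  have hψle : ∀ x, ψ0 x ≤ phi p x := by
    intro x
    have : 0 ≤ cut x0 x1 d (tm x) := by
      unfold cut
      split_ifs with h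
      · have := hle _ ⟨h.1, h.2⟩
        simp only [hd, hσ]; linarith
      · exact le_rfl
    simp only [hψ0]; linarith
  -- the monotone function
  set Ψ : ℝ → ℝ := fun x => ∫ t in (0 : ℝ)..x, ψ0 t with hΨ
  have hΨd : ∀ x, HasDerivAt Ψ (ψ0 x) x := fun x =>
    intervalIntegral.integral_hasDerivAt_right (hψ0c.intervalIntegrable _ _)
      (hψ0c.stronglyMeasurableAtFilter _ _) hψ0c.continuousAt
  set K : ℝ → ℝ := fun x => ψ01 x + p ^ 2 * Ψ x with hK
  have hKc : Continuous K := hψ1c.add ((continuous_iff_continuousAt.mpr fun x =>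
    (hΨd x).continuousAt).const_mul _)
  set s : Set ℝ := {x | tm x = x0 ∨ tm x = x1} with hs
  have hsc : s.Countable := by
    have : s ⊆ (range fun k : ℤ => x0 + k • Real.pi) ∪ range fun k : ℤ => x1 + k • Real.pi := by
      intro x hx
      obtain ⟨k, hk⟩ := tm_ex x
      rcases hx with hx | hx
      · left; exact ⟨k, by rw [hx] at hk; exact hk.symm⟩
      · right; exact ⟨k, by rw [hx] at hk; exact hk.symm⟩
    exact ((countable_range _).union (countable_range _)).mono this
  have hkapnn : ∀ x, (tm x < x0 ∨ x1 < tm x) → 0 ≤ kap p x := by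
    intro x hx
    obtain ⟨k, hk'⟩ := tm_ex x
    have hper : Function.Periodic (kap p) Real.pi := kap_per p
    have e : kap p x = kap p (tm x) := by
      rw [hk', show tm (tm x + k • Real.pi) = tm x from tm_eq k (tm_mem x).1 (tm_mem x).2 rfl]
      exact hper.zsmul k (tm x)
    rw [e]
    rcases hx with hx | hx
    · exact hk _ ⟨by linarith [(tm_mem x).1], hx.le⟩
    · rw [← sub_add_cancel (tm x) Real.pi, kap_per]
      exact hk _ ⟨by linarith, by linarith [(tm_mem x).2]⟩
  have hKd : ∀ x, x ∉ s → ∃ κ, HasDerivAt K κ x ∧ 0 ≤ κ ∧ κ ≤ |kap p x| := by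
    intro x hxs
    have hΨ' := (hΨd x).const_mul (p ^ 2)
    rcases lt_trichotomy (tm x) x0 with h | h | h
    · refine ⟨kap p x, ?_, hkapnn x (Or.inl h), le_abs_self _⟩
      have e2 : ψ01 =ᶠ[𝓝 x] phi1 p := by
        filter_upwards [tm_out h0 h1 (Or.inl h)] with t ht
        simp only [hψ01]; rw [hz d' _ ht, sub_zero]
      have e3 : ψ0 x = phi p x := by
        simp only [hψ0]; rw [hz d _ (Or.inl h), sub_zero]
      have := ((hd2 x).congr_of_eventuallyEq e2).add hΨ'
      refine this.congr_deriv ?_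
      rw [e3]; ring
    · exact absurd (Or.inl h) hxs
    · rcases lt_trichotomy (tm x) x1 with h' | h' | h'
      · refine ⟨0, ?_, le_rfl, abs_nonneg _⟩
        obtain ⟨k, hk1, hk2⟩ := tm_near (h0.trans h)
        have e : x - k • Real.pi = tm x := by linarith
        have hc : ContinuousAt (fun t : ℝ => t - k • Real.pi) x :=
          (continuous_id.sub continuous_const).continuousAt
        have g1 : ∀ᶠ t in 𝓝 x, x0 < t - k • Real.pi :=
          hc.eventually (lt_mem_nhds (by show x0 < x - k • Real.pi; rw [e]; exact h))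
        have g2 : ∀ᶠ t in 𝓝 x, t - k • Real.pi < x1 :=
          hc.eventually (gt_mem_nhds (by show x - k • Real.pi < x1; rw [e]; exact h'))
        have hper : Function.Periodic (phi p) Real.pi := phi_per p
        have hper1 : Function.Periodic (phi1 p) Real.pi := hphi1per
        have e2 : ψ01 =ᶠ[𝓝 x] fun t => σ1 (t - k • Real.pi) := by
          filter_upwards [hk2, g1, g2] with t t1 t2 t3
          simp only [hψ01]
          rw [t1, cut_in d' t2.le t3.le]
          simp only [hd']
          rw [hper1.sub_zsmul_eq]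
          ring
        have e3 : ψ0 x = σ (x - k • Real.pi) := by
          simp only [hψ0]
          rw [← e, cut_in d (by rw [e]; exact h.le) (by rw [e]; exact h'.le)]
          simp only [hd]
          rw [hper.sub_zsmul_eq]
          ring
        have h5 : HasDerivAt (fun t => σ1 (t - k • Real.pi)) (-(p ^ 2) * σ (x - k • Real.pi)) x :=
          (hσ1d (x - k • Real.pi)).comp_sub_const x (k • Real.pi)
        have := (h5.congr_of_eventuallyEq e2).add hΨ'
        refine this.congr_deriv ?_
        rw [e3]; ring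
      · exact absurd (Or.inr h') hxs
      · refine ⟨kap p x, ?_, hkapnn x (Or.inr h'), le_abs_self _⟩
        have e2 : ψ01 =ᶠ[𝓝 x] phi1 p := by
          filter_upwards [tm_out h0 h1 (Or.inr h')] with t ht
          simp only [hψ01]; rw [hz d' _ ht, sub_zero]
        have e3 : ψ0 x = phi p x := by
          simp only [hψ0]; rw [hz d _ (Or.inr h'), sub_zero]
        have := ((hd2 x).congr_of_eventuallyEq e2).add hΨ'
        refine this.congr_deriv ?_
        rw [e3]; ring
  obtain ⟨Mk, hMk0, hMk⟩ := per_bdd (kap p) hkc (kap_per p)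
  have hKmono : ∀ a b : ℝ, a ≤ b → K a ≤ K b := by
    intro a b hab
    have hae : ∀ᵐ x : ℝ, x ∉ s := hsc.ae_notMem volume
    have hint : IntervalIntegrable (deriv K) volume a b := by
      rw [intervalIntegrable_iff]
      refine Measure.integrableOn_of_bounded (M := Mk) ?_ (measurable_deriv K).aestronglyMeasurable ?_
      · rw [uIoc_of_le hab]; exact measure_Ioc_lt_top.ne
      · refine ae_restrict_of_ae ?_
        filter_upwards [hae] with x hx
        obtain ⟨κ, hκ, hκ0, hκ1⟩ := hKd x hx
        rw [hκ.deriv, Real.norm_of_nonneg hκ0]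
        exact hκ1.trans (hMk x)
    have h2 := integral_eq_of_hasDerivAt_off_countable_of_le K (deriv K) hab hsc
      hKc.continuousOn (fun x hx => by
        obtain ⟨κ, hκ, -⟩ := hKd x hx.2
        rw [hκ.deriv]; exact hκ) hint
    have h3 : 0 ≤ ∫ x in a..b, deriv K x := by
      apply intervalIntegral.integral_nonneg_of_ae_restrict hab
      refine ae_restrict_of_ae ?_
      filter_upwards [hae] with x hx
      obtain ⟨κ, hκ, hκ0, hκ1⟩ := hKd x hx
      rw [hκ.deriv]; exact hκ0
    linarith
  -- the step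
  obtain ⟨M1, hM10, hM1⟩ := per_bdd ψ01 hψ1c hψ1per
  obtain ⟨h, hh0, hh⟩ : ∃ h : ℝ, 0 < h ∧ h < x0 ∧ h < Real.pi - x1 ∧ h < Real.pi / 2 - x0 ∧
      h < x1 - Real.pi / 2 ∧ p * h < Real.pi ∧ h < Real.pi / 2 ∧ M1 * h ≤ ε := by
    have hpos : 0 < min (min (min x0 (Real.pi - x1)) (min (Real.pi / 2 - x0) (x1 - Real.pi / 2)))
        (min (min (Real.pi / p) (Real.pi / 2)) (ε / (M1 + 1))) := by
      refine lt_min (lt_min (lt_min h0 (by linarith)) (lt_min (by linarith) (by linarith)))
        (lt_min (lt_min (by positivity) (by positivity)) (by positivity))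
    obtain ⟨h, hh0, hh1⟩ := exists_between hpos
    simp only [lt_min_iff] at hh1
    obtain ⟨⟨⟨a1, a2⟩, a3, a4⟩, ⟨a5, a6⟩, a7⟩ := hh1
    refine ⟨h, hh0, a1, a2, a3, a4, ?_, a6, ?_⟩
    · rw [lt_div_iff₀ (by linarith)] at a5; linarith
    · rw [lt_div_iff₀ (by linarith)] at a7; nlinarith
  obtain ⟨a1, a2, a3, a4, a5, a6, a7⟩ := hh
  have hΨc : Continuous Ψ := continuous_iff_continuousAt.mpr fun x => (hΨd x).continuousAt
  refine ⟨fun θ => (Ψ (θ + h) - Ψ (θ - h)) / (2 * h), fun θ => (ψ0 (θ + h) - ψ0 (θ - h)) / (2 * h),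
    fun θ => (ψ01 (θ + h) - ψ01 (θ - h)) / (2 * h), ⟨?_, ?_, ?_, ?_, ?_, ?_⟩, ?_, ?_⟩
  · intro θ
    have h2 := (hΨd (θ + h)).comp_add_const θ h
    have h3 := (hΨd (θ - h)).comp_sub_const θ h
    exact (h2.sub h3).div_const _
  · intro θ
    have h2 := (hψd (θ + h)).comp_add_const θ h
    have h3 := (hψd (θ - h)).comp_sub_const θ h
    exact (h2.sub h3).div_const _
  · exact ((hψ1c.comp (by fun_prop)).sub (hψ1c.comp (by fun_prop))).div_const _
  · intro θ
    have h2 : ∀ x y : ℝ, Ψ x - Ψ y = ∫ t in y..x, ψ0 t := by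
      intro x y
      simp only [hΨ]
      rw [intervalIntegral.integral_interval_sub_left (hψ0c.intervalIntegrable _ _)
        (hψ0c.intervalIntegrable _ _)]
    rw [h2, h2]
    congr 1
    have h3 := intervalIntegral.integral_comp_add_right (a := θ - h) (b := θ + h) ψ0 Real.pi
    have h4 : (fun x => ψ0 (x + Real.pi)) = ψ0 := funext hψper
    simp only [hψper] at h3
    rw [h3]
    congr 1 <;> ring
  · intro θ
    have h2 := hKmono (θ - h) (θ + h) (by linarith)
    have e : (ψ01 (θ + h) - ψ01 (θ - h)) / (2 * h) + p ^ 2 * ((Ψ (θ + h) - Ψ (θ - h)) / (2 * h)) =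
        (K (θ + h) - K (θ - h)) / (2 * h) := by
      simp only [hK]; ring
    rw [e]
    exact div_nonneg (by linarith) (by linarith)
  · simp only [zero_add, zero_sub]
    apply div_nonneg _ (by linarith)
    have t1 : tm h = h := tm_self hh0.le (by linarith)
    have t2 : tm (-h) = Real.pi - h := tm_eq (-1) (by linarith) (by linarith) (by
      rw [neg_smul, one_smul]; ring)
    simp only [hψ0]
    rw [t1, t2, hz d h (Or.inl a1), hz d _ (Or.inr (by linarith)), sub_zero, sub_zero, phi, phi,
      Real.cos_neg, Real.sin_neg]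
    have hc : 0 < Real.cos h := Real.cos_pos_of_mem_Ioo ⟨by linarith, a6⟩
    have hsn : 0 < Real.sin h := Real.sin_pos_of_pos_of_lt_pi hh0 (by linarith)
    have : |Real.cos h - Real.sin h| ^ p ≤ |Real.cos h - -Real.sin h| ^ p := by
      apply Real.rpow_le_rpow (abs_nonneg _) _ (by linarith)
      rw [abs_le, sub_neg_eq_add, abs_of_pos (by linarith)]
      constructor <;> linarith
    linarith
  · simp only
    apply div_nonpos_of_nonpos_of_nonneg _ (by linarith)
    have t1 : tm (Real.pi / 2 + h) = Real.pi / 2 + h := tm_self (by linarith) (by linarith)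
    have t2 : tm (Real.pi / 2 - h) = Real.pi / 2 - h := tm_self (by linarith) (by linarith)
    simp only [hψ0]
    rw [t1, t2, cut_in d (by linarith) (by linarith), cut_in d (by linarith) (by linarith)]
    simp only [hd, hσ]
    have e : p * (Real.pi / 2 - h - Real.pi / 2) = -(p * (Real.pi / 2 + h - Real.pi / 2)) := by ring
    rw [e, Real.cos_neg, Real.sin_neg]
    have hsn : 0 ≤ Real.sin (p * (Real.pi / 2 + h - Real.pi / 2)) := by
      apply Real.sin_nonneg_of_nonneg_of_le_pi
      · rw [add_sub_cancel_left]; nlinarith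
      · rw [add_sub_cancel_left]; exact a5.le
    nlinarith
  · intro θ
    simp only
    have hψlip : ∀ x y : ℝ, |x - y| ≤ h → ψ0 x ≤ ψ0 y + ε := by
      intro x y hxy
      have h2 := Convex.norm_image_sub_le_of_norm_hasDerivWithin_le (f := ψ0) (f' := ψ01)
        (s := univ) (C := M1) (fun z _ => (hψd z).hasDerivWithinAt) (fun z _ => hM1 z)
        convex_univ (mem_univ y) (mem_univ x)
      rw [Real.norm_eq_abs, Real.norm_eq_abs] at h2
      have h3 := (abs_le.mp h2).2
      nlinarith [abs_nonneg (x - y)]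
    have h2 : Ψ (θ + h) - Ψ (θ - h) = ∫ t in (θ - h)..(θ + h), ψ0 t := by
      simp only [hΨ]
      rw [intervalIntegral.integral_interval_sub_left (hψ0c.intervalIntegrable _ _)
        (hψ0c.intervalIntegrable _ _)]
    have h3 : ∫ t in (θ - h)..(θ + h), ψ0 t ≤ ∫ t in (θ - h)..(θ + h), (ψ0 θ + ε) := by
      apply intervalIntegral.integral_mono_on (by linarith) (hψ0c.intervalIntegrable _ _)
        (continuous_const.intervalIntegrable _ _)
      intro t ht
      apply hψlip
      rw [abs_le]
      constructor <;> linarith [ht.1, ht.2]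
    rw [intervalIntegral.integral_const, smul_eq_mul] at h3
    rw [h2, div_le_iff₀ (by linarith)]
    have := hψle θ
    nlinarith

end Pool.Agent.NH67.RX
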