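import Pool.Agent.NH67.RX.Stm

/-!
# RX-9: decay of the regularised functions
-/

set_option autoImplicit false

open MeasureTheory Set Filter Topology

namespace Pool.Agent.NH67.RX

/-- the Laplace transform -/
noncomputable def Lpl (H : ℝ → ℝ) (l : ℂ) : ℂ :=
  ∫ t in Ioi (0 : ℝ), (H t : ℂ) * Complex.exp (-(l * t))

lemma lin_exp {a t : ℝ} (ha : 0 < a) (ht : 0 ≤ t) :
    (2 + t) * Real.exp (-a * t) ≤ (2 + 2 / a) * Real.exp (-(a / 2) * t) := by
  have h1 : Real.exp (-a * t) = Real.exp (-(a / 2) * t) * Real.exp (-(a / 2) * t) := by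
    rw [← Real.exp_add]; congr 1; ring
  have h2 : a / 2 * t + 1 ≤ Real.exp (a / 2 * t) := Real.add_one_le_exp _
  have h3 : Real.exp (-(a / 2) * t) * Real.exp (a / 2 * t) = 1 := by
    rw [← Real.exp_add, show -(a / 2) * t + a / 2 * t = 0 by ring, Real.exp_zero]
  have h4 : 0 < Real.exp (-(a / 2) * t) := Real.exp_pos _
  have h5 : 1 ≤ Real.exp (a / 2 * t) := by
    have : 0 ≤ a / 2 * t := by positivity
    linarith
  have h6 : (2 + t) ≤ (2 + 2 / a) * Real.exp (a / 2 * t) := by
    have h7 : t ≤ 2 / a * Real.exp (a / 2 * t) := by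
      rw [div_mul_eq_mul_div, le_div_iff₀ ha]
      nlinarith
    nlinarith
  rw [h1, ← mul_assoc]
  apply mul_le_mul_of_nonneg_right _ h4.le
  calc (2 + t) * Real.exp (-(a / 2) * t)
      ≤ ((2 + 2 / a) * Real.exp (a / 2 * t)) * Real.exp (-(a / 2) * t) :=
        mul_le_mul_of_nonneg_right h6 h4.le
    _ = (2 + 2 / a) * (Real.exp (-(a / 2) * t) * Real.exp (a / 2 * t)) := by ring
    _ = 2 + 2 / a := by rw [h3, mul_one]

lemma int_exp {a : ℝ} (ha : 0 < a) (c : ℝ) : Integrable (fun t => c * Real.exp (-a * t)) hl :=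
  ((integrableOn_exp_mul_Ioi (by linarith) 0).const_mul c)

lemma norm_term {H : ℝ → ℝ} {C a : ℝ} {l : ℂ} (ha : 0 < a) (hl' : a ≤ l.re) (hC : 0 ≤ C)
    {t : ℝ} (ht : 0 ≤ t) (hH : |H t| ≤ C * (2 + t)) :
    ‖(H t : ℂ) * Complex.exp (-(l * t))‖ ≤ C * (2 + 2 / a) * Real.exp (-(a / 2) * t) := by
  rw [norm_mul, Complex.norm_real, Complex.norm_exp]
  have h1 : (-(l * t)).re ≤ -a * t := by
    simp only [Complex.neg_re, Complex.mul_re, Complex.ofReal_re, Complex.ofReal_im, mul_zero,
      sub_zero]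
    nlinarith
  calc ‖H t‖ * Real.exp (-(l * t)).re ≤ (C * (2 + t)) * Real.exp (-a * t) :=
        mul_le_mul hH (Real.exp_le_exp.mpr h1) (Real.exp_pos _).le (by positivity)
    _ = C * ((2 + t) * Real.exp (-a * t)) := by ring
    _ ≤ C * ((2 + 2 / a) * Real.exp (-(a / 2) * t)) :=
        mul_le_mul_of_nonneg_left (lin_exp ha ht) hC
    _ = _ := by ring

lemma Lpl_int {H : ℝ → ℝ} {C a : ℝ} {l : ℂ} (ha : 0 < a) (hl' : a ≤ l.re) (hC : 0 ≤ C)
    (hm : Continuous H) (hH : ∀ t, 0 ≤ t → |H t| ≤ C * (2 + t)) :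
    Integrable (fun t : ℝ => (H t : ℂ) * Complex.exp (-(l * t))) hl := by
  refine (int_exp (half_pos ha) (C * (2 + 2 / a))).mono' (by fun_prop) ?_
  filter_upwards [ae_restrict_mem measurableSet_Ioi] with t ht
  exact norm_term ha hl' hC (le_of_lt ht) (hH t (le_of_lt ht))

lemma Lpl_bd {H : ℝ → ℝ} {C a : ℝ} {l : ℂ} (ha : 0 < a) (hl' : a ≤ l.re) (hC : 0 ≤ C)
    (hH : ∀ t, 0 ≤ t → |H t| ≤ C * (2 + t)) :
    ‖Lpl H l‖ ≤ C * (2 + 2 / a) * (2 / a) := by
  have h1 : ‖Lpl H l‖ ≤ ∫ t in Ioi (0 : ℝ), C * (2 + 2 / a) * Real.exp (-(a / 2) * t) := by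
    apply norm_integral_le_of_norm_le (int_exp (half_pos ha) _)
    filter_upwards [ae_restrict_mem measurableSet_Ioi] with t ht
    exact norm_term ha hl' hC (le_of_lt ht) (hH t (le_of_lt ht))
  refine h1.trans (le_of_eq ?_)
  rw [integral_const_mul, integral_exp_mul_Ioi (by linarith) 0]
  simp only [mul_zero, Real.exp_zero]
  field_simp

lemma ibp {H H1 : ℝ → ℝ} {C a : ℝ} {l : ℂ} (ha : 0 < a) (hl' : a ≤ l.re) (hC : 0 ≤ C)
    (hd : ∀ t, HasDerivAt H (H1 t) t) (hm : Continuous H1)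
    (hH : ∀ t, 0 ≤ t → |H t| ≤ C * (2 + t)) (hH1 : ∀ t, 0 ≤ t → |H1 t| ≤ C * (2 + t)) :
    l * Lpl H l = H 0 + Lpl H1 l := by
  have hHc : Continuous H := continuous_iff_continuousAt.mpr fun t => (hd t).continuousAt
  have i1 := Lpl_int ha hl' hC hHc hH
  have i2 := Lpl_int ha hl' hC hm hH1
  have hF : ∀ t ∈ Ici (0 : ℝ), HasDerivAt (fun t : ℝ => (H t : ℂ) * Complex.exp (-(l * t)))
      ((H1 t : ℂ) * Complex.exp (-(l * t)) - l * ((H t : ℂ) * Complex.exp (-(l * t)))) t := by
    intro t _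
    have h1 : HasDerivAt (fun t : ℝ => (H t : ℂ)) (H1 t : ℂ) t := (hd t).ofReal_comp
    have h2 : HasDerivAt (fun t : ℝ => -(l * t)) (-l) t := by
      have h := ((Complex.ofRealCLM.hasDerivAt (x := t)).const_mul l).neg
      have h' : HasDerivAt (fun t : ℝ => -(l * (t : ℂ))) (-(l * Complex.ofRealCLM 1)) t := h
      refine h'.congr_deriv ?_
      simp
    have h3 := h1.mul h2.cexp
    refine h3.congr_deriv ?_
    ring
  have hlim : Tendsto (fun t : ℝ => (H t : ℂ) * Complex.exp (-(l * t))) atTop (𝓝 0) := by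
    have h1 : Tendsto (fun t : ℝ => C * (2 + 2 / a) * Real.exp (-(a / 2) * t)) atTop (𝓝 0) := by
      have h2 : Tendsto (fun t : ℝ => a / 2 * t) atTop atTop :=
        tendsto_id.const_mul_atTop (half_pos ha)
      have h3 := (Real.tendsto_exp_neg_atTop_nhds_zero.comp h2).const_mul (C * (2 + 2 / a))
      rw [mul_zero] at h3
      refine h3.congr fun t => ?_
      simp only [Function.comp_apply]
      congr 2; ring
    refine squeeze_zero_norm' ?_ h1
    filter_upwards [eventually_ge_atTop 0] with t ht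
    exact norm_term ha hl' hC ht (hH t ht)
  have h4 := integral_Ioi_of_hasDerivAt_of_tendsto' hF (i2.sub (i1.const_mul l)) hlim
  rw [integral_sub i2 (i1.const_mul l), integral_const_mul] at h4
  simp only [Complex.ofReal_zero, mul_zero, neg_zero, Complex.exp_zero, mul_one, zero_sub] at h4
  show l * Lpl H l = H 0 + Lpl H1 l
  have h5 : Lpl H1 l - l * Lpl H l = -(H 0 : ℂ) := h4
  linear_combination -h5

lemma Ft_Lpl (G : ℝ → ℝ) (ε : ℝ) (z : ℂ) : Ft G ε z = Lpl G (ε - Complex.I * z) := by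
  rw [Ft, Lpl]
  congr 1
  funext t
  rw [Complex.ofReal_mul, mul_assoc, Complex.ofReal_exp, ← Complex.exp_add]
  congr 2
  push_cast
  ring

lemma Ft_deriv {G : ℝ → ℝ} {C ε : ℝ} (hε : 0 < ε) (hG : Continuous G) (hC : ∀ t, |G t| ≤ C) {z : ℂ}
    (hz : -(ε / 2) < z.im) :
    HasDerivAt (Ft G ε) (Complex.I * Lpl (fun t => t * G t) (ε - Complex.I * z)) z := by
  have hC0 : 0 ≤ C := (abs_nonneg _).trans (hC 0)
  have hnorm : ∀ (w : ℂ) (t : ℝ), ‖Complex.exp (Complex.I * w * t)‖ = Real.exp (-w.im * t) := by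
    intro w t
    rw [Complex.norm_exp]
    congr 1
    simp
  have hmeas : ∀ w : ℂ, AEStronglyMeasurable (fun t : ℝ => ((G t * Real.exp (-ε * t) : ℝ) : ℂ) *
      Complex.exp (Complex.I * w * t)) hl := fun w => by
    apply Continuous.aestronglyMeasurable
    fun_prop
  have key := hasDerivAt_integral_of_dominated_loc_of_deriv_le (μ := hl) (x₀ := z)
    (s := Metric.ball z (ε / 4))
    (F := fun (w : ℂ) (t : ℝ) => ((G t * Real.exp (-ε * t) : ℝ) : ℂ) *
      Complex.exp (Complex.I * w * t))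
    (F' := fun (w : ℂ) (t : ℝ) => ((G t * Real.exp (-ε * t) : ℝ) : ℂ) *
      (Complex.exp (Complex.I * w * t) * (Complex.I * t)))
    (bound := fun t => C * (2 + 2 / (ε / 4)) * Real.exp (-(ε / 4 / 2) * t))
    (Metric.ball_mem_nhds z (by linarith)) (Eventually.of_forall hmeas) ?_ ?_ ?_
    (int_exp (by linarith) _) ?_
  · have h2 := key.2
    have e : (∫ t in Ioi (0 : ℝ), ((G t * Real.exp (-ε * t) : ℝ) : ℂ) *
        (Complex.exp (Complex.I * z * t) * (Complex.I * t))) =
        Complex.I * Lpl (fun t => t * G t) (ε - Complex.I * z) := by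
      rw [Lpl, ← integral_const_mul]
      congr 1
      funext t
      rw [show (-((ε - Complex.I * z) * t) : ℂ) = ((-ε * t : ℝ) : ℂ) + Complex.I * z * t by
        push_cast; ring, Complex.exp_add]
      push_cast
      ring
    rw [e] at h2
    exact h2
  · -- integrability
    have : ∀ t ∈ Ioi (0 : ℝ), ‖((G t * Real.exp (-ε * t) : ℝ) : ℂ) *
        Complex.exp (Complex.I * z * t)‖ ≤ C * Real.exp (-(ε / 2) * t) := by
      intro t ht
      have ht0 : (0 : ℝ) < t := ht
      rw [norm_mul, hnorm, Complex.norm_real, norm_mul, Real.norm_eq_abs,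
        Real.norm_of_nonneg (Real.exp_pos _).le, mul_assoc, ← Real.exp_add]
      apply mul_le_mul (hC t) _ (Real.exp_pos _).le hC0
      rw [Real.exp_le_exp]
      nlinarith
    refine (int_exp (half_pos hε) C).mono' (hmeas z) ?_
    filter_upwards [ae_restrict_mem measurableSet_Ioi] with t ht
    exact this t ht
  · apply Continuous.aestronglyMeasurable
    fun_prop
  · filter_upwards [ae_restrict_mem measurableSet_Ioi] with t ht w hw
    have ht0 : (0 : ℝ) < t := ht
    have hw1 : -(3 * ε / 4) < w.im := by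
      have h1 : |w.im - z.im| < ε / 4 := by
        rw [← Complex.sub_im]
        exact (Complex.abs_im_le_norm _).trans_lt (by rwa [Metric.mem_ball, dist_eq_norm] at hw)
      have := (abs_lt.mp h1).1
      linarith
    rw [norm_mul, norm_mul, hnorm, Complex.norm_real, norm_mul, Real.norm_eq_abs,
      Real.norm_of_nonneg (Real.exp_pos _).le, norm_mul, Complex.norm_I, one_mul, Complex.norm_real,
      Real.norm_of_nonneg ht0.le]
    have h3 := lin_exp (a := ε / 4) (t := t) (by linarith) ht0.le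
    have h4 : Real.exp (-ε * t) * Real.exp (-w.im * t) ≤ Real.exp (-(ε / 4) * t) := by
      rw [← Real.exp_add, Real.exp_le_exp]
      nlinarith
    have h5 : 0 < Real.exp (-(ε / 4) * t) := Real.exp_pos _
    have h6 : Real.exp (-ε * t) * Real.exp (-w.im * t) * t ≤
        (2 + 2 / (ε / 4)) * Real.exp (-(ε / 4 / 2) * t) := by
      refine le_trans ?_ h3
      nlinarith [mul_le_mul_of_nonneg_right h4 ht0.le]
    calc |G t| * Real.exp (-ε * t) * (Real.exp (-w.im * t) * t)
        = |G t| * (Real.exp (-ε * t) * Real.exp (-w.im * t) * t) := by ring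
      _ ≤ C * ((2 + 2 / (ε / 4)) * Real.exp (-(ε / 4 / 2) * t)) :=
          mul_le_mul (hC t) h6 (by positivity) hC0
      _ = _ := by ring
  · filter_upwards with t w _
    have h1 : HasDerivAt (fun w : ℂ => Complex.I * w * t) (Complex.I * t) w := by
      have := ((hasDerivAt_id w).const_mul Complex.I).mul_const (t : ℂ)
      simpa using this
    exact h1.cexp.const_mul _

lemma nice_of {G G1 G2 : ℝ → ℝ} {C ε : ℝ} (hε : 0 < ε) (d1 : ∀ t, HasDerivAt G (G1 t) t)
    (d2 : ∀ t, HasDerivAt G1 (G2 t) t) (c2 : Continuous G2) (b0 : ∀ t, |G t| ≤ C)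
    (b1 : ∀ t, |G1 t| ≤ C) (b2 : ∀ t, |G2 t| ≤ C) : Nice (Ft G ε) := by
  have hC0 : 0 ≤ C := (abs_nonneg _).trans (b0 0)
  have c0 : Continuous G := continuous_iff_continuousAt.mpr fun t => (d1 t).continuousAt
  have c1 : Continuous G1 := continuous_iff_continuousAt.mpr fun t => (d2 t).continuousAt
  refine ⟨⟨ε / 2, half_pos hε, fun z hz => ?_⟩, fun y hy => ?_, ?_⟩
  · exact (Ft_deriv hε c0 b0 hz).differentiableAt.differentiableWithinAt
  · have : Ft G ε (y * Complex.I) =
        ((∫ t in Ioi (0 : ℝ), G t * Real.exp (-ε * t) * Real.exp (-(y * t)) : ℝ) : ℂ) := by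
      rw [Ft, ← integral_complex_ofReal]
      congr 1
      funext t
      rw [show Complex.I * (y * Complex.I) * t = ((-(y * t) : ℝ) : ℂ) by
        push_cast; linear_combination (y * t : ℂ) * Complex.I_sq]
      push_cast
      rfl
    rw [this, Complex.ofReal_im]
  · set A : ℝ := C + C * (2 + 2 / ε) * (2 / ε) with hA
    have hA0 : 0 ≤ A := by positivity
    set B : ℝ := (1 + ε) / ε with hB
    have hB1 : 1 ≤ B := by rw [hB, le_div_iff₀ hε]; linarith
    refine ⟨A * B ^ 2, fun z hz => ?_⟩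
    set l : ℂ := ε - Complex.I * z with hl'
    have hre : l.re = ε + z.im := by simp [hl']
    have hre' : ε ≤ l.re := by rw [hre]; linarith
    have hle : ε ≤ ‖l‖ := hre'.trans (Complex.re_le_norm l)
    have hlz : ‖z‖ ≤ ‖l‖ := by
      rw [← sq_le_sq₀ (norm_nonneg _) (norm_nonneg _), ← Complex.normSq_eq_norm_sq,
        ← Complex.normSq_eq_norm_sq, Complex.normSq_apply, Complex.normSq_apply]
      have him : l.im = -z.re := by simp [hl']
      rw [hre, him]
      nlinarith
    have hlpos : 0 < ‖l‖ := by linarith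
    have hl0 : l ≠ 0 := norm_pos_iff.mp hlpos
    have hkey : (1 + ‖z‖) / ‖l‖ ≤ B := by
      rw [hB, div_le_div_iff₀ hlpos hε]
      nlinarith [norm_nonneg z]
    have hinv : 1 / ‖l‖ ≤ B / (1 + ‖z‖) := by
      rw [div_le_div_iff₀ hlpos (by positivity)]
      rw [div_le_iff₀ hlpos] at hkey
      linarith
    constructor
    · rw [Ft_Lpl, ← hl']
      have h1 := ibp (l := l) hε hre' hC0 d1 c1 (fun t ht => (b0 t).trans (by nlinarith))
        (fun t ht => (b1 t).trans (by nlinarith))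
      have h2 : ‖l‖ * ‖Lpl G l‖ ≤ A := by
        rw [← norm_mul, h1]
        refine (norm_add_le _ _).trans (add_le_add ?_ (Lpl_bd hε hre' hC0
          (fun t ht => (b1 t).trans (by nlinarith))))
        rw [Complex.norm_real]; exact b0 0
      have h3 : ‖Lpl G l‖ ≤ A * (1 / ‖l‖) := by
        rw [mul_one_div, le_div_iff₀ hlpos]; linarith
      refine h3.trans ((mul_le_mul_of_nonneg_left hinv hA0).trans ?_)
      rw [mul_div_assoc']
      gcongr
      nlinarith
    · rw [(Ft_deriv hε c0 b0 (by linarith : -(ε / 2) < z.im)).deriv, norm_mul, Complex.norm_I,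
        one_mul, ← hl']
      have e1 : ∀ t, HasDerivAt (fun t => t * G t) (G t + t * G1 t) t := by
        intro t
        have := (hasDerivAt_id t).mul (d1 t)
        refine this.congr_deriv ?_
        simp
      have e2 : ∀ t, HasDerivAt (fun t => G t + t * G1 t) (2 * G1 t + t * G2 t) t := by
        intro t
        have := (d1 t).add ((hasDerivAt_id t).mul (d2 t))
        refine this.congr_deriv ?_
        simp; ring
      have f0 : ∀ t, 0 ≤ t → |t * G t| ≤ C * (2 + t) := by
        intro t ht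
        rw [abs_mul, abs_of_nonneg ht]
        nlinarith [b0 t, abs_nonneg (G t)]
      have f1 : ∀ t, 0 ≤ t → |G t + t * G1 t| ≤ C * (2 + t) := by
        intro t ht
        refine (abs_add_le _ _).trans ?_
        rw [abs_mul, abs_of_nonneg ht]
        nlinarith [b0 t, b1 t, abs_nonneg (G1 t), mul_le_mul_of_nonneg_left (b1 t) ht]
      have f2 : ∀ t, 0 ≤ t → |2 * G1 t + t * G2 t| ≤ C * (2 + t) := by
        intro t ht
        refine (abs_add_le _ _).trans ?_
        rw [abs_mul, abs_mul, abs_of_nonneg ht, abs_two]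
        nlinarith [b1 t, b2 t, abs_nonneg (G2 t), mul_le_mul_of_nonneg_left (b2 t) ht]
      have h1 := ibp (l := l) hε hre' hC0 e1 (by fun_prop) f0 f1
      have h2 := ibp (l := l) hε hre' hC0 e2 (by fun_prop) f1 f2
      simp only [zero_mul, Complex.ofReal_zero, zero_add, add_zero] at h1 h2
      have h3 : ‖l‖ ^ 2 * ‖Lpl (fun t => t * G t) l‖ ≤ A := by
        rw [← norm_pow, ← norm_mul, show l ^ 2 * Lpl (fun t => t * G t) l =
          l * (l * Lpl (fun t => t * G t) l) by ring, h1, h2]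
        refine (norm_add_le _ _).trans (add_le_add ?_ (Lpl_bd hε hre' hC0 f2))
        rw [Complex.norm_real]; exact b0 0
      have h4 : ‖Lpl (fun t => t * G t) l‖ ≤ A * (1 / ‖l‖) ^ 2 := by
        rw [one_div, inv_pow, ← div_eq_mul_inv, le_div_iff₀ (by positivity)]; linarith
      refine h4.trans ?_
      have h5 : (1 / ‖l‖) ^ 2 ≤ (B / (1 + ‖z‖)) ^ 2 :=
        pow_le_pow_left₀ (by positivity) hinv 2
      refine (mul_le_mul_of_nonneg_left h5 hA0).trans (le_of_eq ?_)
      rw [div_pow]; ring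

lemma osc_deriv {κ κ' a : ℝ → ℝ} (hκ : ∀ x, HasDerivAt κ (κ' x) x) (hκc : Continuous κ')
    (h1 : ∀ x, |κ x| ≤ 1) (h2 : ∀ x, |κ' x| ≤ 1) (ha : Integrable a hl)
    (ha' : Integrable (fun s => s * a s) hl) (t : ℝ) :
    HasDerivAt (fun t => ∫ s in Ioi (0 : ℝ), κ (t * s) * a s)
      (∫ s in Ioi (0 : ℝ), κ' (t * s) * (s * a s)) t := by
  have hκ0 : Continuous κ := continuous_iff_continuousAt.mpr fun x => (hκ x).continuousAt
  have hm : ∀ t : ℝ, AEStronglyMeasurable (fun s => κ (t * s) * a s) hl := fun t =>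
    (hκ0.comp (continuous_const.mul continuous_id)).aestronglyMeasurable.mul ha.aestronglyMeasurable
  refine (hasDerivAt_integral_of_dominated_loc_of_deriv_le (μ := hl) (x₀ := t) (s := univ)
    (F := fun t s => κ (t * s) * a s) (F' := fun t s => κ' (t * s) * (s * a s))
    (bound := fun s => ‖s * a s‖) univ_mem (Eventually.of_forall hm) ?_ ?_ ?_ ha'.norm ?_).2
  · exact ha.bdd_mul (c := 1)
      (hκ0.comp (continuous_const.mul continuous_id)).aestronglyMeasurable (ae_of_all _ fun s => h1 _)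
  · exact (hκc.comp (continuous_const.mul continuous_id)).aestronglyMeasurable.mul
      ha'.aestronglyMeasurable
  · refine ae_of_all _ fun s x _ => ?_
    rw [norm_mul]
    exact mul_le_of_le_one_left (norm_nonneg _) (h2 _)
  · refine ae_of_all _ fun s x _ => ?_
    have h3 : HasDerivAt (fun x : ℝ => x * s) s x := by simpa using (hasDerivAt_id x).mul_const s
    have h4 := ((hκ (x * s)).comp x h3).mul_const (a s)
    refine h4.congr_deriv ?_
    ring

lemma osc_bd {κ a : ℝ → ℝ} (h1 : ∀ x, |κ x| ≤ 1) (ha : Integrable a hl) (t : ℝ) :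
    |∫ s in Ioi (0 : ℝ), κ (t * s) * a s| ≤ ∫ s in Ioi (0 : ℝ), ‖a s‖ := by
  rw [← Real.norm_eq_abs]
  apply norm_integral_le_of_norm_le ha.norm
  refine ae_of_all _ fun s => ?_
  rw [norm_mul]
  exact mul_le_of_le_one_left (norm_nonneg _) (h1 _)

lemma Bdd.int {u : ℝ → ℝ} {M R : ℝ} (h : Bdd u M R) (k : ℕ) :
    Integrable (fun s => s ^ k * u s) hl := by
  have e : (fun s => s ^ k * u s) = (Iio R).indicator fun s => s ^ k * u s := by
    funext s
    by_cases hs : s ∈ Iio R
    · rw [indicator_of_mem hs]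
    · rw [indicator_of_notMem hs, h.supp s (fun h' => hs h'.2), mul_zero]
  rw [e, integrable_indicator_iff measurableSet_Iio, IntegrableOn,
    Measure.restrict_restrict measurableSet_Iio]
  have hfin : volume (Iio R ∩ Ioi 0) ≠ ⊤ := by
    refine ((measure_mono (fun t ht => ⟨ht.2, ht.1⟩ : Iio R ∩ Ioi 0 ⊆ Ioo 0 R)).trans_lt
      measure_Ioo_lt_top).ne
  refine Measure.integrableOn_of_bounded (M := |R| ^ k * M) hfin
    ((measurable_id.pow_const k).mul h.meas).aestronglyMeasurable ?_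
  filter_upwards [ae_restrict_mem (measurableSet_Iio.inter measurableSet_Ioi)] with s hs
  have hs1 : s < R := hs.1
  have hs2 : 0 < s := hs.2
  rw [norm_mul, norm_pow, Real.norm_eq_abs, Real.norm_eq_abs]
  apply mul_le_mul _ (h.bd s) (abs_nonneg _) (by positivity)
  apply pow_le_pow_left₀ (abs_nonneg _)
  rw [abs_of_pos hs2]
  exact hs1.le.trans (le_abs_self R)

lemma nice_osc {κ κ1 κ2 κ3 : ℝ → ℝ} (h1 : ∀ x, HasDerivAt κ (κ1 x) x)
    (h2 : ∀ x, HasDerivAt κ1 (κ2 x) x) (h3 : ∀ x, HasDerivAt κ2 (κ3 x) x) (hc : Continuous κ3)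
    (b0 : ∀ x, |κ x| ≤ 1) (b1 : ∀ x, |κ1 x| ≤ 1) (b2 : ∀ x, |κ2 x| ≤ 1) (b3 : ∀ x, |κ3 x| ≤ 1)
    {u : ℝ → ℝ} {M R ε : ℝ} (hB : Bdd u M R) (hε : 0 < ε) :
    Nice (Ft (fun t => 2 / Real.pi * ∫ s in Ioi (0 : ℝ), κ (t * s) * u s) ε) := by
  have hc1 : Continuous κ1 := continuous_iff_continuousAt.mpr fun x => (h2 x).continuousAt
  have hc2 : Continuous κ2 := continuous_iff_continuousAt.mpr fun x => (h3 x).continuousAt
  have i0 : Integrable u hl := by simpa using hB.int 0
  have i1 : Integrable (fun s => s * u s) hl := by simpa using hB.int 1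
  have i2 : Integrable (fun s => s * (s * u s)) hl := by
    refine (hB.int 2).congr (ae_of_all _ fun s => ?_)
    show s ^ 2 * u s = s * (s * u s)
    ring
  have i3 : Integrable (fun s => s * (s * (s * u s))) hl := by
    refine (hB.int 3).congr (ae_of_all _ fun s => ?_)
    show s ^ 3 * u s = s * (s * (s * u s))
    ring
  have d1 := osc_deriv h1 hc1 b0 b1 i0 i1
  have d2 := osc_deriv h2 hc2 b1 b2 i1 i2
  have d3 := osc_deriv h3 hc b2 b3 i2 i3
  have hπ := Real.pi_pos
  refine nice_of (G1 := fun t => 2 / Real.pi * ∫ s in Ioi (0 : ℝ), κ1 (t * s) * (s * u s))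
    (G2 := fun t => 2 / Real.pi * ∫ s in Ioi (0 : ℝ), κ2 (t * s) * (s * (s * u s)))
    (C := 2 / Real.pi * ((∫ s in Ioi (0 : ℝ), ‖u s‖) + (∫ s in Ioi (0 : ℝ), ‖s * u s‖) +
      ∫ s in Ioi (0 : ℝ), ‖s * (s * u s)‖)) hε
    (fun t => (d1 t).const_mul _) (fun t => (d2 t).const_mul _) ?_ ?_ ?_ ?_
  · exact continuous_const.mul (continuous_iff_continuousAt.mpr fun t => (d3 t).continuousAt)
  all_goals
    intro t
    have n0 : 0 ≤ ∫ s in Ioi (0 : ℝ), ‖u s‖ := integral_nonneg fun s => norm_nonneg _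
    have n1 : 0 ≤ ∫ s in Ioi (0 : ℝ), ‖s * u s‖ := integral_nonneg fun s => norm_nonneg _
    have n2 : 0 ≤ ∫ s in Ioi (0 : ℝ), ‖s * (s * u s)‖ := integral_nonneg fun s => norm_nonneg _
    rw [abs_mul, abs_of_pos (by positivity : 0 < 2 / Real.pi)]
    apply mul_le_mul_of_nonneg_left _ (by positivity)
  · have := osc_bd b0 i0 t
    linarith
  · have := osc_bd b1 i1 t
    linarith
  · have := osc_bd b2 i2 t
    linarith

theorem t_NICE : S_NICE := by
  intro u M R ε hB hε
  constructor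
  · exact nice_osc (κ := Real.cos) (κ1 := fun x => -Real.sin x) (κ2 := fun x => -Real.cos x)
      (κ3 := fun x => Real.sin x) Real.hasDerivAt_cos (fun x => (Real.hasDerivAt_sin x).neg)
      (fun x => by
        have h : HasDerivAt (fun x => -Real.cos x) (-(-Real.sin x)) x := (Real.hasDerivAt_cos x).neg
        exact h.congr_deriv (neg_neg _)) Real.continuous_sin
      Real.abs_cos_le_one (fun x => by rw [abs_neg]; exact Real.abs_sin_le_one x)
      (fun x => by rw [abs_neg]; exact Real.abs_cos_le_one x) Real.abs_sin_le_one hB hε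
  · exact nice_osc (κ := Real.sin) (κ1 := Real.cos) (κ2 := fun x => -Real.sin x)
      (κ3 := fun x => -Real.cos x) Real.hasDerivAt_sin Real.hasDerivAt_cos
      (fun x => (Real.hasDerivAt_sin x).neg) Real.continuous_cos.neg
      Real.abs_sin_le_one Real.abs_cos_le_one (fun x => by rw [abs_neg]; exact Real.abs_sin_le_one x)
      (fun x => by rw [abs_neg]; exact Real.abs_cos_le_one x) hB hε

end Pool.Agent.NH67.RX
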