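import Pool.Agent.NH67.RX.Stm
import Pool.Agent.Helper76.HPlanch

/-!
# RX-11: Plancherel for the cosine and sine transforms
-/

set_option autoImplicit false

open MeasureTheory Set Filter Topology FourierTransform
open scoped ENNReal

namespace Pool.Agent.NH67.RX.Planx

/-- even or odd extension -/
noncomputable def ex (σ : ℂ) (φ : ℝ → ℂ) (t : ℝ) : ℂ :=
  (Ioi (0 : ℝ)).indicator φ t + σ * (Ioi (0 : ℝ)).indicator φ (-t)

theorem lint_split (G : ℝ → ℝ≥0∞) :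
    ∫⁻ x, G x = (∫⁻ x in Ioi (0 : ℝ), G x) + ∫⁻ x in Ioi (0 : ℝ), G (-x) := by
  rw [← lintegral_add_compl G (measurableSet_Ioi (a := (0 : ℝ))), compl_Ioi]
  congr 1
  have h1 : ∫⁻ x in Ioi (0 : ℝ), G (-x) = ∫⁻ x in Iio (0 : ℝ), G x := by
    have h2 := (Measure.measurePreserving_neg (volume : Measure ℝ)).setLIntegral_comp_preimage_emb
      (MeasurableEquiv.neg ℝ).measurableEmbedding G (Iio 0)
    rw [← h2]
    congr 2
    ext x
    simp
  rw [h1]
  exact (setLIntegral_congr (Iio_ae_eq_Iic (a := (0 : ℝ)))).symm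

theorem ex_memLp {σ : ℂ} {φ : ℝ → ℂ} {p : ℝ≥0∞} (h : MemLp φ p hl) : MemLp (ex σ φ) p := by
  have h1 : MemLp ((Ioi (0 : ℝ)).indicator φ) p volume :=
    (memLp_indicator_iff_restrict measurableSet_Ioi).2 h
  have h2 : MemLp (fun t => (Ioi (0 : ℝ)).indicator φ (-t)) p volume :=
    h1.comp_measurePreserving (Measure.measurePreserving_neg (volume : Measure ℝ))
  exact h1.add (h2.const_mul σ)

theorem ex_lint {σ : ℂ} (hσ : ‖σ‖ = 1) (φ : ℝ → ℂ) :
    ∫⁻ t, ‖ex σ φ t‖ₑ ^ 2 = 2 * ∫⁻ t in Ioi (0 : ℝ), ‖φ t‖ₑ ^ 2 := by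
  rw [lint_split, two_mul]
  have hσ' : ‖σ‖ₑ = 1 := by rw [← ofReal_norm, hσ, ENNReal.ofReal_one]
  refine congrArg₂ (· + ·) ?_ ?_
  · refine setLIntegral_congr_fun (measurableSet_Ioi (a := (0 : ℝ))) fun t ht => ?_
    have h2 : -t ∉ Ioi (0 : ℝ) := by
      have := mem_Ioi.1 ht
      rw [mem_Ioi]
      linarith
    show ‖(Ioi (0 : ℝ)).indicator φ t + σ * (Ioi (0 : ℝ)).indicator φ (-t)‖ₑ ^ 2 = ‖φ t‖ₑ ^ 2
    rw [indicator_of_mem ht, indicator_of_notMem h2, mul_zero, add_zero]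
  · refine setLIntegral_congr_fun (measurableSet_Ioi (a := (0 : ℝ))) fun t ht => ?_
    have h2 : -t ∉ Ioi (0 : ℝ) := by
      have := mem_Ioi.1 ht
      rw [mem_Ioi]
      linarith
    show ‖(Ioi (0 : ℝ)).indicator φ (-t) + σ * (Ioi (0 : ℝ)).indicator φ (- -t)‖ₑ ^ 2 = ‖φ t‖ₑ ^ 2
    rw [neg_neg, indicator_of_mem ht, indicator_of_notMem h2, zero_add, enorm_mul, hσ', one_mul]

theorem ex_fourier {σ : ℂ} {φ : ℝ → ℂ} (h : Integrable φ hl) (ξ : ℝ) :
    𝓕 (ex σ φ) ξ = ∫ t in Ioi (0 : ℝ), (Complex.exp (-((2 * Real.pi * ξ * t : ℝ) : ℂ) * Complex.I) +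
      σ * Complex.exp (((2 * Real.pi * ξ * t : ℝ) : ℂ) * Complex.I)) * φ t := by
  have h1 : Integrable ((Ioi (0 : ℝ)).indicator φ) volume := (integrable_indicator_iff measurableSet_Ioi).2 h
  have h2 : Integrable (fun t => (Ioi (0 : ℝ)).indicator φ (-t)) volume := h1.comp_neg
  have hb : ∀ s : ℝ, Integrable (fun t => Complex.exp (((s * t : ℝ) : ℂ) * Complex.I) * φ t) hl := by
    intro s
    refine h.mono ?_ (Eventually.of_forall fun t => ?_)
    · have h3 : Continuous fun t : ℝ => Complex.exp (((s * t : ℝ) : ℂ) * Complex.I) := by fun_prop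
      exact h3.aestronglyMeasurable.mul h.aestronglyMeasurable
    · rw [norm_mul, Complex.norm_exp_ofReal_mul_I, one_mul]
  have hb' : ∀ s : ℝ, Integrable (fun t => Complex.exp (((s * t : ℝ) : ℂ) * Complex.I) *
      (Ioi (0 : ℝ)).indicator φ t) := by
    intro s
    refine h1.mono ?_ (Eventually.of_forall fun t => ?_)
    · have h3 : Continuous fun t : ℝ => Complex.exp (((s * t : ℝ) : ℂ) * Complex.I) := by fun_prop
      exact h3.aestronglyMeasurable.mul h1.aestronglyMeasurable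
    · rw [norm_mul, Complex.norm_exp_ofReal_mul_I, one_mul]
  have e0 : 𝓕 (ex σ φ) ξ = ∫ t, (Complex.exp (((-(2 * Real.pi * ξ) * t : ℝ) : ℂ) * Complex.I) *
      (Ioi (0 : ℝ)).indicator φ t + σ * (Complex.exp (((-(2 * Real.pi * ξ) * t : ℝ) : ℂ) * Complex.I) *
      (Ioi (0 : ℝ)).indicator φ (-t))) := by
    rw [Real.fourier_real_eq_integral_exp_smul]
    refine integral_congr_ae (Eventually.of_forall fun t => ?_)
    show Complex.exp (((-2 * Real.pi * t * ξ : ℝ) : ℂ) * Complex.I) • ex σ φ t = _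
    unfold ex
    have e : (-2 * Real.pi * t * ξ : ℝ) = -(2 * Real.pi * ξ) * t := by ring
    rw [e, smul_eq_mul]
    ring
  have hI2 : Integrable (fun t => Complex.exp (((-(2 * Real.pi * ξ) * t : ℝ) : ℂ) * Complex.I) *
      (Ioi (0 : ℝ)).indicator φ (-t)) := by
    have := (hb' (2 * Real.pi * ξ)).comp_neg
    refine this.congr (Eventually.of_forall fun t => ?_)
    have e : (2 * Real.pi * ξ) * -t = -(2 * Real.pi * ξ) * t := by ring
    show Complex.exp ((((2 * Real.pi * ξ) * -t : ℝ) : ℂ) * Complex.I) * _ = _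
    rw [e]
  have e1 : ∀ s : ℝ, ∫ t, Complex.exp (((s * t : ℝ) : ℂ) * Complex.I) *
      (Ioi (0 : ℝ)).indicator φ t = ∫ t in Ioi (0 : ℝ), Complex.exp (((s * t : ℝ) : ℂ) * Complex.I) * φ t := by
    intro s
    rw [← integral_indicator measurableSet_Ioi]
    refine integral_congr_ae (Eventually.of_forall fun t => ?_)
    show _ * (Ioi (0 : ℝ)).indicator φ t = (Ioi (0 : ℝ)).indicator _ t
    by_cases ht : t ∈ Ioi (0 : ℝ)
    · rw [indicator_of_mem ht, indicator_of_mem ht]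
    · rw [indicator_of_notMem ht, indicator_of_notMem ht, mul_zero]
  have e2 : ∫ t, Complex.exp (((-(2 * Real.pi * ξ) * t : ℝ) : ℂ) * Complex.I) *
      (Ioi (0 : ℝ)).indicator φ (-t) =
      ∫ t, Complex.exp ((((2 * Real.pi * ξ) * t : ℝ) : ℂ) * Complex.I) *
        (Ioi (0 : ℝ)).indicator φ t := by
    rw [← integral_neg_eq_self (fun t => Complex.exp ((((2 * Real.pi * ξ) * t : ℝ) : ℂ) * Complex.I) *
        (Ioi (0 : ℝ)).indicator φ t)]
    refine integral_congr_ae (Eventually.of_forall fun t => ?_)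
    have e : (2 * Real.pi * ξ) * -t = -(2 * Real.pi * ξ) * t := by ring
    show _ = Complex.exp ((((2 * Real.pi * ξ) * -t : ℝ) : ℂ) * Complex.I) * _
    rw [e]
  rw [e0, integral_add (hb' _) (hI2.const_mul σ), integral_const_mul, e2, e1, e1,
    ← integral_const_mul, ← integral_add (hb _) ((hb _).const_mul σ)]
  refine integral_congr_ae (Eventually.of_forall fun t => ?_)
  show Complex.exp (((-(2 * Real.pi * ξ) * t : ℝ) : ℂ) * Complex.I) * φ t + σ *
    (Complex.exp ((((2 * Real.pi * ξ) * t : ℝ) : ℂ) * Complex.I) * φ t) = _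
  have e : ((-(2 * Real.pi * ξ) * t : ℝ) : ℂ) = -((2 * Real.pi * ξ * t : ℝ) : ℂ) := by
    push_cast
    ring
  rw [e]
  ring

/-- the general statement -/
theorem gen (K : ℝ → ℝ) (κ σ : ℂ) (hκ : ‖κ‖ = 1 / 2) (hσ : ‖σ‖ = 1)
    (hK : ∀ θ : ℝ, (K θ : ℂ) = κ * (Complex.exp (-(θ : ℂ) * Complex.I) + σ * Complex.exp ((θ : ℂ) * Complex.I)))
    (ι : ℝ) (hι : |ι| = 1) (hpar : ∀ θ, K (-θ) = ι * K θ) (φ : ℝ → ℂ) (h1 : MemLp φ 1 hl)
    (h2 : MemLp φ 2 hl) :
    MemLp (fun x : ℝ => ((√(2 / Real.pi) : ℝ) : ℂ) * ∫ t in Ioi (0 : ℝ), (K (x * t) : ℂ) * φ t) 2 hl ∧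
    eLpNorm (fun x : ℝ => ((√(2 / Real.pi) : ℝ) : ℂ) * ∫ t in Ioi (0 : ℝ), (K (x * t) : ℂ) * φ t) 2 hl =
      eLpNorm φ 2 hl := by
  set W : ℝ → ℂ := fun x : ℝ => ((√(2 / Real.pi) : ℝ) : ℂ) *
    ∫ t in Ioi (0 : ℝ), (K (x * t) : ℂ) * φ t with hW
  have hint : Integrable φ hl := memLp_one_iff_integrable.1 h1
  have hE1 : Integrable (ex σ φ) := memLp_one_iff_integrable.1 (ex_memLp h1)
  have hE2 : MemLp (ex σ φ) 2 := ex_memLp h2
  have hpi := Real.pi_pos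
  have hWF : ∀ x : ℝ, W x = (((√(2 / Real.pi) : ℝ) : ℂ) * κ) * 𝓕 (ex σ φ) (x / (2 * Real.pi)) := by
    intro x
    rw [ex_fourier hint, hW, mul_assoc, ← integral_const_mul]
    show _ * _ = _ * _
    congr 1
    refine integral_congr_ae (Eventually.of_forall fun t => ?_)
    show (K (x * t) : ℂ) * φ t = _
    have e : 2 * Real.pi * (x / (2 * Real.pi)) * t = x * t := by field_simp
    rw [hK]
    beta_reduce
    rw [e]
    ring
  have hc : Continuous W := by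
    have h3 : Continuous (𝓕 (ex σ φ)) :=
      VectorFourier.fourierIntegral_continuous Real.continuous_fourierChar continuous_inner hE1
    have h4 : W = fun x => (((√(2 / Real.pi) : ℝ) : ℂ) * κ) * 𝓕 (ex σ φ) (x / (2 * Real.pi)) :=
      funext hWF
    rw [h4]
    fun_prop
  have hP := Pool.Agent.Helper76.NormalHP.plancherel_lintegral (ex σ φ) hE1 hE2
  rw [ex_lint hσ] at hP
  have hS : ∫⁻ x, ‖W x‖ₑ ^ 2 = 2 * ∫⁻ t in Ioi (0 : ℝ), ‖φ t‖ₑ ^ 2 := by
    rw [← hP]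
    have h5 : ∀ x, ‖W x‖ₑ ^ 2 = ENNReal.ofReal (1 / (2 * Real.pi)) *
        ‖𝓕 (ex σ φ) (x / (2 * Real.pi))‖ₑ ^ 2 := by
      intro x
      rw [hWF, enorm_mul, mul_pow]
      congr 1
      rw [← ofReal_norm, ← ENNReal.ofReal_pow (norm_nonneg _), norm_mul, hκ, Complex.norm_real,
        Real.norm_of_nonneg (Real.sqrt_nonneg _), mul_pow, Real.sq_sqrt (by positivity)]
      congr 1
      field_simp
    simp_rw [h5]
    rw [lintegral_const_mul' _ _ ENNReal.ofReal_ne_top]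
    have h6 : ∫⁻ x : ℝ, ‖𝓕 (ex σ φ) (x / (2 * Real.pi))‖ₑ ^ 2 =
        ENNReal.ofReal (2 * Real.pi) * ∫⁻ x : ℝ, ‖𝓕 (ex σ φ) x‖ₑ ^ 2 := by
      have h7 := Measure.map_addHaar_smul (volume : Measure ℝ)
        (r := (2 * Real.pi)⁻¹) (by positivity)
      have h8 : ∫⁻ x : ℝ, ‖𝓕 (ex σ φ) (x / (2 * Real.pi))‖ₑ ^ 2 =
          ∫⁻ x : ℝ, ‖𝓕 (ex σ φ) x‖ₑ ^ 2 ∂(Measure.map (fun x => (2 * Real.pi)⁻¹ • x) volume) := by
        have hemb : MeasurableEmbedding (fun x : ℝ => (2 * Real.pi)⁻¹ • x) :=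
          (Homeomorph.smulOfNeZero ((2 * Real.pi)⁻¹) (by positivity)).measurableEmbedding
        rw [hemb.lintegral_map]
        refine lintegral_congr fun x => ?_
        rw [smul_eq_mul, inv_mul_eq_div]
      rw [h8, h7, lintegral_smul_measure]
      congr 1
      rw [Module.finrank_self, pow_one, inv_inv, abs_of_pos (by positivity)]
    rw [h6, ← mul_assoc, ← ENNReal.ofReal_mul (by positivity), one_div,
      inv_mul_cancel₀ (by positivity), ENNReal.ofReal_one, one_mul]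
  have hN : ∫⁻ x in Ioi (0 : ℝ), ‖W x‖ₑ ^ 2 = ∫⁻ t in Ioi (0 : ℝ), ‖φ t‖ₑ ^ 2 := by
    rw [lint_split] at hS
    have h9 : ∀ x, W (-x) = (ι : ℂ) * W x := by
      intro x
      show ((√(2 / Real.pi) : ℝ) : ℂ) * ∫ t in Ioi (0 : ℝ), (K (-x * t) : ℂ) * φ t =
        (ι : ℂ) * (((√(2 / Real.pi) : ℝ) : ℂ) * ∫ t in Ioi (0 : ℝ), (K (x * t) : ℂ) * φ t)
      rw [mul_left_comm, ← integral_const_mul (ι : ℂ)]
      congr 1
      refine integral_congr_ae (Eventually.of_forall fun t => ?_)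
      show (K (-x * t) : ℂ) * φ t = (ι : ℂ) * ((K (x * t) : ℂ) * φ t)
      rw [neg_mul, hpar, Complex.ofReal_mul, mul_assoc]
    have hι' : ‖(ι : ℂ)‖ₑ = 1 := by
      rw [← ofReal_norm, Complex.norm_real, Real.norm_eq_abs, hι, ENNReal.ofReal_one]
    have h10 : ∫⁻ x in Ioi (0 : ℝ), ‖W (-x)‖ₑ ^ 2 = ∫⁻ x in Ioi (0 : ℝ), ‖W x‖ₑ ^ 2 := by
      refine lintegral_congr fun x => ?_
      rw [h9, enorm_mul, hι', one_mul]
    rw [h10, ← two_mul] at hS
    exact (ENNReal.mul_right_inj two_ne_zero ENNReal.ofNat_ne_top).1 hS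
  have e2 : ∀ f : ℝ → ℂ, eLpNorm f 2 hl = (∫⁻ x in Ioi (0 : ℝ), ‖f x‖ₑ ^ 2) ^ (1 / 2 : ℝ) := by
    intro f
    rw [eLpNorm_eq_lintegral_rpow_enorm_toReal (by norm_num) (by norm_num)]
    simp
  have h11 : eLpNorm W 2 hl = eLpNorm φ 2 hl := by
    rw [e2, e2, hN]
  refine ⟨⟨hc.aestronglyMeasurable, ?_⟩, h11⟩
  rw [h11]
  exact h2.2

end Pool.Agent.NH67.RX.Planx

namespace Pool.Agent.NH67.RX

open Planx

theorem t_PLAN : S_PLAN := by
  intro φ h1 h2
  constructor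
  · have h := gen Real.cos (1 / 2) 1 (by norm_num) (by norm_num) (fun θ => by
      rw [Complex.ofReal_cos, Complex.cos]
      ring) 1 (by norm_num) (fun θ => by rw [Real.cos_neg, one_mul]) φ h1 h2
    exact h
  · have h := gen Real.sin (Complex.I / 2) (-1) (by
      rw [norm_div, Complex.norm_I]
      norm_num) (by norm_num) (fun θ => by
      rw [Complex.ofReal_sin, Complex.sin]
      ring) (-1) (by norm_num) (fun θ => by rw [Real.sin_neg]; ring) φ h1 h2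
    exact h

end Pool.Agent.NH67.RX
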