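import Pool.Agent.NH67.RX.Stm

/-!
# The tangent sinusoid (task RX-3, helper77)
-/

set_option autoImplicit false

open Set Filter Topology

namespace Pool.Agent.NH67.RX

namespace Sig

/-! ### Monotonicity from the derivative -/

theorem le_of {W K : ℝ → ℝ} (hW : ∀ θ, HasDerivAt W (K θ) θ) {a b : ℝ} (hab : a ≤ b)
    (h : ∀ θ ∈ Ioo a b, 0 ≤ K θ) : W a ≤ W b := by
  have hm : MonotoneOn W (Icc a b) := by
    apply monotoneOn_of_deriv_nonneg (convex_Icc a b)
    · exact fun x _ => (hW x).continuousAt.continuousWithinAt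
    · exact fun x _ => (hW x).differentiableAt.differentiableWithinAt
    · intro x hx
      rw [interior_Icc] at hx
      rw [(hW x).deriv]
      exact h x hx
  exact hm (left_mem_Icc.2 hab) (right_mem_Icc.2 hab) hab

theorem lt_of {W K : ℝ → ℝ} (hW : ∀ θ, HasDerivAt W (K θ) θ) {a b : ℝ} (hab : a < b)
    (h : ∀ θ ∈ Ioo a b, 0 < K θ) : W a < W b := by
  have hm : StrictMonoOn W (Icc a b) := by
    apply strictMonoOn_of_deriv_pos (convex_Icc a b)
    · exact fun x _ => (hW x).continuousAt.continuousWithinAt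
    · intro x hx
      rw [interior_Icc] at hx
      rw [(hW x).deriv]
      exact h x hx
  exact hm (left_mem_Icc.2 hab.le) (right_mem_Icc.2 hab.le) hab

theorem ge_of {W K : ℝ → ℝ} (hW : ∀ θ, HasDerivAt W (K θ) θ) {a b : ℝ} (hab : a ≤ b)
    (h : ∀ θ ∈ Ioo a b, K θ ≤ 0) : W b ≤ W a := by
  have := le_of (W := fun θ => - W θ) (K := fun θ => - K θ) (fun θ => (hW θ).neg) hab
    (fun θ hθ => by have := h θ hθ; linarith)
  linarith

theorem gt_of {W K : ℝ → ℝ} (hW : ∀ θ, HasDerivAt W (K θ) θ) {a b : ℝ} (hab : a < b)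
    (h : ∀ θ ∈ Ioo a b, K θ < 0) : W b < W a := by
  have := lt_of (W := fun θ => - W θ) (K := fun θ => - K θ) (fun θ => (hW θ).neg) hab
    (fun θ hθ => by have := h θ hθ; linarith)
  linarith

/-! ### The sign of `kap` -/

section kap

variable {p R : ℝ}

theorem kap_nonneg (hp : 2 < p) (hR : 0 < R) (hRB : R ^ (p - 2) = BB p / 2) {θ : ℝ}
    (h : |Real.cos θ - Real.sin θ| ≤ R * |Real.cos θ|) : 0 ≤ kap p θ := by
  have h1 : |Real.cos θ - Real.sin θ| ^ (p - 2) ≤ (R * |Real.cos θ|) ^ (p - 2) :=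
    Real.rpow_le_rpow (abs_nonneg _) h (by linarith)
  rw [Real.mul_rpow hR.le (abs_nonneg _), hRB] at h1
  unfold kap
  apply mul_nonneg
  · nlinarith
  · linarith

theorem kap_pos (hp : 2 < p) (hR : 0 < R) (hRB : R ^ (p - 2) = BB p / 2) {θ : ℝ}
    (h : |Real.cos θ - Real.sin θ| < R * |Real.cos θ|) : 0 < kap p θ := by
  have h1 : |Real.cos θ - Real.sin θ| ^ (p - 2) < (R * |Real.cos θ|) ^ (p - 2) :=
    Real.rpow_lt_rpow (abs_nonneg _) h (by linarith)
  rw [Real.mul_rpow hR.le (abs_nonneg _), hRB] at h1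
  unfold kap
  apply mul_pos
  · nlinarith
  · linarith

theorem kap_neg (hp : 2 < p) (hR : 0 < R) (hRB : R ^ (p - 2) = BB p / 2) {θ : ℝ}
    (h : R * |Real.cos θ| < |Real.cos θ - Real.sin θ|) : kap p θ < 0 := by
  have h1 : (R * |Real.cos θ|) ^ (p - 2) < |Real.cos θ - Real.sin θ| ^ (p - 2) :=
    Real.rpow_lt_rpow (mul_nonneg hR.le (abs_nonneg _)) h (by linarith)
  rw [Real.mul_rpow hR.le (abs_nonneg _), hRB] at h1
  unfold kap
  apply mul_neg_of_pos_of_neg
  · nlinarith
  · linarith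

end kap

/-- the interval where `kap` is nonnegative -/
theorem kap_sign {p : ℝ} (hp : 2 < p) (hB : 0 < BB p) : ∃ a b : ℝ, 0 < a ∧ a < Real.pi / 2 ∧
    -(Real.pi / 2) < b ∧ b < a ∧ (∀ θ, b ≤ θ → θ ≤ a → 0 ≤ kap p θ) ∧
    (∀ θ, b < θ → θ < a → 0 < kap p θ) ∧ ∀ θ, a < θ → θ < b + Real.pi → kap p θ < 0 := by
  set R : ℝ := (BB p / 2) ^ (1 / (p - 2)) with hRdef
  have hB2 : 0 < BB p / 2 := by linarith
  have hR : 0 < R := Real.rpow_pos_of_pos hB2 _
  have hRB : R ^ (p - 2) = BB p / 2 := by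
    rw [hRdef, ← Real.rpow_mul hB2.le, one_div_mul_cancel (by linarith), Real.rpow_one]
  have ca := Real.cos_arctan_pos (1 + R)
  have cb := Real.cos_arctan_pos (1 - R)
  have sa : Real.sin (Real.arctan (1 + R)) = (1 + R) * Real.cos (Real.arctan (1 + R)) := by
    have := Real.tan_arctan (1 + R)
    rw [Real.tan_eq_sin_div_cos, div_eq_iff ca.ne'] at this
    exact this
  have sb : Real.sin (Real.arctan (1 - R)) = (1 - R) * Real.cos (Real.arctan (1 - R)) := by
    have := Real.tan_arctan (1 - R)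
    rw [Real.tan_eq_sin_div_cos, div_eq_iff cb.ne'] at this
    exact this
  have ha2 := Real.arctan_lt_pi_div_two (1 + R)
  have hb2 := Real.neg_pi_div_two_lt_arctan (1 - R)
  have hba : Real.arctan (1 - R) < Real.arctan (1 + R) := Real.arctan_strictMono (by linarith)
  have ha0 : 0 < Real.arctan (1 + R) := Real.arctan_pos.mpr (by linarith)
  set a := Real.arctan (1 + R)
  set b := Real.arctan (1 - R)
  have hpi := Real.pi_pos
  have ea : ∀ θ, Real.sin (θ - a) = Real.cos a * (Real.sin θ - (1 + R) * Real.cos θ) := by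
    intro θ; rw [Real.sin_sub, sa]; ring
  have eb : ∀ θ, Real.sin (θ - b) = Real.cos b * (Real.sin θ - (1 - R) * Real.cos θ) := by
    intro θ; rw [Real.sin_sub, sb]; ring
  refine ⟨a, b, ha0, ha2, hb2, hba, ?_, ?_, ?_⟩
  · intro θ h1 h2
    apply kap_nonneg hp hR hRB
    have s1 : Real.sin (a - θ) ≥ 0 := Real.sin_nonneg_of_nonneg_of_le_pi (by linarith) (by linarith)
    have s2 : Real.sin (θ - b) ≥ 0 := Real.sin_nonneg_of_nonneg_of_le_pi (by linarith) (by linarith)
    have s1' : Real.sin (θ - a) ≤ 0 := by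
      have : θ - a = -(a - θ) := by ring
      rw [this, Real.sin_neg]; linarith
    rw [ea] at s1'
    rw [eb] at s2
    have t1 : Real.sin θ - (1 + R) * Real.cos θ ≤ 0 := by
      by_contra h; push Not at h; nlinarith
    have t2 : 0 ≤ Real.sin θ - (1 - R) * Real.cos θ := by
      by_contra h; push Not at h; nlinarith
    have t3 := mul_le_mul_of_nonneg_left (le_abs_self (Real.cos θ)) hR.le
    rw [abs_le]
    constructor <;> linarith
  · intro θ h1 h2
    apply kap_pos hp hR hRB
    have s1 : Real.sin (a - θ) > 0 := Real.sin_pos_of_pos_of_lt_pi (by linarith) (by linarith)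
    have s2 : Real.sin (θ - b) > 0 := Real.sin_pos_of_pos_of_lt_pi (by linarith) (by linarith)
    have s1' : Real.sin (θ - a) < 0 := by
      have : θ - a = -(a - θ) := by ring
      rw [this, Real.sin_neg]; linarith
    rw [ea] at s1'
    rw [eb] at s2
    have t1 : Real.sin θ - (1 + R) * Real.cos θ < 0 := by
      by_contra h; push Not at h; nlinarith
    have t2 : 0 < Real.sin θ - (1 - R) * Real.cos θ := by
      by_contra h; push Not at h; nlinarith
    have t3 := mul_le_mul_of_nonneg_left (le_abs_self (Real.cos θ)) hR.le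
    rw [abs_lt]
    constructor <;> linarith
  · intro θ h1 h2
    apply kap_neg hp hR hRB
    have s1 : Real.sin (θ - a) > 0 := Real.sin_pos_of_pos_of_lt_pi (by linarith) (by linarith)
    have s2 : Real.sin (θ - b) > 0 := Real.sin_pos_of_pos_of_lt_pi (by linarith) (by linarith)
    rw [ea] at s1
    rw [eb] at s2
    have t1 : 0 < Real.sin θ - (1 + R) * Real.cos θ := by
      by_contra h; push Not at h; nlinarith
    have t2 : 0 < Real.sin θ - (1 - R) * Real.cos θ := by
      by_contra h; push Not at h; nlinarith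
    have t3 : R * |Real.cos θ| < Real.sin θ - Real.cos θ := by
      rcases abs_cases (Real.cos θ) with ⟨h, _⟩ | ⟨h, _⟩ <;> rw [h] <;> linarith
    rw [abs_sub_comm]
    exact t3.trans_le (le_abs_self _)

/-! ### Periodicity -/

theorem phi_per (p θ : ℝ) : phi p (θ + Real.pi) = phi p θ := by
  unfold phi
  rw [Real.cos_add_pi, Real.sin_add_pi, abs_neg]
  have : -Real.cos θ - -Real.sin θ = -(Real.cos θ - Real.sin θ) := by ring
  rw [this, abs_neg]

theorem kap_per (p θ : ℝ) : kap p (θ + Real.pi) = kap p θ := by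
  unfold kap
  rw [Real.cos_add_pi, Real.sin_add_pi, abs_neg]
  have : -Real.cos θ - -Real.sin θ = -(Real.cos θ - Real.sin θ) := by ring
  rw [this, abs_neg]

/-! ### The difference of the values at `π / 2 ∓ t` -/

theorem abs_rpow (x p : ℝ) : |x| ^ p = (x ^ 2) ^ (p / 2) := by
  rw [← sq_abs, ← Real.rpow_natCast |x| 2, ← Real.rpow_mul (abs_nonneg x)]
  congr 1
  push_cast
  ring

theorem phi_diff (p t : ℝ) : phi p (Real.pi / 2 - t) - phi p (Real.pi / 2 + t) =
    (1 + Real.sin (2 * t)) ^ (p / 2) - (1 - Real.sin (2 * t)) ^ (p / 2) := by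
  unfold phi
  have h1 : Real.pi / 2 + t = t + Real.pi / 2 := by ring
  rw [Real.cos_pi_div_two_sub, Real.sin_pi_div_two_sub, h1, Real.cos_add_pi_div_two,
    Real.sin_add_pi_div_two, abs_neg, abs_rpow (-Real.sin t - Real.cos t),
    abs_rpow (Real.sin t - Real.cos t), Real.sin_two_mul]
  have h2 := Real.sin_sq_add_cos_sq t
  have e1 : (-Real.sin t - Real.cos t) ^ 2 = 1 + 2 * Real.sin t * Real.cos t := by
    linear_combination h2
  have e2 : (Real.sin t - Real.cos t) ^ 2 = 1 - 2 * Real.sin t * Real.cos t := by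
    linear_combination h2
  rw [e1, e2]
  ring

/-- a function with a minimum has a nonnegative second derivative there -/
theorem second_nonneg {g g1 : ℝ → ℝ} {x₀ c : ℝ} (hg : ∀ x, HasDerivAt g (g1 x) x)
    (hg1 : HasDerivAt g1 c x₀) (hmin : ∀ x, g x₀ ≤ g x) : 0 ≤ c := by
  have h0 : g1 x₀ = 0 := by
    have : IsLocalMin g x₀ := Filter.Eventually.of_forall hmin
    exact this.hasDerivAt_eq_zero (hg x₀)
  by_contra hc
  push Not at hc
  have hd : deriv g = g1 := funext fun x => (hg x).deriv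
  have h2 : deriv (deriv g) x₀ < 0 := by rw [hd, hg1.deriv]; exact hc
  have h3 : deriv g x₀ = 0 := by rw [hd]; exact h0
  have h4 : IsLocalMax g x₀ := isLocalMax_of_deriv_deriv_neg h2 h3 (hg x₀).continuousAt
  have h5 : g =ᶠ[𝓝 x₀] fun _ => g x₀ := by
    filter_upwards [h4] with x hx
    exact le_antisymm hx (hmin x)
  have h6 : deriv g =ᶠ[𝓝 x₀] deriv fun _ => g x₀ := h5.deriv
  have h7 := h6.deriv_eq
  simp only [deriv_const', deriv_const] at h7
  linarith

/-! ### The function `W` -/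

section W

variable {p P Q : ℝ}

/-- `φ - σ` -/
noncomputable def del (p P Q θ : ℝ) : ℝ :=
  phi p θ - (P * Real.cos (p * (θ - Real.pi / 2)) + Q * Real.sin (p * (θ - Real.pi / 2)))

/-- its derivative -/
noncomputable def del1 (p P Q θ : ℝ) : ℝ :=
  phi1 p θ - p * (Q * Real.cos (p * (θ - Real.pi / 2)) - P * Real.sin (p * (θ - Real.pi / 2)))

noncomputable def W (p P Q c θ : ℝ) : ℝ :=
  del1 p P Q θ * Real.sin (p * (θ - c)) - p * del p P Q θ * Real.cos (p * (θ - c))

theorem hasDerivAt_lin (p c θ : ℝ) : HasDerivAt (fun θ => p * (θ - c)) p θ := by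
  simpa using ((hasDerivAt_id θ).sub_const c).const_mul p

theorem hasDerivAt_W (hd1 : ∀ θ, HasDerivAt (phi p) (phi1 p θ) θ)
    (hd2 : ∀ θ, HasDerivAt (phi1 p) (kap p θ - p ^ 2 * phi p θ) θ) (c θ : ℝ) :
    HasDerivAt (W p P Q c) (kap p θ * Real.sin (p * (θ - c))) θ := by
  have hs : ∀ c θ, HasDerivAt (fun θ => Real.sin (p * (θ - c))) (Real.cos (p * (θ - c)) * p) θ :=
    fun c θ => (hasDerivAt_lin p c θ).sin
  have hco : ∀ c θ, HasDerivAt (fun θ => Real.cos (p * (θ - c))) (-Real.sin (p * (θ - c)) * p) θ :=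
    fun c θ => (hasDerivAt_lin p c θ).cos
  have hdel : HasDerivAt (del p P Q) (del1 p P Q θ) θ := by
    have := (hd1 θ).sub (((hco (Real.pi / 2) θ).const_mul P).add ((hs (Real.pi / 2) θ).const_mul Q))
    refine this.congr_deriv ?_
    unfold del1; ring
  have hdel1 : HasDerivAt (del1 p P Q) (kap p θ - p ^ 2 * del p P Q θ) θ := by
    have := (hd2 θ).sub ((((hco (Real.pi / 2) θ).const_mul Q).sub
      ((hs (Real.pi / 2) θ).const_mul P)).const_mul p)
    refine this.congr_deriv ?_
    unfold del; ring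
  have := (hdel1.mul (hs c θ)).sub ((hdel.const_mul p).mul (hco c θ))
  refine this.congr_deriv ?_
  ring

end W

end Sig

open Sig in
theorem t_SIG (h1 : S_BB) (h2 : S_PHI) : S_SIG := by
  intro p hp
  obtain ⟨hd1, hd2, -⟩ := h2 p hp
  have hp2 : (2:ℝ) ≤ p := hp.le
  have hp0 : 0 < p := by linarith
  have hpi := Real.pi_pos
  have hq0 : 0 < Real.pi / p := div_pos hpi hp0
  have hq1 : Real.pi / p < Real.pi / 2 := div_lt_div_of_pos_left hpi (by norm_num) hp
  have hq2 : p * (Real.pi / p) = Real.pi := by field_simp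
  have hB := h1.pos p hp2
  have hg : ∀ x, 0 ≤ phi p x + phi p (x + Real.pi / p) := by
    intro x
    have h := h1.le p x hp2
    unfold ratio at h
    rw [div_le_iff₀ (h1.den_pos p x hp2)] at h
    unfold phi; linarith
  obtain ⟨a, b, ha0, ha2, hb2, hba, k0, k1, k2⟩ := kap_sign hp hB
  obtain ⟨x₀, hbx, hxb, hx0⟩ : ∃ x₀, b ≤ x₀ ∧ x₀ < b + Real.pi ∧
      phi p x₀ + phi p (x₀ + Real.pi / p) = 0 := by
    obtain ⟨y, hy⟩ := h1.attained p hp2
    unfold ratio at hy
    rw [div_eq_iff (h1.den_pos p y hp2).ne'] at hy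
    have hper : Function.Periodic (phi p) Real.pi := phi_per p
    have hm := toIcoMod_mem_Ico hpi b y
    refine ⟨toIcoMod hpi b y, hm.1, hm.2, ?_⟩
    have e1 : phi p (toIcoMod hpi b y) = phi p y := hper.sub_zsmul_eq _
    have e2 : phi p (toIcoMod hpi b y + Real.pi / p) = phi p (y + Real.pi / p) := by
      have : toIcoMod hpi b y + Real.pi / p = (y + Real.pi / p) - toIcoDiv hpi b y • Real.pi := by
        unfold toIcoMod; ring
      rw [this]; exact hper.sub_zsmul_eq _
    rw [e1, e2]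
    unfold phi; linarith
  set x₁ := x₀ + Real.pi / p with hx1
  -- minimum
  have hgd : ∀ x, HasDerivAt (fun x => phi p x + phi p (x + Real.pi / p))
      (phi1 p x + phi1 p (x + Real.pi / p)) x := by
    intro x
    exact (hd1 x).add ((hd1 (x + Real.pi / p)).comp_add_const x (Real.pi / p))
  have hgd1 : HasDerivAt (fun x => phi1 p x + phi1 p (x + Real.pi / p))
      ((kap p x₀ - p ^ 2 * phi p x₀) + (kap p x₁ - p ^ 2 * phi p x₁)) x₀ :=
    (hd2 x₀).add ((hd2 (x₀ + Real.pi / p)).comp_add_const x₀ (Real.pi / p))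
  have hmin : ∀ x, phi p x₀ + phi p (x₀ + Real.pi / p) ≤ phi p x + phi p (x + Real.pi / p) := by
    intro x; rw [hx0]; exact hg x
  have hf1 : phi1 p x₀ + phi1 p x₁ = 0 := by
    have : IsLocalMin (fun x => phi p x + phi p (x + Real.pi / p)) x₀ :=
      Filter.Eventually.of_forall hmin
    exact this.hasDerivAt_eq_zero (hgd x₀)
  have hk : 0 ≤ kap p x₀ + kap p x₁ := by
    have h := second_nonneg hgd hgd1 hmin
    have e : phi p x₁ = - phi p x₀ := by linarith
    rw [e] at h
    linarith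
  -- the sinusoid
  set s := p * (x₀ - Real.pi / 2) with hs
  have hs1 : p * (x₁ - Real.pi / 2) = s + Real.pi := by
    rw [hx1, hs]; linear_combination hq2
  obtain ⟨P, Q, hPQ, hPQ1⟩ : ∃ P Q : ℝ, phi p x₀ = P * Real.cos s + Q * Real.sin s ∧
      phi1 p x₀ = p * (Q * Real.cos s - P * Real.sin s) := by
    have hsc := Real.sin_sq_add_cos_sq s
    refine ⟨phi p x₀ * Real.cos s - phi1 p x₀ / p * Real.sin s,
      phi p x₀ * Real.sin s + phi1 p x₀ / p * Real.cos s, ?_, ?_⟩
    · linear_combination (-phi p x₀) * hsc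
    · have : p * (phi1 p x₀ / p) = phi1 p x₀ := by field_simp
      linear_combination (-phi1 p x₀) * hsc - (Real.sin s ^ 2 + Real.cos s ^ 2) * this
  have hPQ' : phi p x₁ = P * Real.cos (s + Real.pi) + Q * Real.sin (s + Real.pi) := by
    rw [Real.cos_add_pi, Real.sin_add_pi]; linarith
  have hPQ1' : phi1 p x₁ = p * (Q * Real.cos (s + Real.pi) - P * Real.sin (s + Real.pi)) := by
    rw [Real.cos_add_pi, Real.sin_add_pi]; linarith
  have hW := fun c => hasDerivAt_W (P := P) (Q := Q) hd1 hd2 c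
  have hd0 : del p P Q x₀ = 0 := by unfold del; rw [← hs, hPQ]; ring
  have hd01 : del1 p P Q x₀ = 0 := by unfold del1; rw [← hs, hPQ1]; ring
  have hd1' : del p P Q x₁ = 0 := by unfold del; rw [hs1, hPQ']; ring
  have hd11 : del1 p P Q x₁ = 0 := by unfold del1; rw [hs1, hPQ1']; ring
  have hW0 : ∀ c, W p P Q c x₀ = 0 := fun c => by unfold W; rw [hd0, hd01]; ring
  have hW1 : ∀ c, W p P Q c x₁ = 0 := fun c => by unfold W; rw [hd1', hd11]; ring
  -- signs of the sine
  have sp : ∀ c θ, c < θ → θ < c + Real.pi / p → 0 < Real.sin (p * (θ - c)) := by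
    intro c θ h3 h4
    apply Real.sin_pos_of_pos_of_lt_pi
    · exact mul_pos hp0 (by linarith)
    · have : p * (θ - c) < p * (Real.pi / p) := mul_lt_mul_of_pos_left (by linarith) hp0
      linarith
  have sp0 : ∀ c θ, c ≤ θ → θ ≤ c + Real.pi / p → 0 ≤ Real.sin (p * (θ - c)) := by
    intro c θ h3 h4
    apply Real.sin_nonneg_of_nonneg_of_le_pi
    · exact mul_nonneg hp0.le (by linarith)
    · have : p * (θ - c) ≤ p * (Real.pi / p) := mul_le_mul_of_nonneg_left (by linarith) hp0.le
      linarith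
  have sn : ∀ c θ, θ < c → c < θ + Real.pi / p → Real.sin (p * (θ - c)) < 0 := by
    intro c θ h3 h4
    have h5 := sp θ c h3 h4
    have : p * (θ - c) = -(p * (c - θ)) := by ring
    rw [this, Real.sin_neg]; linarith
  have sn0 : ∀ c θ, θ ≤ c → c ≤ θ + Real.pi / p → Real.sin (p * (θ - c)) ≤ 0 := by
    intro c θ h3 h4
    have h5 := sp0 θ c h3 h4
    have : p * (θ - c) = -(p * (c - θ)) := by ring
    rw [this, Real.sin_neg]; linarith
  have k3 : ∀ θ, b + Real.pi ≤ θ → θ ≤ a + Real.pi → 0 ≤ kap p θ := by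
    intro θ h3 h4
    have h5 := kap_per p (θ - Real.pi)
    rw [sub_add_cancel] at h5
    rw [h5]
    exact k0 _ (by linarith) (by linarith)
  have hx01 : x₀ < x₁ := by linarith
  -- `x₀ ≤ a`
  have hxa : x₀ ≤ a := by
    by_contra hlt
    push Not at hlt
    have hk0 : kap p x₀ < 0 := k2 x₀ hlt hxb
    have hk1 : 0 < kap p x₁ := by linarith
    have h3 : b + Real.pi ≤ x₁ := by
      by_contra h
      push Not at h
      have := k2 x₁ (by linarith) h
      linarith
    have h4 : x₁ ≤ a + Real.pi := by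
      by_contra h
      push Not at h
      have h5 := k2 (x₁ - Real.pi) (by linarith) (by linarith)
      have h6 := kap_per p (x₁ - Real.pi)
      rw [sub_add_cancel] at h6
      linarith
    have h5 := lt_of (hW (b + Real.pi)) hxb (fun θ hθ => mul_pos_of_neg_of_neg
      (k2 θ (by linarith [hθ.1]) hθ.2) (sn _ θ hθ.2 (by linarith [hθ.1])))
    have h6 := le_of (hW (b + Real.pi)) h3 (fun θ hθ => mul_nonneg
      (k3 θ hθ.1.le (by linarith [hθ.2])) (sp0 _ θ hθ.1.le (by linarith [hθ.2])))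
    rw [hW0] at h5
    rw [hW1] at h6
    linarith
  -- `b + π ≤ x₁`
  have hbx1 : b + Real.pi ≤ x₁ := by
    by_contra hlt
    push Not at hlt
    rcases le_or_gt x₁ a with h3 | h3
    · have h5 := lt_of (hW x₀) hx01 (fun θ hθ => mul_pos
        (k1 θ (by linarith [hθ.1]) (by linarith [hθ.2])) (sp x₀ θ hθ.1 (by linarith [hθ.2])))
      rw [hW0, hW1] at h5
      exact lt_irrefl _ h5
    · have h5 := ge_of (hW a) hxa (fun θ hθ => mul_nonpos_of_nonneg_of_nonpos
        (k0 θ (by linarith [hθ.1]) hθ.2.le) (sn0 a θ hθ.2.le (by linarith [hθ.1])))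
      have h6 := gt_of (hW a) h3 (fun θ hθ => mul_neg_of_neg_of_pos
        (k2 θ hθ.1 (by linarith [hθ.2])) (sp a θ hθ.1 (by linarith [hθ.2])))
      rw [hW0] at h5
      rw [hW1] at h6
      linarith
  have hWt : ∀ t, W p P Q t t = -(p * del p P Q t) := by
    intro t
    unfold W
    rw [sub_self, mul_zero, Real.sin_zero, Real.cos_zero]; ring
  have hx0pos : 0 < x₀ := by linarith
  have hx1pi : x₁ < Real.pi := by linarith
  -- `σ ≤ φ`
  have dl : ∀ t, x₀ ≤ t → t ≤ a → 0 ≤ del p P Q t := by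
    intro t h3 h4
    have h5 := ge_of (hW t) h3 (fun θ hθ => mul_nonpos_of_nonneg_of_nonpos
      (k0 θ (by linarith [hθ.1]) (by linarith [hθ.2])) (sn0 t θ hθ.2.le (by linarith [hθ.1])))
    rw [hW0, hWt] at h5
    by_contra h6
    push Not at h6
    have := mul_neg_of_pos_of_neg hp0 h6
    linarith
  have dr : ∀ t, b + Real.pi ≤ t → t ≤ x₁ → 0 ≤ del p P Q t := by
    intro t h3 h4
    have h5 := le_of (hW t) h4 (fun θ hθ => mul_nonneg
      (k3 θ (by linarith [hθ.1]) (by linarith [hθ.2])) (sp0 t θ hθ.1.le (by linarith [hθ.2])))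
    rw [hW1, hWt] at h5
    by_contra h6
    push Not at h6
    have := mul_neg_of_pos_of_neg hp0 h6
    linarith
  have hlen : b + Real.pi < a + Real.pi / p := by
    by_contra h
    push Not at h
    have e0 : x₀ = a := by linarith
    have e1 : x₁ = b + Real.pi := by linarith
    have h5 := gt_of (hW x₀) hx01 (fun θ hθ => mul_neg_of_neg_of_pos
      (k2 θ (by linarith [hθ.1]) (by linarith [hθ.2])) (sp x₀ θ hθ.1 (by linarith [hθ.2])))
    rw [hW0, hW1] at h5
    exact lt_irrefl _ h5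
  have dm : ∀ t, a < t → t < b + Real.pi → 0 ≤ del p P Q t := by
    intro t h3 h4
    have h5 := ge_of (hW a) h3.le (fun θ hθ => (mul_neg_of_neg_of_pos
      (k2 θ hθ.1 (by linarith [hθ.2])) (sp a θ hθ.1 (by linarith [hθ.2]))).le)
    have h6 := le_of (hW (b + Real.pi)) h4.le (fun θ hθ => mul_nonneg_of_nonpos_of_nonpos
      (k2 θ (by linarith [hθ.1]) hθ.2).le (sn0 _ θ hθ.2.le (by linarith [hθ.1])))
    rw [hWt] at h5 h6
    have ga := dl a hxa le_rfl
    have gb := dr (b + Real.pi) le_rfl hbx1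
    have sA := sp a t h3 (by linarith)
    have sB := sn (b + Real.pi) t h4 (by linarith)
    have sC := sp a (b + Real.pi) (by linarith) hlen
    have e : W p P Q a t * (-Real.sin (p * (t - (b + Real.pi)))) +
        W p P Q (b + Real.pi) t * Real.sin (p * (t - a)) =
        -(p * del p P Q t * Real.sin (p * (b + Real.pi - a))) := by
      have : p * (b + Real.pi - a) = p * (t - a) - p * (t - (b + Real.pi)) := by ring
      rw [this, Real.sin_sub]
      unfold W
      ring
    have h7 := mul_le_mul_of_nonneg_right h5 (neg_nonneg.mpr sB.le)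
    have h8 := mul_le_mul_of_nonneg_right h6 sA.le
    have h9 : 0 ≤ p * del p P Q a * (-Real.sin (p * (t - (b + Real.pi)))) :=
      mul_nonneg (mul_nonneg hp0.le ga) (neg_nonneg.mpr sB.le)
    have h10 : 0 ≤ p * del p P Q (b + Real.pi) * Real.sin (p * (t - a)) :=
      mul_nonneg (mul_nonneg hp0.le gb) sA.le
    by_contra h11
    push Not at h11
    have h12 : p * del p P Q t * Real.sin (p * (b + Real.pi - a)) < 0 :=
      mul_neg_of_neg_of_pos (mul_neg_of_pos_of_neg hp0 h11) sC
    linarith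
  have dall : ∀ t ∈ Icc x₀ x₁, 0 ≤ del p P Q t := by
    intro t ht
    rcases le_or_gt t a with h3 | h3
    · exact dl t ht.1 h3
    · rcases lt_or_ge t (b + Real.pi) with h4 | h4
      · exact dm t h3 h4
      · exact dr t h4 ht.2
  -- `Q ≤ 0`
  have hQ : Q ≤ 0 := by
    set t₀ := Real.pi / 2 - x₀ with ht0
    set t₁ := x₁ - Real.pi / 2 with ht1
    have p0 : 0 < t₀ := by linarith
    have p1 : 0 < t₁ := by linarith
    have p2 : t₀ + t₁ = Real.pi / p := by rw [ht0, ht1, hx1]; ring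
    have hd : phi p (Real.pi / 2 - t₀) - phi p (Real.pi / 2 + t₀) ≤
        phi p (Real.pi / 2 - t₁) - phi p (Real.pi / 2 + t₁) := by
      have h3 := hg (Real.pi / 2 - t₁)
      have e1 : Real.pi / 2 - t₁ + Real.pi / p = Real.pi / 2 + t₀ := by rw [← p2]; ring
      have e2 : Real.pi / 2 - t₀ = x₀ := by rw [ht0]; ring
      have e3 : Real.pi / 2 + t₁ = x₀ + Real.pi / p := by rw [ht1, hx1]; ring
      rw [e1] at h3
      rw [e2, e3]
      linarith
    rw [phi_diff, phi_diff] at hd
    have s0 : 0 ≤ Real.sin (2 * t₀) :=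
      Real.sin_nonneg_of_nonneg_of_le_pi (by linarith) (by linarith)
    have s1 : 0 ≤ Real.sin (2 * t₁) :=
      Real.sin_nonneg_of_nonneg_of_le_pi (by linarith) (by linarith)
    have hpp : 0 < p / 2 := by linarith
    have h01 : t₀ ≤ t₁ := by
      by_contra h
      push Not at h
      have h3 : Real.sin (2 * t₁) < Real.sin (2 * t₀) := by
        have h4 := Real.sin_sub_sin (2 * t₀) (2 * t₁)
        have h5 : 0 < Real.sin ((2 * t₀ - 2 * t₁) / 2) :=
          Real.sin_pos_of_pos_of_lt_pi (by linarith) (by linarith)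
        have h6 : 0 < Real.cos ((2 * t₀ + 2 * t₁) / 2) :=
          Real.cos_pos_of_mem_Ioo ⟨by linarith, by linarith⟩
        have h7 := mul_pos (mul_pos two_pos h5) h6
        linarith
      have h4 : (1 + Real.sin (2 * t₁)) ^ (p / 2) < (1 + Real.sin (2 * t₀)) ^ (p / 2) :=
        Real.rpow_lt_rpow (by linarith) (by linarith) hpp
      have h5 : (1 - Real.sin (2 * t₀)) ^ (p / 2) ≤ (1 - Real.sin (2 * t₁)) ^ (p / 2) :=
        Real.rpow_le_rpow (by linarith [Real.sin_le_one (2 * t₀)]) (by linarith) hpp.le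
      linarith
    have h3 := dall (Real.pi / 2 + t₀) ⟨by linarith, by linarith⟩
    unfold del at h3
    have e1 : p * (Real.pi / 2 + t₀ - Real.pi / 2) = p * t₀ := by ring
    have e2 : s = -(p * t₀) := by rw [hs, ht0]; ring
    rw [e1] at h3
    rw [e2, Real.cos_neg, Real.sin_neg] at hPQ
    have h4 := phi_diff p t₀
    have e3 : Real.pi / 2 - t₀ = x₀ := by rw [ht0]; ring
    rw [e3] at h4
    have h5 : (1 - Real.sin (2 * t₀)) ^ (p / 2) ≤ (1 + Real.sin (2 * t₀)) ^ (p / 2) :=
      Real.rpow_le_rpow (by linarith [Real.sin_le_one (2 * t₀)]) (by linarith) hpp.le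
    have h6 : 0 < Real.sin (p * t₀) := by
      apply Real.sin_pos_of_pos_of_lt_pi (mul_pos hp0 p0)
      have : p * t₀ < p * (Real.pi / p) := mul_lt_mul_of_pos_left (by linarith) hp0
      linarith
    by_contra h7
    push Not at h7
    have := mul_pos h7 h6
    linarith
  refine ⟨x₀, x₁, P, Q, hx0pos, by linarith, by linarith, hx1pi, hQ, ?_, ?_, ?_⟩
  · intro x hx
    rcases hx with rfl | hx
    · exact ⟨hPQ, hPQ1⟩
    · rw [Set.mem_singleton_iff] at hx
      rw [hx, hs1]
      exact ⟨hPQ', hPQ1'⟩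
  · intro x hx
    have := dall x hx
    unfold del at this
    linarith
  · intro x hx
    exact k0 x (by linarith [hx.1]) (by linarith [hx.2])

end Pool.Agent.NH67.RX
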