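import Pool.Agent.NH67.RX.Sub3

/-!
# RX-6: the integral inequality
-/

set_option autoImplicit false

open MeasureTheory Set Filter Topology
open scoped Interval

namespace Pool.Agent.NH67.RX

lemma aux_re (a b q s : ℝ) :
    (((a : ℝ) : ℂ) * -(Complex.I * ((b : ℝ) : ℂ)) * ((q : ℝ) - Complex.I * ((s : ℝ) : ℂ))).re =
      -(a * b * s) := by
  have : ((a : ℝ) : ℂ) * -(Complex.I * ((b : ℝ) : ℂ)) * ((q : ℝ) - Complex.I * ((s : ℝ) : ℂ)) =
      ((-(a * b * s) : ℝ) : ℂ) + ((-(a * b * q) : ℝ) : ℂ) * Complex.I := by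
    push_cast
    linear_combination (a * b * s : ℂ) * Complex.I_sq
  rw [this]
  simp

/-- the side on the imaginary axis -/
lemma left_side {p : ℝ} {ψ ψ1 ψ2 : ℝ → ℝ} (hp : 2 < p) (T : Trig p ψ ψ1 ψ2) {f : ℂ → ℂ}
    {ε : ℝ} (hε : 0 < ε) (hf : DifferentiableOn ℂ f (UU ε))
    (hre : ∀ y : ℝ, 0 ≤ y → (f (y * Complex.I)).im = 0) (Y : ℝ) (hY : 0 ≤ Y) :
    -(∫ y in (0 : ℝ)..Y, y * (DD p ψ ψ1 f ((0 : ℝ) + y * Complex.I)).re) ≤
      ψ1 0 / p * (Y * ‖f (Y * Complex.I)‖ ^ p) := by
  set r : ℝ → ℝ := fun y => (f (y * Complex.I)).re with hr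
  set r' : ℝ → ℝ := fun y => -(deriv f (y * Complex.I)).im with hr'
  have hmem : ∀ y : ℝ, 0 ≤ y → (y * Complex.I : ℂ) ∈ UU ε := fun y hy =>
    mem_UU hε (by simpa using hy)
  have hfd : ∀ y : ℝ, 0 ≤ y → HasDerivAt (fun y : ℝ => f (y * Complex.I))
      (deriv f (y * Complex.I) * Complex.I) y := by
    intro y hy
    have h1 : HasDerivAt f (deriv f (y * Complex.I)) (y * Complex.I) :=
      (hf.differentiableAt ((UU_open ε).mem_nhds (hmem y hy))).hasDerivAt
    have h2 : HasDerivAt (fun y : ℝ => (y * Complex.I : ℂ)) Complex.I y := by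
      simpa using (Complex.ofRealCLM.hasDerivAt (x := y)).mul_const Complex.I
    exact h1.comp y h2
  have hrd : ∀ y : ℝ, 0 ≤ y → HasDerivAt r (r' y) y := by
    intro y hy
    have h1 : HasDerivAt (fun y : ℝ => (f (y * Complex.I)).re)
        (Complex.reCLM (deriv f (y * Complex.I) * Complex.I)) y :=
      Complex.reCLM.hasFDerivAt.comp_hasDerivAt y (hfd y hy)
    simpa using h1
  have him : ∀ y : ℝ, 0 < y → (deriv f (y * Complex.I)).re = 0 := by
    intro y hy
    have h1 := Complex.imCLM.hasFDerivAt.comp_hasDerivAt y (hfd y hy.le)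
    have h2 : HasDerivAt (fun y : ℝ => (f (y * Complex.I)).im) 0 y := by
      have : (fun y : ℝ => (f (y * Complex.I)).im) =ᶠ[𝓝 y] fun _ => 0 := by
        filter_upwards [lt_mem_nhds hy] with t ht
        exact hre t ht.le
      exact (hasDerivAt_const y (0 : ℝ)).congr_of_eventuallyEq this
    have h3 : HasDerivAt (fun y : ℝ => (f (y * Complex.I)).im)
        (Complex.imCLM (deriv f (y * Complex.I) * Complex.I)) y := h1
    have h4 := h3.unique h2
    simpa using h4
  have hDre : ∀ y : ℝ, 0 < y → (DD p ψ ψ1 f ((0 : ℝ) + y * Complex.I)).re =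
      -(ψ1 0 * (|r y| ^ (p - 2) * r y * r' y)) := by
    intro y hy
    rw [Complex.ofReal_zero, zero_add]
    have e1 : f (y * Complex.I) = ((r y : ℝ) : ℂ) := by
      apply Complex.ext
      · simp [hr]
      · simpa using hre y hy.le
    have e2 : deriv f (y * Complex.I) = -(Complex.I * ((r' y : ℝ) : ℂ)) := by
      apply Complex.ext
      · simpa using him y hy
      · simp [hr']
    rw [DD, e1, e2]
    rcases lt_trichotomy (r y) 0 with h | h | h
    · have ha : Complex.arg ((r y : ℝ) : ℂ) = Real.pi := Complex.arg_ofReal_of_neg h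
      have hp1 : ψ1 Real.pi = ψ1 0 := by rw [← T.per1 0, zero_add]
      rw [ha, hp1]
      have e3 : -(Complex.I * ((r' y : ℝ) : ℂ)) / ((r y : ℝ) : ℂ) =
          -(Complex.I * ((r' y / r y : ℝ) : ℂ)) := by
        push_cast; ring
      rw [e3, Complex.norm_real, Real.norm_eq_abs]
      have e4 : |r y| ^ p = |r y| ^ (p - 2) * (r y) ^ 2 := by
        rw [← sq_abs (r y), ← Real.rpow_natCast |r y| 2, ← Real.rpow_add (abs_pos.mpr h.ne)]
        congr 1; push_cast; ring
      rw [e4, aux_re]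
      have := h.ne
      field_simp
    · rw [h]
      simp
    · have ha : Complex.arg ((r y : ℝ) : ℂ) = 0 := Complex.arg_ofReal_of_nonneg h.le
      rw [ha]
      have e3 : -(Complex.I * ((r' y : ℝ) : ℂ)) / ((r y : ℝ) : ℂ) =
          -(Complex.I * ((r' y / r y : ℝ) : ℂ)) := by
        push_cast; ring
      rw [e3, Complex.norm_real, Real.norm_eq_abs]
      have e4 : |r y| ^ p = |r y| ^ (p - 2) * (r y) ^ 2 := by
        rw [← sq_abs (r y), ← Real.rpow_natCast |r y| 2, ← Real.rpow_add (abs_pos.mpr h.ne')]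
        congr 1; push_cast; ring
      rw [e4, aux_re]
      have := h.ne'
      field_simp
  -- continuity
  have hrc : ContinuousOn r (Icc 0 Y) := fun y hy => (hrd y hy.1).continuousAt.continuousWithinAt
  have hr'c : ContinuousOn r' (Icc 0 Y) := by
    intro y hy
    apply ContinuousAt.continuousWithinAt
    have h1 : ContinuousAt (deriv f) (y * Complex.I) := df_cont hf (hmem y hy.1)
    have h2 : ContinuousAt (fun y : ℝ => deriv f (y * Complex.I)) y :=
      ContinuousAt.comp (f := fun y : ℝ => (y * Complex.I : ℂ)) (g := deriv f) h1 (by fun_prop)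
    exact (Complex.continuous_im.continuousAt.comp h2).neg
  have hwc : ContinuousOn (fun y => |r y| ^ (p - 2) * r y * r' y) (Icc 0 Y) :=
    ((hrc.abs.rpow_const fun y _ => Or.inr (by linarith)).mul hrc).mul hr'c
  have hpc : ContinuousOn (fun y => |r y| ^ p) (Icc 0 Y) :=
    hrc.abs.rpow_const fun y _ => Or.inr (by linarith)
  have hd : ∀ y ∈ uIcc 0 Y, HasDerivAt (fun y => y * |r y| ^ p)
      (|r y| ^ p + y * (p * (|r y| ^ (p - 2) * r y * r' y))) y := by
    intro y hy
    rw [uIcc_of_le hY] at hy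
    have h1 : HasDerivAt (fun y => |r y| ^ p) (p * |r y| ^ (p - 2) * r y * r' y) y :=
      (hasDerivAt_abs_rpow (r y) (by linarith : 1 < p)).comp y (hrd y hy.1)
    have h2 : HasDerivAt (fun y => y * |r y| ^ p)
        (1 * |r y| ^ p + y * (p * |r y| ^ (p - 2) * r y * r' y)) y := (hasDerivAt_id y).mul h1
    refine h2.congr_deriv ?_
    ring
  have hint : IntervalIntegrable (fun y => |r y| ^ p + y * (p * (|r y| ^ (p - 2) * r y * r' y)))
      volume 0 Y := by
    apply ContinuousOn.intervalIntegrable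
    rw [uIcc_of_le hY]
    exact hpc.add (continuousOn_id.mul (hwc.const_smul p))
  have hftc := intervalIntegral.integral_eq_sub_of_hasDerivAt hd hint
  have hi1 : IntervalIntegrable (fun y => |r y| ^ p) volume 0 Y := by
    apply ContinuousOn.intervalIntegrable; rw [uIcc_of_le hY]; exact hpc
  have hi2 : IntervalIntegrable (fun y => y * (p * (|r y| ^ (p - 2) * r y * r' y))) volume 0 Y := by
    apply ContinuousOn.intervalIntegrable; rw [uIcc_of_le hY]
    exact continuousOn_id.mul (hwc.const_smul p)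
  rw [intervalIntegral.integral_add hi1 hi2, zero_mul, sub_zero] at hftc
  have hpos : 0 ≤ ∫ y in (0 : ℝ)..Y, |r y| ^ p :=
    intervalIntegral.integral_nonneg hY fun y _ => by positivity
  have hE : -(∫ y in (0 : ℝ)..Y, y * (DD p ψ ψ1 f ((0 : ℝ) + y * Complex.I)).re) =
      ψ1 0 / p * ∫ y in (0 : ℝ)..Y, y * (p * (|r y| ^ (p - 2) * r y * r' y)) := by
    rw [← intervalIntegral.integral_neg, ← intervalIntegral.integral_const_mul]
    apply intervalIntegral.integral_congr_ae
    filter_upwards with y hy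
    rw [uIoc_of_le hY] at hy
    rw [hDre y hy.1]
    have : p ≠ 0 := by linarith
    field_simp
  rw [hE]
  have hfY : ‖f (Y * Complex.I)‖ = |r Y| := by
    have e1 : f (Y * Complex.I) = ((r Y : ℝ) : ℂ) := by
      apply Complex.ext
      · simp [hr]
      · simpa using hre Y hY
    rw [e1, Complex.norm_real, Real.norm_eq_abs]
  rw [hfY]
  apply mul_le_mul_of_nonneg_left _ (div_nonneg T.zero (by linarith))
  linarith

theorem t_SUB (hcal : S_CAL) : S_SUB := by
  intro p ψ ψ1 ψ2 f hp T N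
  obtain ⟨ε, hε, hf⟩ := N.diff
  have hf : DifferentiableOn ℂ f (UU ε) := hf
  obtain ⟨C₀, hC₀⟩ := N.dec
  set C := max C₀ 0 with hC
  have hC0 : 0 ≤ C := le_max_right _ _
  have hdec : ∀ z : ℂ, 0 ≤ z.im → ‖f z‖ ≤ C / (1 + ‖z‖) ∧ ‖deriv f z‖ ≤ C / (1 + ‖z‖) ^ 2 := by
    intro z hz
    refine ⟨(hC₀ z hz).1.trans ?_, (hC₀ z hz).2.trans ?_⟩
    · gcongr; exact le_max_left _ _
    · gcongr; exact le_max_left _ _
  by_cases hne : ∃ z ∈ UU ε, f z ≠ 0
  swap
  · push Not at hne
    have : ∀ x ∈ Ioi (0 : ℝ), VV p ψ f (x : ℂ) = 0 := by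
      intro x _
      rw [VV, hne x (mem_UU hε (by simp)), norm_zero, Real.zero_rpow (by linarith), zero_mul]
    rw [setIntegral_congr_fun measurableSet_Ioi this]
    simp
  obtain ⟨K, hK0, hK⟩ := T.VV_bd
  obtain ⟨K', hK'0, hK'⟩ := T.DD_bd (by linarith)
  have hVbd : ∀ z : ℂ, 0 ≤ z.im → |VV p ψ f z| ≤ K * C ^ p * (1 + ‖z‖) ^ (-p) := by
    intro z hz
    refine (hK f z).trans ?_
    rw [mul_assoc]
    apply mul_le_mul_of_nonneg_left _ hK0
    have h1 := Real.rpow_le_rpow (norm_nonneg _) (hdec z hz).1 (by linarith : 0 ≤ p)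
    rwa [Real.div_rpow hC0 (by positivity), div_eq_mul_inv, ← Real.rpow_neg (by positivity)] at h1
  have hDbd : ∀ z : ℂ, 0 ≤ z.im →
      ‖DD p ψ ψ1 f z‖ ≤ K' * (C ^ (p - 1) * C) * (1 + ‖z‖) ^ (-p - 1) := by
    intro z hz
    refine (hK' f z).trans ?_
    rw [mul_assoc]
    apply mul_le_mul_of_nonneg_left _ hK'0
    have h1 := Real.rpow_le_rpow (norm_nonneg _) (hdec z hz).1 (by linarith : 0 ≤ p - 1)
    have h2 := mul_le_mul h1 (hdec z hz).2 (norm_nonneg _) (by positivity)
    refine h2.trans (le_of_eq ?_)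
    have hpos : 0 < 1 + ‖z‖ := by positivity
    rw [Real.div_rpow hC0 hpos.le]
    have e1 : (1 + ‖z‖) ^ (-p - 1) = ((1 + ‖z‖) ^ (p - 1))⁻¹ * ((1 + ‖z‖) ^ 2)⁻¹ := by
      rw [← Real.rpow_natCast (1 + ‖z‖) 2, ← Real.rpow_neg hpos.le, ← Real.rpow_neg hpos.le,
        ← Real.rpow_add hpos]
      congr 1; push_cast; ring
    rw [e1]
    ring
  set a := K' * (C ^ (p - 1) * C) with ha
  set b := K * C ^ p with hb
  set c := ψ1 0 / p * C ^ p with hc
  have ha0 : 0 ≤ a := by positivity
  have hb0 : 0 ≤ b := by positivity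
  have hc0 : 0 ≤ c := mul_nonneg (div_nonneg T.zero (by linarith)) (by positivity)
  have hzn : ∀ (n : ℕ) (s : ℝ) (z : ℂ), 0 ≤ s → (n : ℝ) ≤ ‖z‖ →
      (1 + ‖z‖) ^ (-s) ≤ (1 + n : ℝ) ^ (-s) := by
    intro n s z hs hz
    apply Real.rpow_le_rpow_of_nonpos (by positivity) (by linarith) (by linarith)
  have hpow : ∀ n : ℕ, (n : ℝ) * (1 + n : ℝ) ^ (-p) ≤ (1 + n : ℝ) ^ (1 - p) := by
    intro n
    have hpos : (0 : ℝ) < 1 + n := by positivity
    have e : (1 + n : ℝ) ^ (1 - p) = (1 + n : ℝ) * (1 + n : ℝ) ^ (-p) := by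
      rw [sub_eq_add_neg, Real.rpow_add hpos, Real.rpow_one]
    rw [e]
    apply mul_le_mul_of_nonneg_right (by linarith) (by positivity)
  have hpow2 : ∀ n : ℕ, (n : ℝ) * ((n : ℝ) * (1 + n : ℝ) ^ (-p - 1)) ≤ (1 + n : ℝ) ^ (1 - p) := by
    intro n
    have hpos : (0 : ℝ) < 1 + n := by positivity
    have e : (1 + n : ℝ) ^ (-p) = (1 + n : ℝ) * (1 + n : ℝ) ^ (-p - 1) := by
      rw [show -p = 1 + (-p - 1) by ring, Real.rpow_add hpos, Real.rpow_one]
      congr 2; ring
    refine le_trans ?_ (hpow n)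
    apply mul_le_mul_of_nonneg_left _ (Nat.cast_nonneg n)
    rw [e]
    apply mul_le_mul_of_nonneg_right (by linarith) (by positivity)
  have hmain : ∀ n : ℕ, 0 ≤ (∫ x in (0 : ℝ)..n, VV p ψ f (x : ℂ)) +
      (2 * a + b + c) * (1 + n : ℝ) ^ (1 - p) := by
    intro n
    have hn : (0 : ℝ) ≤ n := Nat.cast_nonneg n
    have h0 := rect hcal hp T hε hf hne n n hn hn
    have h1 := left_side hp T hε hf N.real n hn
    have h2 : |∫ x in (0 : ℝ)..n, ((n : ℝ) * (DD p ψ ψ1 f (x + (n : ℝ) * Complex.I)).im +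
        VV p ψ f (x + (n : ℝ) * Complex.I))| ≤ (a + b) * (1 + n : ℝ) ^ (1 - p) := by
      have h3 : ∀ x ∈ Ι (0 : ℝ) n, ‖(n : ℝ) * (DD p ψ ψ1 f (x + (n : ℝ) * Complex.I)).im +
          VV p ψ f (x + (n : ℝ) * Complex.I)‖ ≤
          n * (a * (1 + n : ℝ) ^ (-p - 1)) + b * (1 + n : ℝ) ^ (-p) := by
        intro x _
        have him : (0 : ℝ) ≤ (x + (n : ℝ) * Complex.I : ℂ).im := by simp
        have hnorm : (n : ℝ) ≤ ‖(x + (n : ℝ) * Complex.I : ℂ)‖ := by
          have := Complex.abs_im_le_norm (x + (n : ℝ) * Complex.I : ℂ)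
          simpa using this
        refine (norm_add_le _ _).trans (add_le_add ?_ ?_)
        · rw [norm_mul, Real.norm_of_nonneg hn]
          apply mul_le_mul_of_nonneg_left _ hn
          refine (Complex.abs_im_le_norm _).trans ((hDbd _ him).trans ?_)
          apply mul_le_mul_of_nonneg_left _ ha0
          have := hzn n (p + 1) _ (by linarith) hnorm
          rwa [show -(p + 1) = -p - 1 by ring] at this
        · refine (hVbd _ him).trans ?_
          apply mul_le_mul_of_nonneg_left _ hb0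
          exact hzn n p _ (by linarith) hnorm
      have h4 := intervalIntegral.norm_integral_le_of_norm_le_const h3
      rw [sub_zero, abs_of_nonneg hn] at h4
      refine h4.trans ?_
      have h5 := mul_le_mul_of_nonneg_left (hpow2 n) ha0
      have h6 := mul_le_mul_of_nonneg_left (hpow n) hb0
      nlinarith
    have h3 : |∫ y in (0 : ℝ)..n, y * (DD p ψ ψ1 f ((n : ℝ) + y * Complex.I)).re| ≤
        a * (1 + n : ℝ) ^ (1 - p) := by
      have h3 : ∀ y ∈ Ι (0 : ℝ) n, ‖y * (DD p ψ ψ1 f ((n : ℝ) + y * Complex.I)).re‖ ≤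
          n * (a * (1 + n : ℝ) ^ (-p - 1)) := by
        intro y hy
        rw [uIoc_of_le hn] at hy
        have him : (0 : ℝ) ≤ ((n : ℝ) + y * Complex.I : ℂ).im := by simpa using hy.1.le
        have hnorm : (n : ℝ) ≤ ‖((n : ℝ) + y * Complex.I : ℂ)‖ := by
          have := Complex.abs_re_le_norm ((n : ℝ) + y * Complex.I : ℂ)
          simpa using this
        rw [norm_mul, Real.norm_of_nonneg hy.1.le]
        apply mul_le_mul hy.2 _ (norm_nonneg _) hn
        refine (Complex.abs_re_le_norm _).trans ((hDbd _ him).trans ?_)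
        apply mul_le_mul_of_nonneg_left _ ha0
        have := hzn n (p + 1) _ (by linarith) hnorm
        rwa [show -(p + 1) = -p - 1 by ring] at this
      have h4 := intervalIntegral.norm_integral_le_of_norm_le_const h3
      rw [sub_zero, abs_of_nonneg hn] at h4
      refine h4.trans ?_
      have h5 := mul_le_mul_of_nonneg_left (hpow2 n) ha0
      nlinarith
    have h4 : ψ1 0 / p * ((n : ℝ) * ‖f ((n : ℝ) * Complex.I)‖ ^ p) ≤ c * (1 + n : ℝ) ^ (1 - p) := by
      rw [hc, mul_assoc]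
      apply mul_le_mul_of_nonneg_left _ (div_nonneg T.zero (by linarith))
      have him : (0 : ℝ) ≤ ((n : ℝ) * Complex.I : ℂ).im := by simp
      have hnorm : ‖((n : ℝ) * Complex.I : ℂ)‖ = n := by
        rw [norm_mul, Complex.norm_I, mul_one, Complex.norm_real, Real.norm_of_nonneg hn]
      have h5 := Real.rpow_le_rpow (norm_nonneg _) (hdec _ him).1 (by linarith : 0 ≤ p)
      rw [Real.div_rpow hC0 (by positivity), div_eq_mul_inv, ← Real.rpow_neg (by positivity),
        hnorm] at h5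
      have h6 := mul_le_mul_of_nonneg_left h5 hn
      refine h6.trans ?_
      have h7 := mul_le_mul_of_nonneg_left (hpow n) (by positivity : 0 ≤ C ^ p)
      nlinarith
    have h5 := (abs_le.mp h2).1
    have h6 := (abs_le.mp h3).2
    nlinarith
  -- the limit
  have hVc : Continuous fun x : ℝ => VV p ψ f (x : ℂ) := by
    have := line_h hε (fun z hz => VV_cont T hf (by linarith) hz) 0 le_rfl
    simpa only [Complex.ofReal_zero, zero_mul, add_zero] using this
  have hVint : Integrable fun x : ℝ => VV p ψ f (x : ℂ) := by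
    have h1 : Integrable fun x : ℝ => b * (1 + ‖x‖) ^ (-p) :=
      (integrable_one_add_norm (E := ℝ) (r := p) (by simp; linarith)).const_mul b
    refine h1.mono' hVc.aestronglyMeasurable (ae_of_all _ fun x => ?_)
    have := hVbd (x : ℂ) (by simp)
    rwa [Complex.norm_real] at this
  have hlim := intervalIntegral_tendsto_integral_Ioi 0 hVint.integrableOn
    (tendsto_natCast_atTop_atTop (R := ℝ))
  have hlim2 : Tendsto (fun n : ℕ => (2 * a + b + c) * (1 + n : ℝ) ^ (1 - p)) atTop (𝓝 0) := by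
    have h1 : Tendsto (fun n : ℕ => (1 + n : ℝ)) atTop atTop :=
      tendsto_atTop_add_const_left _ _ (tendsto_natCast_atTop_atTop (R := ℝ))
    have h2 := (tendsto_rpow_neg_atTop (by linarith : 0 < p - 1)).comp h1
    have h3 := h2.const_mul (2 * a + b + c)
    rw [mul_zero] at h3
    refine h3.congr fun n => ?_
    simp only [Function.comp_apply]
    rw [show -(p - 1) = 1 - p by ring]
  have hlim3 := hlim.add hlim2
  rw [add_zero] at hlim3
  exact ge_of_tendsto' hlim3 hmain

end Pool.Agent.NH67.RX
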