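import Pool.Agent.NH67.RX.Stm

/-!
# Project RX, RX-18: the test functions for the lower bound
-/

set_option autoImplicit false

open MeasureTheory Set Filter Topology

namespace Pool.Agent.NH67.RX.Test

/-! ### The Laplace transform of a power (as in `Pool.Agent.H600R3.TaskPZG2`) -/

theorem lap_meas (a r : ℂ) : AEStronglyMeasurable
    (fun t : ℝ => (t : ℂ) ^ (a - 1) * Complex.exp (-(r * (t : ℂ)))) (volume.restrict (Set.Ioi 0)) := by
  apply ContinuousOn.aestronglyMeasurable _ measurableSet_Ioi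
  refine ContinuousOn.mul ?_ (by fun_prop)
  intro s hs
  refine ContinuousAt.continuousWithinAt ?_
  exact (Complex.continuousAt_ofReal_cpow_const s _ (Or.inr (ne_of_gt hs)))

theorem lap_int (a : ℂ) (ha : 0 < a.re) (r : ℂ) (hr : 0 < r.re) :
    IntegrableOn (fun t : ℝ => (t : ℂ) ^ (a - 1) * Complex.exp (-(r * (t : ℂ)))) (Set.Ioi 0) := by
  have h0 : IntegrableOn (fun s : ℝ => s ^ (a.re - 1) * Real.exp (-r.re * s ^ (1:ℝ)))
      (Set.Ioi 0) :=
    integrableOn_rpow_mul_exp_neg_mul_rpow (by linarith) one_pos hr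
  refine Integrable.mono' h0 (lap_meas a r) ?_
  refine (ae_restrict_iff' measurableSet_Ioi).2 (Eventually.of_forall fun s hs => ?_)
  rw [norm_mul, Complex.norm_exp, Complex.norm_cpow_eq_rpow_re_of_pos hs, Real.rpow_one]
  apply le_of_eq
  simp

theorem lap_diff (a : ℂ) (ha : 0 < a.re) (r : ℂ) (hr : 0 < r.re) :
    DifferentiableAt ℂ (fun r : ℂ => ∫ t in Set.Ioi (0:ℝ),
      (t : ℂ) ^ (a - 1) * Complex.exp (-(r * (t : ℂ)))) r := by
  have h0 : IntegrableOn (fun s : ℝ => s ^ (a.re) * Real.exp (-(r.re / 2) * s ^ (1:ℝ)))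
      (Set.Ioi 0) :=
    integrableOn_rpow_mul_exp_neg_mul_rpow (by linarith) one_pos (by linarith)
  have key := hasDerivAt_integral_of_dominated_loc_of_deriv_le
    (μ := (volume : Measure ℝ).restrict (Set.Ioi 0)) (x₀ := r)
    (F := fun (r : ℂ) (t : ℝ) => (t : ℂ) ^ (a - 1) * Complex.exp (-(r * (t : ℂ))))
    (F' := fun (r : ℂ) (t : ℝ) => (t : ℂ) ^ (a - 1) * (Complex.exp (-(r * (t : ℂ))) * (-(t : ℂ))))
    (bound := fun t => t ^ (a.re) * Real.exp (-(r.re / 2) * t ^ (1:ℝ)))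
    (s := Metric.ball r (r.re / 2)) (Metric.ball_mem_nhds r (by linarith))
    (Eventually.of_forall fun x => lap_meas a x) (lap_int a ha r hr) ?_ ?_ h0 ?_
  · exact key.2.differentiableAt
  · have h1 := (lap_meas a r).mul (g := fun t : ℝ => (-(t : ℂ))) (by fun_prop)
    refine h1.congr (Eventually.of_forall fun t => ?_)
    show (t : ℂ) ^ (a - 1) * Complex.exp (-(r * (t : ℂ))) * (-(t : ℂ)) = _
    ring
  · refine (ae_restrict_iff' measurableSet_Ioi).2 (Eventually.of_forall fun s hs => ?_)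
    intro x hx
    have hs' : 0 < s := hs
    have hx1 : r.re / 2 < x.re := by
      have h1 : |(x - r).re| < r.re / 2 := by
        refine (Complex.abs_re_le_norm _).trans_lt ?_
        rw [Metric.mem_ball, dist_eq_norm] at hx
        exact hx
      rw [Complex.sub_re] at h1
      have := (abs_lt.1 h1).1
      linarith
    rw [norm_mul, norm_mul, Complex.norm_exp, Complex.norm_cpow_eq_rpow_re_of_pos hs, Real.rpow_one,
      norm_neg, Complex.norm_real, Real.norm_eq_abs, abs_of_pos hs']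
    have h2 : (-(x * (s : ℂ))).re = -(x.re * s) := by
      rw [Complex.neg_re, Complex.re_mul_ofReal]
    rw [h2, Complex.sub_re, Complex.one_re]
    have h3 : s ^ (a.re) = s ^ (a.re - 1) * s := by
      rw [Real.rpow_sub_one hs'.ne']
      field_simp
    rw [h3]
    have h4 : Real.exp (-(x.re * s)) ≤ Real.exp (-(r.re / 2) * s) := by
      apply Real.exp_le_exp.2
      nlinarith
    calc s ^ (a.re - 1) * (Real.exp (-(x.re * s)) * s)
        = s ^ (a.re - 1) * s * Real.exp (-(x.re * s)) := by ring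
      _ ≤ s ^ (a.re - 1) * s * Real.exp (-(r.re / 2) * s) :=
          mul_le_mul_of_nonneg_left h4 (by positivity)
  · refine Eventually.of_forall fun t x _ => ?_
    have h5 : HasDerivAt (fun r : ℂ => -(r * (t : ℂ))) (-(t : ℂ)) x := by
      have h6 : HasDerivAt (fun r : ℂ => r * (t : ℂ)) (t : ℂ) x := by
        simpa using (hasDerivAt_id x).mul_const (t : ℂ)
      exact h6.neg
    exact (h5.cexp).const_mul _

theorem lap_val (a : ℂ) (ha : 0 < a.re) (r : ℂ) (hr : 0 < r.re) :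
    ∫ t in Set.Ioi (0:ℝ), (t : ℂ) ^ (a - 1) * Complex.exp (-(r * (t : ℂ))) =
      (1 / r) ^ a * Complex.Gamma a := by
  have hopen : IsOpen {r : ℂ | 0 < r.re} := isOpen_lt continuous_const Complex.continuous_re
  have hconv : Convex ℝ {r : ℂ | 0 < r.re} := convex_halfSpace_re_gt 0
  have hf : AnalyticOnNhd ℂ (fun r : ℂ => ∫ t in Set.Ioi (0:ℝ),
      (t : ℂ) ^ (a - 1) * Complex.exp (-(r * (t : ℂ)))) {r : ℂ | 0 < r.re} :=
    DifferentiableOn.analyticOnNhd (fun x hx => (lap_diff a ha x hx).differentiableWithinAt) hopen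
  have hg : AnalyticOnNhd ℂ (fun r : ℂ => (1 / r) ^ a * Complex.Gamma a) {r : ℂ | 0 < r.re} := by
    refine DifferentiableOn.analyticOnNhd (fun x hx => ?_) hopen
    have hx' : 0 < x.re := hx
    have hx0 : x ≠ 0 := by
      rintro rfl
      simp at hx'
    refine DifferentiableAt.differentiableWithinAt ?_
    refine DifferentiableAt.mul_const ?_ _
    refine DifferentiableAt.cpow_const ?_ ?_
    · exact (differentiableAt_const (1:ℂ)).div differentiableAt_fun_id hx0
    · rw [one_div]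
      left
      rw [Complex.inv_re]
      exact div_pos hx' (Complex.normSq_pos.2 hx0)
  refine hf.eqOn_of_preconnected_of_frequently_eq hg hconv.isPreconnected (z₀ := 1) (by simp) ?_ hr
  have hreal : ∀ x : ℝ, 0 < x → (∫ t in Set.Ioi (0:ℝ),
      (t : ℂ) ^ (a - 1) * Complex.exp (-((x : ℂ) * (t : ℂ)))) = (1 / (x : ℂ)) ^ a * Complex.Gamma a :=
    fun x hx => Complex.integral_cpow_mul_exp_neg_mul_Ioi ha hx
  have hseq : Tendsto (fun n : ℕ => ((1 + 1 / ((n : ℝ) + 1) : ℝ) : ℂ)) atTop (𝓝[≠] 1) := by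
    refine tendsto_nhdsWithin_iff.2 ⟨?_, Eventually.of_forall fun n => ?_⟩
    · have h1 : Tendsto (fun n : ℕ => (1 + 1 / ((n : ℝ) + 1) : ℝ)) atTop (𝓝 (1 + 0)) :=
        tendsto_const_nhds.add tendsto_one_div_add_atTop_nhds_zero_nat
      rw [add_zero] at h1
      have h2 := (Complex.continuous_ofReal.tendsto 1).comp h1
      rw [Complex.ofReal_one] at h2
      exact h2
    · intro h
      have h1 : (1 + 1 / ((n : ℝ) + 1) : ℝ) = 1 := by
        exact_mod_cast (Set.mem_singleton_iff.1 h)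
      have h2 : (0:ℝ) < 1 / ((n : ℝ) + 1) := by positivity
      linarith
  refine hseq.frequently (Frequently.of_forall fun n => ?_)
  exact hreal _ (by positivity)

/-! ### Powers -/

/-- the power `(s - i w) ^ (-a)` -/
noncomputable def Q (a s w : ℝ) : ℂ := ((s : ℂ) - Complex.I * w) ^ ((-a : ℝ) : ℂ)

theorem ne_of (s w : ℝ) (hw : w ≠ 0) : (s : ℂ) - Complex.I * w ≠ 0 := by
  intro h
  have := congrArg Complex.im h
  simp at this
  exact hw this

theorem slit_of (s w : ℝ) (hw : w ≠ 0) : (s : ℂ) - Complex.I * w ∈ Complex.slitPlane := by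
  right
  simp
  exact hw

theorem abs_le_norm (s w : ℝ) : |w| ≤ ‖(s : ℂ) - Complex.I * w‖ := by
  have h := Complex.abs_im_le_norm ((s : ℂ) - Complex.I * w)
  simpa using h

theorem le_norm (s w : ℝ) : s ≤ ‖(s : ℂ) - Complex.I * w‖ := by
  have h := Complex.re_le_norm ((s : ℂ) - Complex.I * w)
  simpa using h

theorem Q_le (a s w : ℝ) (ha : 0 ≤ a) (hw : w ≠ 0) : ‖Q a s w‖ ≤ |w| ^ (-a) := by
  rw [Q, Complex.norm_cpow_real]
  exact Real.rpow_le_rpow_of_nonpos (abs_pos.2 hw) (abs_le_norm s w) (by linarith)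

theorem Q_le' (a s w : ℝ) (ha : 0 ≤ a) (hs : 0 < s) : ‖Q a s w‖ ≤ s ^ (-a) := by
  rw [Q, Complex.norm_cpow_real]
  exact Real.rpow_le_rpow_of_nonpos hs (le_norm s w) (by linarith)

theorem Q_sub (a s s' w : ℝ) (ha : 0 ≤ a) (hw : w ≠ 0) :
    ‖Q a s w - Q a s' w‖ ≤ a * |w| ^ (-a - 1) * |s - s'| := by
  have h := Convex.norm_image_sub_le_of_norm_hasDerivWithin_le (𝕜 := ℝ) (s := univ)
    (f := fun s : ℝ => Q a s w) (C := a * |w| ^ (-a - 1)) (x := s') (y := s)
    (f' := fun s : ℝ => ((-a : ℝ) : ℂ) * ((s : ℂ) - Complex.I * w) ^ (((-a : ℝ) : ℂ) - 1) * 1)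
    (fun s _ => ?_) (fun s _ => ?_) convex_univ (mem_univ _) (mem_univ _)
  · rw [Real.norm_eq_abs] at h
    exact h
  · refine HasDerivAt.hasDerivWithinAt ?_
    have h1 : HasDerivAt (fun z : ℂ => (z - Complex.I * w) ^ ((-a : ℝ) : ℂ))
        (((-a : ℝ) : ℂ) * ((s : ℂ) - Complex.I * w) ^ (((-a : ℝ) : ℂ) - 1) * 1) (s : ℂ) :=
      ((hasDerivAt_id (s : ℂ)).sub_const (Complex.I * w)).cpow_const (slit_of s w hw)
    exact h1.comp_ofReal
  · have h1 : (((-a : ℝ) : ℂ) - 1) = ((-a - 1 : ℝ) : ℂ) := by push_cast; ring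
    rw [mul_one, norm_mul, h1, Complex.norm_cpow_real, Complex.norm_real, Real.norm_eq_abs, abs_neg,
      abs_of_nonneg ha]
    refine mul_le_mul_of_nonneg_left ?_ ha
    exact Real.rpow_le_rpow_of_nonpos (abs_pos.2 hw) (abs_le_norm s w) (by linarith)

/-- the power at the boundary -/
theorem Q_zero (a w : ℝ) (hw : w ≠ 0) : Q a 0 w = ((|w| ^ (-a) : ℝ) : ℂ) *
    Complex.exp (Complex.I * (((if 0 < w then Real.pi / 2 * a else -(Real.pi / 2 * a)) : ℝ) : ℂ)) := by
  rcases lt_or_gt_of_ne hw with h | h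
  · have h1 : ((0 : ℝ) : ℂ) - Complex.I * w = ((-w : ℝ) : ℂ) * Complex.I := by push_cast; ring
    rw [Q, h1, Complex.cpow_def_of_ne_zero (mul_ne_zero (by exact_mod_cast (by linarith : -w ≠ 0))
      Complex.I_ne_zero), Complex.log_ofReal_mul (by linarith) Complex.I_ne_zero, Complex.log_I,
      if_neg (by linarith), abs_of_neg h, add_mul, Complex.exp_add]
    congr 1
    · rw [Complex.ofReal_cpow (by linarith), Complex.cpow_def_of_ne_zero
        (by exact_mod_cast (by linarith : -w ≠ 0)), Complex.ofReal_log (by linarith)]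
    · congr 1
      push_cast
      ring
  · have h1 : ((0 : ℝ) : ℂ) - Complex.I * w = ((w : ℝ) : ℂ) * (-Complex.I) := by push_cast; ring
    rw [Q, h1, Complex.cpow_def_of_ne_zero (mul_ne_zero (by exact_mod_cast hw)
      (neg_ne_zero.2 Complex.I_ne_zero)), Complex.log_ofReal_mul h (neg_ne_zero.2 Complex.I_ne_zero),
      Complex.log_neg_I, if_pos h, abs_of_pos h, add_mul, Complex.exp_add]
    congr 1
    · rw [Complex.ofReal_cpow h.le, Complex.cpow_def_of_ne_zero
        (by exact_mod_cast hw), Complex.ofReal_log h.le]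
    · congr 1
      push_cast
      ring

/-! ### The test function -/

/-- the function `t ^ (a - 1) (exp (-δ t) - exp (-t)) / Γ(a)` -/
noncomputable def gg (a δ t : ℝ) : ℝ :=
  t ^ (a - 1) * (Real.exp (-δ * t) - Real.exp (-t)) / Real.Gamma a

/-- the test function -/
noncomputable def hh (a θ δ t : ℝ) : ℝ := 2 * gg a δ t * Real.cos (t - θ)

theorem pow_int (a s : ℝ) (ha : 0 < a) (hs : 0 < s) :
    Integrable (fun t : ℝ => t ^ (a - 1) * Real.exp (-s * t)) hl := by
  have h := integrableOn_rpow_mul_exp_neg_mul_rpow (p := 1) (s := a - 1) (b := s) (by linarith)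
    one_pos hs
  have h2 : Integrable (fun t : ℝ => t ^ (a - 1) * Real.exp (-s * t ^ (1 : ℝ))) hl := h
  simpa only [Real.rpow_one] using h2

theorem gg_int (a δ : ℝ) (ha : 0 < a) (hδ : 0 < δ) : Integrable (gg a δ) hl := by
  have h1 := ((pow_int a δ ha hδ).sub (pow_int a 1 ha one_pos)).div_const (Real.Gamma a)
  refine h1.congr (Eventually.of_forall fun t => ?_)
  simp only [Pi.sub_apply, gg]
  ring_nf

theorem hh_int (a θ δ : ℝ) (ha : 0 < a) (hδ : 0 < δ) : Integrable (hh a θ δ) hl := by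
  have h1 := (gg_int a δ ha hδ).bdd_mul (f := fun t => 2 * Real.cos (t - θ)) (c := 2)
    (by fun_prop) (Eventually.of_forall fun t => ?_)
  · refine h1.congr (Eventually.of_forall fun t => ?_)
    simp only [hh]
    ring
  · rw [Real.norm_eq_abs, abs_mul, abs_two]
    have := Real.abs_cos_le_one (t - θ)
    linarith

theorem hh_sq (a θ δ : ℝ) (ha : 0 < a) (hδ : 0 < δ) (hδ1 : δ < 1) :
    Integrable (fun t => hh a θ δ t ^ 2) hl := by
  have h0 : Integrable (fun t : ℝ => 4 / Real.Gamma a ^ 2 * (t ^ (2 * a - 1) * Real.exp (-δ * t))) hl :=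
    (pow_int (2 * a) δ (by linarith) hδ).const_mul _
  refine Integrable.mono' h0 ((hh_int a θ δ ha hδ).aestronglyMeasurable.pow 2) ?_
  refine (ae_restrict_iff' measurableSet_Ioi).2 (Eventually.of_forall fun t ht => ?_)
  have ht : 0 < t := ht
  have hΓ : 0 < Real.Gamma a := Real.Gamma_pos_of_pos ha
  rw [Real.norm_eq_abs, abs_of_nonneg (sq_nonneg _), hh, gg]
  have hc : Real.cos (t - θ) ^ 2 ≤ 1 := Real.cos_sq_le_one _
  have e1 : Real.exp (-δ * t) - Real.exp (-t) ≤ Real.exp (-δ * t) := by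
    have := Real.exp_pos (-t)
    linarith
  have e2 : Real.exp (-δ * t) - Real.exp (-t) ≤ t := by
    have h1 : Real.exp (-δ * t) ≤ 1 := Real.exp_le_one_iff.2 (by nlinarith)
    have h2 := Real.add_one_le_exp (-t)
    linarith
  have e3 : 0 ≤ Real.exp (-δ * t) - Real.exp (-t) := by
    have : Real.exp (-t) ≤ Real.exp (-δ * t) := Real.exp_le_exp.2 (by nlinarith)
    linarith
  have e4 : (Real.exp (-δ * t) - Real.exp (-t)) ^ 2 ≤ t * Real.exp (-δ * t) := by
    rw [sq]
    exact mul_le_mul e2 e1 e3 ht.le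
  have e5 : (t ^ (a - 1)) ^ 2 * t = t ^ (2 * a - 1) := by
    rw [← Real.rpow_natCast, ← Real.rpow_mul ht.le]
    nth_rewrite 2 [← Real.rpow_one t]
    rw [← Real.rpow_add ht]
    congr 1
    push_cast
    ring
  have e6 : (2 * (t ^ (a - 1) * (Real.exp (-δ * t) - Real.exp (-t)) / Real.Gamma a) *
      Real.cos (t - θ)) ^ 2 = 4 / Real.Gamma a ^ 2 * ((t ^ (a - 1)) ^ 2 *
      (Real.exp (-δ * t) - Real.exp (-t)) ^ 2) * Real.cos (t - θ) ^ 2 := by
    field_simp
    ring
  rw [e6, ← e5]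
  have e7 : (0 : ℝ) ≤ (t ^ (a - 1)) ^ 2 := sq_nonneg _
  have e8 := mul_le_mul_of_nonneg_left e4 e7
  have e9 : (0 : ℝ) ≤ 4 / Real.Gamma a ^ 2 := by positivity
  calc 4 / Real.Gamma a ^ 2 * ((t ^ (a - 1)) ^ 2 *
        (Real.exp (-δ * t) - Real.exp (-t)) ^ 2) * Real.cos (t - θ) ^ 2
      ≤ 4 / Real.Gamma a ^ 2 * ((t ^ (a - 1)) ^ 2 *
        (Real.exp (-δ * t) - Real.exp (-t)) ^ 2) * 1 :=
        mul_le_mul_of_nonneg_left hc (by positivity)
    _ = 4 / Real.Gamma a ^ 2 * ((t ^ (a - 1)) ^ 2 *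
        (Real.exp (-δ * t) - Real.exp (-t)) ^ 2) := mul_one _
    _ ≤ 4 / Real.Gamma a ^ 2 * ((t ^ (a - 1)) ^ 2 * (t * Real.exp (-δ * t))) :=
        mul_le_mul_of_nonneg_left e8 e9
    _ = 4 / Real.Gamma a ^ 2 * ((t ^ (a - 1)) ^ 2 * t * Real.exp (-δ * t)) := by ring

/-- one Laplace integral -/
theorem lap_Q (a s w : ℝ) (ha : 0 < a) (hs : 0 < s) :
    ∫ t in Ioi (0 : ℝ), ((t ^ (a - 1) * Real.exp (-s * t) : ℝ) : ℂ) * Complex.exp (Complex.I * w * t) =
      Q a s w * Real.Gamma a := by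
  have hre : 0 < ((s : ℂ) - Complex.I * w).re := by simpa using hs
  have h1 := lap_val (a : ℂ) (by simpa using ha) ((s : ℂ) - Complex.I * w) hre
  rw [Complex.Gamma_ofReal] at h1
  have h2 : (1 / ((s : ℂ) - Complex.I * w)) ^ (a : ℂ) = Q a s w := by
    rw [one_div, Complex.inv_cpow, ← Complex.cpow_neg, Q]
    · push_cast
      rfl
    · have h3 : ((s : ℂ) - Complex.I * w) ∈ Complex.slitPlane := Or.inl hre
      exact (Complex.mem_slitPlane_iff_arg.1 h3).1
  rw [← h2, ← h1]
  refine setIntegral_congr_fun measurableSet_Ioi fun t ht => ?_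
  have ht : 0 < t := ht
  rw [Complex.ofReal_mul, Complex.ofReal_cpow ht.le, Complex.ofReal_exp, mul_assoc,
    ← Complex.exp_add]
  congr 2
  · push_cast
    rfl
  · push_cast
    ring

theorem lap_int' (a s w : ℝ) (ha : 0 < a) (hs : 0 < s) :
    Integrable (fun t : ℝ => ((t ^ (a - 1) * Real.exp (-s * t) : ℝ) : ℂ) *
      Complex.exp (Complex.I * w * t)) hl := by
  have h1 := (pow_int a s ha hs).ofReal (𝕜 := ℂ)
  have h2 := h1.bdd_mul (f := fun t : ℝ => Complex.exp (Complex.I * w * t)) (c := 1)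
    (by fun_prop) (Eventually.of_forall fun t => ?_)
  · refine h2.congr (Eventually.of_forall fun t => ?_)
    simp only
    exact mul_comm _ _
  · rw [Complex.norm_exp]
    simp

theorem gg_lap (a δ w : ℝ) (ha : 0 < a) (hδ : 0 < δ) :
    ∫ t in Ioi (0 : ℝ), ((gg a δ t : ℝ) : ℂ) * Complex.exp (Complex.I * w * t) =
      Q a δ w - Q a 1 w := by
  have hΓ : (Real.Gamma a : ℂ) ≠ 0 := by exact_mod_cast (Real.Gamma_pos_of_pos ha).ne'
  have h1 : ∫ t in Ioi (0 : ℝ), ((gg a δ t : ℝ) : ℂ) * Complex.exp (Complex.I * w * t) =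
      ∫ t in Ioi (0 : ℝ), ((((t ^ (a - 1) * Real.exp (-δ * t) : ℝ) : ℂ) *
        Complex.exp (Complex.I * w * t)) - (((t ^ (a - 1) * Real.exp (-1 * t) : ℝ) : ℂ) *
        Complex.exp (Complex.I * w * t))) / Real.Gamma a := by
    refine setIntegral_congr_fun measurableSet_Ioi fun t _ => ?_
    simp only [gg]
    push_cast
    field_simp
  rw [h1, integral_div, integral_sub (lap_int' a δ w ha hδ) (lap_int' a 1 w ha one_pos),
    lap_Q a δ w ha hδ, lap_Q a 1 w ha one_pos]
  field_simp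

theorem gg_int' (a δ w : ℝ) (ha : 0 < a) (hδ : 0 < δ) :
    Integrable (fun t : ℝ => ((gg a δ t : ℝ) : ℂ) * Complex.exp (Complex.I * w * t)) hl := by
  have h1 := (gg_int a δ ha hδ).ofReal (𝕜 := ℂ)
  have h2 := h1.bdd_mul (f := fun t : ℝ => Complex.exp (Complex.I * w * t)) (c := 1)
    (by fun_prop) (Eventually.of_forall fun t => ?_)
  · refine h2.congr (Eventually.of_forall fun t => ?_)
    simp only
    exact mul_comm _ _
  · rw [Complex.norm_exp]
    simp

/-- the transform of the test function -/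
theorem hh_tr (a θ δ x : ℝ) (ha : 0 < a) (hδ : 0 < δ) :
    ∫ t in Ioi (0 : ℝ), ((hh a θ δ t : ℝ) : ℂ) * Complex.exp (Complex.I * x * t) =
      Complex.exp (Complex.I * θ) * (Q a δ (x - 1) - Q a 1 (x - 1)) +
      Complex.exp (-(Complex.I * θ)) * (Q a δ (x + 1) - Q a 1 (x + 1)) := by
  rw [← gg_lap a δ (x - 1) ha hδ, ← gg_lap a δ (x + 1) ha hδ, ← integral_const_mul,
    ← integral_const_mul, ← integral_add ((gg_int' a δ (x - 1) ha hδ).const_mul _)
    ((gg_int' a δ (x + 1) ha hδ).const_mul _)]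
  refine setIntegral_congr_fun measurableSet_Ioi fun t _ => ?_
  have h1 : ((hh a θ δ t : ℝ) : ℂ) = ((gg a δ t : ℝ) : ℂ) *
      (Complex.exp (((t - θ : ℝ) : ℂ) * Complex.I) + Complex.exp (-((t - θ : ℝ) : ℂ) * Complex.I)) := by
    rw [← Complex.two_cos, hh]
    push_cast
    ring
  have h2 : Complex.exp (((t - θ : ℝ) : ℂ) * Complex.I) * Complex.exp (Complex.I * x * t) =
      Complex.exp (-(Complex.I * θ)) * Complex.exp (Complex.I * ((x + 1 : ℝ) : ℂ) * t) := by
    rw [← Complex.exp_add, ← Complex.exp_add]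
    congr 1
    push_cast
    ring
  have h3 : Complex.exp (-((t - θ : ℝ) : ℂ) * Complex.I) * Complex.exp (Complex.I * x * t) =
      Complex.exp (Complex.I * θ) * Complex.exp (Complex.I * ((x - 1 : ℝ) : ℂ) * t) := by
    rw [← Complex.exp_add, ← Complex.exp_add]
    congr 1
    push_cast
    ring
  rw [h1]
  linear_combination ((gg a δ t : ℝ) : ℂ) * h2 + ((gg a δ t : ℝ) : ℂ) * h3

/-! ### Estimates -/

theorem norm_exp_I (θ : ℝ) : ‖Complex.exp (Complex.I * θ)‖ = 1 := by
  rw [Complex.norm_exp]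
  simp

theorem norm_exp_neg_I (θ : ℝ) : ‖Complex.exp (-(Complex.I * θ))‖ = 1 := by
  rw [Complex.norm_exp]
  simp

/-- the bound of the remainder near the point one -/
noncomputable def NN (a δ x : ℝ) : ℝ :=
  if |x - 1| ≤ δ then 2 * δ ^ (-a) else if |x - 1| < 1 then δ * |x - 1| ^ (-a - 1) + 1
    else |x - 1| ^ (-a - 1)

theorem mm_eq (q θ δ x : ℝ) (hx : δ < |x - 1|) (hx1 : |x - 1| < 1) (hδ : 0 < δ) :
    mm q θ δ x = Complex.exp (Complex.I * θ) * Q (1 / q) 0 (x - 1) := by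
  have hw : x - 1 ≠ 0 := fun h => by
    rw [h, abs_zero] at hx
    linarith
  rw [mm, if_pos ⟨hx, hx1⟩, Q_zero _ _ hw]
  have e1 : (-1 / q : ℝ) = -(1 / q) := by ring
  rw [e1]
  have e2 : ((θ + (if 1 < x then Real.pi / (2 * q) else -(Real.pi / (2 * q))) : ℝ) : ℂ) =
      (θ : ℂ) + (((if 0 < x - 1 then Real.pi / 2 * (1 / q) else -(Real.pi / 2 * (1 / q))) : ℝ) : ℂ) := by
    have h1 : Real.pi / (2 * q) = Real.pi / 2 * (1 / q) := by
      rw [div_mul_div_comm, mul_one]
    rw [h1]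
    by_cases h : 1 < x
    · rw [if_pos h, if_pos (by linarith)]
      push_cast
      ring
    · rw [if_neg h, if_neg (by linarith)]
      push_cast
      ring
  rw [e2, mul_add, Complex.exp_add]
  ring

theorem bound (q θ δ x : ℝ) (hq : 2 ≤ q) (hδ : 0 < δ) (hδ1 : δ < 1) (hx : 0 < x) :
    ‖(Complex.exp (Complex.I * θ) * (Q (1 / q) δ (x - 1) - Q (1 / q) 1 (x - 1)) +
      Complex.exp (-(Complex.I * θ)) * (Q (1 / q) δ (x + 1) - Q (1 / q) 1 (x + 1))) -
      mm q θ δ x‖ ≤ (x + 1) ^ (-(1 / q) - 1) + NN (1 / q) δ x := by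
  set a : ℝ := 1 / q with ha
  have ha0 : 0 < a := by positivity
  have ha1 : a ≤ 1 := by
    rw [ha, div_le_one (by linarith)]
    linarith
  have hδa : |δ - 1| ≤ 1 := by
    rw [abs_le]
    constructor <;> linarith
  have h1 : ‖Complex.exp (-(Complex.I * θ)) * (Q a δ (x + 1) - Q a 1 (x + 1))‖ ≤
      (x + 1) ^ (-a - 1) := by
    rw [norm_mul, norm_exp_neg_I, one_mul]
    refine (Q_sub a δ 1 (x + 1) ha0.le (by linarith)).trans ?_
    rw [abs_of_pos (by linarith : 0 < x + 1)]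
    have h0 : 0 ≤ (x + 1) ^ (-a - 1) := Real.rpow_nonneg (by linarith) _
    have h2 : a * (x + 1) ^ (-a - 1) ≤ (x + 1) ^ (-a - 1) := by nlinarith
    calc a * (x + 1) ^ (-a - 1) * |δ - 1| ≤ (x + 1) ^ (-a - 1) * 1 :=
          mul_le_mul h2 hδa (abs_nonneg _) h0
      _ = _ := mul_one _
  have hQ1 : ∀ w, ‖Q a 1 w‖ ≤ 1 := fun w => by
    have := Q_le' a 1 w ha0.le one_pos
    rwa [Real.one_rpow] at this
  have h2 : ‖Complex.exp (Complex.I * θ) * (Q a δ (x - 1) - Q a 1 (x - 1)) - mm q θ δ x‖ ≤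
      NN a δ x := by
    unfold NN
    split_ifs with c1 c2
    · rw [mm, if_neg (fun h => absurd h.1 (not_lt.2 c1)), sub_zero, norm_mul, norm_exp_I, one_mul]
      have e1 := Q_le' a δ (x - 1) ha0.le hδ
      have e2 : (1 : ℝ) ≤ δ ^ (-a) := Real.one_le_rpow_of_pos_of_le_one_of_nonpos hδ hδ1.le
        (by linarith)
      refine (norm_sub_le _ _).trans ?_
      have := hQ1 (x - 1)
      linarith
    · push Not at c1
      have hw : x - 1 ≠ 0 := fun h => by
        rw [h, abs_zero] at c1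
        linarith
      rw [mm_eq q θ δ x c1 c2 hδ]
      have e1 : Complex.exp (Complex.I * θ) * (Q a δ (x - 1) - Q a 1 (x - 1)) -
          Complex.exp (Complex.I * θ) * Q a 0 (x - 1) =
          Complex.exp (Complex.I * θ) * ((Q a δ (x - 1) - Q a 0 (x - 1)) - Q a 1 (x - 1)) := by
        ring
      rw [e1, norm_mul, norm_exp_I, one_mul]
      refine (norm_sub_le _ _).trans ?_
      have e2 := Q_sub a δ 0 (x - 1) ha0.le hw
      rw [sub_zero, abs_of_pos hδ] at e2
      have h0 : 0 ≤ |x - 1| ^ (-a - 1) := Real.rpow_nonneg (abs_nonneg _) _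
      have e3 : a * |x - 1| ^ (-a - 1) * δ ≤ δ * |x - 1| ^ (-a - 1) := by
        have : a * |x - 1| ^ (-a - 1) ≤ |x - 1| ^ (-a - 1) := by nlinarith
        nlinarith
      have := hQ1 (x - 1)
      linarith
    · push Not at c1 c2
      have hw : x - 1 ≠ 0 := fun h => by
        rw [h, abs_zero] at c2
        linarith
      rw [mm, if_neg (fun h => absurd h.2 (not_lt.2 c2)), sub_zero, norm_mul, norm_exp_I, one_mul]
      refine (Q_sub a δ 1 (x - 1) ha0.le hw).trans ?_
      have h0 : 0 ≤ |x - 1| ^ (-a - 1) := Real.rpow_nonneg (abs_nonneg _) _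
      have h3 : a * |x - 1| ^ (-a - 1) ≤ |x - 1| ^ (-a - 1) := by nlinarith
      calc a * |x - 1| ^ (-a - 1) * |δ - 1| ≤ |x - 1| ^ (-a - 1) * 1 :=
            mul_le_mul h3 hδa (abs_nonneg _) h0
        _ = _ := mul_one _
  have h3 : (Complex.exp (Complex.I * θ) * (Q a δ (x - 1) - Q a 1 (x - 1)) +
      Complex.exp (-(Complex.I * θ)) * (Q a δ (x + 1) - Q a 1 (x + 1))) - mm q θ δ x =
      Complex.exp (-(Complex.I * θ)) * (Q a δ (x + 1) - Q a 1 (x + 1)) +
      (Complex.exp (Complex.I * θ) * (Q a δ (x - 1) - Q a 1 (x - 1)) - mm q θ δ x) := by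
    ring
  rw [h3]
  exact (norm_add_le _ _).trans (add_le_add h1 h2)

theorem add_pow_le' (A B q : ℝ) (hA : 0 ≤ A) (hB : 0 ≤ B) (hq : 0 ≤ q) :
    (A + B) ^ q ≤ 2 ^ q * (A ^ q + B ^ q) := by
  have h1 : A + B ≤ 2 * max A B := by
    have := le_max_left A B
    have := le_max_right A B
    linarith
  have h2 : (max A B) ^ q ≤ A ^ q + B ^ q := by
    rcases max_cases A B with ⟨h, -⟩ | ⟨h, -⟩ <;> rw [h]
    · have := Real.rpow_nonneg hB q
      linarith
    · have := Real.rpow_nonneg hA q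
      linarith
  calc (A + B) ^ q ≤ (2 * max A B) ^ q := Real.rpow_le_rpow (by linarith) h1 hq
    _ = 2 ^ q * (max A B) ^ q := Real.mul_rpow (by norm_num) (le_max_of_le_left hA)
    _ ≤ 2 ^ q * (A ^ q + B ^ q) := mul_le_mul_of_nonneg_left h2 (by positivity)

/-- the tail -/
noncomputable def TT (q c y : ℝ) : ENNReal :=
  (Ioi c).indicator (fun y => ENNReal.ofReal (y ^ (-1 - q))) y

theorem TT_meas (q c : ℝ) : Measurable (TT q c) := by
  unfold TT
  exact (by fun_prop : Measurable fun y : ℝ => ENNReal.ofReal (y ^ (-1 - q))).indicator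
    measurableSet_Ioi

theorem TT_int (q c : ℝ) (hq : 2 ≤ q) (hc : 0 < c) :
    ∫⁻ y, TT q c y = ENNReal.ofReal (c ^ (-q) / q) := by
  have h1 : -1 - q < -1 := by linarith
  unfold TT
  rw [lintegral_indicator measurableSet_Ioi, ← ofReal_integral_eq_lintegral_ofReal
    (integrableOn_Ioi_rpow_of_lt h1 hc)
    ((ae_restrict_iff' measurableSet_Ioi).2 (Eventually.of_forall fun y hy =>
      Real.rpow_nonneg (hc.trans hy).le _)), integral_Ioi_rpow_of_lt h1 hc]
  congr 1
  have h2 : -1 - q + 1 = -q := by ring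
  rw [h2, div_neg, neg_div, neg_neg]

theorem TT_eq (q c y : ℝ) (h : c < y) : TT q c y = ENNReal.ofReal (y ^ (-1 - q)) := by
  unfold TT
  rw [indicator_of_mem (mem_Ioi.2 h)]

/-- the majorant -/
noncomputable def Maj (q δ x : ℝ) : ENNReal :=
  ENNReal.ofReal (2 ^ q) * TT q 1 (x + 1) +
  (ENNReal.ofReal (4 ^ q / δ) * (Icc (1 - δ) (1 + δ)).indicator 1 x +
  (ENNReal.ofReal (4 ^ q * δ ^ q) * TT q δ (x - 1) +
  (ENNReal.ofReal (4 ^ q * δ ^ q) * TT q δ (1 - x) +
  (ENNReal.ofReal (4 ^ q) * (Icc 0 2).indicator 1 x +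
  ENNReal.ofReal (2 ^ q) * TT q (1 / 2) (x - 1)))))

theorem Maj_int (q δ : ℝ) (hq : 2 ≤ q) (hδ : 0 < δ) (hδ1 : δ < 1) :
    ∫⁻ x, Maj q δ x ≤ ENNReal.ofReal (2 ^ q + 7 * 4 ^ q) := by
  have m1 : Measurable fun x => TT q 1 (x + 1) := (TT_meas q 1).comp (measurable_add_const 1)
  have m2 : Measurable fun x => TT q δ (x - 1) := (TT_meas q δ).comp (measurable_sub_const 1)
  have m3 : Measurable fun x => TT q δ (1 - x) := (TT_meas q δ).comp (measurable_const_sub 1)
  have m4 : Measurable fun x : ℝ => (Icc (1 - δ) (1 + δ)).indicator (1 : ℝ → ENNReal) x :=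
    measurable_one.indicator measurableSet_Icc
  have m5 : Measurable fun x : ℝ => (Icc (0 : ℝ) 2).indicator (1 : ℝ → ENNReal) x :=
    measurable_one.indicator measurableSet_Icc
  have m6 : Measurable fun x => TT q (1 / 2) (x - 1) := (TT_meas q (1 / 2)).comp
    (measurable_sub_const 1)
  unfold Maj
  rw [lintegral_add_left (m1.const_mul _), lintegral_add_left (m4.const_mul _),
    lintegral_add_left (m2.const_mul _), lintegral_add_left (m3.const_mul _),
    lintegral_add_left (m5.const_mul _), lintegral_const_mul _ m1, lintegral_const_mul _ m4,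
    lintegral_const_mul _ m2, lintegral_const_mul _ m3, lintegral_const_mul _ m5,
    lintegral_const_mul _ m6, lintegral_add_right_eq_self (TT q 1) 1,
    lintegral_sub_right_eq_self (TT q δ) 1, lintegral_sub_right_eq_self (TT q (1 / 2)) 1,
    lintegral_sub_left_eq_self (TT q δ) 1, TT_int q 1 hq one_pos, TT_int q δ hq hδ,
    TT_int q (1 / 2) hq (by norm_num), lintegral_indicator_one measurableSet_Icc,
    lintegral_indicator_one measurableSet_Icc, Real.volume_Icc, Real.volume_Icc]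
  have hq0 : 0 < q := by linarith
  have p2 : (0 : ℝ) < 2 ^ q := by positivity
  have p4 : (0 : ℝ) < 4 ^ q := by positivity
  have pδ : (0 : ℝ) < δ ^ q := by positivity
  rw [← ENNReal.ofReal_mul (by positivity), ← ENNReal.ofReal_mul (by positivity),
    ← ENNReal.ofReal_mul (by positivity), ← ENNReal.ofReal_mul (by positivity),
    ← ENNReal.ofReal_mul (by positivity), ← ENNReal.ofReal_add (by positivity) (by positivity),
    ← ENNReal.ofReal_add (by positivity) (by positivity),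
    ← ENNReal.ofReal_add (by positivity) (by positivity),
    ← ENNReal.ofReal_add (by
      have : (0 : ℝ) ≤ 1 + δ - (1 - δ) := by linarith
      positivity) (by positivity),
    ← ENNReal.ofReal_add (by positivity) (by
      have : (0 : ℝ) ≤ 1 + δ - (1 - δ) := by linarith
      positivity)]
  refine ENNReal.ofReal_le_ofReal ?_
  have e1 : (2 : ℝ) ^ q * (1 ^ (-q) / q) ≤ 2 ^ q := by
    rw [Real.one_rpow]
    have : 1 / q ≤ 1 := by
      rw [div_le_one hq0]
      linarith
    nlinarith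
  have e2 : (4 : ℝ) ^ q / δ * (1 + δ - (1 - δ)) = 2 * 4 ^ q := by
    field_simp
    ring
  have e3 : (4 : ℝ) ^ q * δ ^ q * (δ ^ (-q) / q) ≤ 4 ^ q := by
    rw [Real.rpow_neg hδ.le]
    have h1 : (4 : ℝ) ^ q * δ ^ q * ((δ ^ q)⁻¹ / q) = 4 ^ q * (1 / q) := by
      field_simp
    rw [h1]
    have : 1 / q ≤ 1 := by
      rw [div_le_one hq0]
      linarith
    nlinarith
  have e4 : (2 : ℝ) ^ q * ((1 / 2) ^ (-q) / q) ≤ 4 ^ q := by
    have h1 : ((1 / 2 : ℝ)) ^ (-q) = 2 ^ q := by
      rw [one_div, Real.inv_rpow (by norm_num), Real.rpow_neg (by norm_num), inv_inv]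
    have h2 : (4 : ℝ) ^ q = 2 ^ q * 2 ^ q := by
      rw [← Real.mul_rpow (by norm_num) (by norm_num)]
      norm_num
    rw [h1, h2]
    have h3 : (2 : ℝ) ^ q / q ≤ 2 ^ q := div_le_self p2.le (by linarith)
    exact mul_le_mul_of_nonneg_left h3 p2.le
  have e5 : (4 : ℝ) ^ q * (2 - 0) = 2 * 4 ^ q := by ring
  rw [e2, e5]
  linarith

theorem le_Maj (q δ x t : ℝ) (hq : 2 ≤ q) (hδ : 0 < δ) (hδ1 : δ < 1) (hx : 0 < x) (ht0 : 0 ≤ t)
    (ht : t ≤ (x + 1) ^ (-(1 / q) - 1) + NN (1 / q) δ x) :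
    ENNReal.ofReal (t ^ q) ≤ Maj q δ x := by
  have hq0 : 0 < q := by linarith
  have hexp : (-(1 / q) - 1) * q = -1 - q := by
    field_simp
  have hpow : ∀ y : ℝ, 0 ≤ y → (y ^ (-(1 / q) - 1)) ^ q = y ^ (-1 - q) := by
    intro y hy
    rw [← Real.rpow_mul hy, hexp]
  have hN0 : 0 ≤ NN (1 / q) δ x := by
    unfold NN
    split_ifs <;> positivity
  have h1 : t ^ q ≤ 2 ^ q * ((x + 1) ^ (-1 - q) + NN (1 / q) δ x ^ q) := by
    rw [← hpow (x + 1) (by linarith)]
    refine (Real.rpow_le_rpow ht0 ht hq0.le).trans ?_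
    exact add_pow_le' _ _ q (by positivity) hN0 hq0.le
  have h24 : (2 : ℝ) ^ q * 2 ^ q = 4 ^ q := by
    rw [← Real.mul_rpow (by norm_num) (by norm_num)]
    norm_num
  refine (ENNReal.ofReal_le_ofReal h1).trans ?_
  rw [mul_add, ENNReal.ofReal_add (by positivity) (by positivity)]
  unfold Maj
  refine add_le_add ?_ ?_
  · rw [TT_eq q 1 (x + 1) (by linarith), ← ENNReal.ofReal_mul (by positivity)]
  · unfold NN
    split_ifs with c1 c2
    · have hmem : x ∈ Icc (1 - δ) (1 + δ) := by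
        rw [abs_le] at c1
        constructor <;> linarith
      refine le_trans ?_ le_self_add
      rw [indicator_of_mem hmem, Pi.one_apply, mul_one]
      refine ENNReal.ofReal_le_ofReal (le_of_eq ?_)
      rw [Real.mul_rpow (by norm_num) (by positivity), ← Real.rpow_mul hδ.le]
      have e1 : -(1 / q) * q = -1 := by field_simp
      rw [e1, Real.rpow_neg_one, ← h24]
      ring
    · push Not at c1
      have hb : 2 ^ q * (δ * |x - 1| ^ (-(1 / q) - 1) + 1) ^ q ≤
          4 ^ q * δ ^ q * |x - 1| ^ (-1 - q) + 4 ^ q := by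
        have e1 := add_pow_le' (δ * |x - 1| ^ (-(1 / q) - 1)) 1 q (by positivity) (by norm_num) hq0.le
        rw [Real.one_rpow, Real.mul_rpow hδ.le (by positivity), hpow _ (abs_nonneg _)] at e1
        have e2 := mul_le_mul_of_nonneg_left e1 (show (0 : ℝ) ≤ 2 ^ q by positivity)
        refine e2.trans (le_of_eq ?_)
        rw [← h24]
        ring
      refine (ENNReal.ofReal_le_ofReal hb).trans ?_
      rw [ENNReal.ofReal_add (by positivity) (by positivity)]
      have hmem : x ∈ Icc (0 : ℝ) 2 := by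
        rw [abs_lt] at c2
        constructor <;> linarith
      have hI : ENNReal.ofReal (4 ^ q) * (Icc (0 : ℝ) 2).indicator 1 x = ENNReal.ofReal (4 ^ q) := by
        rw [indicator_of_mem hmem, Pi.one_apply, mul_one]
      rw [hI]
      refine le_trans ?_ le_add_self
      rcases le_or_gt 0 (x - 1) with hs | hs
      · rw [abs_of_nonneg hs] at c1 ⊢
        rw [TT_eq q δ (x - 1) c1, ← ENNReal.ofReal_mul (by positivity)]
        refine add_le_add le_rfl ?_
        exact le_self_add.trans le_add_self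
      · rw [abs_of_neg hs] at c1 ⊢
        have e3 : -(x - 1) = 1 - x := by ring
        rw [e3] at c1 ⊢
        rw [TT_eq q δ (1 - x) c1, ← ENNReal.ofReal_mul (by positivity)]
        refine le_trans ?_ le_add_self
        exact add_le_add le_rfl le_self_add
    · push Not at c1 c2
      have hw : 1 ≤ x - 1 := by
        rcases le_or_gt 0 (x - 1) with hs | hs
        · rwa [abs_of_nonneg hs] at c2
        · rw [abs_of_neg hs] at c2
          linarith
      rw [abs_of_nonneg (by linarith : 0 ≤ x - 1), hpow _ (by linarith),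
        TT_eq q (1 / 2) (x - 1) (by linarith), ← ENNReal.ofReal_mul (by positivity)]
      refine le_trans ?_ le_add_self
      refine le_trans ?_ le_add_self
      refine le_trans ?_ le_add_self
      exact le_add_self

end Pool.Agent.NH67.RX.Test

namespace Pool.Agent.NH67.RX

open Test

/-- **RX-18.** -/
theorem t_TEST : S_TEST := by
  intro q θ hq
  have hq0 : 0 < q := by linarith
  have ha : 0 < 1 / q := by positivity
  refine ⟨(2 ^ q + 7 * 4 ^ q) ^ (1 / q), fun δ hδ hδ1 => ⟨hh (1 / q) θ δ, ?_, ?_, ?_⟩⟩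
  · rw [memLp_one_iff_integrable]
    exact (hh_int (1 / q) θ δ ha hδ).ofReal
  · have hm : AEStronglyMeasurable (fun t => (hh (1 / q) θ δ t : ℂ)) hl :=
      (hh_int (1 / q) θ δ ha hδ).ofReal.aestronglyMeasurable
    rw [memLp_two_iff_integrable_sq_norm hm]
    refine (hh_sq (1 / q) θ δ ha hδ hδ1).congr (Eventually.of_forall fun t => ?_)
    simp only [Complex.norm_real, Real.norm_eq_abs, sq_abs]
  · rw [eLpNorm_eq_lintegral_rpow_enorm_toReal (by
      rw [Ne, ENNReal.ofReal_eq_zero]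
      linarith) ENNReal.ofReal_ne_top, ENNReal.toReal_ofReal hq0.le,
      ← ENNReal.ofReal_rpow_of_nonneg (by positivity) (by positivity)]
    refine ENNReal.rpow_le_rpow ?_ (by positivity)
    refine le_trans ?_ (Maj_int q δ hq hδ hδ1)
    refine le_trans ?_ (setLIntegral_le_lintegral (Ioi (0 : ℝ)) _)
    refine lintegral_mono_ae ((ae_restrict_iff' measurableSet_Ioi).2
      (Eventually.of_forall fun x hx => ?_))
    rw [← ofReal_norm, ENNReal.ofReal_rpow_of_nonneg (norm_nonneg _) hq0.le]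
    refine le_Maj q δ x _ hq hδ hδ1 hx (norm_nonneg _) ?_
    rw [hh_tr (1 / q) θ δ x ha hδ]
    have h1 := bound q θ δ x hq hδ hδ1 hx
    exact_mod_cast h1

end Pool.Agent.NH67.RX
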