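import Pool.Agent.NH67.RX.Stm

set_option autoImplicit false

/-!
# RX-7: Cauchy's theorem for `f ^ 2`
-/

open MeasureTheory Set Filter Topology

namespace Pool.Agent.NH67.RX

lemma two_cont_at {f : ℂ → ℂ} (hf : Nice f) {z : ℂ} (hz : 0 ≤ z.im) : DifferentiableAt ℂ f z := by
  obtain ⟨ε, hε, hd⟩ := hf.diff
  have hopen : IsOpen {z : ℂ | -ε < z.im} := isOpen_lt continuous_const Complex.continuous_im
  exact (hd z (by show -ε < z.im; linarith)).differentiableAt
    (hopen.mem_nhds (by show -ε < z.im; linarith))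

/-- A line in the closed half-plane on which the square of `f` is integrable. -/
lemma two_int {f : ℂ → ℂ} (hf : Nice f) (L : ℝ → ℂ) (hL : Continuous L)
    (h0 : ∀ t, 0 ≤ t → 0 ≤ (L t).im) (hn : ∀ t, 0 ≤ t → ‖L t‖ = t) :
    IntegrableOn (fun t => f (L t) ^ 2) (Ioi 0) := by
  obtain ⟨C, hC⟩ := hf.dec
  have hCn : 0 ≤ C := by
    have h := (hC 0 (by simp)).1
    simp only [norm_zero, add_zero, div_one] at h
    exact (norm_nonneg _).trans h
  refine Integrable.mono' ((integrable_inv_one_add_sq.const_mul (C ^ 2)).integrableOn) ?_ ?_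
  · refine ContinuousOn.aestronglyMeasurable ?_ measurableSet_Ioi
    intro t ht
    have h1 : ContinuousAt (fun t => f (L t)) t :=
      ContinuousAt.comp (two_cont_at hf (h0 t (le_of_lt ht))).continuousAt hL.continuousAt
    exact (h1.pow 2).continuousWithinAt
  · refine (ae_restrict_mem measurableSet_Ioi).mono fun t ht => ?_
    have ht' : 0 < t := ht
    have h1 := (hC (L t) (h0 t ht'.le)).1
    rw [hn t ht'.le] at h1
    rw [norm_pow]
    calc ‖f (L t)‖ ^ 2 ≤ (C / (1 + t)) ^ 2 := pow_le_pow_left₀ (norm_nonneg _) h1 2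
      _ = C ^ 2 * ((1 + t) ^ 2)⁻¹ := by rw [div_pow, div_eq_mul_inv]
      _ ≤ C ^ 2 * (1 + t ^ 2)⁻¹ := by
        refine mul_le_mul_of_nonneg_left ?_ (sq_nonneg C)
        exact inv_anti₀ (by positivity) (by nlinarith)

lemma two_bound {f : ℂ → ℂ} {C : ℝ} (hC : ∀ z : ℂ, 0 ≤ z.im → ‖f z‖ ≤ C / (1 + ‖z‖))
    (n : ℝ) (hn : 0 ≤ n) (L : ℝ → ℂ) (h0 : ∀ t ∈ Icc 0 n, 0 ≤ (L t).im)
    (h1 : ∀ t ∈ Icc 0 n, n ≤ ‖L t‖) :
    ‖∫ t in (0:ℝ)..n, f (L t) ^ 2‖ ≤ C ^ 2 / (1 + n) := by
  have hCn : 0 ≤ C := by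
    have h := hC 0 (by simp)
    simp only [norm_zero, add_zero, div_one] at h
    exact (norm_nonneg _).trans h
  have h2 : ‖∫ t in (0:ℝ)..n, f (L t) ^ 2‖ ≤ (C / (1 + n)) ^ 2 * |n - 0| := by
    refine intervalIntegral.norm_integral_le_of_norm_le_const fun t ht => ?_
    rw [uIoc_of_le hn] at ht
    have ht' : t ∈ Icc 0 n := ⟨ht.1.le, ht.2⟩
    rw [norm_pow]
    refine pow_le_pow_left₀ (norm_nonneg _) ?_ 2
    refine (hC (L t) (h0 t ht')).trans ?_
    exact div_le_div_of_nonneg_left hCn (by linarith) (by linarith [h1 t ht'])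
  refine h2.trans ?_
  rw [sub_zero, abs_of_nonneg hn, div_pow, div_mul_eq_mul_div, div_le_div_iff₀ (by positivity)
    (by positivity)]
  have : C ^ 2 * n * (1 + n) ≤ C ^ 2 * (1 + n) ^ 2 := by
    have h3 : n * (1 + n) ≤ (1 + n) ^ 2 := by nlinarith
    calc C ^ 2 * n * (1 + n) = C ^ 2 * (n * (1 + n)) := by ring
      _ ≤ _ := mul_le_mul_of_nonneg_left h3 (sq_nonneg C)
  exact this

lemma two_key {f : ℂ → ℂ} (hf : Nice f) :
    ∫ x in Ioi (0:ℝ), f (x : ℂ) ^ 2 = Complex.I * ∫ y in Ioi (0:ℝ), f (y * Complex.I) ^ 2 := by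
  obtain ⟨C, hC⟩ := hf.dec
  have hi1 : IntegrableOn (fun x : ℝ => f (x : ℂ) ^ 2) (Ioi 0) :=
    two_int hf (fun t => (t : ℂ)) Complex.continuous_ofReal (fun t _ => by simp)
      (fun t ht => by simp [abs_of_nonneg ht])
  have hi2 : IntegrableOn (fun y : ℝ => f (y * Complex.I) ^ 2) (Ioi 0) :=
    two_int hf (fun t => (t : ℂ) * Complex.I) (by fun_prop) (fun t ht => by simpa using ht)
      (fun t ht => by simp [abs_of_nonneg ht])
  have ht1 := intervalIntegral_tendsto_integral_Ioi 0 hi1 tendsto_natCast_atTop_atTop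
  have ht2 := intervalIntegral_tendsto_integral_Ioi 0 hi2 tendsto_natCast_atTop_atTop
  have hlim : Tendsto (fun n : ℕ => C ^ 2 / (1 + (n : ℝ))) atTop (𝓝 0) := by
    have h1 : Tendsto (fun n : ℕ => 1 + (n : ℝ)) atTop atTop :=
      tendsto_atTop_add_const_left _ _ tendsto_natCast_atTop_atTop
    exact h1.const_div_atTop _
  have hz1 : Tendsto (fun n : ℕ => ∫ x in (0:ℝ)..n, f (x + (n : ℝ) * Complex.I) ^ 2) atTop (𝓝 0) := by
    refine squeeze_zero_norm (fun n => ?_) hlim
    refine two_bound (fun z hz => (hC z hz).1) n (Nat.cast_nonneg n)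
      (fun x => (x : ℂ) + (n : ℝ) * Complex.I) (fun t _ => by simp) (fun t _ => ?_)
    have h1 := Complex.abs_im_le_norm ((t : ℂ) + (n : ℝ) * Complex.I)
    simpa using h1
  have hz2 : Tendsto (fun n : ℕ => ∫ y in (0:ℝ)..n, f ((n : ℝ) + y * Complex.I) ^ 2) atTop (𝓝 0) := by
    refine squeeze_zero_norm (fun n => ?_) hlim
    refine two_bound (fun z hz => (hC z hz).1) n (Nat.cast_nonneg n)
      (fun y => ((n : ℝ) : ℂ) + y * Complex.I) (fun t ht => by simpa using ht.1) (fun t _ => ?_)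
    have h1 := Complex.abs_re_le_norm (((n : ℝ) : ℂ) + t * Complex.I)
    simpa using h1
  have heq : ∀ n : ℕ, (∫ x in (0:ℝ)..n, f (x : ℂ) ^ 2) -
      (∫ x in (0:ℝ)..n, f (x + (n : ℝ) * Complex.I) ^ 2) +
      Complex.I * (∫ y in (0:ℝ)..n, f ((n : ℝ) + y * Complex.I) ^ 2) -
      Complex.I * (∫ y in (0:ℝ)..n, f (y * Complex.I) ^ 2) = 0 := by
    intro n
    have h := Complex.integral_boundary_rect_eq_zero_of_differentiableOn (fun z => f z ^ 2) 0
      ((n : ℝ) + (n : ℝ) * Complex.I) ?_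
    · simpa using h
    · intro z hz
      have hz' : 0 ≤ z.im := by
        have h1 := hz.2
        simp only [Complex.zero_im, mem_preimage] at h1
        have h2 : ((((n : ℝ) : ℂ) + (n : ℝ) * Complex.I)).im = n := by simp
        rw [h2, uIcc_of_le (Nat.cast_nonneg n)] at h1
        exact h1.1
      exact ((two_cont_at hf hz').pow 2).differentiableWithinAt
  have hlim2 := ((ht1.sub hz1).add (hz2.const_mul Complex.I)).sub (ht2.const_mul Complex.I)
  have h0 := tendsto_nhds_unique (hlim2.congr heq) tendsto_const_nhds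
  simp only [sub_zero, mul_zero, add_zero] at h0
  exact sub_eq_zero.1 h0

theorem t_TWO : S_TWO := by
  intro f hf
  have hkey := two_key hf
  have hi1 : IntegrableOn (fun x : ℝ => f (x : ℂ) ^ 2) (Ioi 0) :=
    two_int hf (fun t => (t : ℂ)) Complex.continuous_ofReal (fun t _ => by simp)
      (fun t ht => by simp [abs_of_nonneg ht])
  -- the right side
  have hR : ∫ y in Ioi (0:ℝ), f (y * Complex.I) ^ 2 =
      ((∫ y in Ioi (0:ℝ), (f (y * Complex.I)).re ^ 2 : ℝ) : ℂ) := by
    rw [← integral_complex_ofReal]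
    refine setIntegral_congr_fun measurableSet_Ioi fun y hy => ?_
    have h1 := hf.real y (le_of_lt hy)
    have h2 : f (y * Complex.I) = ((f (y * Complex.I)).re : ℂ) :=
      Complex.ext (by simp) (by simp [h1])
    rw [h2]
    push_cast
    simp
  rw [hR] at hkey
  have hre : ∫ x in Ioi (0:ℝ), (f (x : ℂ) ^ 2).re = 0 := by
    have h1 := congrArg Complex.re hkey
    rw [← Complex.reCLM_apply, ← ContinuousLinearMap.integral_comp_comm _ hi1] at h1
    simpa using h1
  have him : ∫ x in Ioi (0:ℝ), (f (x : ℂ) ^ 2).im = ∫ y in Ioi (0:ℝ), (f (y * Complex.I)).re ^ 2 := by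
    have h1 := congrArg Complex.im hkey
    rw [← Complex.imCLM_apply, ← ContinuousLinearMap.integral_comp_comm _ hi1] at h1
    simpa using h1
  have hcf : ContinuousOn (fun x : ℝ => f (x : ℂ)) (Ioi 0) := by
    intro t _
    have h1 : ContinuousAt (fun x : ℝ => f (x : ℂ)) t :=
      ContinuousAt.comp (f := fun x : ℝ => (x : ℂ)) (g := f)
        (two_cont_at hf (by simp)).continuousAt Complex.continuous_ofReal.continuousAt
    exact h1.continuousWithinAt
  have hr2 : IntegrableOn (fun x : ℝ => (f (x : ℂ)).re ^ 2) (Ioi 0) := by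
    refine Integrable.mono' hi1.norm ?_ ?_
    · exact ((Complex.continuous_re.comp_continuousOn hcf).pow 2).aestronglyMeasurable
        measurableSet_Ioi
    · refine ae_of_all _ fun x => ?_
      rw [norm_pow, norm_pow, Real.norm_eq_abs]
      exact pow_le_pow_left₀ (abs_nonneg _) (Complex.abs_re_le_norm _) 2
  have hi2 : IntegrableOn (fun x : ℝ => (f (x : ℂ)).im ^ 2) (Ioi 0) := by
    refine Integrable.mono' hi1.norm ?_ ?_
    · exact ((Complex.continuous_im.comp_continuousOn hcf).pow 2).aestronglyMeasurable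
        measurableSet_Ioi
    · refine ae_of_all _ fun x => ?_
      rw [norm_pow, norm_pow, Real.norm_eq_abs]
      exact pow_le_pow_left₀ (abs_nonneg _) (Complex.abs_im_le_norm _) 2
  constructor
  · have h1 : (∫ x in Ioi (0:ℝ), ((f (x : ℂ)).re ^ 2 - (f (x : ℂ)).im ^ 2)) = 0 := by
      have h2 : (∫ x in Ioi (0:ℝ), ((f (x : ℂ)).re ^ 2 - (f (x : ℂ)).im ^ 2)) =
          ∫ x in Ioi (0:ℝ), (f (x : ℂ) ^ 2).re := by
        refine integral_congr_ae (ae_of_all _ fun x => ?_)
        simp only [pow_two, Complex.mul_re]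
      exact h2.trans hre
    rw [integral_sub hr2 hi2] at h1
    linarith
  · have h1 : ∫ x in Ioi (0:ℝ), (f (x : ℂ) ^ 2).im =
        2 * ∫ x in Ioi (0:ℝ), (f (x : ℂ)).re * (f (x : ℂ)).im := by
      rw [← integral_const_mul]
      refine integral_congr_ae (ae_of_all _ fun x => ?_)
      simp only [pow_two, Complex.mul_im]
      ring
    rw [h1] at him
    have h2 : 0 ≤ ∫ y in Ioi (0:ℝ), (f (y * Complex.I)).re ^ 2 :=
      integral_nonneg fun y => sq_nonneg _
    linarith

end Pool.Agent.NH67.RX
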