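import Pool.Agent.NH67.RX.Asm
import Pool.Agent.NH67.RX.BBf
import Pool.Agent.NH67.RX.Bddf
import Pool.Agent.NH67.RX.Cal
import Pool.Agent.NH67.RX.Conv
import Pool.Agent.NH67.RX.Core
import Pool.Agent.NH67.RX.Cx
import Pool.Agent.NH67.RX.Dual
import Pool.Agent.NH67.RX.Gen
import Pool.Agent.NH67.RX.Ker
import Pool.Agent.NH67.RX.L2
import Pool.Agent.NH67.RX.Low
import Pool.Agent.NH67.RX.Min
import Pool.Agent.NH67.RX.NiceF
import Pool.Agent.NH67.RX.Phi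
import Pool.Agent.NH67.RX.Plan
import Pool.Agent.NH67.RX.Sig
import Pool.Agent.NH67.RX.Sub
import Pool.Agent.NH67.RX.Test
import Pool.Agent.NH67.RX.Two

/-!
# The norm of `I - Π` on `L ^ p (0, ∞)`, `Π = F_s F_c` the re-expansion operator

For `1 < p < ∞` and `q = max p (p / (p - 1))`,
`‖I - Π‖_p ^ q = max_x (|cos x - sin x| ^ q + |cos y - sin y| ^ q) / (|cos x| ^ q + |cos y| ^ q)`,
`y = x + π / q`.

The definitions below are self-contained.
-/

set_option autoImplicit false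

open MeasureTheory Set Filter

namespace Pool.Agent.NH67.RX.Final

/-- Lebesgue measure on the half-line `(0, ∞)` -/
noncomputable def halfLine : Measure ℝ := volume.restrict (Ioi 0)

/-- the cosine transform of an integrable function on `(0, ∞)` -/
noncomputable def cosTransform (u : ℝ → ℂ) (x : ℝ) : ℂ :=
  (√(2 / Real.pi) : ℝ) * ∫ t in Ioi (0 : ℝ), (Real.cos (x * t) : ℂ) * u t

/-- the sine transform of an integrable function on `(0, ∞)` -/
noncomputable def sinTransform (u : ℝ → ℂ) (x : ℝ) : ℂ :=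
  (√(2 / Real.pi) : ℝ) * ∫ t in Ioi (0 : ℝ), (Real.sin (x * t) : ℂ) * u t

/-- `w = F_c u` in `L ^ 2 (0, ∞)`: the cosine transform is extended from `L ^ 1 ∩ L ^ 2` to `L ^ 2` by
`∫ (F_c u) φ = ∫ u (F_c φ)` for all `φ` in `L ^ 1 ∩ L ^ 2` -/
structure IsFc (u w : ℝ → ℂ) : Prop where
  left : MemLp u 2 halfLine
  right : MemLp w 2 halfLine
  eq : ∀ φ : ℝ → ℂ, MemLp φ 1 halfLine → MemLp φ 2 halfLine →
    ∫ x, w x * φ x ∂halfLine = ∫ x, u x * cosTransform φ x ∂halfLine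

/-- `w = F_s u` in `L ^ 2 (0, ∞)` -/
structure IsFs (u w : ℝ → ℂ) : Prop where
  left : MemLp u 2 halfLine
  right : MemLp w 2 halfLine
  eq : ∀ φ : ℝ → ℂ, MemLp φ 1 halfLine → MemLp φ 2 halfLine →
    ∫ x, w x * φ x ∂halfLine = ∫ x, u x * sinTransform φ x ∂halfLine

/-- `v = Π u`, `Π = F_s F_c` -/
def IsPi (u v : ℝ → ℂ) : Prop := ∃ w, IsFc u w ∧ IsFs w v

/-- the function `x ↦ (|cos x - sin x| ^ q + |cos y - sin y| ^ q) / (|cos x| ^ q + |cos y| ^ q)`,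
`y = x + π / q`, of a real variable -/
noncomputable def quot (q x : ℝ) : ℝ :=
  (|Real.cos x - Real.sin x| ^ q + |Real.cos (x + Real.pi / q) - Real.sin (x + Real.pi / q)| ^ q) /
    (|Real.cos x| ^ q + |Real.cos (x + Real.pi / q)| ^ q)

/-! ### Auxiliary facts -/

open Pool.Agent.NH67 in
lemma fc_iff (u w : ℝ → ℂ) : IsFc u w ↔ RX.IsCos u w :=
  ⟨fun h => ⟨h.left, h.right, h.eq⟩, fun h => ⟨h.left, h.right, h.eq⟩⟩

open Pool.Agent.NH67 in
lemma fs_iff (u w : ℝ → ℂ) : IsFs u w ↔ RX.IsSin u w :=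
  ⟨fun h => ⟨h.left, h.right, h.eq⟩, fun h => ⟨h.left, h.right, h.eq⟩⟩

open Pool.Agent.NH67 in
lemma pi_iff (u v : ℝ → ℂ) : IsPi u v ↔ RX.IsPi u v := by
  constructor
  · rintro ⟨w, h1, h2⟩
    exact ⟨w, (fc_iff _ _).mp h1, (fs_iff _ _).mp h2⟩
  · rintro ⟨w, h1, h2⟩
    exact ⟨w, (fc_iff _ _).mpr h1, (fs_iff _ _).mpr h2⟩

open Pool.Agent.NH67.RX in
lemma core : S_CORE := t_CORE t_BB (t_MIN (t_SIG t_BB t_PHI) t_PHI) (t_SUB t_CAL) t_TWO

open Pool.Agent.NH67.RX in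
lemma l2 : L2P := t_L2 t_PLAN

open Pool.Agent.NH67.RX in
lemma final : S_FINAL :=
  t_ASM t_BB l2
    (fun p hp => t_CX l2 p hp (t_BB.pos p hp)
      (t_GEN l2 p hp (t_BDD t_BB core t_NICE t_KER l2 t_CONV p hp)))
    t_DUAL (t_LOW l2 t_BB t_TEST)

/-! ### The result -/

/-- The norm of `I - Π` on `L ^ p (0, ∞)`, `1 < p < ∞`. The first three parts say that `IsFc`, `IsFs`,
`IsPi` are the graphs of the isometries `F_c`, `F_s`, `Π = F_s F_c` of `L ^ 2 (0, ∞)`. The last part: the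
best constant `C` in `‖u - Π u‖_p ≤ C ‖u‖_p`, `u ∈ L ^ 2 ∩ L ^ p`, is `B ^ (1 / q)`, where
`q = max p (p / (p - 1))` and `B` is the maximum of `quot q` over the real line. -/
theorem final_result :
    (∀ u : ℝ → ℂ, MemLp u 1 halfLine → MemLp u 2 halfLine →
      IsFc u (cosTransform u) ∧ IsFs u (sinTransform u)) ∧
    (∀ u w : ℝ → ℂ, IsFc u w ∨ IsFs u w → eLpNorm w 2 halfLine = eLpNorm u 2 halfLine) ∧
    (∀ u : ℝ → ℂ, MemLp u 2 halfLine → ∃ v, ∀ v', IsPi u v' ↔ v' =ᵐ[halfLine] v) ∧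
    ∀ p : ℝ, 1 < p → ∃ B : ℝ, IsGreatest (range (quot (max p (p / (p - 1))))) B ∧
      IsLeast {C : ℝ | 0 ≤ C ∧ ∀ u v : ℝ → ℂ, IsPi u v → MemLp u (ENNReal.ofReal p) halfLine →
        eLpNorm (u - v) (ENNReal.ofReal p) halfLine ≤
          ENNReal.ofReal C * eLpNorm u (ENNReal.ofReal p) halfLine}
        (B ^ (1 / max p (p / (p - 1)))) := by
  refine ⟨fun u h1 h2 => ⟨(fc_iff _ _).mpr (l2.cos_self u h1 h2),
    (fs_iff _ _).mpr (l2.sin_self u h1 h2)⟩, ?_, fun u hu => ?_, fun p hp => ?_⟩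
  · rintro u w (h | h)
    · exact l2.cos_norm u w ((fc_iff _ _).mp h)
    · exact l2.sin_norm u w ((fs_iff _ _).mp h)
  · obtain ⟨v, hv, huni⟩ := final.1 u hu
    refine ⟨v, fun v' => ⟨fun h => huni v' ((pi_iff _ _).mp h), fun h => ?_⟩⟩
    obtain ⟨w, h1, h2⟩ := hv
    refine (pi_iff _ _).mpr ⟨w, h1, l2.sin_ae w v w v' h2 (EventuallyEq.refl _ _) ?_⟩
    exact EventuallyEq.symm h
  · have hq : 2 ≤ max p (p / (p - 1)) := by
      rcases le_or_gt 2 p with h | h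
      · exact le_max_of_le_left h
      · apply le_max_of_le_right
        rw [le_div_iff₀ (by linarith)]
        linarith
    refine ⟨Pool.Agent.NH67.RX.BB (max p (p / (p - 1))), ⟨?_, ?_⟩, ?_⟩
    · obtain ⟨x, hx⟩ := Pool.Agent.NH67.RX.t_BB.attained _ hq
      exact ⟨x, hx⟩
    · rintro _ ⟨x, rfl⟩
      exact Pool.Agent.NH67.RX.t_BB.le _ x hq
    · have h := final.2 p hp
      refine ⟨⟨h.1.1, fun u v huv hu => h.1.2 u v ((pi_iff _ _).mp huv) hu⟩, ?_⟩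
      rintro C ⟨hC0, hC⟩
      exact h.2 ⟨hC0, fun u v huv hu => hC u v ((pi_iff _ _).mpr huv) hu⟩

end Pool.Agent.NH67.RX.Final
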