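import Pool.Agent.NH67.RX.Sub1

/-!
# RX-4, part 1: periodic extension of functions with compact support
-/

set_option autoImplicit false

open MeasureTheory Set Filter Topology

namespace Pool.Agent.NH67.RX

/-- the representative in `[0, π)` -/
noncomputable def tm (θ : ℝ) : ℝ := toIcoMod Real.pi_pos 0 θ

lemma tm_mem (θ : ℝ) : 0 ≤ tm θ ∧ tm θ < Real.pi := by
  have := toIcoMod_mem_Ico Real.pi_pos (0 : ℝ) θ
  rw [zero_add] at this
  exact this

lemma tm_eq {θ c : ℝ} (k : ℤ) (h1 : 0 ≤ c) (h2 : c < Real.pi) (h : θ = c + k • Real.pi) :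
    tm θ = c := by
  rw [tm, toIcoMod_eq_iff]
  exact ⟨⟨h1, by rwa [zero_add]⟩, k, h⟩

lemma tm_ex (θ : ℝ) : ∃ k : ℤ, θ = tm θ + k • Real.pi :=
  ⟨_, (toIcoMod_add_toIcoDiv_zsmul Real.pi_pos 0 θ).symm⟩

lemma tm_self {θ : ℝ} (h1 : 0 ≤ θ) (h2 : θ < Real.pi) : tm θ = θ :=
  tm_eq 0 h1 h2 (by simp)

lemma tm_add (θ : ℝ) : tm (θ + Real.pi) = tm θ := by
  rw [tm, tm, toIcoMod_add_right]

lemma tm_near {θ : ℝ} (hm : 0 < tm θ) : ∃ k : ℤ, θ = tm θ + k • Real.pi ∧
    ∀ᶠ t in 𝓝 θ, tm t = t - k • Real.pi := by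
  obtain ⟨k, hk⟩ := tm_ex θ
  refine ⟨k, hk, ?_⟩
  have h1 : tm θ < Real.pi := (tm_mem θ).2
  have h2 : 0 < θ - k • Real.pi := by linarith
  have h3 : θ - k • Real.pi < Real.pi := by linarith
  have h4 : ∀ᶠ t in 𝓝 θ, 0 < t - k • Real.pi :=
    (continuous_id.sub continuous_const).continuousAt.eventually (lt_mem_nhds h2)
  have h5 : ∀ᶠ t in 𝓝 θ, t - k • Real.pi < Real.pi :=
    (continuous_id.sub continuous_const).continuousAt.eventually (gt_mem_nhds h3)
  filter_upwards [h4, h5] with t h6 h7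
  exact tm_eq k h6.le h7 (by ring)

section per

variable {x0 x1 : ℝ} (h0 : 0 < x0) (h1 : x1 < Real.pi)

include h0 h1

lemma tm_near0 {θ : ℝ} (hm : tm θ = 0) : ∀ᶠ t in 𝓝 θ, tm t < x0 ∨ x1 < tm t := by
  obtain ⟨k, hk⟩ := tm_ex θ
  rw [hm, zero_add] at hk
  have hπ := Real.pi_pos
  have h4 : ∀ᶠ t in 𝓝 θ, |t - θ| < min (min x0 (Real.pi - x1)) Real.pi := by
    have : ContinuousAt (fun t => |t - θ|) θ := (continuous_abs.comp
      (continuous_id.sub continuous_const)).continuousAt
    apply this.eventually (gt_mem_nhds _)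
    simp only [sub_self, abs_zero]
    exact lt_min (lt_min h0 (by linarith)) hπ
  filter_upwards [h4] with t ht
  obtain ⟨ht1, ht2⟩ := lt_min_iff.mp ht
  obtain ⟨ht3, ht4⟩ := lt_min_iff.mp ht1
  rcases le_or_gt θ t with h | h
  · left
    rw [abs_of_nonneg (by linarith)] at ht2 ht3
    rw [tm_eq (c := t - θ) k (by linarith) ht2 (by rw [← hk]; ring)]
    exact ht3
  · right
    rw [abs_of_neg (by linarith)] at ht2 ht4
    have e : t = (t - θ + Real.pi) + (k - 1) • Real.pi := by
      rw [sub_smul, ← hk, one_smul]; ring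
    rw [tm_eq (c := t - θ + Real.pi) (k - 1) (by linarith) (by linarith) e]
    linarith

/-- outside `[x0, x1]` the representative stays outside -/
lemma tm_out {θ : ℝ} (hm : tm θ < x0 ∨ x1 < tm θ) : ∀ᶠ t in 𝓝 θ, tm t < x0 ∨ x1 < tm t := by
  rcases (tm_mem θ).1.eq_or_lt with h | h
  · exact tm_near0 h0 h1 h.symm
  · obtain ⟨k, hk, he⟩ := tm_near h
    have hc : ContinuousAt (fun t : ℝ => t - k • Real.pi) θ :=
      (continuous_id.sub continuous_const).continuousAt
    have e : θ - k • Real.pi = tm θ := by linarith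
    rcases hm with hm | hm
    · have h2 : ∀ᶠ t in 𝓝 θ, t - k • Real.pi < x0 :=
        hc.eventually (gt_mem_nhds (by
          show θ - k • Real.pi < x0
          rw [e]; exact hm))
      filter_upwards [he, h2] with t h3 h4
      left; rw [h3]; exact h4
    · have h2 : ∀ᶠ t in 𝓝 θ, x1 < t - k • Real.pi :=
        hc.eventually (lt_mem_nhds (by
          show x1 < θ - k • Real.pi
          rw [e]; exact hm))
      filter_upwards [he, h2] with t h3 h4
      right; rw [h3]; exact h4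

lemma per_deriv {b b1 : ℝ → ℝ} (hb : ∀ x, HasDerivAt b (b1 x) x)
    (hz : ∀ x, (x < x0 ∨ x1 < x) → b x = 0) (hz1 : ∀ x, (x < x0 ∨ x1 < x) → b1 x = 0) (θ : ℝ) :
    HasDerivAt (fun t => b (tm t)) (b1 (tm θ)) θ := by
  rcases (tm_mem θ).1.eq_or_lt with h | h
  · rw [hz1 _ (Or.inl (by rw [← h]; exact h0))]
    have : (fun t => b (tm t)) =ᶠ[𝓝 θ] fun _ => 0 := by
      filter_upwards [tm_near0 h0 h1 h.symm] with t ht
      exact hz _ ht
    exact (hasDerivAt_const θ (0 : ℝ)).congr_of_eventuallyEq this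
  · obtain ⟨k, hk, he⟩ := tm_near h
    have h2 : HasDerivAt (fun t => b (t - k • Real.pi)) (b1 (tm θ)) θ := by
      have e : θ - k • Real.pi = tm θ := by linarith
      have := (hb (θ - k • Real.pi)).comp_sub_const θ (k • Real.pi)
      rwa [e] at this
    refine h2.congr_of_eventuallyEq ?_
    filter_upwards [he] with t ht
    rw [ht]

lemma per_cont {b : ℝ → ℝ} (hb : Continuous b) (hz : ∀ x, (x < x0 ∨ x1 < x) → b x = 0) :
    Continuous fun t => b (tm t) := by
  rw [continuous_iff_continuousAt]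
  intro θ
  rcases (tm_mem θ).1.eq_or_lt with h | h
  · have : (fun t => b (tm t)) =ᶠ[𝓝 θ] fun _ => 0 := by
      filter_upwards [tm_near0 h0 h1 h.symm] with t ht
      exact hz _ ht
    exact continuousAt_const.congr this.symm
  · obtain ⟨k, hk, he⟩ := tm_near h
    have h2 : ContinuousAt (fun t => b (t - k • Real.pi)) θ :=
      (hb.comp (continuous_id.sub continuous_const)).continuousAt
    refine h2.congr ?_
    filter_upwards [he] with t ht
    rw [ht]

end per

/-- the restriction to `[x0, x1]`, continued by `0` -/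
noncomputable def cut (x0 x1 : ℝ) (d : ℝ → ℝ) (x : ℝ) : ℝ := if x0 ≤ x ∧ x ≤ x1 then d x else 0

section cut

variable {x0 x1 : ℝ}

lemma cut_out (d : ℝ → ℝ) {x : ℝ} (h : x < x0 ∨ x1 < x) : cut x0 x1 d x = 0 := by
  rw [cut, if_neg]
  rintro ⟨h1, h2⟩
  rcases h with h | h <;> linarith

lemma cut_in (d : ℝ → ℝ) {x : ℝ} (h : x0 ≤ x) (h' : x ≤ x1) : cut x0 x1 d x = d x := by
  rw [cut, if_pos ⟨h, h'⟩]

lemma cut_cont (h01 : x0 < x1) {d : ℝ → ℝ} (hd : Continuous d) (e0 : d x0 = 0) (e1 : d x1 = 0) :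
    Continuous (cut x0 x1 d) := by
  have : cut x0 x1 d = fun x => d (max x0 (min x x1)) := by
    funext x
    rcases lt_or_ge x x0 with h | h
    · rw [cut_out d (Or.inl h), max_eq_left ((min_le_left _ _).trans h.le), e0]
    · rcases le_or_gt x x1 with h' | h'
      · rw [cut_in d h h', min_eq_left h', max_eq_right h]
      · rw [cut_out d (Or.inr h'), min_eq_right h'.le, max_eq_right h01.le, e1]
  rw [this]
  exact hd.comp (by fun_prop)

lemma cut_deriv (h01 : x0 < x1) {d d' : ℝ → ℝ} (hd : ∀ x, HasDerivAt d (d' x) x) (e0 : d x0 = 0)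
    (e1 : d x1 = 0) (f0 : d' x0 = 0) (f1 : d' x1 = 0) (x : ℝ) :
    HasDerivAt (cut x0 x1 d) (cut x0 x1 d' x) x := by
  rcases lt_trichotomy x x0 with h | h | h
  · rw [cut_out d' (Or.inl h)]
    have : cut x0 x1 d =ᶠ[𝓝 x] fun _ => 0 := by
      filter_upwards [gt_mem_nhds h] with t ht
      exact cut_out d (Or.inl ht)
    exact (hasDerivAt_const x (0 : ℝ)).congr_of_eventuallyEq this
  · subst h
    rw [cut_in d' le_rfl h01.le, f0]
    have h1 : HasDerivWithinAt (cut x x1 d) 0 (Iic x) x := by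
      refine (hasDerivWithinAt_const x (Iic x) (0 : ℝ)).congr (fun y hy => ?_) ?_
      · rcases (mem_Iic.mp hy).eq_or_lt with h | h
        · rw [h, cut_in d le_rfl h01.le, e0]
        · exact cut_out d (Or.inl h)
      · rw [cut_in d le_rfl h01.le, e0]
    have h2 : HasDerivWithinAt (cut x x1 d) 0 (Ici x) x := by
      have h3 := (hd x).hasDerivWithinAt (s := Ici x)
      rw [f0] at h3
      refine h3.congr_of_eventuallyEq ?_ (cut_in d le_rfl h01.le)
      filter_upwards [self_mem_nhdsWithin, mem_nhdsWithin_of_mem_nhds (gt_mem_nhds h01)] with t h4 h5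
      exact cut_in d h4 h5.le
    have h3 := h1.union h2
    rw [Iic_union_Ici, hasDerivWithinAt_univ] at h3
    exact h3
  · rcases lt_trichotomy x x1 with h' | h' | h'
    · rw [cut_in d' h.le h'.le]
      refine (hd x).congr_of_eventuallyEq ?_
      filter_upwards [lt_mem_nhds h, gt_mem_nhds h'] with t h4 h5
      exact cut_in d h4.le h5.le
    · subst h'
      rw [cut_in d' h01.le le_rfl, f1]
      have h1 : HasDerivWithinAt (cut x0 x d) 0 (Ici x) x := by
        refine (hasDerivWithinAt_const x (Ici x) (0 : ℝ)).congr (fun y hy => ?_) ?_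
        · rcases (mem_Ici.mp hy).eq_or_lt with h | h
          · rw [← h, cut_in d h01.le le_rfl, e1]
          · exact cut_out d (Or.inr h)
        · rw [cut_in d h01.le le_rfl, e1]
      have h2 : HasDerivWithinAt (cut x0 x d) 0 (Iic x) x := by
        have h3 := (hd x).hasDerivWithinAt (s := Iic x)
        rw [f1] at h3
        refine h3.congr_of_eventuallyEq ?_ (cut_in d h01.le le_rfl)
        filter_upwards [self_mem_nhdsWithin, mem_nhdsWithin_of_mem_nhds (lt_mem_nhds h01)] with t h4 h5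
        exact cut_in d h5.le h4
      have h3 := h2.union h1
      rw [Iic_union_Ici, hasDerivWithinAt_univ] at h3
      exact h3
    · rw [cut_out d' (Or.inr h')]
      have : cut x0 x1 d =ᶠ[𝓝 x] fun _ => 0 := by
        filter_upwards [lt_mem_nhds h'] with t ht
        exact cut_out d (Or.inr ht)
      exact (hasDerivAt_const x (0 : ℝ)).congr_of_eventuallyEq this

end cut

end Pool.Agent.NH67.RX
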