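import Mathlib
import Pool.Agent.NH67.RX.Stm

/-! RX-2: the derivatives of `phi`. -/

set_option autoImplicit false

namespace Pool.Agent.NH67.RX.PhiD

open Filter Topology

theorem abs_rpow_split {p : ℝ} (hp : 2 < p) (x : ℝ) : |x| ^ p = |x| ^ (p - 2) * x ^ 2 := by
  by_cases hx : x = 0
  · subst hx
    rw [abs_zero, Real.zero_rpow (by linarith)]
    ring
  · have h : 0 < |x| := abs_pos.2 hx
    have h1 : |x| ^ p = |x| ^ (p - 2) * |x| ^ (2 : ℝ) := by
      rw [← Real.rpow_add h]; congr 1; ring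
    rw [h1, Real.rpow_two, sq_abs]

/-- the derivative of `|x| ^ (p - 2) * x` -/
theorem hasDerivAt_signed {p : ℝ} (hp : 2 < p) (x : ℝ) :
    HasDerivAt (fun y : ℝ => |y| ^ (p - 2) * y) ((p - 1) * |x| ^ (p - 2)) x := by
  rcases lt_trichotomy x 0 with h | h | h
  · have h1 : HasDerivAt (fun y : ℝ => (-y) ^ (p - 1)) ((-1) * (p - 1) * (-x) ^ (p - 1 - 1)) x :=
      (hasDerivAt_neg x).rpow_const (Or.inl (by linarith))
    have h2 : HasDerivAt (fun y : ℝ => -(-y) ^ (p - 1)) (-((-1) * (p - 1) * (-x) ^ (p - 1 - 1))) x :=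
      h1.neg
    have h3 : (fun y : ℝ => |y| ^ (p - 2) * y) =ᶠ[𝓝 x] fun y : ℝ => -(-y) ^ (p - 1) := by
      filter_upwards [Iio_mem_nhds h] with y hy
      have hy' : y < 0 := hy
      rw [abs_of_neg hy']
      have h4 : (-y) ^ (p - 1) = (-y) ^ (p - 2) * (-y) := by
        have h5 : (-y) ^ (p - 1) = (-y) ^ (p - 2 + 1) := by congr 1; ring
        rw [h5, Real.rpow_add_one (by linarith)]
      rw [h4]
      ring
    refine (h2.congr_of_eventuallyEq h3).congr_deriv ?_
    rw [abs_of_neg h]
    have h5 : p - 1 - 1 = p - 2 := by ring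
    rw [h5]
    ring
  · subst h
    rw [hasDerivAt_iff_tendsto_slope]
    have hg : Continuous (fun y : ℝ => |y| ^ (p - 2)) :=
      continuous_abs.rpow_const (fun _ => Or.inr (by linarith))
    have h1 : Tendsto (fun y : ℝ => |y| ^ (p - 2)) (𝓝[≠] 0) (𝓝 ((p - 1) * |(0 : ℝ)| ^ (p - 2))) := by
      have h2 := hg.tendsto 0
      have h3 : (p - 1) * |(0 : ℝ)| ^ (p - 2) = |(0 : ℝ)| ^ (p - 2) := by
        rw [abs_zero, Real.zero_rpow (by linarith), mul_zero]
      rw [h3]
      exact h2.mono_left nhdsWithin_le_nhds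
    refine h1.congr' ?_
    filter_upwards [self_mem_nhdsWithin] with y hy
    have hy' : y ≠ 0 := hy
    rw [slope_def_field]
    field_simp
    ring
  · have h1 : HasDerivAt (fun y : ℝ => y ^ (p - 1)) (1 * (p - 1) * x ^ (p - 1 - 1)) x :=
      (hasDerivAt_id x).rpow_const (Or.inl (by simpa using h.ne'))
    have h3 : (fun y : ℝ => |y| ^ (p - 2) * y) =ᶠ[𝓝 x] fun y : ℝ => y ^ (p - 1) := by
      filter_upwards [Ioi_mem_nhds h] with y hy
      have hy' : 0 < y := hy
      rw [abs_of_pos hy']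
      have h5 : y ^ (p - 1) = y ^ (p - 2 + 1) := by congr 1; ring
      rw [h5, Real.rpow_add_one (by linarith)]
    refine (h1.congr_of_eventuallyEq h3).congr_deriv ?_
    rw [abs_of_pos h]
    have h5 : p - 1 - 1 = p - 2 := by ring
    rw [h5]
    ring

end Pool.Agent.NH67.RX.PhiD

namespace Pool.Agent.NH67.RX

open PhiD

theorem t_PHI : S_PHI := by
  intro p hp
  have hcs : ∀ θ : ℝ, HasDerivAt (fun t => Real.cos t - Real.sin t)
      (-Real.sin θ - Real.cos θ) θ := fun θ =>
    (Real.hasDerivAt_cos θ).sub (Real.hasDerivAt_sin θ)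
  refine ⟨?_, ?_, ?_⟩
  · intro θ
    have h1 : HasDerivAt (fun t => |Real.cos t| ^ p)
        (p * |Real.cos θ| ^ (p - 2) * Real.cos θ * (-Real.sin θ)) θ :=
      (hasDerivAt_abs_rpow (Real.cos θ) (by linarith : 1 < p)).comp θ (Real.hasDerivAt_cos θ)
    have h2 : HasDerivAt (fun t => |Real.cos t - Real.sin t| ^ p)
        (p * |Real.cos θ - Real.sin θ| ^ (p - 2) * (Real.cos θ - Real.sin θ) *
          (-Real.sin θ - Real.cos θ)) θ :=
      HasDerivAt.comp (h := fun t => Real.cos t - Real.sin t) θ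
        (hasDerivAt_abs_rpow (Real.cos θ - Real.sin θ) (by linarith : 1 < p)) (hcs θ)
    have h3 := (h1.const_mul (BB p)).sub h2
    refine HasDerivAt.congr_deriv h3 ?_
    unfold phi1
    ring
  · intro θ
    have h1 : HasDerivAt (fun t => |Real.cos t| ^ (p - 2) * Real.cos t)
        ((p - 1) * |Real.cos θ| ^ (p - 2) * (-Real.sin θ)) θ :=
      (hasDerivAt_signed hp (Real.cos θ)).comp θ (Real.hasDerivAt_cos θ)
    have h2 : HasDerivAt (fun t => |Real.cos t - Real.sin t| ^ (p - 2) *
          (Real.cos t - Real.sin t))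
        ((p - 1) * |Real.cos θ - Real.sin θ| ^ (p - 2) * (-Real.sin θ - Real.cos θ)) θ :=
      HasDerivAt.comp (h := fun t => Real.cos t - Real.sin t) θ
        (hasDerivAt_signed hp (Real.cos θ - Real.sin θ)) (hcs θ)
    have h3 : HasDerivAt (fun t => Real.cos t + Real.sin t) (-Real.sin θ + Real.cos θ) θ :=
      (Real.hasDerivAt_cos θ).add (Real.hasDerivAt_sin θ)
    have h4 := ((h2.mul h3).const_mul p).sub
      ((h1.mul (Real.hasDerivAt_sin θ)).const_mul (p * BB p))
    have h5 : phi1 p = fun t => p * (|Real.cos t - Real.sin t| ^ (p - 2) *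
          (Real.cos t - Real.sin t) * (Real.cos t + Real.sin t)) -
          p * BB p * (|Real.cos t| ^ (p - 2) * Real.cos t * Real.sin t) := by
      funext t
      unfold phi1
      ring
    rw [h5]
    refine HasDerivAt.congr_deriv h4 ?_
    unfold kap phi
    rw [abs_rpow_split hp (Real.cos θ), abs_rpow_split hp (Real.cos θ - Real.sin θ)]
    have hsc := Real.sin_sq_add_cos_sq θ
    generalize |Real.cos θ - Real.sin θ| ^ (p - 2) = A
    generalize |Real.cos θ| ^ (p - 2) = C
    generalize BB p = B at *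
    have hs : Real.sin θ ^ 2 = 1 - Real.cos θ ^ 2 := by linarith
    linear_combination ((p * (p - 1)) * B * C - 2 * p * (p - 1) * A) * hsc
  · unfold kap
    have h1 : Continuous (fun t => |Real.cos t| ^ (p - 2)) :=
      (continuous_abs.comp Real.continuous_cos).rpow_const (fun _ => Or.inr (by linarith))
    have h2 : Continuous (fun t => |Real.cos t - Real.sin t| ^ (p - 2)) :=
      (continuous_abs.comp (Real.continuous_cos.sub Real.continuous_sin)).rpow_const
        (fun _ => Or.inr (by linarith))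
    exact continuous_const.mul ((continuous_const.mul h1).sub (continuous_const.mul h2))

end Pool.Agent.NH67.RX
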