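import Pool.Agent.NH67.RX.Stm

/-!
# RX-6, part 1: continuity of `VV` and `DD`, zeros
-/

set_option autoImplicit false

open MeasureTheory Set Filter Topology

namespace Pool.Agent.NH67.RX

lemma arg_neg_per (g : ℝ → ℝ) (hper : ∀ θ, g (θ + Real.pi) = g θ) {w : ℂ} (hw : w ≠ 0) :
    g (Complex.arg (-w)) = g (Complex.arg w) := by
  have h0 : g Real.pi = g 0 := by rw [← hper 0, zero_add]
  rcases lt_trichotomy w.im 0 with h | h | h
  · rw [Complex.arg_neg_eq_arg_add_pi_of_im_neg h, hper]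
  · rcases lt_or_gt_of_ne (fun hre : w.re = 0 => hw (Complex.ext hre h)) with h1 | h1
    · have e1 : Complex.arg w = Real.pi := Complex.arg_eq_pi_iff.mpr ⟨h1, h⟩
      have e2 : Complex.arg (-w) = 0 := by
        rw [Complex.arg_eq_zero_iff]
        simp [h, h1.le]
      rw [e1, e2, h0]
    · have e1 : Complex.arg w = 0 := by
        rw [Complex.arg_eq_zero_iff]
        exact ⟨h1.le, h⟩
      have e2 : Complex.arg (-w) = Real.pi := by
        rw [Complex.arg_eq_pi_iff]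
        simp [h, h1]
      rw [e1, e2, h0]
  · rw [Complex.arg_neg_eq_arg_sub_pi_of_im_pos h, ← hper (_ - _), sub_add_cancel]

lemma per_arg_cont (g : ℝ → ℝ) (hg : Continuous g) (hper : ∀ θ, g (θ + Real.pi) = g θ) {w : ℂ}
    (hw : w ≠ 0) : ContinuousAt (fun z => g (Complex.arg z)) w := by
  by_cases h : w ∈ Complex.slitPlane
  · exact hg.continuousAt.comp (Complex.continuousAt_arg h)
  · have h' : -w ∈ Complex.slitPlane := by
      rw [Complex.mem_slitPlane_iff] at h ⊢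
      push Not at h
      left
      have hre : w.re ≠ 0 := fun h1 => hw (Complex.ext h1 h.2)
      have := lt_of_le_of_ne h.1 hre
      simpa using this
    have h1 : ContinuousAt (fun z => g (Complex.arg (-z))) w := by
      have h2 : ContinuousAt (fun z : ℂ => Complex.arg (-z)) w :=
        ContinuousAt.comp (f := fun z : ℂ => -z) (g := Complex.arg)
          (Complex.continuousAt_arg h') continuous_neg.continuousAt
      exact hg.continuousAt.comp h2
    refine h1.congr ?_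
    filter_upwards [isOpen_ne.mem_nhds hw] with z hz
    exact arg_neg_per g hper hz

lemma per_bdd (g : ℝ → ℝ) (hg : Continuous g) (hper : ∀ θ, g (θ + Real.pi) = g θ) :
    ∃ K, 0 ≤ K ∧ ∀ θ, |g θ| ≤ K := by
  obtain ⟨K, hK⟩ := isCompact_Icc.exists_bound_of_continuousOn (f := g)
    (s := Icc 0 Real.pi) hg.continuousOn
  refine ⟨K, (norm_nonneg _).trans (hK 0 ⟨le_rfl, Real.pi_pos.le⟩), fun θ => ?_⟩
  have hp : Function.Periodic g Real.pi := hper
  obtain ⟨y, hy, e⟩ := hp.exists_mem_Ico₀ Real.pi_pos θ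
  rw [e]
  exact hK y ⟨hy.1, hy.2.le⟩

section trig

variable {p : ℝ} {ψ ψ1 ψ2 : ℝ → ℝ} (T : Trig p ψ ψ1 ψ2)

include T

lemma Trig.c0 : Continuous ψ := continuous_iff_continuousAt.mpr fun θ => (T.d1 θ).continuousAt

lemma Trig.c1 : Continuous ψ1 := continuous_iff_continuousAt.mpr fun θ => (T.d2 θ).continuousAt

lemma Trig.per1 (θ : ℝ) : ψ1 (θ + Real.pi) = ψ1 θ := by
  have h1 : HasDerivAt (fun x => ψ (x + Real.pi)) (ψ1 (θ + Real.pi)) θ := by
    simpa using (T.d1 (θ + Real.pi)).comp_add_const θ Real.pi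
  have h2 : (fun x => ψ (x + Real.pi)) = ψ := funext T.per
  rw [h2] at h1
  exact h1.unique (T.d1 θ)

lemma Trig.per2 (θ : ℝ) : ψ2 (θ + Real.pi) = ψ2 θ := by
  have h1 : HasDerivAt (fun x => ψ1 (x + Real.pi)) (ψ2 (θ + Real.pi)) θ := by
    simpa using (T.d2 (θ + Real.pi)).comp_add_const θ Real.pi
  have h2 : (fun x => ψ1 (x + Real.pi)) = ψ1 := funext T.per1
  rw [h2] at h1
  exact h1.unique (T.d2 θ)

lemma Trig.VV_bd : ∃ K, 0 ≤ K ∧ ∀ (f : ℂ → ℂ) (z : ℂ), |VV p ψ f z| ≤ K * ‖f z‖ ^ p := by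
  obtain ⟨K, hK0, hK⟩ := per_bdd ψ T.c0 T.per
  refine ⟨K, hK0, fun f z => ?_⟩
  rw [VV, abs_mul, abs_of_nonneg (by positivity), mul_comm]
  exact mul_le_mul_of_nonneg_right (hK _) (by positivity)

lemma Trig.DD_bd (hp : 0 < p) : ∃ K, 0 ≤ K ∧ ∀ (f : ℂ → ℂ) (z : ℂ),
    ‖DD p ψ ψ1 f z‖ ≤ K * (‖f z‖ ^ (p - 1) * ‖deriv f z‖) := by
  obtain ⟨K, hK0, hK⟩ := per_bdd ψ T.c0 T.per
  obtain ⟨K1, hK10, hK1⟩ := per_bdd ψ1 T.c1 T.per1
  refine ⟨p * K + K1, by positivity, fun f z => ?_⟩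
  by_cases hz : f z = 0
  · rw [DD, hz]
    simp only [norm_zero, div_zero, mul_zero, zero_mul]
    positivity
  have hn : 0 < ‖f z‖ := norm_pos_iff.mpr hz
  rw [DD, norm_mul, norm_mul, norm_div, Complex.norm_real, Real.norm_of_nonneg (by positivity)]
  have h1 : ‖((p * ψ (Complex.arg (f z)) : ℝ) : ℂ) - Complex.I * (ψ1 (Complex.arg (f z)) : ℝ)‖ ≤
      p * K + K1 := by
    refine (norm_sub_le _ _).trans ?_
    rw [norm_mul, Complex.norm_I, one_mul, Complex.norm_real, Complex.norm_real, norm_mul,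
      Real.norm_of_nonneg hp.le]
    exact add_le_add (mul_le_mul_of_nonneg_left (hK _) hp.le) (hK1 _)
  have h2 : ‖f z‖ ^ p * (‖deriv f z‖ / ‖f z‖) = ‖f z‖ ^ (p - 1) * ‖deriv f z‖ := by
    rw [Real.rpow_sub_one hn.ne']
    field_simp
  rw [h2, mul_comm]
  exact mul_le_mul_of_nonneg_right h1 (by positivity)

end trig

/-- the open half-plane -/
def UU (ε : ℝ) : Set ℂ := {z | -ε < z.im}

lemma UU_open (ε : ℝ) : IsOpen (UU ε) := isOpen_lt continuous_const Complex.continuous_im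

lemma UU_preconn (ε : ℝ) : IsPreconnected (UU ε) := by
  apply Convex.isPreconnected
  exact convex_halfSpace_im_gt (-ε)

lemma zeros_countable (f : ℂ → ℂ) (ε : ℝ) (hf : DifferentiableOn ℂ f (UU ε))
    (hne : ∃ z ∈ UU ε, f z ≠ 0) : {z | z ∈ UU ε ∧ f z = 0}.Countable := by
  have han : AnalyticOnNhd ℂ f (UU ε) := hf.analyticOnNhd (UU_open ε)
  have hiso : ∀ x ∈ {z | z ∈ UU ε ∧ f z = 0}, ∀ᶠ z in 𝓝[≠] x, f z ≠ 0 := by
    rintro x ⟨hx, hx0⟩
    rcases (han x hx).eventually_eq_zero_or_eventually_ne_zero with h | h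
    · exfalso
      obtain ⟨z, hz, hz0⟩ := hne
      exact hz0 (han.eqOn_zero_of_preconnected_of_eventuallyEq_zero (UU_preconn ε) hx h hz)
    · exact h
  have hd : DiscreteTopology {z | z ∈ UU ε ∧ f z = 0} := by
    rw [discreteTopology_subtype_iff]
    intro x hx
    rw [← Filter.empty_mem_iff_bot]
    have h1 := hiso x hx
    rw [Filter.mem_inf_iff]
    refine ⟨_, h1, _, Filter.mem_principal_self _, ?_⟩
    ext z
    simp only [mem_empty_iff_false, mem_inter_iff, mem_setOf_eq, false_iff, not_and]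
    intro h2 h3
    exact fun h4 => h2 h4
  exact Set.countable_coe_iff.mp (countable_of_Lindelof_of_discrete)

end Pool.Agent.NH67.RX
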