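import Pool.Agent.NH67.RX.Sub1

/-!
# RX-6, part 2: continuity and the differential identity
-/

set_option autoImplicit false

open MeasureTheory Set Filter Topology

namespace Pool.Agent.NH67.RX

/-- the density -/
noncomputable def GG (p : ℝ) (ψ ψ2 : ℝ → ℝ) (f : ℂ → ℂ) (z : ℂ) : ℝ :=
  ‖f z‖ ^ p * ‖deriv f z / f z‖ ^ 2 *
    (ψ2 (Complex.arg (f z)) + p ^ 2 * ψ (Complex.arg (f z)))

section

variable {p : ℝ} {ψ ψ1 ψ2 : ℝ → ℝ} (T : Trig p ψ ψ1 ψ2) {f : ℂ → ℂ} {ε : ℝ}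
  (hf : DifferentiableOn ℂ f (UU ε))

include hf in
lemma f_cont {z : ℂ} (hz : z ∈ UU ε) : ContinuousAt f z :=
  (hf.differentiableAt ((UU_open ε).mem_nhds hz)).continuousAt

include hf in
lemma df_cont {z : ℂ} (hz : z ∈ UU ε) : ContinuousAt (deriv f) z :=
  ((hf.analyticOnNhd (UU_open ε)) z hz).deriv.continuousAt

include T hf

lemma VV_cont (hp : 0 < p) {z : ℂ} (hz : z ∈ UU ε) : ContinuousAt (VV p ψ f) z := by
  have hc := f_cont hf hz
  by_cases h0 : f z = 0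
  · obtain ⟨K, hK0, hK⟩ := T.VV_bd
    have hv : VV p ψ f z = 0 := by rw [VV, h0, norm_zero, Real.zero_rpow hp.ne', zero_mul]
    rw [ContinuousAt, hv]
    have h1 : Tendsto (fun w => K * ‖f w‖ ^ p) (𝓝 z) (𝓝 0) := by
      have h2 : ContinuousAt (fun w => K * ‖f w‖ ^ p) z :=
        (hc.norm.rpow_const (Or.inr hp.le)).const_mul K
      have h3 := h2.tendsto
      rwa [h0, norm_zero, Real.zero_rpow hp.ne', mul_zero] at h3
    exact squeeze_zero_norm (fun w => hK f w) h1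
  · exact (hc.norm.rpow_const (Or.inr hp.le)).mul
      (ContinuousAt.comp (f := f) (g := fun w => ψ (Complex.arg w))
        (per_arg_cont ψ T.c0 T.per h0) hc)

lemma DD_cont (hp : 1 < p) {z : ℂ} (hz : z ∈ UU ε) : ContinuousAt (DD p ψ ψ1 f) z := by
  have hc := f_cont hf hz
  have hdc := df_cont hf hz
  by_cases h0 : f z = 0
  · obtain ⟨K, hK0, hK⟩ := T.DD_bd (by linarith)
    have hv : DD p ψ ψ1 f z = 0 := by rw [DD, h0, div_zero, mul_zero, zero_mul]
    rw [ContinuousAt, hv]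
    have h1 : Tendsto (fun w => K * (‖f w‖ ^ (p - 1) * ‖deriv f w‖)) (𝓝 z) (𝓝 0) := by
      have h2 : ContinuousAt (fun w => K * (‖f w‖ ^ (p - 1) * ‖deriv f w‖)) z :=
        ((hc.norm.rpow_const (Or.inr (by linarith))).mul hdc.norm).const_mul K
      have h3 := h2.tendsto
      rwa [h0, norm_zero, Real.zero_rpow (by linarith), zero_mul, mul_zero] at h3
    exact squeeze_zero_norm (fun w => hK f w) h1
  · have e0 : ContinuousAt (fun w => ψ (Complex.arg (f w))) z :=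
      ContinuousAt.comp (f := f) (g := fun w => ψ (Complex.arg w))
        (per_arg_cont ψ T.c0 T.per h0) hc
    have e1 : ContinuousAt (fun w => ψ1 (Complex.arg (f w))) z :=
      ContinuousAt.comp (f := f) (g := fun w => ψ1 (Complex.arg w))
        (per_arg_cont ψ1 T.c1 T.per1 h0) hc
    unfold DD
    refine ContinuousAt.mul (ContinuousAt.mul ?_ (hdc.div hc h0)) (ContinuousAt.sub ?_
      (ContinuousAt.mul continuousAt_const ?_))
    · exact Complex.continuous_ofReal.continuousAt.comp (hc.norm.rpow_const (Or.inr (by linarith)))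
    · exact Complex.continuous_ofReal.continuousAt.comp (e0.const_mul p)
    · exact Complex.continuous_ofReal.continuousAt.comp e1

lemma GG_bd (hp : 0 < p) : ∃ K, 0 ≤ K ∧ ∀ z : ℂ,
    |GG p ψ ψ2 f z| ≤ K * (‖f z‖ ^ (p - 2) * ‖deriv f z‖ ^ 2) := by
  obtain ⟨K, hK0, hK⟩ := per_bdd (fun θ => ψ2 θ + p ^ 2 * ψ θ) (T.cont.add (T.c0.const_mul _))
    (fun θ => by rw [T.per2, T.per])
  refine ⟨K, hK0, fun z => ?_⟩
  by_cases hz : f z = 0
  · rw [GG, hz, div_zero, norm_zero]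
    simp only [ne_eq, OfNat.ofNat_ne_zero, not_false_eq_true, zero_pow, mul_zero, zero_mul, abs_zero]
    positivity
  have hn : 0 < ‖f z‖ := norm_pos_iff.mpr hz
  have h2 : ‖f z‖ ^ p * ‖deriv f z / f z‖ ^ 2 = ‖f z‖ ^ (p - 2) * ‖deriv f z‖ ^ 2 := by
    rw [norm_div, div_pow, Real.rpow_sub hn, Real.rpow_two]
    field_simp
  rw [GG, h2, abs_mul, abs_of_nonneg (by positivity : 0 ≤ ‖f z‖ ^ (p - 2) * ‖deriv f z‖ ^ 2),
    mul_comm]
  exact mul_le_mul_of_nonneg_right (hK _) (by positivity)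

lemma GG_cont (hp : 2 < p) {z : ℂ} (hz : z ∈ UU ε) : ContinuousAt (GG p ψ ψ2 f) z := by
  have hc := f_cont hf hz
  have hdc := df_cont hf hz
  by_cases h0 : f z = 0
  · obtain ⟨K, hK0, hK⟩ := GG_bd T hf (f := f) (by linarith)
    have hv : GG p ψ ψ2 f z = 0 := by
      rw [GG, h0, div_zero, norm_zero]; simp
    rw [ContinuousAt, hv]
    have h1 : Tendsto (fun w => K * (‖f w‖ ^ (p - 2) * ‖deriv f w‖ ^ 2)) (𝓝 z) (𝓝 0) := by
      have h2 : ContinuousAt (fun w => K * (‖f w‖ ^ (p - 2) * ‖deriv f w‖ ^ 2)) z :=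
        ((hc.norm.rpow_const (Or.inr (by linarith))).mul (hdc.norm.pow 2)).const_mul K
      have h3 := h2.tendsto
      rwa [h0, norm_zero, Real.zero_rpow (by linarith), zero_mul, mul_zero] at h3
    exact squeeze_zero_norm (fun w => hK w) h1
  · have e0 : ContinuousAt (fun w => ψ (Complex.arg (f w))) z :=
      ContinuousAt.comp (f := f) (g := fun w => ψ (Complex.arg w))
        (per_arg_cont ψ T.c0 T.per h0) hc
    have e1 : ContinuousAt (fun w => ψ2 (Complex.arg (f w))) z :=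
      ContinuousAt.comp (f := f) (g := fun w => ψ2 (Complex.arg w))
        (per_arg_cont ψ2 T.cont T.per2 h0) hc
    unfold GG
    exact ((hc.norm.rpow_const (Or.inr (by linarith))).mul ((hdc.div hc h0).norm.pow 2)).mul
      (e1.add (e0.const_mul _))

lemma GG_nonneg (z : ℂ) : 0 ≤ GG p ψ ψ2 f z := mul_nonneg (by positivity) (T.convex _)

end

/-- the function to be integrated along the boundary -/
noncomputable def FF (p : ℝ) (ψ ψ1 : ℝ → ℝ) (f : ℂ → ℂ) (z : ℂ) : ℂ :=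
  (z.im : ℂ) * DD p ψ ψ1 f z + Complex.I * (VV p ψ f z : ℂ)

lemma FF_deriv (hcal : S_CAL) {p : ℝ} {ψ ψ1 ψ2 : ℝ → ℝ} (T : Trig p ψ ψ1 ψ2) {f : ℂ → ℂ} {z : ℂ}
    (hf : AnalyticAt ℂ f z) (h0 : f z ≠ 0) : ∃ L : ℂ →L[ℝ] ℂ,
    HasFDerivAt (FF p ψ ψ1 f) L z ∧ Complex.I • L 1 - L Complex.I =
      Complex.I * ((z.im * GG p ψ ψ2 f z : ℝ) : ℂ) - ((2 * (DD p ψ ψ1 f z).re : ℝ) : ℂ) := by
  obtain ⟨h1, L, h2, h3⟩ := hcal p ψ ψ1 ψ2 f z T.d1 T.d2 T.per hf h0
  have hi : HasFDerivAt (fun w : ℂ => (w.im : ℂ)) (Complex.ofRealCLM ∘L Complex.imCLM) z :=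
    (Complex.ofRealCLM ∘L Complex.imCLM).hasFDerivAt
  have hV : HasFDerivAt (fun w : ℂ => (VV p ψ f w : ℂ))
      (Complex.ofRealCLM ∘L (Complex.reCLM ∘L (ContinuousLinearMap.mul ℝ ℂ (DD p ψ ψ1 f z)))) z :=
    Complex.ofRealCLM.hasFDerivAt.comp z h1
  have hF := (hi.mul h2).add (hV.const_mul Complex.I)
  refine ⟨_, hF, ?_⟩
  have h3' : L Complex.I = Complex.I * L 1 - Complex.I * ((GG p ψ ψ2 f z : ℝ) : ℂ) := by
    rw [GG, ← h3]; ring
  simp only [ContinuousLinearMap.add_apply, ContinuousLinearMap.smul_apply,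
    ContinuousLinearMap.comp_apply, Complex.ofRealCLM_apply, Complex.imCLM_apply,
    Complex.reCLM_apply, ContinuousLinearMap.mul_apply', smul_eq_mul, h3', Complex.one_im,
    Complex.I_im, mul_one]
  apply Complex.ext
  · simp
    ring
  · simp
    ring

end Pool.Agent.NH67.RX
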