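import Pool.Agent.NH67.RX.Sub2

/-!
# RX-6, part 3: the rectangle
-/

set_option autoImplicit false

open MeasureTheory Set Filter Topology
open scoped Interval

namespace Pool.Agent.NH67.RX

lemma mem_UU {ε : ℝ} (hε : 0 < ε) {z : ℂ} (hz : 0 ≤ z.im) : z ∈ UU ε := by
  simp only [UU, mem_setOf_eq]
  linarith

/-- continuity along horizontal and vertical lines -/
lemma line_h {E : Type} [TopologicalSpace E] {g : ℂ → E} {ε : ℝ} (hε : 0 < ε)
    (hg : ∀ z ∈ UU ε, ContinuousAt g z) (y : ℝ) (hy : 0 ≤ y) :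
    Continuous fun x : ℝ => g (x + y * Complex.I) := by
  rw [continuous_iff_continuousAt]
  intro x
  refine ContinuousAt.comp (f := fun x : ℝ => (x : ℂ) + y * Complex.I) (g := g)
    (hg _ (mem_UU hε (by simpa using hy))) ?_
  fun_prop

lemma line_v {E : Type} [TopologicalSpace E] {g : ℂ → E} {ε : ℝ} (hε : 0 < ε)
    (hg : ∀ z ∈ UU ε, ContinuousAt g z) (x : ℝ) :
    ContinuousOn (fun y : ℝ => g (x + y * Complex.I)) (Ici 0) := by
  intro y hy
  apply ContinuousAt.continuousWithinAt
  refine ContinuousAt.comp (f := fun y : ℝ => (x : ℂ) + y * Complex.I) (g := g)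
    (hg _ (mem_UU hε (by simpa using hy))) ?_
  fun_prop

lemma rect (hcal : S_CAL) {p : ℝ} {ψ ψ1 ψ2 : ℝ → ℝ} (hp : 2 < p) (T : Trig p ψ ψ1 ψ2) {f : ℂ → ℂ}
    {ε : ℝ} (hε : 0 < ε) (hf : DifferentiableOn ℂ f (UU ε)) (hne : ∃ z ∈ UU ε, f z ≠ 0)
    (X Y : ℝ) (hX : 0 ≤ X) (hY : 0 ≤ Y) :
    0 ≤ (∫ x in (0 : ℝ)..X, VV p ψ f (x : ℂ)) -
      (∫ x in (0 : ℝ)..X, (Y * (DD p ψ ψ1 f (x + Y * Complex.I)).im +
        VV p ψ f (x + Y * Complex.I))) +
      (∫ y in (0 : ℝ)..Y, y * (DD p ψ ψ1 f (X + y * Complex.I)).re) -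
      ∫ y in (0 : ℝ)..Y, y * (DD p ψ ψ1 f ((0 : ℝ) + y * Complex.I)).re := by
  have hVc : ∀ z ∈ UU ε, ContinuousAt (VV p ψ f) z := fun z hz => VV_cont T hf (by linarith) hz
  have hDc : ∀ z ∈ UU ε, ContinuousAt (DD p ψ ψ1 f) z := fun z hz => DD_cont T hf (by linarith) hz
  have hGc : ∀ z ∈ UU ε, ContinuousAt (GG p ψ ψ2 f) z := fun z hz => GG_cont T hf hp hz
  have hFc : ∀ z ∈ UU ε, ContinuousAt (FF p ψ ψ1 f) z := by
    intro z hz
    unfold FF
    refine ContinuousAt.add (ContinuousAt.mul ?_ (hDc z hz)) (ContinuousAt.mul continuousAt_const ?_)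
    · exact (Complex.continuous_ofReal.comp Complex.continuous_im).continuousAt
    · exact Complex.continuous_ofReal.continuousAt.comp (hVc z hz)
  -- the continuous version of the integrand
  let g0 : ℂ → ℂ := fun z => Complex.I * ((z.im * GG p ψ ψ2 f z : ℝ) : ℂ) -
    ((2 * (DD p ψ ψ1 f z).re : ℝ) : ℂ)
  have hg0c : ∀ z ∈ UU ε, ContinuousAt g0 z := by
    intro z hz
    refine ContinuousAt.sub (ContinuousAt.mul continuousAt_const ?_) ?_
    · exact Complex.continuous_ofReal.continuousAt.comp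
        (Complex.continuous_im.continuousAt.mul (hGc z hz))
    · exact Complex.continuous_ofReal.continuousAt.comp
        ((Complex.continuous_re.continuousAt.comp (hDc z hz)).const_mul 2)
  set s : Set ℂ := {z | z ∈ UU ε ∧ f z = 0} with hs
  have hsc : s.Countable := zeros_countable f ε hf hne
  have hder : ∀ z ∈ UU ε, z ∉ s → HasFDerivAt (FF p ψ ψ1 f) (fderiv ℝ (FF p ψ ψ1 f) z) z ∧
      Complex.I • (fderiv ℝ (FF p ψ ψ1 f) z) 1 - (fderiv ℝ (FF p ψ ψ1 f) z) Complex.I = g0 z := by
    intro z hz hzs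
    have h0 : f z ≠ 0 := fun h => hzs ⟨hz, h⟩
    obtain ⟨L, hL, e⟩ := FF_deriv hcal T ((hf.analyticOnNhd (UU_open ε)) z hz) h0
    rw [hL.fderiv]
    exact ⟨hL, e⟩
  have hrect : ∀ z ∈ ([[(0 : ℂ).re, (X + Y * Complex.I : ℂ).re]] ×ℂ
      [[(0 : ℂ).im, (X + Y * Complex.I : ℂ).im]]), z ∈ UU ε := by
    intro z hz
    rw [Complex.mem_reProdIm] at hz
    simp only [Complex.zero_im, Complex.add_im, Complex.ofReal_im, Complex.mul_im, Complex.I_im,
      Complex.ofReal_re, mul_one, Complex.I_re, mul_zero, add_zero, zero_add, uIcc_of_le hY] at hz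
    exact mem_UU hε hz.2.1
  have key := Complex.integral_boundary_rect_of_hasFDerivAt_real_off_countable (FF p ψ ψ1 f)
    (fderiv ℝ (FF p ψ ψ1 f)) 0 (X + Y * Complex.I) s hsc
    (fun z hz => (hFc z (hrect z hz)).continuousWithinAt) ?_ ?_
  · have e1 : ∫ x in (0 : ℝ)..X, ∫ y in (0 : ℝ)..Y,
        (Complex.I • (fderiv ℝ (FF p ψ ψ1 f) (x + y * Complex.I)) 1 -
          (fderiv ℝ (FF p ψ ψ1 f) (x + y * Complex.I)) Complex.I) =
        ∫ x in (0 : ℝ)..X, ∫ y in (0 : ℝ)..Y, g0 (x + |y| * Complex.I) := by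
      congr 1
      ext x
      apply intervalIntegral.integral_congr_ae
      have hcount : {y : ℝ | (x + y * Complex.I : ℂ) ∈ s}.Countable := by
        apply hsc.preimage_of_injOn
        intro a _ b _ hab
        have := congrArg Complex.im hab
        simpa using this
      filter_upwards [hcount.ae_notMem volume] with y hy hy2
      rw [uIoc_of_le hY] at hy2
      rw [abs_of_pos hy2.1]
      exact (hder _ (mem_UU hε (by simpa using hy2.1.le)) hy).2
    have hcont : Continuous (Function.uncurry fun x y : ℝ => g0 (x + |y| * Complex.I)) := by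
      rw [continuous_iff_continuousAt]
      rintro ⟨x, y⟩
      refine ContinuousAt.comp (f := fun q : ℝ × ℝ => (q.1 : ℂ) + (|q.2| : ℝ) * Complex.I) (g := g0)
        (hg0c _ (mem_UU hε (by simp))) ?_
      fun_prop
    have e2 : (∫ x in (0 : ℝ)..X, ∫ y in (0 : ℝ)..Y, g0 (x + |y| * Complex.I)).im =
        ∫ x in (0 : ℝ)..X, ∫ y in (0 : ℝ)..Y, (g0 (x + |y| * Complex.I)).im := by
      have h1 := Complex.imCLM.intervalIntegral_comp_comm (μ := volume) (a := 0) (b := X)
        (f := fun x : ℝ => ∫ y in (0 : ℝ)..Y, g0 (x + |y| * Complex.I))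
        ((intervalIntegral.continuous_parametric_intervalIntegral_of_continuous' hcont 0
          Y).intervalIntegrable _ _)
      simp only [Complex.imCLM_apply] at h1
      rw [← h1]
      congr 1
      ext x
      have h2 := Complex.imCLM.intervalIntegral_comp_comm (μ := volume) (a := 0) (b := Y)
        (f := fun y : ℝ => g0 (x + |y| * Complex.I))
        ((hcont.comp (Continuous.prodMk_right x)).intervalIntegrable _ _)
      simp only [Complex.imCLM_apply] at h2
      rw [h2]
    have e3 : 0 ≤ ∫ x in (0 : ℝ)..X, ∫ y in (0 : ℝ)..Y, (g0 (x + |y| * Complex.I)).im := by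
      apply intervalIntegral.integral_nonneg hX
      intro x _
      apply intervalIntegral.integral_nonneg hY
      intro y hy
      have : (g0 (x + |y| * Complex.I)).im = |y| * GG p ψ ψ2 f (x + |y| * Complex.I) := by
        simp only [g0, Complex.sub_im, Complex.mul_im, Complex.I_re, Complex.I_im,
          Complex.ofReal_re, Complex.ofReal_im]
        simp
      rw [this]
      exact mul_nonneg (abs_nonneg _) (GG_nonneg T hf _)
    simp only [Complex.zero_re, Complex.zero_im, Complex.add_re, Complex.ofReal_re, Complex.mul_re,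
      Complex.I_re, mul_zero, Complex.ofReal_im, Complex.I_im, mul_one, sub_self, add_zero,
      Complex.add_im, Complex.mul_im, zero_add, Complex.ofReal_zero, zero_mul] at key
    rw [e1] at key
    have h3 := congrArg Complex.im key
    rw [e2] at h3
    rw [← h3] at e3
    have imint : ∀ (φ : ℝ → ℂ) (b : ℝ), IntervalIntegrable φ volume 0 b →
        (∫ x in (0 : ℝ)..b, φ x).im = ∫ x in (0 : ℝ)..b, (φ x).im := by
      intro φ b hφ
      have h1 := Complex.imCLM.intervalIntegral_comp_comm (μ := volume) (a := 0) (b := b) hφ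
      simpa only [Complex.imCLM_apply] using h1.symm
    have reint : ∀ (φ : ℝ → ℂ) (b : ℝ), IntervalIntegrable φ volume 0 b →
        (∫ x in (0 : ℝ)..b, φ x).re = ∫ x in (0 : ℝ)..b, (φ x).re := by
      intro φ b hφ
      have h1 := Complex.reCLM.intervalIntegral_comp_comm (μ := volume) (a := 0) (b := b) hφ
      simpa only [Complex.reCLM_apply] using h1.symm
    have i1 : IntervalIntegrable (fun x : ℝ => FF p ψ ψ1 f x) volume 0 X := by
      have := line_h hε hFc 0 le_rfl
      simp only [Complex.ofReal_zero, zero_mul, add_zero] at this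
      exact this.intervalIntegrable _ _
    have i2 : IntervalIntegrable (fun x : ℝ => FF p ψ ψ1 f (x + Y * Complex.I)) volume 0 X :=
      (line_h hε hFc Y hY).intervalIntegrable _ _
    have i3 : ∀ a : ℝ, IntervalIntegrable (fun y : ℝ => FF p ψ ψ1 f (a + y * Complex.I)) volume 0 Y :=
      fun a => ((line_v hε hFc a).mono (by
        rw [uIcc_of_le hY]; exact fun y hy => hy.1)).intervalIntegrable
    have i4 : IntervalIntegrable (fun y : ℝ => FF p ψ ψ1 f (y * Complex.I)) volume 0 Y := by
      have := i3 0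
      simpa only [Complex.ofReal_zero, zero_add] using this
    simp only [smul_eq_mul, Complex.sub_im, Complex.add_im, Complex.mul_im, Complex.I_re,
      Complex.I_im, zero_mul, one_mul, zero_add] at e3
    rw [imint _ _ i1, imint _ _ i2, reint _ _ (i3 X), reint _ _ i4] at e3
    have f1 : ∀ x : ℝ, (FF p ψ ψ1 f x).im = VV p ψ f x := by
      intro x
      simp [FF]
    have f2 : ∀ x : ℝ, (FF p ψ ψ1 f (x + Y * Complex.I)).im =
        Y * (DD p ψ ψ1 f (x + Y * Complex.I)).im + VV p ψ f (x + Y * Complex.I) := by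
      intro x
      simp [FF]
    have f3 : ∀ a y : ℝ, (FF p ψ ψ1 f (a + y * Complex.I)).re =
        y * (DD p ψ ψ1 f (a + y * Complex.I)).re := by
      intro a y
      simp [FF]
    have f4 : ∀ y : ℝ, (FF p ψ ψ1 f (y * Complex.I)).re =
        y * (DD p ψ ψ1 f ((0 : ℝ) + y * Complex.I)).re := by
      intro y
      have := f3 0 y
      rw [Complex.ofReal_zero, zero_add] at this ⊢
      exact this
    simp only [f1, f2, f3, f4] at e3
    exact e3
  · rintro z ⟨hz, hzs⟩
    have hzU : z ∈ UU ε := by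
      rw [Complex.mem_reProdIm] at hz
      simp only [Complex.zero_im, Complex.add_im, Complex.ofReal_im, Complex.mul_im, Complex.I_im,
        Complex.ofReal_re, mul_one, Complex.I_re, mul_zero, add_zero, zero_add,
        min_eq_left hY] at hz
      exact mem_UU hε hz.2.1.le
    exact (hder z hzU hzs).1
  · have hcomp : IsCompact ([[(0 : ℂ).re, (X + Y * Complex.I : ℂ).re]] ×ℂ
      [[(0 : ℂ).im, (X + Y * Complex.I : ℂ).im]]) := isCompact_uIcc.reProdIm isCompact_uIcc
    have h1 : IntegrableOn g0 ([[(0 : ℂ).re, (X + Y * Complex.I : ℂ).re]] ×ℂ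
      [[(0 : ℂ).im, (X + Y * Complex.I : ℂ).im]]) :=
      ContinuousOn.integrableOn_compact hcomp fun z hz => (hg0c z (hrect z hz)).continuousWithinAt
    refine h1.congr_fun_ae ?_
    rw [EventuallyEq, ae_restrict_iff' hcomp.measurableSet]
    filter_upwards [hsc.ae_notMem volume] with z hz hz2
    exact (hder z (hrect z hz2) hz).2.symm

end Pool.Agent.NH67.RX
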